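import Mathlib
import Pool.Agent.Lib.MP_1dbab3_gt.LS.Cel100A1
import Pool.Agent.Lib.MP_1dbab3_gt.LS.Cel100A2
import Pool.Agent.Lib.MP_1dbab3_gt.LS.Cel100A3
import Pool.Agent.Lib.MP_1dbab3_gt.LS.Cel100A4
import Pool.Agent.Lib.MP_1dbab3_gt.LS.Cel100A5

/-!
# LS: certificates of the cells `[i/100, (i+1)/100]`, `0 ≤ i < 22`
-/

namespace LpSec.LS

def cel100A : List Cel := cel100A1 ++ (cel100A2 ++ (cel100A3 ++ (cel100A4 ++ cel100A5)))

theorem cel100A_ok : blkOk W.tab100A W.aux100 14 0 cel100A = true :=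
  (blkOk_append cel100A1_ok cel100A1_length rfl
    (blkOk_append cel100A2_ok cel100A2_length rfl
    (blkOk_append cel100A3_ok cel100A3_length rfl
    (blkOk_append cel100A4_ok cel100A4_length rfl
    cel100A5_ok))))

theorem cel100A_length : cel100A.length = 22 := by
  unfold cel100A
  simp only [List.length_append, cel100A1_length, cel100A2_length,
    cel100A3_length, cel100A4_length, cel100A5_length]

end LpSec.LS
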