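import Mathlib
import Pool.Agent.Lib.MP_1dbab3_gt.LS.Cel100B1
import Pool.Agent.Lib.MP_1dbab3_gt.LS.Cel100B2
import Pool.Agent.Lib.MP_1dbab3_gt.LS.Cel100B3
import Pool.Agent.Lib.MP_1dbab3_gt.LS.Cel100B4
import Pool.Agent.Lib.MP_1dbab3_gt.LS.Cel100B5

/-!
# LS: certificates of the cells `[i/100, (i+1)/100]`, `22 ≤ i < 44`
-/

namespace LpSec.LS

def cel100B : List Cel := cel100B1 ++ (cel100B2 ++ (cel100B3 ++ (cel100B4 ++ cel100B5)))

theorem cel100B_ok : blkOk W.tab100B W.aux100 14 22 cel100B = true :=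
  (blkOk_append cel100B1_ok cel100B1_length rfl
    (blkOk_append cel100B2_ok cel100B2_length rfl
    (blkOk_append cel100B3_ok cel100B3_length rfl
    (blkOk_append cel100B4_ok cel100B4_length rfl
    cel100B5_ok))))

theorem cel100B_length : cel100B.length = 22 := by
  unfold cel100B
  simp only [List.length_append, cel100B1_length, cel100B2_length,
    cel100B3_length, cel100B4_length, cel100B5_length]

end LpSec.LS
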