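import Mathlib
import Pool.Agent.Lib.MP_1dbab3_gt.LS.Cel100C1
import Pool.Agent.Lib.MP_1dbab3_gt.LS.Cel100C2
import Pool.Agent.Lib.MP_1dbab3_gt.LS.Cel100C3
import Pool.Agent.Lib.MP_1dbab3_gt.LS.Cel100C4
import Pool.Agent.Lib.MP_1dbab3_gt.LS.Cel100C5

/-!
# LS: certificates of the cells `[i/100, (i+1)/100]`, `44 ≤ i < 65`
-/

namespace LpSec.LS

def cel100C : List Cel := cel100C1 ++ (cel100C2 ++ (cel100C3 ++ (cel100C4 ++ cel100C5)))

theorem cel100C_ok : blkOk W.tab100C W.aux100 14 44 cel100C = true :=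
  (blkOk_append cel100C1_ok cel100C1_length rfl
    (blkOk_append cel100C2_ok cel100C2_length rfl
    (blkOk_append cel100C3_ok cel100C3_length rfl
    (blkOk_append cel100C4_ok cel100C4_length rfl
    cel100C5_ok))))

theorem cel100C_length : cel100C.length = 21 := by
  unfold cel100C
  simp only [List.length_append, cel100C1_length, cel100C2_length,
    cel100C3_length, cel100C4_length, cel100C5_length]

end LpSec.LS
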