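import Mathlib
import Pool.Agent.Lib.MP_1dbab3_gt.LS.Cel400E1
import Pool.Agent.Lib.MP_1dbab3_gt.LS.Cel400E2
import Pool.Agent.Lib.MP_1dbab3_gt.LS.Cel400E3
import Pool.Agent.Lib.MP_1dbab3_gt.LS.Cel400E4

/-!
# LS: certificates of the cells `[i/400, (i+1)/400]`, `260 ≤ i < 280`
-/

namespace LpSec.LS

def cel400E : List Cel := cel400E1 ++ (cel400E2 ++ (cel400E3 ++ cel400E4))

theorem cel400E_ok : blkOk W.tab400E W.aux400 0 260 cel400E = true :=
  (blkOk_append cel400E1_ok cel400E1_length rfl
    (blkOk_append cel400E2_ok cel400E2_length rfl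
    (blkOk_append cel400E3_ok cel400E3_length rfl
    cel400E4_ok)))

theorem cel400E_length : cel400E.length = 20 := by
  unfold cel400E
  simp only [List.length_append, cel400E1_length, cel400E2_length, cel400E3_length, cel400E4_length]

end LpSec.LS
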