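import Mathlib
import Pool.Agent.Lib.MP_1dbab3_gt.LS.Cel400F1
import Pool.Agent.Lib.MP_1dbab3_gt.LS.Cel400F2
import Pool.Agent.Lib.MP_1dbab3_gt.LS.Cel400F3
import Pool.Agent.Lib.MP_1dbab3_gt.LS.Cel400F4

/-!
# LS: certificates of the cells `[i/400, (i+1)/400]`, `280 ≤ i < 300`
-/

namespace LpSec.LS

def cel400F : List Cel := cel400F1 ++ (cel400F2 ++ (cel400F3 ++ cel400F4))

theorem cel400F_ok : blkOk W.tab400F W.aux400 0 280 cel400F = true :=
  (blkOk_append cel400F1_ok cel400F1_length rfl
    (blkOk_append cel400F2_ok cel400F2_length rfl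
    (blkOk_append cel400F3_ok cel400F3_length rfl
    cel400F4_ok)))

theorem cel400F_length : cel400F.length = 20 := by
  unfold cel400F
  simp only [List.length_append, cel400F1_length, cel400F2_length, cel400F3_length, cel400F4_length]

end LpSec.LS
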