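import Mathlib
import Pool.Agent.Lib.MP_1dbab3_gt.LS.Cel400G1
import Pool.Agent.Lib.MP_1dbab3_gt.LS.Cel400G2
import Pool.Agent.Lib.MP_1dbab3_gt.LS.Cel400G3
import Pool.Agent.Lib.MP_1dbab3_gt.LS.Cel400G4

/-!
# LS: certificates of the cells `[i/400, (i+1)/400]`, `300 ≤ i < 320`
-/

namespace LpSec.LS

def cel400G : List Cel := cel400G1 ++ (cel400G2 ++ (cel400G3 ++ cel400G4))

theorem cel400G_ok : blkOk W.tab400G W.aux400 0 300 cel400G = true :=
  (blkOk_append cel400G1_ok cel400G1_length rfl
    (blkOk_append cel400G2_ok cel400G2_length rfl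
    (blkOk_append cel400G3_ok cel400G3_length rfl
    cel400G4_ok)))

theorem cel400G_length : cel400G.length = 20 := by
  unfold cel400G
  simp only [List.length_append, cel400G1_length, cel400G2_length, cel400G3_length, cel400G4_length]

end LpSec.LS
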