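import Mathlib
import Pool.Agent.Lib.MP_1dbab3_gt.LS.Cel400H1
import Pool.Agent.Lib.MP_1dbab3_gt.LS.Cel400H2
import Pool.Agent.Lib.MP_1dbab3_gt.LS.Cel400H3
import Pool.Agent.Lib.MP_1dbab3_gt.LS.Cel400H4
import Pool.Agent.Lib.MP_1dbab3_gt.LS.Cel400H5

/-!
# LS: certificates of the cells `[i/400, (i+1)/400]`, `320 ≤ i < 341`
-/

namespace LpSec.LS

def cel400H : List Cel := cel400H1 ++ (cel400H2 ++ (cel400H3 ++ (cel400H4 ++ cel400H5)))

theorem cel400H_ok : blkOk W22.tab400H W.aux400 0 320 cel400H = true :=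
  (blkOk_append cel400H1_ok cel400H1_length rfl
    (blkOk_append cel400H2_ok cel400H2_length rfl
    (blkOk_append cel400H3_ok cel400H3_length rfl
    (blkOk_append cel400H4_ok cel400H4_length rfl
    cel400H5_ok))))

theorem cel400H_length : cel400H.length = 21 := by
  unfold cel400H
  simp only [List.length_append, cel400H1_length, cel400H2_length,
    cel400H3_length, cel400H4_length, cel400H5_length]

end LpSec.LS
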