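import Mathlib
import Pool.Agent.Lib.MP_1dbab3_gt.LS.Cel400I1
import Pool.Agent.Lib.MP_1dbab3_gt.LS.Cel400I2
import Pool.Agent.Lib.MP_1dbab3_gt.LS.Cel400I3
import Pool.Agent.Lib.MP_1dbab3_gt.LS.Cel400I4

/-!
# LS: certificates of the cells `[i/400, (i+1)/400]`, `341 ≤ i < 360`
-/

namespace LpSec.LS

def cel400I : List Cel := cel400I1 ++ (cel400I2 ++ (cel400I3 ++ cel400I4))

theorem cel400I_ok : blkOk W22.tab400I W.aux400 0 341 cel400I = true :=
  (blkOk_append cel400I1_ok cel400I1_length rfl
    (blkOk_append cel400I2_ok cel400I2_length rfl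
    (blkOk_append cel400I3_ok cel400I3_length rfl
    cel400I4_ok)))

theorem cel400I_length : cel400I.length = 19 := by
  unfold cel400I
  simp only [List.length_append, cel400I1_length, cel400I2_length, cel400I3_length, cel400I4_length]

end LpSec.LS
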