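import Mathlib
import Pool.Agent.Lib.MP_1dbab3_gt.LS.Cel100A
import Pool.Agent.Lib.MP_1dbab3_gt.LS.Cel100B
import Pool.Agent.Lib.MP_1dbab3_gt.LS.Cel100C
import Pool.Agent.Lib.MP_1dbab3_gt.LS.Cel400E
import Pool.Agent.Lib.MP_1dbab3_gt.LS.Cel400F
import Pool.Agent.Lib.MP_1dbab3_gt.LS.Cel400G
import Pool.Agent.Lib.MP_1dbab3_gt.LS.Cel400H
import Pool.Agent.Lib.MP_1dbab3_gt.LS.Cel400I
import Pool.Agent.Lib.MP_1dbab3_gt.W.Lobe22
import Pool.Agent.Lib.MP_1dbab3_gt.W.FlZ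

/-!
# LS: the neighbourhoods of the flat point for all `α ≥ 10/9`
-/

open Real MeasureTheory Set Filter Topology

namespace LpSec.LS

theorem ls100 {i : ℕ} (hi : i < 65) {l : ℝ} (hl : 0 ≤ l) (hl1 : l ≤ 1) (hw : 0 < (i : ℝ) + l)
    (h4 : Lobe4 (1 / (((i : ℝ) + l) / 100))) (z6 : z1 (1 / (((i : ℝ) + l) / 100)) ≤ 6) :
    LSall (1 / (((i : ℝ) + l) / 100)) (decide (14 ≤ i)) := by
  have hA := W.aux_cell100 (i := i) (by omega) hl hl1 hw
  rcases Nat.lt_or_ge i 22 with h | h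
  · exact blk_ls h4 z6 cel100A_ok (Nat.zero_le i) (by rw [cel100A_length]; omega)
      (fun j hj s s1 s2 => W.Tab_cell100A (Nat.zero_le i) h hl hl1 hw hj s1 s2) hA
  rcases Nat.lt_or_ge i 44 with h' | h'
  · exact blk_ls h4 z6 cel100B_ok h (by rw [cel100B_length]; omega)
      (fun j hj s s1 s2 => W.Tab_cell100B h h' hl hl1 hw hj s1 s2) hA
  · exact blk_ls h4 z6 cel100C_ok h' (by rw [cel100C_length]; omega)
      (fun j hj s s1 s2 => W.Tab_cell100C h' hi hl hl1 hw hj s1 s2) hA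

theorem ls400 {i : ℕ} (h0 : 260 ≤ i) (hi : i < 360) {l : ℝ} (hl : 0 ≤ l) (hl1 : l ≤ 1)
    (h4 : Lobe4 (1 / (((i : ℝ) + l) / 400))) (z6 : z1 (1 / (((i : ℝ) + l) / 400)) ≤ 6) :
    LSall (1 / (((i : ℝ) + l) / 400)) true := by
  have h0' : (260 : ℝ) ≤ i := by exact_mod_cast h0
  have hw : 0 < (i : ℝ) + l := by linarith
  have hA := W.aux_cell400 (i := i) (by omega) hl hl1 hw
  have hd : decide (0 ≤ i) = true := by simp
  rcases Nat.lt_or_ge i 280 with h | h
  · have := blk_ls h4 z6 cel400E_ok h0 (by rw [cel400E_length]; omega)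
      (fun j hj s s1 s2 => W.Tab_cell400E h0 h hl hl1 hj s1 s2) hA
    rwa [hd] at this
  rcases Nat.lt_or_ge i 300 with h' | h'
  · have := blk_ls h4 z6 cel400F_ok h (by rw [cel400F_length]; omega)
      (fun j hj s s1 s2 => W.Tab_cell400F h h' hl hl1 hj s1 s2) hA
    rwa [hd] at this
  rcases Nat.lt_or_ge i 320 with h'' | h''
  · have := blk_ls h4 z6 cel400G_ok h' (by rw [cel400G_length]; omega)
      (fun j hj s s1 s2 => W.Tab_cell400G h' h'' hl hl1 hj s1 s2) hA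
    rwa [hd] at this
  rcases Nat.lt_or_ge i 341 with h3 | h3
  · have := blk_ls h4 z6 cel400H_ok h'' (by rw [cel400H_length]; omega)
      (fun j hj s s1 s2 => W22.Tab_cell400H h'' h3 hl hl1 hj s1 s2) hA
    rwa [hd] at this
  · have := blk_ls h4 z6 cel400I_ok h3 (by rw [cel400I_length]; omega)
      (fun j hj s s1 s2 => W22.Tab_cell400I h3 (by omega) hl hl1 hj s1 s2) hA
    rwa [hd] at this

theorem ls_all_of {α : ℝ} (hα : 10 / 9 ≤ α) (z6 : z1 α ≤ 6) :
    LSall α (decide (14 / 100 ≤ 1 / α)) := by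
  have h4 := lobe4 hα
  have h0 : 0 < α := by linarith
  set u := 1 / α with hu
  have hu0 : 0 < u := one_div_pos.2 h0
  have hu9 : u ≤ 9 / 10 := by
    rw [hu, div_le_iff₀ h0]; linarith
  have hαu : α = 1 / u := by rw [hu, one_div_one_div]
  rcases lt_or_ge u (65 / 100) with h | h
  · set i := ⌊100 * u⌋₊ with hi
    have f1 : (i : ℝ) ≤ 100 * u := Nat.floor_le (by positivity)
    have f2 : 100 * u < (i : ℝ) + 1 := Nat.lt_floor_add_one _
    have hi65 : i < 65 := by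
      have : (i : ℝ) < 65 := by linarith
      exact_mod_cast this
    have e : ((i : ℝ) + (100 * u - i)) / 100 = u := by ring
    have hl := ls100 (i := i) hi65 (l := 100 * u - i) (by linarith) (by linarith)
      (by linarith) (by rw [e, ← hαu]; exact h4) (by rw [e, ← hαu]; exact z6)
    rw [e, ← hαu] at hl
    refine hl.of fun hb => ?_
    have hb' : 14 / 100 ≤ u := of_decide_eq_true hb
    refine decide_eq_true ?_
    exact Nat.le_floor (by push_cast; linarith)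
  · -- the index of the cell, at most 359
    obtain ⟨i, i1, i2, f1, f2⟩ : ∃ i : ℕ, 260 ≤ i ∧ i < 360 ∧ (i : ℝ) ≤ 400 * u ∧
        400 * u ≤ (i : ℝ) + 1 := by
      have g1 : ((⌊400 * u⌋₊ : ℕ) : ℝ) ≤ 400 * u := Nat.floor_le (by positivity)
      have g2 : 400 * u < ((⌊400 * u⌋₊ : ℕ) : ℝ) + 1 := Nat.lt_floor_add_one _
      have g3 : 260 ≤ ⌊400 * u⌋₊ := Nat.le_floor (by push_cast; linarith)
      rcases Nat.lt_or_ge ⌊400 * u⌋₊ 360 with h' | h'
      · exact ⟨_, g3, h', g1, g2.le⟩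
      · have h'' : (360 : ℝ) ≤ ((⌊400 * u⌋₊ : ℕ) : ℝ) := by exact_mod_cast h'
        refine ⟨359, by norm_num, by norm_num, ?_, ?_⟩
        · push_cast; linarith
        · push_cast; linarith
    have e : ((i : ℝ) + (400 * u - i)) / 400 = u := by ring
    have hl := ls400 (i := i) i1 i2 (l := 400 * u - i) (by linarith) (by linarith)
      (by rw [e, ← hαu]; exact h4) (by rw [e, ← hαu]; exact z6)
    rw [e, ← hαu] at hl
    exact hl.of fun _ => rfl

/-- **The neighbourhoods of the flat point.** -/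
theorem ls_all {α : ℝ} (hα : 10 / 9 ≤ α) :
    (14 / 100 ≤ 1 / α → LSat α 4 (34 / 100) (1 / 2)) ∧ LSat α 5 (27 / 100) (45 / 100) ∧
      LSat α 6 (1 / 5) (-1) ∧ ∀ n : ℕ, 7 ≤ n → LSat α n (18 / 100) (-1) := by
  have h := ls_all_of hα (z1_le_six hα)
  exact ⟨fun hu => h.n4 (decide_eq_true hu), h.n5, h.n6, h.n7⟩

end LpSec.LS
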