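import Mathlib
import Pool.Agent.Lib.MP_1dbab3_gt.W.TwoTbl
import Pool.Agent.Lib.MP_1dbab3_gt.W.DCell
import Pool.Agent.Lib.MP_1dbab3_gt.WLagB

/-!
# `k0`, `k1`, `1 / DD` in a cell
-/

open Real MeasureTheory Set Filter Topology

namespace LpSec.W

theorem k0_eq {α : ℝ} (hα : 1 < α) : k0 α = 1 - mom α 2 / 2 := by
  unfold k0 lag
  simp only [Finset.sum_range_succ, Finset.sum_range_zero, mom_zero hα, mom_one hα]
  norm_num [Nat.choose, Nat.factorial]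
  ring

theorem k1_eq {α : ℝ} (hα : 1 < α) : k1 α = 2 - 3 * mom α 2 / 2 + mom α 3 / 6 := by
  unfold k1 lag
  simp only [Finset.sum_range_succ, Finset.sum_range_zero, mom_zero hα, mom_one hα]
  norm_num [Nat.choose, Nat.factorial]
  ring

/-- one end of the cell: moments `M2, M3` with radii `d2, d3` -/
def k01Ok (M2 M3 d2 d3 q0 q1 : ℕ) : Bool :=
  Nat.ble (M2 + d2 + 20 * q0) 20000000000 &&
  Nat.ble (9 * (M2 + d2) + d3 + 60 * q1) (120000000000 + M3)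

theorem k01_sound {α : ℝ} (hα : 1 < α) {A2 B2 A3 B3 d2 d3 q0 q1 : ℕ} {l : ℝ} (hl : 0 ≤ l)
    (hl1 : l ≤ 1)
    (h2 : |mom α 2 - ((1 - l) * ((A2 : ℝ) / 10000000000) + l * ((B2 : ℝ) / 10000000000))| ≤
      (d2 : ℝ) / 10000000000)
    (h3 : |mom α 3 - ((1 - l) * ((A3 : ℝ) / 10000000000) + l * ((B3 : ℝ) / 10000000000))| ≤
      (d3 : ℝ) / 10000000000)
    (hA : k01Ok A2 A3 d2 d3 q0 q1 = true) (hB : k01Ok B2 B3 d2 d3 q0 q1 = true) :
    (q0 : ℝ) / 10 ^ 9 ≤ k0 α ∧ (q1 : ℝ) / 10 ^ 9 ≤ k1 α := by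
  unfold k01Ok at hA hB
  simp only [Bool.and_eq_true, Nat.ble_eq] at hA hB
  obtain ⟨a1, a2⟩ := hA
  obtain ⟨b1, b2⟩ := hB
  have a1' : (A2 : ℝ) + d2 + 20 * q0 ≤ 20000000000 := by exact_mod_cast a1
  have a2' : 9 * ((A2 : ℝ) + d2) + d3 + 60 * q1 ≤ 120000000000 + A3 := by exact_mod_cast a2
  have b1' : (B2 : ℝ) + d2 + 20 * q0 ≤ 20000000000 := by exact_mod_cast b1
  have b2' : 9 * ((B2 : ℝ) + d2) + d3 + 60 * q1 ≤ 120000000000 + B3 := by exact_mod_cast b2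
  have h2' := abs_le.1 h2
  have h3' := abs_le.1 h3
  have hl' : 0 ≤ 1 - l := by linarith
  have c1 := mul_le_mul_of_nonneg_left a1' hl'
  have c2 := mul_le_mul_of_nonneg_left b1' hl
  have c3 := mul_le_mul_of_nonneg_left a2' hl'
  have c4 := mul_le_mul_of_nonneg_left b2' hl
  rw [k0_eq hα, k1_eq hα]
  constructor
  · rw [div_le_iff₀ (by norm_num)]
    nlinarith [h2'.2]
  · rw [div_le_iff₀ (by norm_num)]
    nlinarith [h2'.2, h3'.1]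

theorem DD_inv {u : ℝ} (hu : 0 < u) : (DD (1 / u))⁻¹ = iD u := by
  unfold DD iD
  rw [one_div_one_div, inv_div]
  congr 2
  · field_simp
    
/-- check of the bound of `1 / DD` on a cell of width `1/100` -/
def ddOk (x y q : ℕ) : Bool := Nat.ble (x + 21000) (10 * q) && Nat.ble (y + 21000) (10 * q)

theorem dd_sound100 {i : ℕ} (hi : i < 100) {l : ℝ} (hl : 0 ≤ l) (hl1 : l ≤ 1) (hw : 0 < (i : ℝ) + l)
    {q : ℕ} (h : ddOk (dl i) (dl (i + 1)) q = true) :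
    (DD (1 / (((i : ℝ) + l) / 100)))⁻¹ ≤ (q : ℝ) / 10 ^ 9 := by
  unfold ddOk at h
  simp only [Bool.and_eq_true, Nat.ble_eq] at h
  obtain ⟨a1, a2⟩ := h
  have a1' : (dl i : ℝ) + 21000 ≤ 10 * q := by exact_mod_cast a1
  have a2' : (dl (i + 1) : ℝ) + 21000 ≤ 10 * q := by exact_mod_cast a2
  rw [DD_inv (by positivity)]
  refine (iD_cell hi hl hl1).2.trans ?_
  have hl' : 0 ≤ 1 - l := by linarith
  have c1 := mul_le_mul_of_nonneg_left a1' hl'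
  have c2 := mul_le_mul_of_nonneg_left a2' hl
  rw [← sub_nonneg]
  have e : (q : ℝ) / 10 ^ 9 - (((1 - l) * dl i + l * dl (i + 1)) / 10 ^ 10 + 2.1 / 10 ^ 6) =
    (10 * q - 21000 - ((1 - l) * dl i + l * dl (i + 1))) / 10 ^ 10 := by ring
  rw [e]
  refine div_nonneg ?_ (by norm_num)
  linarith

/-- check of the bound of `1 / DD` on the cell `[i/400, (i+1)/400]` -/
def ddOk4 (i q : ℕ) : Bool :=
  Nat.ble ((4 - i % 4) * dl (i / 4) + (i % 4) * dl (i / 4 + 1) + 84000) (40 * q) &&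
  Nat.ble ((3 - i % 4) * dl (i / 4) + (i % 4 + 1) * dl (i / 4 + 1) + 84000) (40 * q)

theorem dd_sound400 {i : ℕ} (hi : i < 400) {l : ℝ} (hl : 0 ≤ l) (hl1 : l ≤ 1) (hw : 0 < (i : ℝ) + l)
    {q : ℕ} (h : ddOk4 i q = true) :
    (DD (1 / (((i : ℝ) + l) / 400)))⁻¹ ≤ (q : ℝ) / 10 ^ 9 := by
  unfold ddOk4 at h
  simp only [Bool.and_eq_true, Nat.ble_eq] at h
  obtain ⟨a1, a2⟩ := h
  have hm : i / 4 < 100 := by omega
  have hr : i % 4 < 4 := Nat.mod_lt _ (by norm_num)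
  have hi' : (i : ℝ) = 4 * ((i / 4 : ℕ) : ℝ) + ((i % 4 : ℕ) : ℝ) := by
    have := Nat.div_add_mod i 4
    exact_mod_cast this.symm
  have q1 : ((4 - i % 4 : ℕ) : ℝ) = 4 - ((i % 4 : ℕ) : ℝ) := by
    rw [Nat.cast_sub (by omega)]; norm_num
  have q2 : ((3 - i % 4 : ℕ) : ℝ) = 3 - ((i % 4 : ℕ) : ℝ) := by
    rw [Nat.cast_sub (by omega)]; norm_num
  have a1' : (4 - ((i % 4 : ℕ) : ℝ)) * (dl (i / 4) : ℝ) + ((i % 4 : ℕ) : ℝ) * (dl (i / 4 + 1) : ℝ) +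
      84000 ≤ 40 * q := by
    rw [← q1]; exact_mod_cast a1
  have a2' : (3 - ((i % 4 : ℕ) : ℝ)) * (dl (i / 4) : ℝ) +
      (((i % 4 : ℕ) : ℝ) + 1) * (dl (i / 4 + 1) : ℝ) + 84000 ≤ 40 * q := by
    rw [← q2]; exact_mod_cast a2
  set m := i / 4 with hmdef
  set r : ℝ := ((i % 4 : ℕ) : ℝ) with hrdef
  have hr0 : 0 ≤ r := Nat.cast_nonneg _
  have hr3 : r ≤ 3 := by
    rw [hrdef]
    exact_mod_cast (by omega : i % 4 ≤ 3)
  have e0 : ((i : ℝ) + l) / 400 = ((m : ℝ) + (r + l) / 4) / 100 := by rw [hi']; ring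
  rw [e0, DD_inv (by
    rw [← e0]; positivity)]
  have hl4 : 0 ≤ (r + l) / 4 := by positivity
  have hl41 : (r + l) / 4 ≤ 1 := by linarith
  refine (iD_cell hm hl4 hl41).2.trans ?_
  have hl' : 0 ≤ 1 - l := by linarith
  have c1 := mul_le_mul_of_nonneg_left a1' hl'
  have c2 := mul_le_mul_of_nonneg_left a2' hl
  rw [← sub_nonneg]
  have e : (q : ℝ) / 10 ^ 9 - (((1 - (r + l) / 4) * dl m + (r + l) / 4 * dl (m + 1)) / 10 ^ 10 +
      2.1 / 10 ^ 6) =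
    (40 * q - 84000 - ((4 - (r + l)) * dl m + (r + l) * dl (m + 1))) / (4 * 10 ^ 10) := by ring
  rw [e]
  refine div_nonneg ?_ (by norm_num)
  nlinarith

end LpSec.W
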