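import Mathlib
import Pool.Agent.Lib.MP_1dbab3_gt.WBase
import Pool.Agent.Lib.MP_1dbab3_gt.WLobe
import Pool.Agent.Lib.MP_1dbab3_gt.W.M3

/-!
# Stage LS (near the flat point): definitions

`x` in the simplex, `x i` its maximum, `x j` its minimum, `r = x j / x i`, `θ` the other coordinates
divided by `x i`. `IJ α x i j = (x i)⁻² * LI α r θ`, and the aim is `0 < LI α r θ`.
-/

open Real MeasureTheory Set Filter Topology

namespace LpSec.LS

/-- the two-point function -/
noncomputable def Wt (α r t : ℝ) : ℝ := Phi1 α t * Phi α (r * t) - Phi α t * Phi1 α (r * t)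

/-- the product of the other factors -/
noncomputable def Pt (α : ℝ) {K : ℕ} (θ : Fin K → ℝ) (t : ℝ) : ℝ := ∏ k, Phi α (θ k * t)

/-- the normalised derivative -/
noncomputable def LI (α r : ℝ) {K : ℕ} (θ : Fin K → ℝ) : ℝ :=
  ∫ t in Ioi (0 : ℝ), t * Wt α r t * Pt α θ t

/-- `r` = min / max, `θ` = the other coordinates / max -/
structure Cfg {K : ℕ} (r : ℝ) (θ : Fin K → ℝ) : Prop where
  r0 : 0 ≤ r
  r1 : r < 1
  lo : ∀ k, r ≤ θ k
  hi : ∀ k, θ k ≤ 1

/-- universal constants of the main part -/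
noncomputable def cc (k m : ℕ) (ρ : ℝ) : ℝ :=
  ∫ t in (0 : ℝ)..(9 / 5), t ^ k * (K 1 (2 * t)) ^ m * K 1 (2 * ρ * t)

end LpSec.LS
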