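import Mathlib
import Pool.Agent.Lib.MP_1dbab3_gt.LS.Def

/-!
# LS-B1: decay of Phi, Phi1; integrability of the LI integrand (ls_dec, ls_dec1, LI_integrable)
-/

open Real MeasureTheory Set Filter Topology

namespace LpSec.LS

variable {α : ℝ}

theorem LSB1_abs_int_le {f : ℝ → ℝ} {s : ℝ} (hs : 0 < s)
    (hf : IntegrableOn (fun ρ => |f ρ| / ρ) (Ioi 0)) :
    |∫ ρ in Ioi (0 : ℝ), f ρ * K 2 (s * ρ)| ≤ 2 / s * ∫ ρ in Ioi (0 : ℝ), |f ρ| / ρ := by
  rw [← integral_const_mul, ← Real.norm_eq_abs]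
  apply norm_integral_le_of_norm_le (hf.const_mul (2 / s))
  refine (ae_restrict_iff' measurableSet_Ioi).2 (Eventually.of_forall ?_)
  intro ρ hρ
  have hρ' : (0 : ℝ) < ρ := hρ
  have h := K2_abs_le_div (mul_pos hs hρ')
  rw [Real.norm_eq_abs, abs_mul]
  calc |f ρ| * |K 2 (s * ρ)| ≤ |f ρ| * (2 / (s * ρ)) := mul_le_mul_of_nonneg_left h (abs_nonneg _)
    _ = 2 / s * (|f ρ| / ρ) := by field_simp

theorem LSB1_Phi1_eq {α : ℝ} (hα : 1 < α) {s : ℝ} (hs : 0 ≤ s) :
    Phi1 α s = ∫ ρ in Ioi (0 : ℝ), ρ * G α ρ * K 2 (s * ρ) := by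
  have hα0 : 0 < α := by linarith
  have hF1 := phic2_int (F_mul_integrable hα) 1 hs
  have hG2 := phic2_int (G_mul_integrable hα) 2 hs
  have hder : ∀ t ∈ Ioi (0 : ℝ), HasDerivAt (fun t => F α t * (t ^ 2 * K 2 (s * t)))
      (t * F α t * K 1 (s * t) - t * G α t * K 2 (s * t)) t := by
    intro t ht
    have ht0 : (0 : ℝ) < t := ht
    have h1 : HasDerivAt (fun t => s * t) s t := by
      simpa using (hasDerivAt_id t).const_mul s
    have h2 : HasDerivAt (fun t => K 2 (s * t)) (-(K 3 (s * t)) * s) t :=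
      (K_hasDerivAt 2 (s * t)).comp t h1
    have h3 : HasDerivAt (fun t : ℝ => t ^ 2) (2 * t) t := by
      simpa using hasDerivAt_pow 2 t
    have h4 := (aux_F_deriv hα0 ht0).mul (h3.mul h2)
    refine h4.congr_deriv ?_
    have h5 := K_rec 1 (s * t)
    simp only [Nat.cast_one] at h5
    have h6 : K 1 (s * t) = 2 * K 2 (s * t) - s * t * K 3 (s * t) := by
      have : (1 : ℝ) + 1 = 2 := by norm_num
      rw [this] at h5
      have h7 : K (1 + 2) (s * t) = K 3 (s * t) := rfl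
      have h8 : K (1 + 1) (s * t) = K 2 (s * t) := rfl
      rw [h7, h8] at h5
      linarith
    rw [h6]
    simp only [Pi.mul_apply]
    field_simp
    ring
  have hcont : ContinuousWithinAt (fun t => F α t * (t ^ 2 * K 2 (s * t))) (Ici 0) 0 := by
    have h1 : ContinuousWithinAt (F α) (Ici 0) 0 := F_continuousOn hα0 0 self_mem_Ici
    have h2 : Continuous (fun t : ℝ => t ^ 2 * K 2 (s * t)) :=
      (continuous_pow 2).mul ((K_continuous 2).comp (continuous_const.mul continuous_id))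
    exact h1.mul h2.continuousWithinAt
  have hint : IntegrableOn (fun t => F α t * (t ^ 2 * K 2 (s * t))) (Ioi 0) := by
    have h1 := phic2_int (F_sq_mul_integrable hα) 2 hs
    refine h1.congr_fun (fun t ht => ?_) measurableSet_Ioi
    simp only
    ring
  have hI : IntegrableOn (fun t => t * F α t * K 1 (s * t) - t * G α t * K 2 (s * t)) (Ioi 0) :=
    hF1.sub hG2
  have hlim := tendsto_zero_of_hasDerivAt_of_integrableOn_Ioi hder hI hint
  have key := integral_Ioi_of_hasDerivAt_of_tendsto hcont hder hI hlim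
  rw [integral_sub hF1 hG2] at key
  have hz : F α 0 * ((0 : ℝ) ^ 2 * K 2 (s * 0)) = 0 := by norm_num
  rw [hz, sub_zero] at key
  unfold Phi1
  linarith

theorem ls_dec1 (hα : 1 < α) {s : ℝ} (hs : 0 < s) : |Phi1 α s| ≤ 2 / s := by
  have hα0 : 0 < α := by linarith
  have he : ∀ ρ ∈ Ioi (0 : ℝ), G α ρ = |ρ * G α ρ| / ρ := by
    intro ρ hρ
    have hρ' : (0 : ℝ) < ρ := hρ
    rw [abs_of_nonneg (mul_nonneg hρ'.le (G_nonneg hα0 hρ'))]
    field_simp
  have hf : IntegrableOn (fun ρ => |ρ * G α ρ| / ρ) (Ioi 0) :=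
    (G_integrable hα).congr_fun he measurableSet_Ioi
  have h := LSB1_abs_int_le hs hf
  rw [← setIntegral_congr_fun measurableSet_Ioi he, G_integral hα, mul_one] at h
  rw [LSB1_Phi1_eq hα hs.le]
  exact h

theorem LSB1_Phi2_le (hα : 1 < α) {s : ℝ} (hs : 0 < s) : |Phi2 α s| ≤ 2 / s := by
  have hα0 : 0 < α := by linarith
  have he : ∀ ρ ∈ Ioi (0 : ℝ), ρ * F α ρ = |ρ ^ 2 * F α ρ| / ρ := by
    intro ρ hρ
    have hρ' : (0 : ℝ) < ρ := hρ
    rw [abs_of_nonneg (mul_nonneg (sq_nonneg _) (F_pos hα0 ρ).le)]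
    field_simp
  have hf : IntegrableOn (fun ρ => |ρ ^ 2 * F α ρ| / ρ) (Ioi 0) :=
    (F_mul_integrable hα).congr_fun he measurableSet_Ioi
  have h := LSB1_abs_int_le hs hf
  rw [← setIntegral_congr_fun measurableSet_Ioi he, F_mean hα, mul_one] at h
  exact h

theorem LSB1_NN_le (hα : 1 < α) : ∃ C : ℝ, ∀ s : ℝ, 0 < s → |NN α s| ≤ C / s := by
  have hα0 : 0 < α := by linarith
  have h1 := F_mul_integrable hα
  have h2 := (G_integrable hα).const_mul 2
  have h3 := (aux_Gmom hα0 (q := α - 1) (by linarith)).1.const_mul (α * mu α ^ α)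
  have h4 := (G_div_integrable hα).const_mul (α - 1)
  have h5 : IntegrableOn (fun ρ => (Qf α ρ - (α - 1) * G α ρ) / ρ) (Ioi 0) := by
    refine (((h1.sub h2).add h3).sub h4).congr_fun (fun t ht => ?_) measurableSet_Ioi
    have ht0 : (0 : ℝ) < t := ht
    simp only [Pi.sub_apply, Pi.add_apply]
    rw [nf_Q_eq hα ht0, rpow_sub_one ht0.ne']
    field_simp
  have hf : IntegrableOn (fun ρ => |Qf α ρ - (α - 1) * G α ρ| / ρ) (Ioi 0) := by
    have h6 : IntegrableOn (fun ρ => |(Qf α ρ - (α - 1) * G α ρ) / ρ|) (Ioi 0) := h5.abs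
    refine h6.congr_fun (fun t ht => ?_) measurableSet_Ioi
    have ht0 : (0 : ℝ) < t := ht
    simp only
    rw [abs_div, abs_of_pos ht0]
  refine ⟨2 * ∫ ρ in Ioi (0 : ℝ), |Qf α ρ - (α - 1) * G α ρ| / ρ, fun s hs => ?_⟩
  rw [NN_eq hα hs.le]
  refine (LSB1_abs_int_le hs hf).trans (le_of_eq ?_)
  ring

theorem ls_dec (hα : 1 < α) : ∃ k > 0, ∀ s, 0 ≤ s → |Phi α s| ≤ (1 + k * s)⁻¹ := by
  obtain ⟨C0, hC0⟩ := LSB1_NN_le hα
  set C : ℝ := |C0| + 6 with hC
  have hCpos : 0 < C := by have := abs_nonneg C0; linarith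
  have hbd : ∀ s : ℝ, 0 < s → |Phi α s| ≤ C / s := by
    intro s hs
    have h1 := hC0 s hs
    have h2 := ls_dec1 hα hs
    have h3 := LSB1_Phi2_le hα hs
    have h4 : Phi α s = NN α s + 2 * Phi1 α s - Phi2 α s := by unfold NN; ring
    have h5 : C0 / s ≤ |C0| / s := div_le_div_of_nonneg_right (le_abs_self _) hs.le
    have h6 : C / s = |C0| / s + 2 * (2 / s) + 2 / s := by
      rw [hC]; field_simp; ring
    rw [h6, h4]
    have h7 := abs_add_le (NN α s + 2 * Phi1 α s) (-Phi2 α s)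
    have h8 := abs_add_le (NN α s) (2 * Phi1 α s)
    rw [abs_neg] at h7
    rw [abs_mul, abs_two] at h8
    have h9 : NN α s + 2 * Phi1 α s - Phi2 α s = NN α s + 2 * Phi1 α s + -Phi2 α s := by ring
    rw [h9]
    linarith
  refine ⟨min (1 / 15) (1 / (2 * C)), lt_min (by norm_num) (by positivity), fun s hs => ?_⟩
  set k := min (1 / 15) (1 / (2 * C)) with hk
  have hk0 : 0 < k := lt_min (by norm_num) (by positivity)
  have hk1 : k ≤ 1 / 15 := min_le_left _ _
  have hk2 : k ≤ 1 / (2 * C) := min_le_right _ _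
  have hks : 0 ≤ k * s := mul_nonneg hk0.le hs
  have hk3 : k * (2 * C) ≤ 1 := by
    rw [le_div_iff₀ (by positivity)] at hk2; exact hk2
  rcases le_total (2 * C) s with h | h
  · have hs0 : 0 < s := by linarith
    refine (hbd s hs0).trans ?_
    rw [div_le_iff₀ hs0, inv_mul_eq_div, le_div_iff₀ (by linarith)]
    nlinarith [mul_le_mul_of_nonneg_left hk3 hs]
  · refine (Phi_decay hα hs).trans ?_
    have h1s : (0 : ℝ) < 1 + s := by linarith
    have hks1 : k * s ≤ 1 := (mul_le_mul_of_nonneg_left h hk0.le).trans hk3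
    have h4 : (1 + k * s) ^ 4 ≤ 1 + s := by
      have : (1 + k * s) ^ 4 ≤ 1 + 15 * (k * s) := by
        nlinarith [mul_nonneg hks (sub_nonneg.2 hks1), mul_nonneg (mul_nonneg hks hks) (sub_nonneg.2 hks1),
          mul_nonneg (mul_nonneg (mul_nonneg hks hks) hks) (sub_nonneg.2 hks1)]
      have h15 : 15 * (k * s) ≤ s := by nlinarith
      linarith
    rw [Real.rpow_neg h1s.le]
    apply inv_anti₀ (by linarith)
    have h5 : (1 + k * s) = ((1 + k * s) ^ (4 : ℕ)) ^ (1 / 4 : ℝ) := by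
      rw [← Real.rpow_natCast, ← Real.rpow_mul (by linarith)]
      norm_num
    rw [h5]
    exact Real.rpow_le_rpow (by positivity) h4 (by norm_num)

theorem LSB1_single {α k : ℝ} (hk : 0 < k) (hdec : ∀ s, 0 ≤ s → |Phi α s| ≤ (1 + k * s)⁻¹)
    {x t : ℝ} (hx : 0 ≤ x) (hx1 : x ≤ 1) (ht : 0 ≤ t) :
    |Phi α (x * t)| ≤ (1 + k * t) ^ (-x) ∧ (1 + k * (x * t))⁻¹ ≤ (1 + k * t) ^ (-x) := by
  have hkt : 0 ≤ k * t := mul_nonneg hk.le ht
  have h1 : (1 + k * t) ^ x ≤ 1 + x * (k * t) :=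
    rpow_one_add_le_one_add_mul_self (by linarith) hx hx1
  have h3 : 0 < (1 + k * t) ^ x := Real.rpow_pos_of_pos (by linarith) _
  have h2 : (1 + k * (x * t))⁻¹ ≤ (1 + k * t) ^ (-x) := by
    rw [Real.rpow_neg (by linarith)]
    apply inv_anti₀ h3
    have : x * (k * t) = k * (x * t) := by ring
    rw [← this]; exact h1
  exact ⟨(hdec _ (mul_nonneg hx ht)).trans h2, h2⟩

theorem LSB1_prod {α k : ℝ} (hk : 0 < k) (hdec : ∀ s, 0 ≤ s → |Phi α s| ≤ (1 + k * s)⁻¹)
    {ι : Type*} (T : Finset ι) {θ : ι → ℝ} (h0 : ∀ i, 0 ≤ θ i) (h1 : ∀ i, θ i ≤ 1) {t : ℝ}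
    (ht : 0 ≤ t) : |∏ i ∈ T, Phi α (θ i * t)| ≤ (1 + k * t) ^ (-(∑ i ∈ T, θ i)) := by
  have hkt : 0 ≤ k * t := mul_nonneg hk.le ht
  classical
  induction T using Finset.induction_on with
  | empty => simp
  | insert a T ha ih =>
    rw [Finset.prod_insert ha, Finset.sum_insert ha, neg_add, Real.rpow_add (by linarith), abs_mul]
    exact mul_le_mul (LSB1_single hk hdec (h0 a) (h1 a) ht).1 ih (abs_nonneg _)
      (Real.rpow_nonneg (by linarith) _)

theorem LI_integrable (hα : 1 < α) {K : ℕ} {r : ℝ} {θ : Fin K → ℝ} (hc : Cfg r θ)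
    (hN : 2 < 1 + r + ∑ k, θ k) : IntegrableOn (fun t => t * Wt α r t * Pt α θ t) (Ioi 0) := by
  obtain ⟨k, hk, hdec⟩ := ls_dec hα
  have hθ0 : ∀ i, 0 ≤ θ i := fun i => hc.r0.trans (hc.lo i)
  have hdom := ((one_add_rpow_tail (u := k) (r := r + ∑ i, θ i) (a := 0) hk (by linarith)
    le_rfl).1).const_mul (2 + (1 + 2 * k) / k)
  have hcont : ContinuousOn (fun t => t * Wt α r t * Pt α θ t) (Ici 0) := by
    unfold Wt Pt
    have hPhi := n09_Phi_cont hα (c := 1) zero_le_one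
    have hPhi1 := n09_Phi1_cont hα (c := 1) zero_le_one
    simp only [one_mul] at hPhi hPhi1
    refine (continuousOn_id.mul ((hPhi1.mul (n09_Phi_cont hα hc.r0)).sub
      (hPhi.mul (n09_Phi1_cont hα hc.r0)))).mul ?_
    exact continuousOn_finsetProd _ (fun i _ => n09_Phi_cont hα (hθ0 i))
  refine Integrable.mono' hdom
    ((hcont.mono Ioi_subset_Ici_self).aestronglyMeasurable measurableSet_Ioi) ?_
  refine (ae_restrict_iff' measurableSet_Ioi).2 (Eventually.of_forall ?_)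
  intro t ht
  have ht0 : (0 : ℝ) < t := ht
  have hkt : 0 < k * t := mul_pos hk ht0
  have hrt : 0 ≤ r * t := mul_nonneg hc.r0 ht0.le
  have hr1 := (LSB1_single hk hdec hc.r0 hc.r1.le ht0.le)
  have hP := LSB1_prod hk hdec Finset.univ hθ0 hc.hi ht0.le
  -- t |Phi1 t| ≤ 2, t |Phi t| ≤ 1/k
  have h1 : t * |Phi1 α t| ≤ 2 := by
    have := ls_dec1 hα ht0
    rw [le_div_iff₀ ht0] at this
    linarith
  have h2 : t * |Phi α t| ≤ 1 / k := by
    have h := hdec t ht0.le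
    calc t * |Phi α t| ≤ t * (1 + k * t)⁻¹ := mul_le_mul_of_nonneg_left h ht0.le
      _ ≤ 1 / k := by
        rw [← div_eq_mul_inv, div_le_div_iff₀ (by linarith) hk]
        nlinarith
  have h3 : |Phi1 α (r * t)| ≤ (1 + 2 * k) * (1 + k * t) ^ (-r) := by
    have ha := Phi1_abs_le hα hrt
    have hb : r * t * |Phi1 α (r * t)| ≤ 2 := by
      rcases hrt.eq_or_lt with h | h
      · rw [← h]; norm_num
      · have := ls_dec1 hα h
        rw [le_div_iff₀ h] at this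
        linarith
    have hc' : (1 + k * (r * t)) * |Phi1 α (r * t)| ≤ 1 + 2 * k := by
      nlinarith [mul_le_mul_of_nonneg_left hb hk.le]
    have hd : 0 < 1 + k * (r * t) := by nlinarith [mul_nonneg hk.le hrt]
    calc |Phi1 α (r * t)| = ((1 + k * (r * t)) * |Phi1 α (r * t)|) * (1 + k * (r * t))⁻¹ := by
          field_simp
      _ ≤ (1 + 2 * k) * (1 + k * (r * t))⁻¹ := by
          exact mul_le_mul_of_nonneg_right hc' (inv_nonneg.2 hd.le)
      _ ≤ (1 + 2 * k) * (1 + k * t) ^ (-r) :=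
          mul_le_mul_of_nonneg_left hr1.2 (by linarith)
  have hX : 0 ≤ (1 + k * t) ^ (-r) := Real.rpow_nonneg (by linarith) _
  have h4 : |t * Wt α r t| ≤ (2 + (1 + 2 * k) / k) * (1 + k * t) ^ (-r) := by
    have e : t * Wt α r t = (t * Phi1 α t) * Phi α (r * t) + -((t * Phi α t) * Phi1 α (r * t)) := by
      unfold Wt; ring
    rw [e]
    refine (abs_add_le _ _).trans ?_
    rw [abs_neg, abs_mul, abs_mul, abs_mul, abs_mul, abs_of_pos ht0]
    have ha : t * |Phi1 α t| * |Phi α (r * t)| ≤ 2 * (1 + k * t) ^ (-r) :=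
      mul_le_mul h1 hr1.1 (abs_nonneg _) (by norm_num)
    have hb : t * |Phi α t| * |Phi1 α (r * t)| ≤ 1 / k * ((1 + 2 * k) * (1 + k * t) ^ (-r)) :=
      mul_le_mul h2 h3 (abs_nonneg _) (by positivity)
    calc _ ≤ 2 * (1 + k * t) ^ (-r) + 1 / k * ((1 + 2 * k) * (1 + k * t) ^ (-r)) := add_le_add ha hb
      _ = _ := by ring
  rw [Real.norm_eq_abs, abs_mul]
  calc |t * Wt α r t| * |Pt α θ t|
      ≤ ((2 + (1 + 2 * k) / k) * (1 + k * t) ^ (-r)) * (1 + k * t) ^ (-(∑ i, θ i)) :=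
        mul_le_mul h4 hP (abs_nonneg _) (mul_nonneg (by positivity) hX)
    _ = (2 + (1 + 2 * k) / k) * (1 + k * t) ^ (-(r + ∑ i, θ i)) := by
        rw [neg_add, Real.rpow_add (by linarith)]; ring

end LpSec.LS
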