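import Mathlib
import Pool.Agent.Lib.MP_1dbab3_gt.LS.Def

/-!
# LS-B2, LS-B3: the maximiser argument

`LSB2_maxR`, `LSB2_max` are `ls_maxR`, `ls_max` (`Base.lean`) with the decay (`ls_dec`, `ls_dec1`) as
a hypothesis; `ls_maxR` is the variant on the region `ρ * x i ≤ x j` for all `i j`.
-/

open Real MeasureTheory Set Filter Topology

namespace LpSec.LS

variable {α : ℝ}

/-- decay of `Phi` and `Phi1` with constants -/
structure LSB2_Dec (α k C : ℝ) : Prop where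
  one_lt : 1 < α
  kpos : 0 < k
  Cpos : 0 < C
  dec0 : ∀ s : ℝ, 0 ≤ s → |Phi α s| ≤ (1 + k * s)⁻¹
  dec1 : ∀ s : ℝ, 0 ≤ s → |Phi1 α s| ≤ C * (1 + k * s)⁻¹

variable {k C : ℝ}

theorem LSB2_one (hk : 0 < k) {x u s : ℝ} (hx : 0 ≤ x) (hu : 0 < u) (hxu : x ≤ u) (hs : 0 ≤ s) :
    (1 + k * (x * s))⁻¹ ≤ (1 + k * u * s) ^ (-(x / u)) := by
  have h := n09_one (x := x) (u := u) (s := k * s) hx hu hxu (by positivity)
  have h1 : x * (k * s) = k * (x * s) := by ring
  have h2 : u * (k * s) = k * u * s := by ring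
  rwa [h1, h2] at h

theorem LSB2_prod (hg : LSB2_Dec α k C) {n : ℕ} (T : Finset (Fin n)) {x : Fin n → ℝ}
    (hx : ∀ i, 0 ≤ x i) {u s : ℝ} (hu : 0 < u) (hxu : ∀ i, x i ≤ u) (hs : 0 ≤ s) :
    ∏ i ∈ T, |Phi α (x i * s)| ≤ (1 + k * u * s) ^ (-((∑ i ∈ T, x i) / u) : ℝ) := by
  have hus : 0 ≤ k * u * s := mul_nonneg (mul_nonneg hg.kpos.le hu.le) hs
  classical
  induction T using Finset.induction_on with
  | empty => simp
  | insert a T ha ih =>
    rw [Finset.prod_insert ha, Finset.sum_insert ha, add_div, neg_add,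
      Real.rpow_add (by linarith)]
    exact mul_le_mul ((hg.dec0 _ (mul_nonneg (hx a) hs)).trans
      (LSB2_one hg.kpos (hx a) hu (hxu a) hs)) ih
      (Finset.prod_nonneg fun i _ => abs_nonneg _) (Real.rpow_nonneg (by linarith) _)

theorem LSB2_bound0 (hg : LSB2_Dec α k C) {n : ℕ} {x : Fin n → ℝ} (hx : ∀ i, 0 ≤ x i)
    (h1 : ∑ i, x i = 1) (hx4 : ∀ i, x i ≤ 0.4) {s : ℝ} (hs : 0 ≤ s) :
    ‖∏ i, Phi α (x i * s)‖ ≤ (1 + k * 0.4 * s) ^ (-(5 / 2) : ℝ) := by
  have h := LSB2_prod hg Finset.univ hx (u := 0.4) (by norm_num) hx4 hs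
  rw [h1] at h
  rw [Real.norm_eq_abs, Finset.abs_prod]
  refine h.trans (le_of_eq ?_)
  norm_num

theorem LSB2_k4 (hg : LSB2_Dec α k C) : 0 < k * 0.4 := by
  have := hg.kpos
  positivity

theorem LSB2_integrable (hg : LSB2_Dec α k C) {n : ℕ} {x : Fin n → ℝ} (hx : ∀ i, 0 ≤ x i)
    (h1 : ∑ i, x i = 1) (hx4 : ∀ i, x i ≤ 0.4) :
    IntegrableOn (fun s => ∏ i, Phi α (x i * s)) (Ioi 0) := by
  refine Integrable.mono' (int_tail (u := k * 0.4) (r := 5 / 2) (LSB2_k4 hg) (by norm_num)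
    le_rfl).1 (N08_meas hg.one_lt hx) ?_
  filter_upwards [ae_restrict_mem measurableSet_Ioi] with s hs
  exact LSB2_bound0 hg hx h1 hx4 (le_of_lt hs)

theorem LSB2_J_continuousOn (hg : LSB2_Dec α k C) (n : ℕ) :
    ContinuousOn (J α (n := n)) {x | (∀ i, 0 ≤ x i) ∧ ∑ i, x i = 1 ∧ ∀ i, x i ≤ 0.4} := by
  unfold J
  refine continuousOn_of_dominated (bound := fun s => (1 + k * 0.4 * s) ^ (-(5 / 2) : ℝ)) ?_ ?_
    (int_tail (u := k * 0.4) (r := 5 / 2) (LSB2_k4 hg) (by norm_num) le_rfl).1 ?_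
  · intro x hx
    exact N08_meas hg.one_lt hx.1
  · intro x hx
    filter_upwards [ae_restrict_mem measurableSet_Ioi] with s hs
    exact LSB2_bound0 hg hx.1 hx.2.1 hx.2.2 (le_of_lt hs)
  · filter_upwards [ae_restrict_mem measurableSet_Ioi] with s hs
    refine continuousOn_finsetProd _ fun i _ => ?_
    refine (Phi_continuousOn hg.one_lt).comp (by fun_prop) ?_
    intro x hx
    exact mul_nonneg (hx.1 i) (le_of_lt hs)

theorem LSB2_bound (hg : LSB2_Dec α k C) {n : ℕ} {x : Fin n → ℝ} (hx : ∀ i, 0 ≤ x i)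
    (h1 : ∑ i, x i = 1) (hx4 : ∀ i, x i ≤ 0.4) {i j : Fin n} (hij : i ≠ j) {s : ℝ} (hs : 0 ≤ s) :
    ‖s * (Phi1 α (x i * s) * Phi α (x j * s) -
      Phi α (x i * s) * Phi1 α (x j * s)) * Rf α x i j s‖ ≤
      2 * C / (k * 0.4) * (1 + k * 0.4 * s) ^ (-(3 / 2) : ℝ) := by
  have hu : (0 : ℝ) < 0.4 := by norm_num
  have hC := hg.Cpos
  have hk4 := LSB2_k4 hg
  have hpos : (0 : ℝ) < 1 + k * 0.4 * s := by positivity
  have hR : |Rf α x i j s| ≤
      (1 + k * 0.4 * s) ^ (-((∑ l ∈ (Finset.univ.erase i).erase j, x l) / 0.4) : ℝ) := by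
    unfold Rf
    rw [Finset.abs_prod]
    exact LSB2_prod hg _ hx hu hx4 hs
  have hi0 : 0 ≤ x i * s := mul_nonneg (hx i) hs
  have hj0 : 0 ≤ x j * s := mul_nonneg (hx j) hs
  have ai := LSB2_one hg.kpos (hx i) hu (hx4 i) hs
  have aj := LSB2_one hg.kpos (hx j) hu (hx4 j) hs
  have hi := (hg.dec0 _ hi0).trans ai
  have hj := (hg.dec0 _ hj0).trans aj
  have hi1 : |Phi1 α (x i * s)| ≤ C * (1 + k * 0.4 * s) ^ (-(x i / 0.4)) :=
    (hg.dec1 _ hi0).trans (mul_le_mul_of_nonneg_left ai hC.le)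
  have hj1 : |Phi1 α (x j * s)| ≤ C * (1 + k * 0.4 * s) ^ (-(x j / 0.4)) :=
    (hg.dec1 _ hj0).trans (mul_le_mul_of_nonneg_left aj hC.le)
  set pi' := (1 + k * 0.4 * s) ^ (-(x i / 0.4)) with hpi
  set pj' := (1 + k * 0.4 * s) ^ (-(x j / 0.4)) with hpj
  set pr := (1 + k * 0.4 * s) ^ (-((∑ l ∈ (Finset.univ.erase i).erase j, x l) / 0.4) : ℝ) with hpr
  have hpi0 : 0 < pi' := rpow_pos_of_pos hpos _
  have hpj0 : 0 < pj' := rpow_pos_of_pos hpos _
  have hpr0 : 0 < pr := rpow_pos_of_pos hpos _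
  have hprod : pi' * (pj' * pr) = (1 + k * 0.4 * s) ^ (-(5 / 2) : ℝ) := by
    rw [hpi, hpj, hpr, ← rpow_add hpos, ← rpow_add hpos]
    congr 1
    have := n09_split_sum x hij
    rw [h1] at this
    have e : ∑ l ∈ (Finset.univ.erase i).erase j, x l = 1 - x i - x j := by linarith
    rw [e]
    norm_num
    ring
  have hA : |Phi1 α (x i * s) * Phi α (x j * s)| ≤ C * (pi' * pj') := by
    rw [abs_mul]
    calc |Phi1 α (x i * s)| * |Phi α (x j * s)| ≤ (C * pi') * pj' :=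
          mul_le_mul hi1 hj (abs_nonneg _) (by positivity)
      _ = C * (pi' * pj') := by ring
  have hB : |Phi α (x i * s) * Phi1 α (x j * s)| ≤ C * (pi' * pj') := by
    rw [abs_mul]
    calc |Phi α (x i * s)| * |Phi1 α (x j * s)| ≤ pi' * (C * pj') :=
          mul_le_mul hi hj1 (abs_nonneg _) (by positivity)
      _ = C * (pi' * pj') := by ring
  have hD : |Phi1 α (x i * s) * Phi α (x j * s) - Phi α (x i * s) * Phi1 α (x j * s)| ≤
      2 * C * (pi' * pj') := (abs_sub _ _).trans (by linarith)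
  have hs1 : s ≤ 1 / (k * 0.4) * (1 + k * 0.4 * s) := by
    rw [mul_add, mul_one, ← mul_assoc, one_div, inv_mul_cancel₀ hk4.ne', one_mul]
    have : 0 < (k * 0.4)⁻¹ := by positivity
    linarith
  rw [Real.norm_eq_abs, abs_mul, abs_mul, abs_of_nonneg hs]
  calc s * |Phi1 α (x i * s) * Phi α (x j * s) - Phi α (x i * s) * Phi1 α (x j * s)| *
        |Rf α x i j s| ≤ (1 / (k * 0.4) * (1 + k * 0.4 * s)) * (2 * C * (pi' * pj')) * pr := by
        refine mul_le_mul ?_ hR (abs_nonneg _) (by positivity)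
        exact mul_le_mul hs1 hD (abs_nonneg _) (by positivity)
    _ = 2 * C / (k * 0.4) * ((1 + k * 0.4 * s) ^ (1 : ℝ) * (pi' * (pj' * pr))) := by
        rw [rpow_one]; ring
    _ = 2 * C / (k * 0.4) * (1 + k * 0.4 * s) ^ (-(3 / 2) : ℝ) := by
        rw [hprod, ← rpow_add hpos]
        norm_num

theorem LSB2_dom (hg : LSB2_Dec α k C) : IntegrableOn
    (fun s : ℝ => 2 * C / (k * 0.4) * (1 + k * 0.4 * s) ^ (-(3 / 2) : ℝ)) (Ioi 0) :=
  (int_tail (u := k * 0.4) (r := 3 / 2) (LSB2_k4 hg) (by norm_num) le_rfl).1.const_mul _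

/-- the moved point -/
theorem LSB2_mv {n : ℕ} {x : Fin n → ℝ} (hx : ∀ i, 0 ≤ x i) (hx4 : ∀ i, x i ≤ 0.4) {i j : Fin n}
    (hij : i ≠ j) {r : ℝ} (h0 : 0 ≤ r) (h1 : r ≤ x i) (h2 : x j + r ≤ 0.4) :
    (∀ l, 0 ≤ mv x i j r l) ∧ (∀ l, mv x i j r l ≤ 0.4) := by
  have key : ∀ l, 0 ≤ mv x i j r l ∧ mv x i j r l ≤ 0.4 := by
    intro l
    rcases eq_or_ne l j with rfl | hlj
    · rw [n09_mv_j]
      exact ⟨by linarith [hx l], h2⟩
    · rcases eq_or_ne l i with rfl | hli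
      · rw [n09_mv_i x hij]
        exact ⟨by linarith, by linarith [hx4 l]⟩
      · rw [n09_mv_k x hli hlj]
        exact ⟨hx l, hx4 l⟩
  exact ⟨fun l => (key l).1, fun l => (key l).2⟩

theorem LSB2_deriv (hg : LSB2_Dec α k C) {n : ℕ} {x : Fin n → ℝ} (hx : ∀ i, 0 ≤ x i)
    (h1 : ∑ i, x i = 1) (hx4 : ∀ i, x i ≤ 0.4) {i j : Fin n} (hij : i ≠ j) {t : ℝ} (ht : 0 < t)
    (ht' : t < x i) (hj : x j + t < 0.4) :
    HasDerivAt (fun t => J α (mv x i j t)) (IJ α (mv x i j t) i j) t := by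
  have hα := hg.one_lt
  have hU : Ioo 0 (min (x i) (0.4 - x j)) ∈ 𝓝 t :=
    Ioo_mem_nhds ht (lt_min ht' (by linarith))
  have hy : ∀ r ∈ Ioo 0 (min (x i) (0.4 - x j)), (∀ l, 0 ≤ mv x i j r l) ∧
      (∀ l, mv x i j r l ≤ 0.4) := by
    intro r hr
    have hr0 := hr.1
    have hr1 := lt_of_lt_of_le hr.2 (min_le_left _ _)
    have hr2 := lt_of_lt_of_le hr.2 (min_le_right _ _)
    exact LSB2_mv hx hx4 hij hr0.le hr1.le (by linarith)
  have htU : t ∈ Ioo 0 (min (x i) (0.4 - x j)) := mem_of_mem_nhds hU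
  have hsum : ∀ r, ∑ l, mv x i j r l = 1 := fun r => (mv_sum x hij r).trans h1
  have h := hasDerivAt_integral_of_dominated_loc_of_deriv_le
    (μ := volume.restrict (Ioi (0 : ℝ)))
    (F := fun t s => ∏ l, Phi α (mv x i j t l * s))
    (F' := fun t s => s * (Phi1 α (mv x i j t i * s) * Phi α (mv x i j t j * s) -
      Phi α (mv x i j t i * s) * Phi1 α (mv x i j t j * s)) * Rf α (mv x i j t) i j s)
    (x₀ := t) (bound := fun s : ℝ => 2 * C / (k * 0.4) * (1 + k * 0.4 * s) ^ (-(3 / 2) : ℝ))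
    hU ?_ ?_ ?_ ?_ (LSB2_dom hg) ?_
  · exact h.2
  · filter_upwards [hU] with r hr
    exact ((prod_continuousOn hα (hy r hr).1).mono Ioi_subset_Ici_self).aestronglyMeasurable
      measurableSet_Ioi
  · exact LSB2_integrable hg (hy t htU).1 (hsum t) (hy t htU).2
  · exact n09_meas hα (hy t htU).1 i j
  · refine (ae_restrict_mem measurableSet_Ioi).mono (fun s hs r hr => ?_)
    exact LSB2_bound hg (hy r hr).1 (hsum r) (hy r hr).2 hij (le_of_lt hs)
  · refine (ae_restrict_mem measurableSet_Ioi).mono (fun s hs r hr => ?_)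
    exact n09_deriv hα hx hij hr.1 (lt_of_lt_of_le hr.2 (min_le_left _ _)) hs

/-- continuity of the derivative up to `t = 0` -/
theorem LSB2_IJ_cont (hg : LSB2_Dec α k C) {n : ℕ} {x : Fin n → ℝ} (hx : ∀ i, 0 ≤ x i)
    (h1 : ∑ i, x i = 1) (hx4 : ∀ i, x i ≤ 0.4) {i j : Fin n} (hij : i ≠ j) {t0 : ℝ}
    (ht' : t0 ≤ x i) (hj : x j + t0 ≤ 0.4) :
    ContinuousOn (fun t => IJ α (mv x i j t) i j) (Icc 0 t0) := by
  have hα := hg.one_lt
  have hy : ∀ r ∈ Icc 0 t0, (∀ l, 0 ≤ mv x i j r l) ∧ (∀ l, mv x i j r l ≤ 0.4) := by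
    intro r hr
    exact LSB2_mv hx hx4 hij hr.1 (hr.2.trans ht') (by linarith [hr.2])
  have hsum : ∀ r, ∑ l, mv x i j r l = 1 := fun r => (mv_sum x hij r).trans h1
  unfold IJ
  refine continuousOn_of_dominated
    (bound := fun s : ℝ => 2 * C / (k * 0.4) * (1 + k * 0.4 * s) ^ (-(3 / 2) : ℝ)) ?_ ?_
    (LSB2_dom hg) ?_
  · intro r hr
    exact n09_meas hα (hy r hr).1 i j
  · intro r hr
    refine (ae_restrict_mem measurableSet_Ioi).mono (fun s hs => ?_)
    exact LSB2_bound hg (hy r hr).1 (hsum r) (hy r hr).2 hij (le_of_lt hs)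
  · refine (ae_restrict_mem measurableSet_Ioi).mono (fun s hs => ?_)
    have hs0 : (0 : ℝ) ≤ s := le_of_lt hs
    have e : (fun r => s * (Phi1 α (mv x i j r i * s) * Phi α (mv x i j r j * s) -
        Phi α (mv x i j r i * s) * Phi1 α (mv x i j r j * s)) * Rf α (mv x i j r) i j s) =
        fun r => s * (Phi1 α ((x i - r) * s) * Phi α ((x j + r) * s) -
          Phi α ((x i - r) * s) * Phi1 α ((x j + r) * s)) * Rf α x i j s := by
      funext r
      rw [n09_Rf, n09_mv_i x hij, n09_mv_j]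
    rw [e]
    have ci : ContinuousOn (fun r => (x i - r) * s) (Icc 0 t0) := by fun_prop
    have cj : ContinuousOn (fun r => (x j + r) * s) (Icc 0 t0) := by fun_prop
    have mi : MapsTo (fun r => (x i - r) * s) (Icc 0 t0) (Ici 0) := fun r hr =>
      mul_nonneg (by linarith [hr.2]) hs0
    have mj : MapsTo (fun r => (x j + r) * s) (Icc 0 t0) (Ici 0) := fun r hr =>
      mul_nonneg (by linarith [hr.1, hx j]) hs0
    exact (continuousOn_const.mul ((((Phi1_continuousOn hα).comp ci mi).mul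
      ((Phi_continuousOn hα).comp cj mj)).sub (((Phi_continuousOn hα).comp ci mi).mul
      ((Phi1_continuousOn hα).comp cj mj)))).mul continuousOn_const

/-- `IJ` and `LI` -/
theorem LSB2_IJ_LI {K : ℕ} {x : Fin (K + 2) → ℝ} {i j : Fin (K + 2)} (hi : 0 < x i)
    (e : ↥((Finset.univ.erase i).erase j) ≃ Fin K) :
    IJ α x i j = (x i)⁻¹ ^ 2 * LI α (x j / x i) (fun m => x (e.symm m) / x i) := by
  unfold IJ LI
  have h := integral_comp_mul_left_Ioi (fun t => t * Wt α (x j / x i) t *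
    Pt α (fun m => x (e.symm m) / x i) t) 0 hi
  rw [mul_zero] at h
  have h2 : ∀ s : ℝ, (x i * s) * Wt α (x j / x i) (x i * s) *
      Pt α (fun m => x (e.symm m) / x i) (x i * s) =
      x i * (s * (Phi1 α (x i * s) * Phi α (x j * s) -
      Phi α (x i * s) * Phi1 α (x j * s)) * Rf α x i j s) := by
    intro s
    have e1 : x j / x i * (x i * s) = x j * s := by field_simp
    have e2 : Pt α (fun m => x (e.symm m) / x i) (x i * s) = Rf α x i j s := by
      unfold Pt Rf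
      rw [← Finset.prod_coe_sort ((Finset.univ.erase i).erase j) (fun l => Phi α (x l * s)),
        ← e.symm.prod_comp]
      refine Finset.prod_congr rfl fun m _ => ?_
      congr 1
      field_simp
    unfold Wt
    rw [e1, e2]
    ring
  simp only [h2] at h
  rw [integral_const_mul, smul_eq_mul] at h
  have h3 : ∫ t in Ioi (0 : ℝ), t * Wt α (x j / x i) t *
      Pt α (fun m => x (e.symm m) / x i) t = x i * (x i * ∫ s in Ioi (0 : ℝ),
      s * (Phi1 α (x i * s) * Phi α (x j * s) -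
      Phi α (x i * s) * Phi1 α (x j * s)) * Rf α x i j s) := by
    rw [h, ← mul_assoc, mul_inv_cancel₀ hi.ne', one_mul]
  rw [h3, ← mul_assoc, ← mul_assoc]
  have h4 : (x i)⁻¹ ^ 2 * x i * x i = 1 := by
    field_simp
  rw [h4, one_mul]

theorem LSB2_maxR (hg : LSB2_Dec α k C) {K : ℕ} (hK : 2 ≤ K) {y0 B ρ : ℝ} (hρ : ρ ≤ 1)
    (hy0 : 1 / ((K : ℝ) + 2) ≤ y0) (hy1 : y0 ≤ 0.35) (hB : vv α (K + 2) ≤ B)
    (H : ∀ x : Fin (K + 2) → ℝ, (∀ i, 0 ≤ x i) → ∑ i, x i = 1 → (∀ i, x i ≤ y0) →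
      (∀ i j, ρ * x i ≤ x j) → (x ≠ fun _ => 1 / ((K + 2 : ℕ) : ℝ)) → J α x < B ∨
      ∀ (i j : Fin (K + 2)) (θ : Fin K → ℝ), (∀ k, x k ≤ x i) → (∀ k, x j ≤ x k) → x j < x i →
        Cfg (x j / x i) θ → 1 + x j / x i + ∑ k, θ k = 1 / x i → 0 < LI α (x j / x i) θ)
    {x : Fin (K + 2) → ℝ} (hx : ∀ i, 0 ≤ x i) (h1 : ∑ i, x i = 1) (hy : ∀ i, x i ≤ y0)
    (hrx : ∀ i j, ρ * x i ≤ x j) (hne : x ≠ fun _ => 1 / ((K + 2 : ℕ) : ℝ)) : J α x < B := by
  classical
  set S : Set (Fin (K + 2) → ℝ) := {x | (∀ i, 0 ≤ x i) ∧ ∑ i, x i = 1 ∧ (∀ i, x i ≤ y0) ∧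
    ∀ i j, ρ * x i ≤ x j} with hS
  have hSsub : S ⊆ {x | (∀ i, 0 ≤ x i) ∧ ∑ i, x i = 1 ∧ ∀ i, x i ≤ 0.4} := by
    intro z hz
    refine ⟨hz.1, hz.2.1, fun i => (hz.2.2.1 i).trans (hy1.trans (by norm_num))⟩
  have hJc : ContinuousOn (J α (n := K + 2)) S := (LSB2_J_continuousOn hg (K + 2)).mono hSsub
  have hcomp : IsCompact S := by
    have hc : IsClosed S := by
      have e : S = (⋂ i, {x : Fin (K + 2) → ℝ | 0 ≤ x i}) ∩ ({x | ∑ i, x i = 1} ∩
          ((⋂ i, {x : Fin (K + 2) → ℝ | x i ≤ y0}) ∩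
          ⋂ i, ⋂ j, {x : Fin (K + 2) → ℝ | ρ * x i ≤ x j})) := by
        ext z
        simp [hS]
      rw [e]
      refine IsClosed.inter (isClosed_iInter fun i => isClosed_le continuous_const
        (continuous_apply i)) (IsClosed.inter ?_ (IsClosed.inter (isClosed_iInter fun i =>
          isClosed_le (continuous_apply i) continuous_const) (isClosed_iInter fun i =>
          isClosed_iInter fun j => isClosed_le (continuous_const.mul (continuous_apply i))
            (continuous_apply j))))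
      exact isClosed_eq (continuous_finsetSum _ fun i _ => continuous_apply i) continuous_const
    have hsub : S ⊆ Set.pi univ fun _ : Fin (K + 2) => Icc (0 : ℝ) y0 := by
      intro z hz i _
      exact ⟨hz.1 i, hz.2.2.1 i⟩
    exact (isCompact_univ_pi fun _ => isCompact_Icc).of_isClosed_subset hc hsub
  have hcast : ((K + 2 : ℕ) : ℝ) = (K : ℝ) + 2 := by push_cast; ring
  have hKpos : (0 : ℝ) < (K : ℝ) + 2 := by positivity
  have hflat : (fun _ : Fin (K + 2) => 1 / ((K + 2 : ℕ) : ℝ)) ∈ S := by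
    refine ⟨fun i => by positivity, ?_, fun i => ?_, fun i j => ?_⟩
    · rw [Finset.sum_const, Finset.card_univ, Fintype.card_fin, nsmul_eq_mul, hcast]
      field_simp
    · change 1 / ((K + 2 : ℕ) : ℝ) ≤ y0
      rw [hcast]; exact hy0
    · change ρ * (1 / ((K + 2 : ℕ) : ℝ)) ≤ 1 / ((K + 2 : ℕ) : ℝ)
      exact mul_le_of_le_one_left (by positivity) hρ
  -- a nonconstant point with `J ≥ B` is never a maximiser
  have key : ∀ y ∈ S, (y ≠ fun _ => 1 / ((K + 2 : ℕ) : ℝ)) → B ≤ J α y → ∃ z ∈ S, J α y < J α z := by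
    intro y hyS hyne hyB
    obtain ⟨i, -, hi⟩ := Finset.exists_max_image Finset.univ y ⟨0, Finset.mem_univ _⟩
    obtain ⟨j, -, hj⟩ := Finset.exists_min_image Finset.univ y ⟨0, Finset.mem_univ _⟩
    replace hi : ∀ l, y l ≤ y i := fun l => hi l (Finset.mem_univ l)
    replace hj : ∀ l, y j ≤ y l := fun l => hj l (Finset.mem_univ l)
    have hlt : y j < y i := by
      rcases lt_or_eq_of_le (hi j) with h | h
      · exact h
      · exfalso
        apply hyne
        have hconst : ∀ l, y l = y i := fun l => le_antisymm (hi l) (h ▸ hj l)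
        have hs : ∑ l, y l = ((K + 2 : ℕ) : ℝ) * y i := by
          rw [Finset.sum_congr rfl fun l _ => hconst l, Finset.sum_const, Finset.card_univ,
            Fintype.card_fin, nsmul_eq_mul]
        rw [hyS.2.1] at hs
        funext l
        rw [hconst l, eq_div_iff (by rw [hcast]; exact hKpos.ne'), mul_comm]
        exact hs.symm
    have hij : i ≠ j := by
      rintro rfl
      exact lt_irrefl _ hlt
    have hi0 : 0 < y i := lt_of_le_of_lt (hyS.1 j) hlt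
    have hcard : ((Finset.univ.erase i).erase j : Finset (Fin (K + 2))).card = K := by
      rw [Finset.card_erase_of_mem (n09_mem hij), Finset.card_erase_of_mem (Finset.mem_univ i),
        Finset.card_univ, Fintype.card_fin]
      rfl
    let e : ↥((Finset.univ.erase i).erase j) ≃ Fin K := Finset.equivFinOfCardEq hcard
    have hsum : 1 + y j / y i + ∑ m, y (e.symm m) / y i = 1 / y i := by
      have h3 := n09_split_sum y hij
      rw [hyS.2.1] at h3
      have h4 : ∑ m, y (e.symm m) / y i = (∑ l ∈ (Finset.univ.erase i).erase j, y l) / y i := by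
        rw [← Finset.sum_div, ← Finset.sum_coe_sort ((Finset.univ.erase i).erase j) y,
          ← e.symm.sum_comp]
      rw [h4]
      field_simp
      linarith
    have hLI : 0 < LI α (y j / y i) (fun m => y (e.symm m) / y i) := by
      rcases H y hyS.1 hyS.2.1 hyS.2.2.1 hyS.2.2.2 hyne with h | h
      · exact absurd hyB (not_le.2 h)
      · refine h i j _ hi hj hlt ⟨div_nonneg (hyS.1 j) hi0.le, (div_lt_one hi0).2 hlt,
          fun m => div_le_div_of_nonneg_right (hj _) hi0.le, fun m => (div_le_one hi0).2 (hi _)⟩ hsum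
    have hIJ : 0 < IJ α y i j := by
      rw [LSB2_IJ_LI hi0 e]
      positivity
    have hy4 : ∀ l, y l ≤ 0.4 := (hSsub hyS).2.2
    set t1 := (y i - y j) / 2 with ht1
    have ht1pos : 0 < t1 := by rw [ht1]; linarith
    have ht1i : t1 ≤ y i := by rw [ht1]; linarith [hyS.1 j]
    have ht1j : y j + t1 ≤ 0.4 := by rw [ht1]; linarith [hy4 i]
    have hmem : ∀ t ∈ Icc (0 : ℝ) t1, mv y i j t ∈ S := by
      intro t ht
      have h6 := ht.2
      rw [ht1] at h6
      have hnn := (LSB2_mv hyS.1 hy4 hij ht.1 (ht.2.trans ht1i) (by linarith [ht.2])).1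
      have hbd : ∀ l, y j ≤ mv y i j t l ∧ mv y i j t l ≤ y i := by
        intro l
        rcases eq_or_ne l j with rfl | hlj
        · rw [n09_mv_j]
          exact ⟨by linarith [ht.1], by linarith⟩
        · rcases eq_or_ne l i with rfl | hli
          · rw [n09_mv_i y hij]
            exact ⟨by linarith, by linarith [ht.1]⟩
          · rw [n09_mv_k y hli hlj]
            exact ⟨hj l, hi l⟩
      refine ⟨hnn, (mv_sum y hij t).trans hyS.2.1, fun l => (hbd l).2.trans (hyS.2.2.1 i),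
        fun a c => ?_⟩
      rcases le_total 0 ρ with h7 | h7
      · calc ρ * mv y i j t a ≤ ρ * y i := mul_le_mul_of_nonneg_left (hbd a).2 h7
          _ ≤ y j := hyS.2.2.2 i j
          _ ≤ mv y i j t c := (hbd c).1
      · exact (mul_nonpos_of_nonpos_of_nonneg h7 (hnn a)).trans (hnn c)
    have e0 : mv y i j 0 = y := by simp [mv]
    have hIc := LSB2_IJ_cont hg hyS.1 hyS.2.1 hy4 hij ht1i ht1j
    have hev : ∀ᶠ t in 𝓝[Icc 0 t1] (0 : ℝ), 0 < IJ α (mv y i j t) i j := by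
      have h5 := (hIc 0 ⟨le_rfl, ht1pos.le⟩).tendsto
      have h6 : 0 < IJ α (mv y i j 0) i j := by rw [e0]; exact hIJ
      exact h5.eventually (lt_mem_nhds h6)
    obtain ⟨ε, hε, hεt⟩ : ∃ ε > 0, ∀ t ∈ Icc (0 : ℝ) t1, t < ε → 0 < IJ α (mv y i j t) i j := by
      rw [eventually_nhdsWithin_iff, Metric.eventually_nhds_iff] at hev
      obtain ⟨ε, hε, h⟩ := hev
      refine ⟨ε, hε, fun t ht htε => h ?_ ht⟩
      rw [Real.dist_eq, sub_zero, abs_of_nonneg ht.1]
      exact htε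
    set t0 := min (t1 / 2) (ε / 2) with ht0
    have ht0pos : 0 < t0 := lt_min (by linarith) (by linarith)
    have ht01 : t0 < t1 := (min_le_left _ _).trans_lt (by linarith)
    have ht0ε : t0 < ε := (min_le_right _ _).trans_lt (by linarith)
    have hc : ContinuousOn (fun t => J α (mv y i j t)) (Icc 0 t0) :=
      hJc.comp (n12_mv_continuous y i j).continuousOn fun t ht => hmem t ⟨ht.1, ht.2.trans ht01.le⟩
    have hder : ∀ t ∈ interior (Icc (0 : ℝ) t0), 0 < deriv (fun t => J α (mv y i j t)) t := by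
      intro t ht
      rw [interior_Icc] at ht
      have hd := LSB2_deriv hg hyS.1 hyS.2.1 hy4 hij (t := t) ht.1
        (by linarith [ht.2]) (by linarith [ht.2])
      rw [hd.deriv]
      exact hεt t ⟨ht.1.le, by linarith [ht.2]⟩ (by linarith [ht.2])
    have hmono := strictMonoOn_of_deriv_pos (convex_Icc 0 t0) hc hder
    refine ⟨mv y i j t0, hmem t0 ⟨ht0pos.le, ht01.le⟩, ?_⟩
    have h := hmono ⟨le_rfl, ht0pos.le⟩ ⟨ht0pos.le, le_rfl⟩ ht0pos
    simpa only [e0] using h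
  obtain ⟨y, hyS, hymax⟩ := hcomp.exists_isMaxOn ⟨_, hflat⟩ hJc
  have hxS : x ∈ S := ⟨hx, h1, hy, hrx⟩
  by_contra hcon
  rw [not_lt] at hcon
  by_cases hyf : y = fun _ => 1 / ((K + 2 : ℕ) : ℝ)
  · obtain ⟨z, hzS, hz⟩ := key x hxS hne hcon
    have h3 : J α z ≤ J α y := hymax hzS
    have h4 : J α y = vv α (K + 2) := by rw [hyf]; rfl
    linarith
  · obtain ⟨z, hzS, hz⟩ := key y hyS hyf (hcon.trans (hymax hxS))
    exact absurd (hymax hzS) (not_le.2 hz)

theorem LSB2_max (hg : LSB2_Dec α k C) {K : ℕ} (hK : 2 ≤ K) {y0 B : ℝ} (hy0 : 1 / ((K : ℝ) + 2) ≤ y0)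
    (hy1 : y0 ≤ 0.35) (hB : vv α (K + 2) ≤ B)
    (H : ∀ x : Fin (K + 2) → ℝ, (∀ i, 0 ≤ x i) → ∑ i, x i = 1 → (∀ i, x i ≤ y0) →
      (x ≠ fun _ => 1 / ((K + 2 : ℕ) : ℝ)) → J α x < B ∨
      ∀ (i j : Fin (K + 2)) (θ : Fin K → ℝ), (∀ k, x k ≤ x i) → (∀ k, x j ≤ x k) → x j < x i →
        Cfg (x j / x i) θ → 1 + x j / x i + ∑ k, θ k = 1 / x i → 0 < LI α (x j / x i) θ)
    {x : Fin (K + 2) → ℝ} (hx : ∀ i, 0 ≤ x i) (h1 : ∑ i, x i = 1) (hy : ∀ i, x i ≤ y0)
    (hne : x ≠ fun _ => 1 / ((K + 2 : ℕ) : ℝ)) : J α x < B := by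
  refine LSB2_maxR hg hK (ρ := 0) zero_le_one hy0 hy1 hB (fun x h0 h1 h2 _ h3 => H x h0 h1 h2 h3)
    hx h1 hy (fun i j => by rw [zero_mul]; exact hx j) hne

end LpSec.LS
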