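import Mathlib
import Pool.Agent.Lib.MP_1dbab3_gt.LS.B1
import Pool.Agent.Lib.MP_1dbab3_gt.LS.B2

/-!
# LS-B: the maximiser argument
-/

open Real MeasureTheory Set Filter Topology

namespace LpSec.LS

variable {α : ℝ}


theorem LSB2_dec (hα : 1 < α) : ∃ k C : ℝ, LSB2_Dec α k C := by
  obtain ⟨k, hk, h⟩ := ls_dec hα
  refine ⟨k, 2 * (1 + k), hα, hk, by positivity, h, ?_⟩
  intro s hs
  have hpos : 0 < 1 + k * s := by positivity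
  rw [← div_eq_mul_inv, le_div_iff₀ hpos]
  rcases le_total s 1 with h1 | h1
  · have h2 := Phi1_abs_le hα hs
    have h3 : 1 + k * s ≤ 2 * (1 + k) := by nlinarith
    calc |Phi1 α s| * (1 + k * s) ≤ 1 * (1 + k * s) :=
          mul_le_mul_of_nonneg_right h2 hpos.le
      _ ≤ 2 * (1 + k) := by linarith
  · have hs0 : 0 < s := by linarith
    have h2 := ls_dec1 hα hs0
    have h3 : 1 + k * s ≤ (1 + k) * s := by nlinarith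
    calc |Phi1 α s| * (1 + k * s) ≤ 2 / s * (1 + k * s) :=
          mul_le_mul_of_nonneg_right h2 hpos.le
      _ ≤ 2 / s * ((1 + k) * s) := mul_le_mul_of_nonneg_left h3 (by positivity)
      _ = 2 * (1 + k) := by field_simp

theorem ls_max (hα : 1 < α) {K : ℕ} (hK : 2 ≤ K) {y0 B : ℝ} (hy0 : 1 / ((K : ℝ) + 2) ≤ y0)
    (hy1 : y0 ≤ 0.35) (hB : vv α (K + 2) ≤ B)
    (H : ∀ x : Fin (K + 2) → ℝ, (∀ i, 0 ≤ x i) → ∑ i, x i = 1 → (∀ i, x i ≤ y0) →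
      (x ≠ fun _ => 1 / ((K + 2 : ℕ) : ℝ)) → J α x < B ∨
      ∀ (i j : Fin (K + 2)) (θ : Fin K → ℝ), (∀ k, x k ≤ x i) → (∀ k, x j ≤ x k) → x j < x i →
        Cfg (x j / x i) θ → 1 + x j / x i + ∑ k, θ k = 1 / x i → 0 < LI α (x j / x i) θ)
    {x : Fin (K + 2) → ℝ} (hx : ∀ i, 0 ≤ x i) (h1 : ∑ i, x i = 1) (hy : ∀ i, x i ≤ y0)
    (hne : x ≠ fun _ => 1 / ((K + 2 : ℕ) : ℝ)) : J α x < B := by
  obtain ⟨k, C, hg⟩ := LSB2_dec hα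
  exact LSB2_max hg hK hy0 hy1 hB H hx h1 hy hne

theorem ls_maxR (hα : 1 < α) {K : ℕ} (hK : 2 ≤ K) {y0 B ρ : ℝ} (hρ : ρ ≤ 1)
    (hy0 : 1 / ((K : ℝ) + 2) ≤ y0) (hy1 : y0 ≤ 0.35) (hB : vv α (K + 2) ≤ B)
    (H : ∀ x : Fin (K + 2) → ℝ, (∀ i, 0 ≤ x i) → ∑ i, x i = 1 → (∀ i, x i ≤ y0) →
      (∀ i j, ρ * x i ≤ x j) → (x ≠ fun _ => 1 / ((K + 2 : ℕ) : ℝ)) → J α x < B ∨
      ∀ (i j : Fin (K + 2)) (θ : Fin K → ℝ), (∀ k, x k ≤ x i) → (∀ k, x j ≤ x k) → x j < x i →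
        Cfg (x j / x i) θ → 1 + x j / x i + ∑ k, θ k = 1 / x i → 0 < LI α (x j / x i) θ)
    {x : Fin (K + 2) → ℝ} (hx : ∀ i, 0 ≤ x i) (h1 : ∑ i, x i = 1) (hy : ∀ i, x i ≤ y0)
    (hrx : ∀ i j, ρ * x i ≤ x j) (hne : x ≠ fun _ => 1 / ((K + 2 : ℕ) : ℝ)) : J α x < B := by
  obtain ⟨k, C, hg⟩ := LSB2_dec hα
  exact LSB2_maxR hg hK hρ hy0 hy1 hB H hx h1 hy hrx hne

end LpSec.LS
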