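import Mathlib
import Pool.Agent.Lib.MP_1dbab3_gt.LS.Def

/-!
# LS-F1: `∫_6^∞` with two square factors
-/

open Real MeasureTheory Set Filter Topology

namespace LpSec.LS

variable {α : ℝ}

theorem scale_sq_le (hα : 1 < α) {a b : ℝ} (ha : 0 < a) (hab : a ≤ b) :
    ∫ t in Ioi (6 : ℝ), Phi α (b * t) ^ 2 ≤ T2 α (6 * a) / a := by
  have hb : 0 < b := lt_of_lt_of_le ha hab
  rw [Phi_scale_sq_integral hα hb, mul_comm b 6]
  exact div_le_div₀ (T2_nonneg α _) (T2_anti hα (by positivity) (by linarith)) ha hab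

/-- the largest and the second largest of the `θ k` -/
theorem two_large {K : ℕ} (hK : 2 ≤ K) {r : ℝ} {θ : Fin K → ℝ} (hc : Cfg r θ) :
    ∃ i j, i ≠ j ∧ (∑ k, θ k) / K ≤ θ i ∧ (∑ k, θ k - 1) / ((K : ℝ) - 1) ≤ θ j := by
  have hK2 : (2 : ℝ) ≤ K := by exact_mod_cast hK
  have : Nonempty (Fin K) := ⟨⟨0, by omega⟩⟩
  obtain ⟨i, -, hi⟩ := Finset.exists_max_image (Finset.univ : Finset (Fin K)) θ
    Finset.univ_nonempty
  have hcard : (Finset.univ.erase i : Finset (Fin K)).card = K - 1 := by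
    rw [Finset.card_erase_of_mem (Finset.mem_univ _), Finset.card_univ, Fintype.card_fin]
  have hne : (Finset.univ.erase i : Finset (Fin K)).Nonempty := by
    rw [← Finset.card_pos, hcard]
    omega
  obtain ⟨j, hj1, hj⟩ := Finset.exists_max_image (Finset.univ.erase i) θ hne
  refine ⟨i, j, (Finset.ne_of_mem_erase hj1).symm, ?_, ?_⟩
  · rw [div_le_iff₀ (by linarith)]
    have h := Finset.sum_le_card_nsmul Finset.univ θ (θ i) (fun k hk => hi k hk)
    rw [Finset.card_univ, Fintype.card_fin, nsmul_eq_mul] at h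
    linarith
  · rw [div_le_iff₀ (by linarith)]
    have h := Finset.sum_le_card_nsmul (Finset.univ.erase i) θ (θ j) (fun k hk => hj k hk)
    rw [hcard, nsmul_eq_mul, Nat.cast_sub (by omega), Nat.cast_one] at h
    have h2 := Finset.add_sum_erase Finset.univ θ (Finset.mem_univ i)
    have h3 := hc.hi i
    linarith

/-- a pair of square integrable factors on `(6, ∞)` -/
theorem LSF1_pair (hα : 1 < α) {a b τ σ : ℝ} (hτ0 : 0 < τ) (hσ0 : 0 < σ) (hτ : τ ≤ a)
    (hσ : σ ≤ b) :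
    IntegrableOn (fun t => |Phi α (a * t)| * |Phi α (b * t)|) (Ioi 6) ∧
    ∫ t in Ioi (6 : ℝ), |Phi α (a * t)| * |Phi α (b * t)| ≤
      (T2 α (6 * τ) / τ + T2 α (6 * σ) / σ) / 2 := by
  have ha : 0 < a := lt_of_lt_of_le hτ0 hτ
  have hb : 0 < b := lt_of_lt_of_le hσ0 hσ
  have h6 : Ioi (6 : ℝ) ⊆ Ioi 0 := Ioi_subset_Ioi (by norm_num)
  have hA : IntegrableOn (fun t => Phi α (a * t) ^ 2) (Ioi 6) :=
    (Phi_scale_sq_integrable hα ha).mono_set h6
  have hB : IntegrableOn (fun t => Phi α (b * t) ^ 2) (Ioi 6) :=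
    (Phi_scale_sq_integrable hα hb).mono_set h6
  have hS : IntegrableOn (fun t => (Phi α (a * t) ^ 2 + Phi α (b * t) ^ 2) / 2) (Ioi 6) :=
    (hA.add hB).div_const 2
  have hle : ∀ t : ℝ, |Phi α (a * t)| * |Phi α (b * t)| ≤
      (Phi α (a * t) ^ 2 + Phi α (b * t) ^ 2) / 2 := by
    intro t
    rw [← sq_abs (Phi α (a * t)), ← sq_abs (Phi α (b * t))]
    nlinarith [sq_nonneg (|Phi α (a * t)| - |Phi α (b * t)|)]
  have hcont : ∀ c : ℝ, 0 < c → ContinuousOn (fun t => |Phi α (c * t)|) (Ioi 6) := by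
    intro c hc
    refine ContinuousOn.abs ((Phi_continuousOn hα).comp (by fun_prop) ?_)
    intro t ht
    have h1 : (6 : ℝ) < t := ht
    exact mem_Ici.2 (mul_nonneg hc.le (by linarith))
  have hI : IntegrableOn (fun t => |Phi α (a * t)| * |Phi α (b * t)|) (Ioi 6) := by
    refine Integrable.mono' hS ?_ ?_
    · exact ((hcont a ha).mul (hcont b hb)).aestronglyMeasurable measurableSet_Ioi
    · refine Eventually.of_forall fun t => ?_
      rw [norm_eq_abs, abs_of_nonneg (mul_nonneg (abs_nonneg _) (abs_nonneg _))]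
      exact hle t
  refine ⟨hI, (setIntegral_mono hI hS hle).trans ?_⟩
  have h1 : ∫ t in Ioi (6 : ℝ), (Phi α (a * t) ^ 2 + Phi α (b * t) ^ 2) / 2 =
      ((∫ t in Ioi (6 : ℝ), Phi α (a * t) ^ 2) + ∫ t in Ioi (6 : ℝ), Phi α (b * t) ^ 2) / 2 := by
    rw [integral_div, integral_add hA hB]
  rw [h1]
  have h2 := scale_sq_le hα hτ0 hτ
  have h3 := scale_sq_le hα hσ0 hσ
  linarith

theorem LSF1_cont (hα : 1 < α) {K : ℕ} {r : ℝ} {θ : Fin K → ℝ} (hc : Cfg r θ) :
    ContinuousOn (fun t => |Pt α θ t|) (Ioi 6) := by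
  refine ContinuousOn.abs ?_
  unfold Pt
  have h := prod_continuousOn hα (n := K) (x := θ) (fun i => hc.r0.trans (hc.lo i))
  exact h.mono (fun t ht => mem_Ici.2 (by
    have h1 : (6 : ℝ) < t := ht
    linarith))

theorem pair_int (hα : 1 < α) {K : ℕ} {r : ℝ} {θ : Fin K → ℝ} (hc : Cfg r θ) {i j : Fin K}
    (hij : i ≠ j) {E τ σ : ℝ} (hE0 : 0 ≤ E) (hE : ∀ s, 6 * r ≤ s → |Phi α s| ≤ E) (hτ0 : 0 < τ)
    (hσ0 : 0 < σ) (hτ : τ ≤ θ i) (hσ : σ ≤ θ j) :
    IntegrableOn (fun t => |Pt α θ t|) (Ioi 6) ∧ ∫ t in Ioi (6 : ℝ), |Pt α θ t| ≤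
      E ^ (K - 2) * ((T2 α (6 * τ) / τ + T2 α (6 * σ) / σ) / 2) := by
  obtain ⟨hI, hle⟩ := LSF1_pair hα hτ0 hσ0 hτ hσ
  have hpt : ∀ t ∈ Ioi (6 : ℝ), |Pt α θ t| ≤
      E ^ (K - 2) * (|Phi α (θ i * t)| * |Phi α (θ j * t)|) := by
    intro t ht
    have ht6 : (6 : ℝ) < t := ht
    unfold Pt
    rw [Finset.abs_prod,
      ← Finset.mul_prod_erase Finset.univ (fun k => |Phi α (θ k * t)|) (Finset.mem_univ i),
      ← Finset.mul_prod_erase (Finset.univ.erase i) (fun k => |Phi α (θ k * t)|)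
        (Finset.mem_erase.2 ⟨hij.symm, Finset.mem_univ _⟩)]
    have h1 : ∏ k ∈ (Finset.univ.erase i).erase j, |Phi α (θ k * t)| ≤
        ∏ k ∈ (Finset.univ.erase i).erase j, E := by
      refine Finset.prod_le_prod (fun k _ => abs_nonneg _) fun k _ => hE _ ?_
      have h2 := hc.lo k
      have h3 := hc.r0
      nlinarith
    rw [Finset.prod_const, Finset.card_erase_of_mem (Finset.mem_erase.2
      ⟨hij.symm, Finset.mem_univ _⟩), Finset.card_erase_of_mem (Finset.mem_univ _),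
      Finset.card_univ, Fintype.card_fin] at h1
    have h4 : K - 1 - 1 = K - 2 := by omega
    rw [h4] at h1
    calc |Phi α (θ i * t)| * (|Phi α (θ j * t)| *
          ∏ k ∈ (Finset.univ.erase i).erase j, |Phi α (θ k * t)|)
        = (|Phi α (θ i * t)| * |Phi α (θ j * t)|) *
          ∏ k ∈ (Finset.univ.erase i).erase j, |Phi α (θ k * t)| := by ring
      _ ≤ (|Phi α (θ i * t)| * |Phi α (θ j * t)|) * E ^ (K - 2) :=
        mul_le_mul_of_nonneg_left h1 (by positivity)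
      _ = E ^ (K - 2) * (|Phi α (θ i * t)| * |Phi α (θ j * t)|) := by ring
  have hI2 : IntegrableOn
      (fun t => E ^ (K - 2) * (|Phi α (θ i * t)| * |Phi α (θ j * t)|)) (Ioi 6) :=
    hI.const_mul _
  have hP : IntegrableOn (fun t => |Pt α θ t|) (Ioi 6) := by
    refine Integrable.mono' hI2 ?_ ?_
    · exact (LSF1_cont hα hc).aestronglyMeasurable measurableSet_Ioi
    · refine (ae_restrict_mem measurableSet_Ioi).mono (fun t ht => ?_)
      rw [norm_eq_abs, abs_abs]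
      exact hpt t ht
  refine ⟨hP, (setIntegral_mono_on hP hI2 measurableSet_Ioi hpt).trans ?_⟩
  rw [integral_const_mul]
  exact mul_le_mul_of_nonneg_left hle (by positivity)

/-- the same for `K ≥ K0` -/
theorem pair_int' (hα : 1 < α) {K K0 : ℕ} (hK0 : 2 ≤ K0) (hK : K0 ≤ K) {r : ℝ} {θ : Fin K → ℝ}
    (hc : Cfg r θ) (hr : 0 < r) {E : ℝ} (hE0 : 0 ≤ E) (hE1 : E ≤ 1)
    (hE : ∀ s, 6 * r ≤ s → |Phi α s| ≤ E) : ∫ t in Ioi (6 : ℝ), |Pt α θ t| ≤
      E ^ (K0 - 2) * (T2 α (6 * r) / r) := by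
  have hij : (⟨0, by omega⟩ : Fin K) ≠ ⟨1, by omega⟩ := by
    intro h
    have := congrArg Fin.val h
    simp at this
  have h := (pair_int hα hc hij hE0 hE hr hr (hc.lo _) (hc.lo _)).2
  have hT : 0 ≤ T2 α (6 * r) / r := div_nonneg (T2_nonneg α _) hr.le
  calc ∫ t in Ioi (6 : ℝ), |Pt α θ t|
      ≤ E ^ (K - 2) * ((T2 α (6 * r) / r + T2 α (6 * r) / r) / 2) := h
    _ = E ^ (K - 2) * (T2 α (6 * r) / r) := by ring
    _ ≤ E ^ (K0 - 2) * (T2 α (6 * r) / r) :=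
      mul_le_mul_of_nonneg_right (pow_le_pow_of_le_one hE0 hE1 (by omega)) hT

/-- with the factor `Phi α t` -/
theorem pair_int1 (hα : 1 < α) {K : ℕ} {r : ℝ} {θ : Fin K → ℝ} (hc : Cfg r θ) {i : Fin K}
    {E τ : ℝ} (hE0 : 0 ≤ E) (hE : ∀ s, 6 * r ≤ s → |Phi α s| ≤ E) (hτ0 : 0 < τ) (hτ : τ ≤ θ i) :
    IntegrableOn (fun t => |Phi α t| * |Pt α θ t|) (Ioi 6) ∧
    ∫ t in Ioi (6 : ℝ), |Phi α t| * |Pt α θ t| ≤
      E ^ (K - 1) * ((T2 α 6 + T2 α (6 * τ) / τ) / 2) := by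
  obtain ⟨hI, hle⟩ := LSF1_pair hα (a := 1) (b := θ i) one_pos hτ0 le_rfl hτ
  simp only [one_mul, mul_one, div_one] at hI hle
  have hpt : ∀ t ∈ Ioi (6 : ℝ), |Phi α t| * |Pt α θ t| ≤
      E ^ (K - 1) * (|Phi α t| * |Phi α (θ i * t)|) := by
    intro t ht
    have ht6 : (6 : ℝ) < t := ht
    unfold Pt
    rw [Finset.abs_prod,
      ← Finset.mul_prod_erase Finset.univ (fun k => |Phi α (θ k * t)|) (Finset.mem_univ i)]
    have h1 : ∏ k ∈ Finset.univ.erase i, |Phi α (θ k * t)| ≤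
        ∏ k ∈ Finset.univ.erase i, E := by
      refine Finset.prod_le_prod (fun k _ => abs_nonneg _) fun k _ => hE _ ?_
      have h2 := hc.lo k
      have h3 := hc.r0
      nlinarith
    rw [Finset.prod_const, Finset.card_erase_of_mem (Finset.mem_univ _),
      Finset.card_univ, Fintype.card_fin] at h1
    calc |Phi α t| * (|Phi α (θ i * t)| * ∏ k ∈ Finset.univ.erase i, |Phi α (θ k * t)|)
        = (|Phi α t| * |Phi α (θ i * t)|) *
          ∏ k ∈ Finset.univ.erase i, |Phi α (θ k * t)| := by ring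
      _ ≤ (|Phi α t| * |Phi α (θ i * t)|) * E ^ (K - 1) :=
        mul_le_mul_of_nonneg_left h1 (by positivity)
      _ = E ^ (K - 1) * (|Phi α t| * |Phi α (θ i * t)|) := by ring
  have hI2 : IntegrableOn
      (fun t => E ^ (K - 1) * (|Phi α t| * |Phi α (θ i * t)|)) (Ioi 6) :=
    hI.const_mul _
  have hcont : ContinuousOn (fun t => |Phi α t|) (Ioi 6) :=
    ((Phi_continuousOn hα).mono (fun t ht => mem_Ici.2 (by
      have h1 : (6 : ℝ) < t := ht
      linarith))).abs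
  have hP : IntegrableOn (fun t => |Phi α t| * |Pt α θ t|) (Ioi 6) := by
    refine Integrable.mono' hI2 ?_ ?_
    · exact (hcont.mul (LSF1_cont hα hc)).aestronglyMeasurable measurableSet_Ioi
    · refine (ae_restrict_mem measurableSet_Ioi).mono (fun t ht => ?_)
      rw [norm_eq_abs, abs_of_nonneg (mul_nonneg (abs_nonneg _) (abs_nonneg _))]
      exact hpt t ht
  refine ⟨hP, (setIntegral_mono_on hP hI2 measurableSet_Ioi hpt).trans ?_⟩
  rw [integral_const_mul]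
  exact mul_le_mul_of_nonneg_left hle (by positivity)

end LpSec.LS
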