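import Mathlib
import Pool.Agent.Lib.MP_1dbab3_gt.LS.Def

/-!
# LS-F2a: `∫_6^∞ |Φ(θt)|^(p/θ)`
-/

open Real MeasureTheory Set Filter Topology

namespace LpSec.LS

variable {α : ℝ}

private theorem LSF2a_core {a b g z : ℝ} (ha : 0 ≤ a) (hz : 0 ≤ z) (hg1 : a ≤ g)
    (hg2 : a + (b - 3 * a) / 7.2 ≤ g) : exp (-(3 * z)) * (a + b * z) ≤ g := by
  have hE : 1 + 3 * z + (3 * z) ^ 2 / 2 ≤ exp (3 * z) := quadratic_le_exp_of_nonneg (by positivity)
  rw [exp_neg, inv_mul_le_iff₀ (exp_pos _)]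
  have hg0 : 0 ≤ g := ha.trans hg1
  have h1 : (1 + 3 * z + (3 * z) ^ 2 / 2) * g ≤ exp (3 * z) * g :=
    mul_le_mul_of_nonneg_right hE hg0
  refine le_trans ?_ h1
  rcases le_total (b - 3 * a) 0 with hb | hb
  · have h2 : (1 + 3 * z + (3 * z) ^ 2 / 2) * a ≤ (1 + 3 * z + (3 * z) ^ 2 / 2) * g :=
      mul_le_mul_of_nonneg_left hg1 (by positivity)
    have h3 : b * z ≤ 3 * a * z := mul_le_mul_of_nonneg_right (by linarith) hz
    have h4 : 0 ≤ (3 * z) ^ 2 / 2 * a := by positivity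
    nlinarith
  · have h2 : (1 + 3 * z + (3 * z) ^ 2 / 2) * (a + (b - 3 * a) / 7.2) ≤
        (1 + 3 * z + (3 * z) ^ 2 / 2) * g := mul_le_mul_of_nonneg_left hg2 (by positivity)
    have h3 : 7.2 * z ≤ 1 + 3 * z + (3 * z) ^ 2 / 2 := by
      nlinarith [sq_nonneg (z - 0.4667)]
    have h4 : z * (b - 3 * a) ≤ (1 + 3 * z + (3 * z) ^ 2 / 2) * ((b - 3 * a) / 7.2) := by
      have h5 : z * (b - 3 * a) = (7.2 * z) * ((b - 3 * a) / 7.2) := by ring
      rw [h5]
      exact mul_le_mul_of_nonneg_right h3 (by positivity)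
    have h6 : 0 ≤ (3 * z) ^ 2 / 2 * a := by positivity
    nlinarith

private theorem LSF2a_M {M x : ℝ} (hM0 : 0 < M) (hM2 : M ≤ 0.1325) (hx : 0 ≤ x) :
    M ^ x ≤ exp (-(2 * x)) := by
  have h1 : M ≤ exp (-2) := by
    have h2 : exp 2 < 7.4 := by
      have h3 : exp 2 = exp 1 * exp 1 := by rw [← exp_add]; norm_num
      have h4 := exp_one_lt_d9
      have h5 := exp_pos 1
      rw [h3]
      nlinarith
    rw [exp_neg, le_inv_comm₀ hM0 (exp_pos _)]
    have h6 : (1 : ℝ) / 0.1325 ≤ 1 / M := one_div_le_one_div_of_le hM0 hM2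
    rw [one_div, one_div] at h6
    have h7 : (7.4 : ℝ) ≤ 0.1325⁻¹ := by norm_num
    linarith
  calc M ^ x ≤ (exp (-2)) ^ x := rpow_le_rpow hM0.le h1 hx
    _ = exp (-(2 * x)) := by rw [← exp_mul]; congr 1; ring

private theorem LSF2a_T2 (h : Lobe α) (hz6 : z1 α ≤ 6) {M : ℝ}
    (hM : ∀ s, z1 α ≤ s → |Phi α s| ≤ M) {θ : ℝ} (h1 : θ ≤ 1) {y : ℝ} (hy : z1 α ≤ y)
    (hy6 : 6 * θ ≤ y) (hyy : y ≤ 6) : T2 α y ≤ T2 α 6 + 6 * M ^ 2 * (1 - θ) := by
  have hz := h.z1_pos
  have e1 := T2_sub h.one_lt (a := y) (b := 6) (by linarith) hyy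
  have e2 : ∫ s in y..6, Phi α s ^ 2 ≤ ∫ _s in y..6, M ^ 2 := by
    refine intervalIntegral.integral_mono_on hyy ?_ (by simp) ?_
    · rw [intervalIntegrable_iff_integrableOn_Ioc_of_le hyy]
      exact (Phi_sq_integrable_Ioi h.one_lt (t := y) (by linarith)).mono_set Ioc_subset_Ioi_self
    · intro s hs
      rw [← sq_abs]
      exact pow_le_pow_left₀ (abs_nonneg _) (hM s (hy.trans hs.1)) 2
  rw [intervalIntegral.integral_const, smul_eq_mul] at e2
  have e3 : (6 - y) * M ^ 2 ≤ (6 * (1 - θ)) * M ^ 2 :=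
    mul_le_mul_of_nonneg_right (by linarith) (sq_nonneg _)
  linarith

/-- the constant of the tail, `k = 1, 2` -/
private theorem LSF2a_tail {M g a T θ p q : ℝ} {k : ℕ} (hk1 : 1 ≤ k) (hk : (k : ℝ) + 3 ≤ 2 * p)
    (hM0 : 0 < M) (hM2 : M ≤ 0.1325) (ha : 0 ≤ a) (hg1 : a ≤ g)
    (hg2 : a + (6 * M ^ 2 - 3 * a) / 7.2 ≤ g) (h0 : 0 < θ) (h1 : θ ≤ 1)
    (hT : T ≤ a + 6 * M ^ 2 * (1 - θ)) (hp : 0 ≤ p) :
    M ^ (p / θ - q) * (T / θ ^ k) ≤ M ^ (p - q) * g := by
  set z := 1 / θ - 1 with hz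
  have hz1 : 1 / θ = 1 + z := by rw [hz]; ring
  have hz0 : 0 ≤ z := by
    rw [hz, sub_nonneg, le_div_iff₀ h0]
    linarith
  have hMq : 0 < M ^ (p - q) := rpow_pos_of_pos hM0 _
  have e1 : M ^ (p / θ - q) = M ^ (p - q) * M ^ (p * z) := by
    rw [← rpow_add hM0]
    congr 1
    have : p / θ = p * (1 / θ) := by ring
    rw [this, hz1]
    ring
  have e2 : T / θ ^ k ≤ (1 + z) ^ k * (a + 6 * M ^ 2 * z) := by
    have h2 : T / θ ^ k = (1 + z) ^ k * T := by
      rw [← hz1, div_pow, one_pow]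
      ring
    rw [h2]
    refine mul_le_mul_of_nonneg_left (hT.trans ?_) (by positivity)
    have h3 : 1 - θ ≤ z := by
      have h4 : θ * (1 + z) = 1 := by
        rw [← hz1]
        field_simp
      nlinarith
    have h5 : 6 * M ^ 2 * (1 - θ) ≤ 6 * M ^ 2 * z := mul_le_mul_of_nonneg_left h3 (by positivity)
    linarith
  have e3 : M ^ (p * z) * (1 + z) ^ k ≤ exp (-(3 * z)) := by
    have h2 := LSF2a_M hM0 hM2 (mul_nonneg hp hz0)
    have h3 : (1 + z) ^ k ≤ exp (k * z) := by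
      rw [exp_nat_mul]
      refine pow_le_pow_left₀ (by positivity) ?_ k
      linarith [add_one_le_exp z]
    calc M ^ (p * z) * (1 + z) ^ k ≤ exp (-(2 * (p * z))) * exp (k * z) := by gcongr
      _ = exp (-(2 * (p * z)) + k * z) := by rw [exp_add]
      _ ≤ exp (-(3 * z)) := by
        rw [exp_le_exp]
        nlinarith
  have hab : 0 ≤ a + 6 * M ^ 2 * z := by positivity
  calc M ^ (p / θ - q) * (T / θ ^ k)
      ≤ (M ^ (p - q) * M ^ (p * z)) * ((1 + z) ^ k * (a + 6 * M ^ 2 * z)) := by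
        rw [e1]
        exact mul_le_mul_of_nonneg_left e2 (by positivity)
    _ = M ^ (p - q) * ((M ^ (p * z) * (1 + z) ^ k) * (a + 6 * M ^ 2 * z)) := by ring
    _ ≤ M ^ (p - q) * (exp (-(3 * z)) * (a + 6 * M ^ 2 * z)) := by gcongr
    _ ≤ M ^ (p - q) * g := by
        refine mul_le_mul_of_nonneg_left ?_ hMq.le
        exact LSF2a_core ha hz0 hg1 hg2

/-- integration: `f ≤ E` below `c`, `f ≤ C Φ(θ·)²` beyond -/
private theorem LSF2a_int (h : Lobe α) {θ C c : ℝ} (h0 : 0 < θ) (hC : 0 ≤ C) {f E : ℝ → ℝ}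
    (hf0 : ∀ t, 6 < t → 0 ≤ f t) (hfm : AEStronglyMeasurable f (volume.restrict (Ioi 6)))
    (hE0 : ∀ t, 6 < t → 0 ≤ E t) (hEi : IntegrableOn E (Ioi 6)) (hc : 6 ≤ c)
    (hf1 : ∀ t, 6 < t → t ≤ c → f t ≤ E t) (hf2 : ∀ t, c < t → f t ≤ C * Phi α (θ * t) ^ 2) :
    IntegrableOn f (Ioi 6) ∧
      ∫ t in Ioi (6 : ℝ), f t ≤ C * (T2 α (θ * c) / θ) + ∫ t in Ioi (6 : ℝ), E t := by
  have hsq : IntegrableOn (fun t => C * Phi α (θ * t) ^ 2) (Ioi 6) :=
    (sq_scale_integrable h.one_lt h0 (by norm_num)).const_mul C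
  have hi : IntegrableOn f (Ioi 6) := by
    refine Integrable.mono' (hEi.add hsq) hfm ?_
    refine (ae_restrict_mem measurableSet_Ioi).mono (fun t ht => ?_)
    rw [norm_eq_abs, abs_of_nonneg (hf0 t ht)]
    have e1 : 0 ≤ C * Phi α (θ * t) ^ 2 := by positivity
    have e2 := hE0 t ht
    simp only [Pi.add_apply]
    rcases le_or_gt t c with htc | htc
    · linarith [hf1 t ht htc]
    · linarith [hf2 t htc]
  refine ⟨hi, ?_⟩
  have hsplit : ∫ t in Ioi (6 : ℝ), f t = (∫ t in Ioc 6 c, f t) + ∫ t in Ioi c, f t := by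
    rw [← setIntegral_union (Ioc_disjoint_Ioi le_rfl) measurableSet_Ioi
      (hi.mono_set Ioc_subset_Ioi_self) (hi.mono_set (Ioi_subset_Ioi hc)), Ioc_union_Ioi_eq_Ioi hc]
  have k1 : ∫ t in Ioc 6 c, f t ≤ ∫ t in Ioi (6 : ℝ), E t := by
    have h1 : ∫ t in Ioc 6 c, f t ≤ ∫ t in Ioc 6 c, E t :=
      setIntegral_mono_on (hi.mono_set Ioc_subset_Ioi_self) (hEi.mono_set Ioc_subset_Ioi_self)
        measurableSet_Ioc (fun t ht => hf1 t ht.1 ht.2)
    refine h1.trans (setIntegral_mono_set hEi ?_ Ioc_subset_Ioi_self.eventuallyLE)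
    exact (ae_restrict_mem measurableSet_Ioi).mono (fun t ht => hE0 t ht)
  have k2 : ∫ t in Ioi c, f t ≤ C * (T2 α (θ * c) / θ) := by
    rw [← sq_scale α h0 c, ← integral_const_mul]
    exact setIntegral_mono_on (hi.mono_set (Ioi_subset_Ioi hc))
      (hsq.mono_set (Ioi_subset_Ioi hc)) measurableSet_Ioi (fun t ht => hf2 t ht)
  rw [hsplit]
  linarith

private theorem LSF2a_meas (h : Lobe α) {θ q : ℝ} (h0 : 0 < θ) (hq : 0 ≤ q) :
    ContinuousOn (fun t => |Phi α (θ * t)| ^ q) (Ioi 6) := by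
  refine ContinuousOn.rpow_const ?_ (fun _ _ => Or.inr hq)
  refine ContinuousOn.abs ?_
  refine (Phi_continuousOn h.one_lt).comp (by fun_prop) ?_
  intro t ht
  have : (6 : ℝ) < t := ht
  exact mem_Ici.2 (by positivity)

/-- one factor: `θ ∈ (0, 1]`, `p ≥ 2` -/
theorem one_int (h : Lobe α) (hz6 : z1 α ≤ 6) {M g : ℝ} (hM0 : 0 < M)
    (hM : ∀ s, z1 α ≤ s → |Phi α s| ≤ M) (hM2 : M ≤ 0.1325) (hg1 : T2 α 6 ≤ g)
    (hg2 : T2 α 6 + (6 * M ^ 2 - 3 * T2 α 6) / 7.2 ≤ g) {θ p : ℝ} (h0 : 0 < θ) (h1 : θ ≤ 1)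
    (hp : 2 ≤ p) : IntegrableOn (fun t => |Phi α (θ * t)| ^ (p / θ)) (Ioi 6) ∧
    ∫ t in Ioi (6 : ℝ), |Phi α (θ * t)| ^ (p / θ) ≤ M ^ (p - 2) * g + exp (-(6 * p)) / p := by
  have hz := h.z1_pos
  have hp0 : 0 < p := by linarith
  have hpθ : p ≤ p / θ := by
    rw [le_div_iff₀ h0]
    nlinarith
  set c := max 6 (z1 α / θ) with hc
  have hcθ : θ * c = max (6 * θ) (z1 α) := by
    rw [hc, mul_max_of_nonneg _ _ h0.le]
    congr 1
    · ring
    · field_simp
  have key := LSF2a_int h (c := c) h0 (C := M ^ (p / θ - 2)) (by positivity)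
    (f := fun t => |Phi α (θ * t)| ^ (p / θ)) (E := fun t => exp (-p * t))
    (fun t _ => by positivity)
    ((LSF2a_meas h h0 (by positivity)).aestronglyMeasurable measurableSet_Ioi)
    (fun t _ => (exp_pos _).le) (integrableOn_exp_mul_Ioi (by linarith) 6) (le_max_left _ _)
    (fun t ht htc => by
      have htz : t ≤ z1 α / θ := by
        rcases le_max_iff.1 htc with h2 | h2
        · linarith
        · exact h2
      rw [le_div_iff₀ h0] at htz
      have hθt : 0 ≤ θ * t := by positivity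
      have hle : θ * t ≤ z1 α := by linarith
      rw [abs_of_nonneg (h.nonneg hθt hle)]
      calc Phi α (θ * t) ^ (p / θ) ≤ exp (-(θ * t)) ^ (p / θ) :=
            rpow_le_rpow (h.nonneg hθt hle) (h.le_exp hθt hle) (by positivity)
        _ = exp (-p * t) := by
            rw [← exp_mul]
            congr 1
            field_simp)
    (fun t ht => by
      have htz : z1 α ≤ θ * t := by
        have h2 : z1 α / θ ≤ t := ((le_max_right _ _).trans_lt ht).le
        rw [div_le_iff₀ h0] at h2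
        linarith
      have hm := hM _ htz
      have ha := abs_nonneg (Phi α (θ * t))
      rcases eq_or_lt_of_le ha with h3 | h3
      · rw [← h3, zero_rpow (by positivity)]
        positivity
      · have e1 : |Phi α (θ * t)| ^ (p / θ) =
            |Phi α (θ * t)| ^ (p / θ - 2) * Phi α (θ * t) ^ 2 := by
          rw [← sq_abs, ← rpow_two, ← rpow_add h3]
          congr 1
          ring
        rw [e1]
        refine mul_le_mul_of_nonneg_right ?_ (sq_nonneg _)
        exact rpow_le_rpow ha hm (by linarith))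
  refine ⟨key.1, key.2.trans ?_⟩
  rw [integral_exp_mul_Ioi (by linarith) 6, hcθ]
  have e2 : -exp (-p * 6) / -p = exp (-(6 * p)) / p := by
    rw [neg_div_neg_eq]
    congr 2
    ring
  rw [e2]
  have hy : max (6 * θ) (z1 α) ≤ 6 := max_le (by linarith) hz6
  have e3 := LSF2a_T2 h hz6 hM h1 (le_max_right (6 * θ) (z1 α)) (le_max_left _ _) hy
  have e4 := LSF2a_tail (k := 1) (q := 2) (p := p) le_rfl (by push_cast; linarith) hM0 hM2
    (T2_nonneg α 6) hg1 hg2 h0 h1 e3 hp0.le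
  rw [pow_one] at e4
  linarith

private theorem LSF2a_texp {p : ℝ} (hp : 0 < p) :
    IntegrableOn (fun t => t * exp (-p * t)) (Ioi 6) ∧
      ∫ t in Ioi (6 : ℝ), t * exp (-p * t) = exp (-(6 * p)) * (6 / p + 1 / p ^ 2) := by
  have hd : ∀ t ∈ Ici (6 : ℝ), HasDerivAt (fun t => -(exp (-p * t) * (t / p + 1 / p ^ 2)))
      (t * exp (-p * t)) t := by
    intro t _
    have h1 : HasDerivAt (fun t : ℝ => exp (-p * t)) (exp (-p * t) * (-p)) t := by
      have := (hasDerivAt_id t).const_mul (-p)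
      simpa using this.exp
    have h2 : HasDerivAt (fun t : ℝ => t / p + 1 / p ^ 2) (1 / p) t := by
      simpa using ((hasDerivAt_id t).div_const p).add_const (1 / p ^ 2)
    have h3 := (h1.mul h2).neg
    refine h3.congr_deriv ?_
    field_simp
    ring
  have hlim : Tendsto (fun t => -(exp (-p * t) * (t / p + 1 / p ^ 2))) atTop (𝓝 0) := by
    have h1 : Tendsto (fun t : ℝ => t ^ 1 * exp (-(p * t))) atTop (𝓝 0) := by
      have := tendsto_rpow_mul_exp_neg_mul_atTop_nhds_zero 1 p hp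
      refine this.congr (fun t => ?_)
      rw [rpow_one, pow_one]
      congr 2
      ring
    have h2 : Tendsto (fun t : ℝ => exp (-(p * t))) atTop (𝓝 0) := by
      have := tendsto_rpow_mul_exp_neg_mul_atTop_nhds_zero 0 p hp
      refine this.congr (fun t => ?_)
      rw [rpow_zero, one_mul]
      congr 1
      ring
    have h3 : Tendsto (fun t : ℝ => -((t ^ 1 * exp (-(p * t))) * (1 / p) +
        exp (-(p * t)) * (1 / p ^ 2))) atTop (𝓝 (-(0 * (1 / p) + 0 * (1 / p ^ 2)))) :=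
      ((h1.mul_const _).add (h2.mul_const _)).neg
    simp only [zero_mul, add_zero, neg_zero] at h3
    refine h3.congr (fun t => ?_)
    have : -p * t = -(p * t) := by ring
    rw [this]
    ring
  have hpos : ∀ t ∈ Ioi (6 : ℝ), 0 ≤ t * exp (-p * t) := by
    intro t ht
    have : (6 : ℝ) < t := ht
    positivity
  refine ⟨integrableOn_Ioi_deriv_of_nonneg' hd hpos hlim, ?_⟩
  rw [integral_Ioi_of_hasDerivAt_of_nonneg' hd hpos hlim]
  have : -p * 6 = -(6 * p) := by ring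
  rw [this]
  ring

theorem one_int_t (h : Lobe α) (hz6 : z1 α ≤ 6) {M g b : ℝ} (hM0 : 0 < M)
    (hM : ∀ s, z1 α ≤ s → |Phi α s| ≤ M) (hM2 : M ≤ 0.1325) (hg1 : T2 α 6 ≤ g)
    (hg2 : T2 α 6 + (6 * M ^ 2 - 3 * T2 α 6) / 7.2 ≤ g)
    (hb : ∀ s, 0 < s → s * |Phi α s| ^ (4 / 3 : ℝ) ≤ b) {θ p : ℝ} (h0 : 0 < θ) (h1 : θ ≤ 1)
    (hp : 10 / 3 ≤ p) : IntegrableOn (fun t => t * |Phi α (θ * t)| ^ (p / θ)) (Ioi 6) ∧
    ∫ t in Ioi (6 : ℝ), t * |Phi α (θ * t)| ^ (p / θ) ≤
      b * M ^ (p - 10 / 3) * g + exp (-(6 * p)) * (6 / p + 1 / p ^ 2) := by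
  have hz := h.z1_pos
  have hp0 : 0 < p := by linarith
  have hpθ : p ≤ p / θ := by
    rw [le_div_iff₀ h0]
    nlinarith
  have hb0 : 0 ≤ b := le_trans (by positivity) (hb 1 one_pos)
  set c := max 6 (z1 α / θ) with hc
  have hcθ : θ * c = max (6 * θ) (z1 α) := by
    rw [hc, mul_max_of_nonneg _ _ h0.le]
    congr 1
    · ring
    · field_simp
  obtain ⟨i1, i2⟩ := LSF2a_texp hp0
  have key := LSF2a_int h (c := c) h0 (C := b / θ * M ^ (p / θ - 10 / 3)) (by positivity)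
    (f := fun t => t * |Phi α (θ * t)| ^ (p / θ)) (E := fun t => t * exp (-p * t))
    (fun t ht => by positivity)
    ((continuousOn_id.mul (LSF2a_meas h h0 (by positivity))).aestronglyMeasurable
      measurableSet_Ioi)
    (fun t ht => by positivity) i1 (le_max_left _ _)
    (fun t ht htc => by
      have htz : t ≤ z1 α / θ := by
        rcases le_max_iff.1 htc with h2 | h2
        · linarith
        · exact h2
      rw [le_div_iff₀ h0] at htz
      have hθt : 0 ≤ θ * t := by positivity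
      have hle : θ * t ≤ z1 α := by linarith
      rw [abs_of_nonneg (h.nonneg hθt hle)]
      refine mul_le_mul_of_nonneg_left ?_ (by linarith)
      calc Phi α (θ * t) ^ (p / θ) ≤ exp (-(θ * t)) ^ (p / θ) :=
            rpow_le_rpow (h.nonneg hθt hle) (h.le_exp hθt hle) (by positivity)
        _ = exp (-p * t) := by
            rw [← exp_mul]
            congr 1
            field_simp)
    (fun t ht => by
      have htz : z1 α ≤ θ * t := by
        have h2 : z1 α / θ ≤ t := ((le_max_right _ _).trans_lt ht).le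
        rw [div_le_iff₀ h0] at h2
        linarith
      have hm := hM _ htz
      have ha := abs_nonneg (Phi α (θ * t))
      rcases eq_or_lt_of_le ha with h3 | h3
      · rw [← h3, zero_rpow (by positivity), mul_zero]
        positivity
      · have e1 : |Phi α (θ * t)| ^ (p / θ) = |Phi α (θ * t)| ^ (4 / 3 : ℝ) *
            (|Phi α (θ * t)| ^ (p / θ - 10 / 3) * Phi α (θ * t) ^ 2) := by
          rw [← sq_abs, ← rpow_two, ← rpow_add h3, ← rpow_add h3]
          congr 1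
          ring
        have e2 : t * |Phi α (θ * t)| ^ (p / θ) =
            (1 / θ * (θ * t * |Phi α (θ * t)| ^ (4 / 3 : ℝ))) *
            (|Phi α (θ * t)| ^ (p / θ - 10 / 3) * Phi α (θ * t) ^ 2) := by
          rw [e1]
          field_simp
        have e3 := hb (θ * t) (by linarith)
        have e4 : |Phi α (θ * t)| ^ (p / θ - 10 / 3) ≤ M ^ (p / θ - 10 / 3) :=
          rpow_le_rpow ha hm (by linarith)
        have e5 : 1 / θ * (θ * t * |Phi α (θ * t)| ^ (4 / 3 : ℝ)) ≤ b / θ := by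
          rw [div_eq_mul_one_div b, mul_comm b]
          exact mul_le_mul_of_nonneg_left e3 (by positivity)
        rw [e2]
        calc _ ≤ b / θ * (M ^ (p / θ - 10 / 3) * Phi α (θ * t) ^ 2) := by
              refine mul_le_mul e5 (mul_le_mul_of_nonneg_right e4 (sq_nonneg _)) (by positivity)
                (by positivity)
          _ = _ := by ring)
  refine ⟨key.1, key.2.trans ?_⟩
  rw [i2, hcθ]
  have hy : max (6 * θ) (z1 α) ≤ 6 := max_le (by linarith) hz6
  have e3 := LSF2a_T2 h hz6 hM h1 (le_max_right (6 * θ) (z1 α)) (le_max_left _ _) hy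
  have e4 := LSF2a_tail (k := 2) (q := 10 / 3) (p := p) (by norm_num) (by push_cast; linarith)
    hM0 hM2 (T2_nonneg α 6) hg1 hg2 h0 h1 e3 hp0.le
  have e5 : b / θ * M ^ (p / θ - 10 / 3) * (T2 α (max (6 * θ) (z1 α)) / θ) =
      b * (M ^ (p / θ - 10 / 3) * (T2 α (max (6 * θ) (z1 α)) / θ ^ 2)) := by
    field_simp
  rw [e5]
  have e6 := mul_le_mul_of_nonneg_left e4 hb0
  linarith

end LpSec.LS
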