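import Mathlib
import Pool.Agent.Lib.MP_1dbab3_gt.LS.FarB1

/-!
# LS-F2b: amgm, amgm_int, amgm_int_t (needs one_int, one_int_t of row F2a in scope: put them before
`theorem amgm_int`)
-/

open Real MeasureTheory Set Filter Topology

namespace LpSec.LS

variable {α : ℝ}

/-- weighted AM-GM -/
theorem amgm {ι : Type*} [Fintype ι] {θ : ι → ℝ} (h0 : ∀ k, 0 ≤ θ k) {p : ℝ} (hp0 : 0 < p)
    (hp : ∑ k, θ k = p) {f : ι → ℝ} (hf : ∀ k, 0 ≤ f k) (hf0 : ∀ k, θ k = 0 → f k = 1) :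
    ∏ k, f k ≤ ∑ k, θ k / p * f k ^ (p / θ k) := by
  have h1 := Real.geom_mean_le_arith_mean_weighted Finset.univ (fun k => θ k / p)
    (fun k => f k ^ (p / θ k)) (fun k _ => div_nonneg (h0 k) hp0.le)
    (by rw [← Finset.sum_div, hp, div_self hp0.ne']) (fun k _ => rpow_nonneg (hf k) _)
  refine le_trans (le_of_eq ?_) h1
  refine Finset.prod_congr rfl fun k _ => ?_
  rcases eq_or_ne (θ k) 0 with e | e
  · simp [e, hf0 k e]
  · show f k = (f k ^ (p / θ k)) ^ (θ k / p)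
    rw [← rpow_mul (hf k), div_mul_div_cancel₀ e, div_self hp0.ne', rpow_one]

theorem LSF2b_gen (hα : 1 < α) {w : ℝ → ℝ} (hw : Continuous w) (hw0 : ∀ t, 6 < t → 0 ≤ w t)
    {ι : Type*} [Fintype ι] {θ : ι → ℝ} (h0 : ∀ k, 0 ≤ θ k) {p B : ℝ} (hp0 : 0 < p)
    (hp : ∑ k, θ k = p)
    (hB : ∀ k, 0 < θ k → IntegrableOn (fun t => w t * |Phi α (θ k * t)| ^ (p / θ k)) (Ioi 6) ∧
      ∫ t in Ioi (6 : ℝ), w t * |Phi α (θ k * t)| ^ (p / θ k) ≤ B) :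
    IntegrableOn (fun t => w t * ∏ k, |Phi α (θ k * t)|) (Ioi 6) ∧
    ∫ t in Ioi (6 : ℝ), w t * ∏ k, |Phi α (θ k * t)| ≤ B := by
  have hpt : ∀ t, 6 < t → w t * ∏ k, |Phi α (θ k * t)| ≤
      ∑ k, θ k / p * (w t * |Phi α (θ k * t)| ^ (p / θ k)) := by
    intro t ht
    have h1 := amgm h0 hp0 hp (f := fun k => |Phi α (θ k * t)|) (fun k => abs_nonneg _)
      (fun k hk => by rw [hk, zero_mul, Phi_zero hα, abs_one])
    refine (mul_le_mul_of_nonneg_left h1 (hw0 t ht)).trans (le_of_eq ?_)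
    rw [Finset.mul_sum]
    refine Finset.sum_congr rfl fun k _ => by ring
  have hint : ∀ k, IntegrableOn
      (fun t => θ k / p * (w t * |Phi α (θ k * t)| ^ (p / θ k))) (Ioi 6) := by
    intro k
    rcases eq_or_lt_of_le (h0 k) with e | e
    · simp only [← e, zero_div, zero_mul]
      exact integrableOn_zero
    · exact (hB k e).1.const_mul _
  have hsum : IntegrableOn
      (fun t => ∑ k, θ k / p * (w t * |Phi α (θ k * t)| ^ (p / θ k))) (Ioi 6) :=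
    integrable_finsetSum _ fun k _ => hint k
  have hcont : ContinuousOn (fun t => w t * ∏ k, |Phi α (θ k * t)|) (Ioi 6) := by
    refine hw.continuousOn.mul (continuousOn_finsetProd _ fun k _ => ?_)
    refine ((Phi_continuousOn hα).comp (by fun_prop) fun t ht => ?_).abs
    have : (6 : ℝ) < t := ht
    exact mul_nonneg (h0 k) (by linarith)
  have hI : IntegrableOn (fun t => w t * ∏ k, |Phi α (θ k * t)|) (Ioi 6) := by
    refine Integrable.mono' hsum (hcont.aestronglyMeasurable measurableSet_Ioi) ?_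
    refine (ae_restrict_iff' measurableSet_Ioi).2 (Filter.Eventually.of_forall fun t ht => ?_)
    have ht' : (6 : ℝ) < t := ht
    rw [Real.norm_eq_abs, abs_of_nonneg (mul_nonneg (hw0 t ht')
      (Finset.prod_nonneg fun k _ => abs_nonneg _))]
    exact hpt t ht'
  refine ⟨hI, ?_⟩
  calc ∫ t in Ioi (6 : ℝ), w t * ∏ k, |Phi α (θ k * t)|
      ≤ ∫ t in Ioi (6 : ℝ), ∑ k, θ k / p * (w t * |Phi α (θ k * t)| ^ (p / θ k)) :=
        setIntegral_mono_on hI hsum measurableSet_Ioi fun t ht => hpt t ht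
    _ = ∑ k, ∫ t in Ioi (6 : ℝ), θ k / p * (w t * |Phi α (θ k * t)| ^ (p / θ k)) :=
        integral_finsetSum _ fun k _ => hint k
    _ = ∑ k, θ k / p * ∫ t in Ioi (6 : ℝ), w t * |Phi α (θ k * t)| ^ (p / θ k) :=
        Finset.sum_congr rfl fun k _ => integral_const_mul _ _
    _ ≤ ∑ k, θ k / p * B := by
        refine Finset.sum_le_sum fun k _ => ?_
        rcases eq_or_lt_of_le (h0 k) with e | e
        · simp [← e]
        · exact mul_le_mul_of_nonneg_left (hB k e).2 (div_nonneg (h0 k) hp0.le)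
    _ = B := by rw [← Finset.sum_mul, ← Finset.sum_div, hp, div_self hp0.ne', one_mul]

theorem amgm_int (h : Lobe α) (hz6 : z1 α ≤ 6) {M g : ℝ} (hM0 : 0 < M)
    (hM : ∀ s, z1 α ≤ s → |Phi α s| ≤ M) (hM2 : M ≤ 0.1325) (hg1 : T2 α 6 ≤ g)
    (hg2 : T2 α 6 + (6 * M ^ 2 - 3 * T2 α 6) / 7.2 ≤ g) {ι : Type*} [Fintype ι] {θ : ι → ℝ}
    (h0 : ∀ k, 0 ≤ θ k) (h1 : ∀ k, θ k ≤ 1) (hp : 2 ≤ ∑ k, θ k) :
    IntegrableOn (fun t => ∏ k, |Phi α (θ k * t)|) (Ioi 6) ∧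
    ∫ t in Ioi (6 : ℝ), ∏ k, |Phi α (θ k * t)| ≤
      M ^ (∑ k, θ k - 2) * g + exp (-(6 * ∑ k, θ k)) / ∑ k, θ k := by
  have h2 := LSF2b_gen h.one_lt (w := fun _ => (1 : ℝ)) continuous_const
    (fun _ _ => zero_le_one) h0 (lt_of_lt_of_le two_pos hp) rfl
    (B := M ^ (∑ k, θ k - 2) * g + exp (-(6 * ∑ k, θ k)) / ∑ k, θ k)
    (fun k hk => by
      have h3 := one_int h hz6 hM0 hM hM2 hg1 hg2 hk (h1 k) hp
      simpa only [one_mul] using h3)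
  simpa only [one_mul] using h2

theorem amgm_int_t (h : Lobe α) (hz6 : z1 α ≤ 6) {M g b : ℝ} (hM0 : 0 < M)
    (hM : ∀ s, z1 α ≤ s → |Phi α s| ≤ M) (hM2 : M ≤ 0.1325) (hg1 : T2 α 6 ≤ g)
    (hg2 : T2 α 6 + (6 * M ^ 2 - 3 * T2 α 6) / 7.2 ≤ g)
    (hb : ∀ s, 0 < s → s * |Phi α s| ^ (4 / 3 : ℝ) ≤ b) {ι : Type*} [Fintype ι] {θ : ι → ℝ}
    (h0 : ∀ k, 0 ≤ θ k) (h1 : ∀ k, θ k ≤ 1) (hp : 10 / 3 ≤ ∑ k, θ k) :
    IntegrableOn (fun t => t * ∏ k, |Phi α (θ k * t)|) (Ioi 6) ∧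
    ∫ t in Ioi (6 : ℝ), t * ∏ k, |Phi α (θ k * t)| ≤
      b * M ^ (∑ k, θ k - 10 / 3) * g +
        exp (-(6 * ∑ k, θ k)) * (6 / ∑ k, θ k + 1 / (∑ k, θ k) ^ 2) :=
  LSF2b_gen h.one_lt (w := fun t => t) continuous_id (fun t ht => by linarith) h0
    (lt_of_lt_of_le (by norm_num) hp) rfl
    (fun k hk => one_int_t h hz6 hM0 hM hM2 hg1 hg2 hb hk (h1 k) hp)

end LpSec.LS
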