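import Mathlib
import Pool.Agent.Lib.MP_1dbab3_gt.LS.Def
import Pool.Agent.Lib.MP_1dbab3_gt.LS.Base

/-!
# LS-W: bounds of the two-point function, the sum over the pieces
-/

open Real MeasureTheory Set Filter Topology

namespace LpSec.LS

variable {α : ℝ}

theorem W_abs (α r t : ℝ) :
    |Wt α r t| ≤ |Phi1 α t| * |Phi α (r * t)| + |Phi α t| * |Phi1 α (r * t)| := by
  unfold Wt
  rw [← abs_mul, ← abs_mul]
  exact abs_sub _ _

/-- mean value theorem for the two-point function -/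
private theorem LSW_mvt (hα : 1 < α) {r t : ℝ} (hr : 0 ≤ r) (hr1 : r ≤ 1) (ht : 0 < t) :
    ∃ c ∈ Icc (r * t) t, Wt α r t =
      (1 - r) * t * (Phi1 α t * Phi1 α c - Phi α t * Phi2 α c) := by
  rcases eq_or_lt_of_le hr1 with h | h
  · refine ⟨t, ⟨by rw [h, one_mul], le_rfl⟩, ?_⟩
    unfold Wt
    rw [h]
    simp
    ring
  · have hlt : r * t < t := by nlinarith
    have hrt : 0 ≤ r * t := by positivity
    obtain ⟨c, hc, hc'⟩ := exists_hasDerivAt_eq_slope
      (fun x => Phi1 α t * Phi α x - Phi α t * Phi1 α x)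
      (fun x => Phi1 α t * (-(Phi1 α x)) - Phi α t * (-(Phi2 α x))) hlt
      (by
        have h1 : ContinuousOn (Phi α) (Icc (r * t) t) :=
          (Phi_continuousOn hα).mono fun x hx => le_trans hrt hx.1
        have h2 : ContinuousOn (Phi1 α) (Icc (r * t) t) :=
          (Phi1_continuousOn hα).mono fun x hx => le_trans hrt hx.1
        exact (continuousOn_const.mul h1).sub (continuousOn_const.mul h2))
      (by
        intro x hx
        have hx0 : 0 < x := lt_of_le_of_lt hrt hx.1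
        exact ((Phi_hasDerivAt hα hx0).const_mul _).sub ((Phi1_hasDerivAt hα hx0).const_mul _))
    refine ⟨c, ⟨hc.1.le, hc.2.le⟩, ?_⟩
    have hne : t - r * t ≠ 0 := by linarith
    rw [eq_div_iff hne] at hc'
    unfold Wt
    linear_combination hc'

theorem W_abs' (hα : 1 < α) {r t E1 E2 : ℝ} (hr : 0 ≤ r) (hr1 : r ≤ 1) (ht : 0 < t)
    (h1 : ∀ x ∈ Icc (r * t) t, |Phi1 α x| ≤ E1) (h2 : ∀ x ∈ Icc (r * t) t, |Phi2 α x| ≤ E2) :
    |Wt α r t| ≤ (1 - r) * t * (|Phi1 α t| * E1 + |Phi α t| * E2) := by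
  obtain ⟨c, hc, hW⟩ := LSW_mvt hα hr hr1 ht
  rw [hW, abs_mul, abs_of_nonneg (mul_nonneg (sub_nonneg.2 hr1) ht.le)]
  refine mul_le_mul_of_nonneg_left ?_ (mul_nonneg (sub_nonneg.2 hr1) ht.le)
  calc |Phi1 α t * Phi1 α c - Phi α t * Phi2 α c|
      ≤ |Phi1 α t * Phi1 α c| + |Phi α t * Phi2 α c| := abs_sub _ _
    _ = |Phi1 α t| * |Phi1 α c| + |Phi α t| * |Phi2 α c| := by rw [abs_mul, abs_mul]
    _ ≤ _ := add_le_add (mul_le_mul_of_nonneg_left (h1 c hc) (abs_nonneg _))
        (mul_le_mul_of_nonneg_left (h2 c hc) (abs_nonneg _))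

theorem W_nonneg (hα : 1 < α) {r t : ℝ} (hr : 0 ≤ r) (hr1 : r ≤ 1) (ht : 0 < t)
    (h : ∀ x ∈ Icc (r * t) t, 0 ≤ Phi1 α t * Phi1 α x - Phi α t * Phi2 α x) :
    0 ≤ Wt α r t := by
  obtain ⟨c, hc, hW⟩ := LSW_mvt hα hr hr1 ht
  rw [hW]
  exact mul_nonneg (mul_nonneg (sub_nonneg.2 hr1) ht.le) (h c hc)

private theorem LSW_piece {f : ℝ → ℝ} {a b : ℝ} (hab : a ≤ b) {c : ℝ} (hc : 0 ≤ c)
    (hb : b - a ≤ 1 / 10) (hint : IntervalIntegrable f volume a b)
    (hf : ∀ t ∈ Icc a b, -c ≤ f t) : -(c / 10) ≤ ∫ t in a..b, f t := by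
  have h1 : ∫ _ in a..b, (-c) ≤ ∫ t in a..b, f t :=
    intervalIntegral.integral_mono_on hab intervalIntegrable_const hint hf
  rw [intervalIntegral.integral_const, smul_eq_mul] at h1
  nlinarith

theorem assemble (h : Lobe α) (hz6 : z1 α ≤ 6) {K : ℕ} {r : ℝ} {θ : Fin K → ℝ} (hc : Cfg r θ)
    (hN : 2 < 1 + r + ∑ k, θ k) {L C : ℝ} {V P : ℕ → ℝ} {j0 : ℕ}
    (hmain : (1 - r) * L ≤ ∫ t in (0 : ℝ)..(z1 α), t * Wt α r t * Pt α θ t)
    (hj0 : (j0 : ℝ) / 10 ≤ z1 α) (hj60 : j0 ≤ 60) (hV0 : ∀ j, 0 ≤ V j) (hP0 : ∀ j, 0 ≤ P j)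
    (hV : ∀ j : ℕ, j0 ≤ j → j < 60 → ∀ t : ℝ, (j : ℝ) / 10 ≤ t → t ≤ ((j : ℝ) + 1) / 10 →
      z1 α ≤ t → t * |Wt α r t| ≤ (1 - r) * V j)
    (hP : ∀ j : ℕ, j0 ≤ j → j < 60 → ∀ t : ℝ, (j : ℝ) / 10 ≤ t → t ≤ ((j : ℝ) + 1) / 10 →
      z1 α ≤ t → |Pt α θ t| ≤ P j ∨ (0 ≤ Wt α r t ∧ -P j ≤ Pt α θ t))
    (hC : |∫ t in Ioi (6 : ℝ), t * Wt α r t * Pt α θ t| ≤ (1 - r) * C)
    (hsum : (∑ j ∈ Finset.Ico j0 60, V j * P j) / 10 + C < L) : 0 < LI α r θ := by
  have hα := h.one_lt
  have hz1 := h.one_le_z1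
  have hr1 : 0 < 1 - r := by linarith [hc.r1]
  set f : ℝ → ℝ := fun t => t * Wt α r t * Pt α θ t with hf
  have hint : IntegrableOn f (Ioi 0) := LI_integrable hα hc hN
  have hii : ∀ a b : ℝ, 0 ≤ a → 0 ≤ b → IntervalIntegrable f volume a b := by
    intro a b ha hb
    rw [intervalIntegrable_iff]
    refine hint.mono_set fun x hx => ?_
    exact lt_of_le_of_lt (le_min ha hb) hx.1
  have hsplit : LI α r θ = (∫ t in (0 : ℝ)..(z1 α), f t) + (∫ t in (z1 α)..6, f t) +
      ∫ t in Ioi (6 : ℝ), f t := by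
    unfold LI
    rw [intervalIntegral.integral_add_adjacent_intervals (hii _ _ le_rfl (by linarith))
      (hii _ _ (by linarith) (by norm_num))]
    exact (intervalIntegral.integral_interval_add_Ioi hint
      (hint.mono_set (Ioi_subset_Ioi (by norm_num)))).symm
  have hmid : -((1 - r) * ((∑ j ∈ Finset.Ico j0 60, V j * P j) / 10)) ≤ ∫ t in (z1 α)..6, f t := by
    set a : ℕ → ℝ := fun j => max (z1 α) ((j : ℝ) / 10) with ha
    have ha0 : a j0 = z1 α := max_eq_left hj0
    have ha60 : a 60 = 6 := by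
      simp only [ha]
      rw [max_eq_right]
      · norm_num
      · norm_num
        exact hz6
    have hapos : ∀ j, 0 ≤ a j := fun j => le_trans (by linarith) (le_max_left (z1 α) _)
    have hs := intervalIntegral.sum_integral_adjacent_intervals_Ico (f := f) (μ := volume) (a := a)
      hj60 (fun k _ => hii _ _ (hapos k) (hapos (k + 1)))
    rw [ha0, ha60] at hs
    rw [← hs]
    have e : -((1 - r) * ((∑ j ∈ Finset.Ico j0 60, V j * P j) / 10)) =
        ∑ j ∈ Finset.Ico j0 60, -(((1 - r) * (V j * P j)) / 10) := by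
      rw [Finset.sum_neg_distrib, ← Finset.sum_div, ← Finset.mul_sum]
      ring
    rw [e]
    refine Finset.sum_le_sum fun j hj => ?_
    have hj' := Finset.mem_Ico.1 hj
    have hcast : ((j + 1 : ℕ) : ℝ) / 10 = ((j : ℝ) + 1) / 10 := by push_cast; ring
    have hmono : a j ≤ a (j + 1) := by
      simp only [ha]
      rw [hcast]
      exact max_le_max le_rfl (by linarith)
    rcases eq_or_lt_of_le hmono with heq | hlt
    · rw [← heq, intervalIntegral.integral_same, neg_nonpos]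
      have := mul_nonneg hr1.le (mul_nonneg (hV0 j) (hP0 j))
      positivity
    refine LSW_piece hmono (mul_nonneg hr1.le (mul_nonneg (hV0 j) (hP0 j))) ?_
      (hii _ _ (hapos _) (hapos _)) ?_
    · simp only [ha]
      rw [hcast]
      rcases le_total (z1 α) ((j : ℝ) / 10) with hle | hle
      · rw [max_eq_right hle, max_eq_right (by linarith)]
        linarith
      · rw [max_eq_left hle]
        rcases le_total (z1 α) (((j : ℝ) + 1) / 10) with hle' | hle'
        · rw [max_eq_right hle']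
          linarith
        · rw [max_eq_left hle']
          norm_num
    · intro t ht
      have ht1 : z1 α ≤ t := (le_max_left _ _).trans ht.1
      have ht2 : (j : ℝ) / 10 ≤ t := (le_max_right _ _).trans ht.1
      have ht0 : 0 < t := by linarith
      have hb : t ≤ ((j : ℝ) + 1) / 10 := by
        have h6 : t ≤ a (j + 1) := ht.2
        have h7 : a (j + 1) = ((j : ℝ) + 1) / 10 := by
          simp only [ha] at hlt ⊢
          rw [hcast] at hlt ⊢
          rcases le_total (z1 α) (((j : ℝ) + 1) / 10) with hle | hle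
          · exact max_eq_right hle
          · exfalso
            rw [max_eq_left hle] at hlt
            exact absurd hlt (not_lt.2 (le_max_left _ _))
        rwa [h7] at h6
      · have hVt := hV j hj'.1 hj'.2 t ht2 hb ht1
        simp only [hf]
        rcases hP j hj'.1 hj'.2 t ht2 hb ht1 with hp | ⟨hw, hp⟩
        · have h1 : |t * Wt α r t * Pt α θ t| ≤ (1 - r) * (V j * P j) := by
            rw [abs_mul, abs_mul, abs_of_pos ht0]
            calc t * |Wt α r t| * |Pt α θ t| ≤ (1 - r) * V j * P j :=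
                  mul_le_mul hVt hp (abs_nonneg _) (mul_nonneg hr1.le (hV0 j))
              _ = _ := by ring
          linarith [neg_abs_le (t * Wt α r t * Pt α θ t)]
        · have hw' : t * Wt α r t ≤ (1 - r) * V j := by
            rw [← abs_of_nonneg hw]
            exact hVt
          have h2 : 0 ≤ t * Wt α r t := mul_nonneg ht0.le hw
          have h3 : t * Wt α r t * (-P j) ≤ t * Wt α r t * Pt α θ t :=
            mul_le_mul_of_nonneg_left hp h2
          have h4 : t * Wt α r t * P j ≤ (1 - r) * V j * P j :=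
            mul_le_mul_of_nonneg_right hw' (hP0 j)
          nlinarith
  have hfar := neg_abs_le (∫ t in Ioi (6 : ℝ), f t)
  have hfar' : |∫ t in Ioi (6 : ℝ), f t| ≤ (1 - r) * C := hC
  rw [hsplit]
  have hm : (1 - r) * L ≤ ∫ t in (0 : ℝ)..(z1 α), f t := hmain
  have hfin : 0 < (1 - r) * (L - (∑ j ∈ Finset.Ico j0 60, V j * P j) / 10 - C) :=
    mul_pos hr1 (by linarith)
  nlinarith

end LpSec.LS
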