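import Mathlib
import Pool.Agent.Lib.MP_1dbab3_gt.LS.Def
import Pool.Agent.Lib.MP_1dbab3_gt.LS.Wb

/-!
# LS-F3: assembly of the far part
-/

open Real MeasureTheory Set Filter Topology

namespace LpSec.LS

variable {α : ℝ}

theorem farA (hα : 1 < α) {K : ℕ} {r : ℝ} {θ : Fin K → ℝ} (hc : Cfg r θ)
    {c1 x1 G1 G2 : ℝ} (hc1 : ∀ t, 6 ≤ t → t * |Phi1 α t| ≤ c1)
    (hx : ∀ t, 6 ≤ t → t * |Phi1 α (r * t)| ≤ x1)
    (i1 : IntegrableOn (fun t => |Phi α (r * t)| * |Pt α θ t|) (Ioi 6))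
    (h1 : ∫ t in Ioi (6 : ℝ), |Phi α (r * t)| * |Pt α θ t| ≤ G1)
    (i2 : IntegrableOn (fun t => |Phi α t| * |Pt α θ t|) (Ioi 6))
    (h2 : ∫ t in Ioi (6 : ℝ), |Phi α t| * |Pt α θ t| ≤ G2) :
    |∫ t in Ioi (6 : ℝ), t * Wt α r t * Pt α θ t| ≤ c1 * G1 + x1 * G2 := by
  have hb : Integrable (fun t => c1 * (|Phi α (r * t)| * |Pt α θ t|) +
      x1 * (|Phi α t| * |Pt α θ t|)) (volume.restrict (Ioi 6)) :=
    (i1.const_mul c1).add (i2.const_mul x1)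
  have hle : ∀ᵐ t ∂(volume.restrict (Ioi (6 : ℝ))), ‖t * Wt α r t * Pt α θ t‖ ≤
      c1 * (|Phi α (r * t)| * |Pt α θ t|) + x1 * (|Phi α t| * |Pt α θ t|) := by
    refine (ae_restrict_iff' measurableSet_Ioi).2 (Eventually.of_forall fun t ht => ?_)
    have ht6 : (6 : ℝ) ≤ t := le_of_lt ht
    have ht0 : (0 : ℝ) < t := lt_of_lt_of_le (by norm_num) ht6
    rw [Real.norm_eq_abs, abs_mul, abs_mul, abs_of_pos ht0]
    have hW := W_abs α r t
    have h3 := hc1 t ht6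
    have h4 := hx t ht6
    calc t * |Wt α r t| * |Pt α θ t|
        ≤ t * (|Phi1 α t| * |Phi α (r * t)| + |Phi α t| * |Phi1 α (r * t)|) * |Pt α θ t| := by
          gcongr
      _ = (t * |Phi1 α t|) * (|Phi α (r * t)| * |Pt α θ t|) +
          (t * |Phi1 α (r * t)|) * (|Phi α t| * |Pt α θ t|) := by ring
      _ ≤ c1 * (|Phi α (r * t)| * |Pt α θ t|) + x1 * (|Phi α t| * |Pt α θ t|) := by
          gcongr
  have h0 := norm_integral_le_of_norm_le hb hle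
  rw [Real.norm_eq_abs] at h0
  refine h0.trans ?_
  rw [integral_add (i1.const_mul c1) (i2.const_mul x1), integral_const_mul, integral_const_mul]
  have hc1' : 0 ≤ c1 := le_trans (by positivity) (hc1 6 le_rfl)
  have hx1' : 0 ≤ x1 := le_trans (by positivity) (hx 6 le_rfl)
  gcongr

theorem farA' (hα : 1 < α) {K : ℕ} {r : ℝ} {θ : Fin K → ℝ} (hc : Cfg r θ)
    {c1 e1 G1 G3 : ℝ} (hc1 : ∀ t, 6 ≤ t → t * |Phi1 α t| ≤ c1)
    (he : ∀ t, 6 ≤ t → |Phi1 α (r * t)| ≤ e1)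
    (i1 : IntegrableOn (fun t => |Phi α (r * t)| * |Pt α θ t|) (Ioi 6))
    (h1 : ∫ t in Ioi (6 : ℝ), |Phi α (r * t)| * |Pt α θ t| ≤ G1)
    (i3 : IntegrableOn (fun t => t * (|Phi α t| * |Pt α θ t|)) (Ioi 6))
    (h3 : ∫ t in Ioi (6 : ℝ), t * (|Phi α t| * |Pt α θ t|) ≤ G3) :
    |∫ t in Ioi (6 : ℝ), t * Wt α r t * Pt α θ t| ≤ c1 * G1 + e1 * G3 := by
  have hb : Integrable (fun t => c1 * (|Phi α (r * t)| * |Pt α θ t|) +
      e1 * (t * (|Phi α t| * |Pt α θ t|))) (volume.restrict (Ioi 6)) :=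
    (i1.const_mul c1).add (i3.const_mul e1)
  have hle : ∀ᵐ t ∂(volume.restrict (Ioi (6 : ℝ))), ‖t * Wt α r t * Pt α θ t‖ ≤
      c1 * (|Phi α (r * t)| * |Pt α θ t|) + e1 * (t * (|Phi α t| * |Pt α θ t|)) := by
    refine (ae_restrict_iff' measurableSet_Ioi).2 (Eventually.of_forall fun t ht => ?_)
    have ht6 : (6 : ℝ) ≤ t := le_of_lt ht
    have ht0 : (0 : ℝ) < t := lt_of_lt_of_le (by norm_num) ht6
    rw [Real.norm_eq_abs, abs_mul, abs_mul, abs_of_pos ht0]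
    have hW := W_abs α r t
    have h4 := hc1 t ht6
    have h5 := he t ht6
    calc t * |Wt α r t| * |Pt α θ t|
        ≤ t * (|Phi1 α t| * |Phi α (r * t)| + |Phi α t| * |Phi1 α (r * t)|) * |Pt α θ t| := by
          gcongr
      _ = (t * |Phi1 α t|) * (|Phi α (r * t)| * |Pt α θ t|) +
          |Phi1 α (r * t)| * (t * (|Phi α t| * |Pt α θ t|)) := by ring
      _ ≤ c1 * (|Phi α (r * t)| * |Pt α θ t|) + e1 * (t * (|Phi α t| * |Pt α θ t|)) := by
          gcongr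
  have h0 := norm_integral_le_of_norm_le hb hle
  rw [Real.norm_eq_abs] at h0
  refine h0.trans ?_
  rw [integral_add (i1.const_mul c1) (i3.const_mul e1), integral_const_mul, integral_const_mul]
  have hc1' : 0 ≤ c1 := le_trans (by positivity) (hc1 6 le_rfl)
  have he1' : 0 ≤ e1 := le_trans (by positivity) (he 6 le_rfl)
  gcongr

theorem farB (hα : 1 < α) {K : ℕ} {r : ℝ} {θ : Fin K → ℝ} (hc : Cfg r θ) {w G : ℝ}
    (hw : ∀ t, 6 ≤ t → t * |Wt α r t| ≤ (1 - r) * w)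
    (i : IntegrableOn (fun t => |Pt α θ t|) (Ioi 6))
    (h : ∫ t in Ioi (6 : ℝ), |Pt α θ t| ≤ G) :
    |∫ t in Ioi (6 : ℝ), t * Wt α r t * Pt α θ t| ≤ (1 - r) * (w * G) := by
  have hb : Integrable (fun t => (1 - r) * w * |Pt α θ t|) (volume.restrict (Ioi 6)) :=
    i.const_mul _
  have hle : ∀ᵐ t ∂(volume.restrict (Ioi (6 : ℝ))), ‖t * Wt α r t * Pt α θ t‖ ≤
      (1 - r) * w * |Pt α θ t| := by
    refine (ae_restrict_iff' measurableSet_Ioi).2 (Eventually.of_forall fun t ht => ?_)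
    have ht6 : (6 : ℝ) ≤ t := le_of_lt ht
    have ht0 : (0 : ℝ) < t := lt_of_lt_of_le (by norm_num) ht6
    rw [Real.norm_eq_abs, abs_mul, abs_mul, abs_of_pos ht0]
    exact mul_le_mul_of_nonneg_right (hw t ht6) (abs_nonneg _)
  have h0 := norm_integral_le_of_norm_le hb hle
  rw [Real.norm_eq_abs] at h0
  refine h0.trans ?_
  rw [integral_const_mul]
  have hw' : 0 ≤ (1 - r) * w := le_trans (by positivity) (hw 6 le_rfl)
  rw [← mul_assoc]
  exact mul_le_mul_of_nonneg_left h hw'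

/-- the product with `Phi (r t)` or `Phi t` as a product over `Option (Fin K)` -/
theorem prod_option (α : ℝ) {K : ℕ} (ρ : ℝ) (θ : Fin K → ℝ) (t : ℝ) :
    ∏ k : Option (Fin K), |Phi α ((k.elim ρ θ) * t)| = |Phi α (ρ * t)| * |Pt α θ t| := by
  rw [Fintype.prod_option, Pt, Finset.abs_prod]
  rfl

end LpSec.LS
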