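import Mathlib
import Pool.Agent.Lib.MP_1dbab3_gt.Base

/-!
# LS-K1: decay of the kernels `K 1, K 2, K 3` (Sonine energy in the variable `v`)
-/

open Real MeasureTheory Set Filter Topology

namespace LpSec.LS

/-- the numerator of the logarithmic derivative of `v ^ a * K ν v` -/
noncomputable def LSK1_g (ν : ℕ) (a x : ℝ) : ℝ := a * K ν x - x * K (ν + 1) x

theorem LSK1_g_deriv (ν : ℕ) {a : ℝ} (ha : a = ν / 2 + 1 / 4) (x : ℝ) :
    HasDerivAt (LSK1_g ν a) ((a - 1 / 2) * K (ν + 1) x - K ν x) x := by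
  have h1 := (K_hasDerivAt ν x).const_mul a
  have h2 := (hasDerivAt_id x).mul (K_hasDerivAt (ν + 1) x)
  have h3 := h1.sub h2
  have hr := K_rec ν x
  refine (h3.congr_deriv ?_)
  simp only [id_eq, one_mul]
  have : ν + 1 + 1 = ν + 2 := rfl
  rw [this, ha]
  linear_combination hr

theorem LSK1_rpow_deriv (s : ℝ) {x : ℝ} (hx : 0 < x) :
    HasDerivAt (fun x : ℝ => x ^ s) (s * x ^ (s - 1)) x :=
  Real.hasDerivAt_rpow_const (Or.inl hx.ne')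

theorem LSK1_energy_deriv (ν : ℕ) {a b s : ℝ} (ha : a = ν / 2 + 1 / 4) (hb : b = a * (a - 1 / 2))
    (hs : s = 2 * a) {x : ℝ} (hx : 0 < x) (hbx : b < x) :
    HasDerivAt (fun x => x ^ s * (K ν x ^ 2 + LSK1_g ν a x ^ 2 / (x - b)))
      (-(b * x ^ (s - 1) * LSK1_g ν a x ^ 2 / (x - b) ^ 2)) x := by
  have hxb : x - b ≠ 0 := (sub_pos.mpr hbx).ne'
  have h1 := (K_hasDerivAt ν x).pow 2
  have h2 := (LSK1_g_deriv ν ha x).pow 2
  have h3 := h2.div ((hasDerivAt_id x).sub_const b) hxb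
  have h4 := (LSK1_rpow_deriv s hx).mul (h1.add h3)
  have e : x ^ s = x ^ (s - 1) * x := by
    rw [← Real.rpow_add_one hx.ne']; ring_nf
  refine h4.congr_deriv ?_
  have hx0 : x ≠ 0 := hx.ne'
  simp only [Pi.add_apply, Pi.pow_apply, Pi.div_apply, id_eq]
  rw [e]
  have hg : x * K (ν + 1) x = a * K ν x - LSK1_g ν a x := by
    unfold LSK1_g; ring
  generalize LSK1_g ν a x = G at *
  generalize K ν x = k at *
  generalize K (ν + 1) x = k1 at *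
  generalize x ^ (s - 1) = y at *
  have hk1 : k1 = (a * k - G) / x := by
    field_simp
    linarith
  obtain ⟨D, hD⟩ : ∃ D, D = x - b := ⟨_, rfl⟩
  have hrel : a * (a - 1 / 2) = x - D := by rw [hD, ← hb]; ring
  have hbD : b = x - D := by rw [hD]; ring
  rw [← hD] at hxb ⊢
  rw [hk1, hs, hbD]
  have hD0 : D ≠ 0 := hxb
  have expand : 2 * a * y * (k ^ 2 + G ^ 2 / D) + y * x * (2 * k * (-((a * k - G) / x)) +
      (2 * G * ((a - 1 / 2) * ((a * k - G) / x) - k) * D - G ^ 2) / D ^ 2) =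
      -((x - D) * y * G ^ 2 / D ^ 2) := by
    field_simp
    linear_combination (2 * y * D * k * G) * hrel
  rw [← expand]
  push_cast
  ring

theorem LSK1_energy (ν : ℕ) {a b s : ℝ} (ha : a = ν / 2 + 1 / 4) (hb : b = a * (a - 1 / 2))
    (hs : s = 2 * a) (hb0 : 0 ≤ b) {u v : ℝ} (hu : 0 < u) (hbu : b < u) (huv : u ≤ v) :
    v ^ s * (K ν v ^ 2 + LSK1_g ν a v ^ 2 / (v - b)) ≤
      u ^ s * (K ν u ^ 2 + LSK1_g ν a u ^ 2 / (u - b)) := by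
  have hd : ∀ x ∈ Ici u, HasDerivAt (fun x => x ^ s * (K ν x ^ 2 + LSK1_g ν a x ^ 2 / (x - b)))
      (-(b * x ^ (s - 1) * LSK1_g ν a x ^ 2 / (x - b) ^ 2)) x := by
    intro x hx
    exact LSK1_energy_deriv ν ha hb hs (hu.trans_le hx) (hbu.trans_le hx)
  have hanti : AntitoneOn (fun x => x ^ s * (K ν x ^ 2 + LSK1_g ν a x ^ 2 / (x - b))) (Ici u) := by
    refine antitoneOn_of_deriv_nonpos (convex_Ici u)
      (fun x hx => (hd x hx).continuousAt.continuousWithinAt)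
      (fun x hx => (hd x (interior_subset hx)).differentiableAt.differentiableWithinAt) ?_
    intro x hx
    have hx' := interior_subset hx
    rw [(hd x hx').deriv]
    have hx0 : 0 < x := hu.trans_le hx'
    have : 0 ≤ b * x ^ (s - 1) * LSK1_g ν a x ^ 2 / (x - b) ^ 2 := by positivity
    linarith
  exact hanti (mem_Ici.mpr le_rfl) (mem_Ici.mpr huv) huv

/-- the far part -/
theorem LSK1_far (ν : ℕ) {a b s C u : ℝ} (ha : a = ν / 2 + 1 / 4) (hb : b = a * (a - 1 / 2))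
    (hs : s = 2 * a) (hb0 : 0 ≤ b) (hu : 0 < u) (hbu : b < u)
    (hE : u ^ s * (K ν u ^ 2 + LSK1_g ν a u ^ 2 / (u - b)) ≤ C ^ 2) {v : ℝ} (huv : u ≤ v) :
    v ^ s * K ν v ^ 2 ≤ C ^ 2 := by
  have h := (LSK1_energy ν ha hb hs hb0 hu hbu huv).trans hE
  have hv : 0 < v := hu.trans_le huv
  have hvb : 0 < v - b := sub_pos.mpr (hbu.trans_le huv)
  have h1 : 0 ≤ v ^ s * (LSK1_g ν a v ^ 2 / (v - b)) := by positivity
  nlinarith [h, h1]

/-- the near part -/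
theorem LSK1_near (ν : ℕ) {a s C u : ℝ} (ha : a = ν / 2 + 1 / 4)
    (hs : s = 2 * a) (hk : ∀ x ∈ Icc 0 u, 0 ≤ K ν x)
    (hg : ∀ x ∈ Icc 0 u, (a - 1 / 2) * K (ν + 1) x ≤ K ν x) (hgu : 0 ≤ LSK1_g ν a u)
    (hE : u ^ s * K ν u ^ 2 ≤ C ^ 2) {v : ℝ} (hv : 0 < v) (huv : v ≤ u) :
    v ^ s * K ν v ^ 2 ≤ C ^ 2 := by
  have hganti : AntitoneOn (LSK1_g ν a) (Icc 0 u) := by
    refine antitoneOn_of_deriv_nonpos (convex_Icc 0 u)
      (fun x _ => (LSK1_g_deriv ν ha x).continuousAt.continuousWithinAt)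
      (fun x _ => (LSK1_g_deriv ν ha x).differentiableAt.differentiableWithinAt) ?_
    intro x hx
    rw [(LSK1_g_deriv ν ha x).deriv]
    have := hg x (interior_subset hx)
    linarith
  have hg0 : ∀ x ∈ Icc v u, 0 ≤ LSK1_g ν a x := fun x hx =>
    hgu.trans (hganti ⟨hv.le.trans hx.1, hx.2⟩ ⟨hv.le.trans huv, le_rfl⟩ hx.2)
  have hd : ∀ x ∈ Icc v u, HasDerivAt (fun x => x ^ s * K ν x ^ 2)
      (2 * x ^ (s - 1) * K ν x * LSK1_g ν a x) x := by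
    intro x hx
    have hx0 : 0 < x := hv.trans_le hx.1
    have h4 := (LSK1_rpow_deriv s hx0).mul ((K_hasDerivAt ν x).pow 2)
    have e : x ^ s = x ^ (s - 1) * x := by
      rw [← Real.rpow_add_one hx0.ne']; ring_nf
    refine h4.congr_deriv ?_
    simp only [Pi.pow_apply]
    rw [e, hs]
    unfold LSK1_g
    push_cast
    ring
  have hmono : MonotoneOn (fun x => x ^ s * K ν x ^ 2) (Icc v u) := by
    refine monotoneOn_of_deriv_nonneg (convex_Icc v u)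
      (fun x hx => (hd x hx).continuousAt.continuousWithinAt)
      (fun x hx => (hd x (interior_subset hx)).differentiableAt.differentiableWithinAt) ?_
    intro x hx
    have hx' := interior_subset hx
    rw [(hd x hx').deriv]
    have hx0 : 0 < x := hv.trans_le hx'.1
    have h1 := hk x ⟨hx0.le, hx'.2⟩
    have h2 := hg0 x hx'
    positivity
  exact (hmono (left_mem_Icc.mpr huv) (right_mem_Icc.mpr huv) huv).trans hE

theorem LSK1_final (ν : ℕ) {a s C : ℝ} (hs : s = 2 * a) (hC : 0 ≤ C) {v : ℝ} (hv : 0 < v)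
    (h : v ^ s * K ν v ^ 2 ≤ C ^ 2) : |K ν v| ≤ C * v ^ (-a) := by
  have h1 : (v ^ a * |K ν v|) ^ 2 ≤ C ^ 2 := by
    rw [mul_pow, sq_abs]
    have : (v ^ a) ^ 2 = v ^ s := by
      rw [← Real.rpow_natCast, ← Real.rpow_mul hv.le, hs]; norm_num; ring_nf
    rw [this]; exact h
  have hpos : 0 < v ^ a := Real.rpow_pos_of_pos hv a
  have h2 : v ^ a * |K ν v| ≤ C := by
    exact abs_le_of_sq_le_sq' h1 hC |>.2
  rw [Real.rpow_neg hv.le]
  have h3 : |K ν v| = (v ^ a)⁻¹ * (v ^ a * |K ν v|) := by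
    field_simp
  rw [h3, mul_comm C]
  exact mul_le_mul_of_nonneg_left h2 (by positivity)

theorem LSK1_all (ν : ℕ) {a b s C u : ℝ} (ha : a = ν / 2 + 1 / 4) (hb : b = a * (a - 1 / 2))
    (hs : s = 2 * a) (hb0 : 0 ≤ b) (hu : 0 < u) (hbu : b < u) (hC : 0 ≤ C)
    (hk : ∀ x ∈ Icc 0 u, 0 ≤ K ν x)
    (hg : ∀ x ∈ Icc 0 u, (a - 1 / 2) * K (ν + 1) x ≤ K ν x) (hgu : 0 ≤ LSK1_g ν a u)
    (hE : u ^ s * (K ν u ^ 2 + LSK1_g ν a u ^ 2 / (u - b)) ≤ C ^ 2) {v : ℝ} (hv : 0 < v) :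
    |K ν v| ≤ C * v ^ (-a) := by
  refine LSK1_final ν hs hC hv ?_
  rcases le_total v u with h | h
  · refine LSK1_near ν ha hs hk hg hgu ?_ hv h
    have hub : 0 < u - b := sub_pos.mpr hbu
    have h1 : 0 ≤ u ^ s * (LSK1_g ν a u ^ 2 / (u - b)) := by positivity
    nlinarith [hE, h1]
  · exact LSK1_far ν ha hb hs hb0 hu hbu hE h

theorem LSK1_K1 : 0.5197 ≤ K 1 (1.08 ^ 2) ∧ K 1 (1.08 ^ 2) ≤ 0.5198 := by
  apply kn_K_bounds 1 8 <;> norm_num [Finset.sum_range_succ, Nat.factorial]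

theorem LSK1_K2 : 0.3318 ≤ K 2 (1.08 ^ 2) ∧ K 2 (1.08 ^ 2) ≤ 0.3319 := by
  apply kn_K_bounds 2 8 <;> norm_num [Finset.sum_range_succ, Nat.factorial]

theorem LSK1_K2' : 0.1782 ≤ K 2 (1.64 ^ 2) ∧ K 2 (1.64 ^ 2) ≤ 0.1783 := by
  apply kn_K_bounds 2 9 <;> norm_num [Finset.sum_range_succ, Nat.factorial]

theorem LSK1_K3' : 0.0806 ≤ K 3 (1.64 ^ 2) ∧ K 3 (1.64 ^ 2) ≤ 0.0807 := by
  apply kn_K_bounds 3 9 <;> norm_num [Finset.sum_range_succ, Nat.factorial]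

theorem LSK1_K3'' : 0.04039 ≤ K 3 (2.2 ^ 2) ∧ K 3 (2.2 ^ 2) ≤ 0.0404 := by
  apply kn_K_bounds 3 12 <;> norm_num [Finset.sum_range_succ, Nat.factorial]

theorem LSK1_K4'' : 0.01436 ≤ K 4 (2.2 ^ 2) ∧ K 4 (2.2 ^ 2) ≤ 0.01437 := by
  apply kn_K_bounds 4 12 <;> norm_num [Finset.sum_range_succ, Nat.factorial]

theorem LSK1_pow (q : ℝ) (hq : 0 ≤ q) (n : ℕ) {s : ℝ} (hs : s = n / 2) :
    (q ^ 2) ^ s = q ^ n := by
  rw [← Real.rpow_natCast q 2, ← Real.rpow_mul hq, hs, ← Real.rpow_natCast q n]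
  congr 1
  push_cast; ring

theorem K1_dec {v : ℝ} (hv : 0 < v) : |K 1 v| ≤ 0.59 * v ^ (-(3 / 4) : ℝ) := by
  refine LSK1_all 1 (a := 3 / 4) (b := 3 / 16) (s := 3 / 2) (C := 0.59) (u := 1.08 ^ 2)
    (by norm_num) (by norm_num) (by norm_num) (by norm_num) (by norm_num) (by norm_num)
    (by norm_num) ?_ ?_ ?_ ?_ hv
  · intro x hx
    exact (K1_pos hx.1 (hx.2.trans (by norm_num))).le
  · intro x hx
    have h1 : K 1 (1.08 ^ 2) ≤ K 1 x := K1_antitone ⟨hx.1, hx.2.trans (by norm_num)⟩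
      ⟨by norm_num, by norm_num⟩ hx.2
    have h2 := (abs_le.mp (K_abs_le 2 hx.1)).2
    norm_num [Nat.factorial] at h2
    have h3 := LSK1_K1.1
    norm_num at h1 h2 h3 ⊢
    linarith
  · have h1 := LSK1_K1
    have h2 := LSK1_K2
    unfold LSK1_g
    norm_num at h1 h2 ⊢
    linarith [h1.1, h2.2]
  · rw [LSK1_pow 1.08 (by norm_num) 3 (by norm_num)]
    have h1 := LSK1_K1
    have h2 := LSK1_K2
    have hg1 : |LSK1_g 1 (3 / 4) (1.08 ^ 2)| ≤ 0.01 := by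
      unfold LSK1_g
      norm_num at h1 h2 ⊢
      rw [abs_le]
      constructor <;> linarith [h1.1, h1.2, h2.1, h2.2]
    have hg2 : LSK1_g 1 (3 / 4) (1.08 ^ 2) ^ 2 ≤ 0.01 ^ 2 := sq_le_sq' (abs_le.mp hg1).1 (abs_le.mp hg1).2
    have hk2 : K 1 (1.08 ^ 2) ^ 2 ≤ 0.5198 ^ 2 := kn_sq_bd' h1.1 h1.2 (by norm_num)
    have h4 : LSK1_g 1 (3 / 4) (1.08 ^ 2) ^ 2 / (1.08 ^ 2 - 3 / 16) ≤ 0.01 ^ 2 / (1.08 ^ 2 - 3 / 16) := by
      gcongr
    calc _ ≤ (1.08 : ℝ) ^ 3 * (0.5198 ^ 2 + 0.01 ^ 2 / (1.08 ^ 2 - 3 / 16)) := by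
          gcongr
      _ ≤ 0.59 ^ 2 := by norm_num

theorem K2_dec {v : ℝ} (hv : 0 < v) : |K 2 v| ≤ 0.62 * v ^ (-(5 / 4) : ℝ) := by
  refine LSK1_all 2 (a := 5 / 4) (b := 15 / 16) (s := 5 / 2) (C := 0.62) (u := 1.64 ^ 2)
    (by norm_num) (by norm_num) (by norm_num) (by norm_num) (by norm_num) (by norm_num)
    (by norm_num) ?_ ?_ ?_ ?_ hv
  · intro x hx
    exact K2_nonneg hx.1 (hx.2.trans (by norm_num))
  · intro x hx
    have h1 : K 2 (1.64 ^ 2) ≤ K 2 x := kn_K_antitoneOn kn_K3_nonneg'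
      ⟨hx.1, hx.2.trans (by norm_num)⟩ ⟨by norm_num, by norm_num⟩ hx.2
    have h2 := (abs_le.mp (K_abs_le 3 hx.1)).2
    norm_num [Nat.factorial] at h2
    have h3 := LSK1_K2'.1
    norm_num at h1 h2 h3 ⊢
    linarith
  · have h1 := LSK1_K2'
    have h2 := LSK1_K3'
    unfold LSK1_g
    norm_num at h1 h2 ⊢
    linarith [h1.1, h2.2]
  · rw [LSK1_pow 1.64 (by norm_num) 5 (by norm_num)]
    have h1 := LSK1_K2'
    have h2 := LSK1_K3'
    have hg1 : |LSK1_g 2 (5 / 4) (1.64 ^ 2)| ≤ 0.01 := by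
      unfold LSK1_g
      norm_num at h1 h2 ⊢
      rw [abs_le]
      constructor <;> linarith [h1.1, h1.2, h2.1, h2.2]
    have hg2 : LSK1_g 2 (5 / 4) (1.64 ^ 2) ^ 2 ≤ 0.01 ^ 2 := sq_le_sq' (abs_le.mp hg1).1 (abs_le.mp hg1).2
    have hk2 : K 2 (1.64 ^ 2) ^ 2 ≤ 0.1783 ^ 2 := kn_sq_bd' h1.1 h1.2 (by norm_num)
    have h4 : LSK1_g 2 (5 / 4) (1.64 ^ 2) ^ 2 / (1.64 ^ 2 - 15 / 16) ≤
        0.01 ^ 2 / (1.64 ^ 2 - 15 / 16) := by
      gcongr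
    calc _ ≤ (1.64 : ℝ) ^ 5 * (0.1783 ^ 2 + 0.01 ^ 2 / (1.64 ^ 2 - 15 / 16)) := by
          gcongr
      _ ≤ 0.62 ^ 2 := by norm_num

theorem K3_dec {v : ℝ} (hv : 0 < v) : |K 3 v| ≤ 0.65 * v ^ (-(7 / 4) : ℝ) := by
  refine LSK1_all 3 (a := 7 / 4) (b := 35 / 16) (s := 7 / 2) (C := 0.65) (u := 2.2 ^ 2)
    (by norm_num) (by norm_num) (by norm_num) (by norm_num) (by norm_num) (by norm_num)
    (by norm_num) ?_ ?_ ?_ ?_ hv
  · intro x hx
    exact K3_nonneg hx.1 (hx.2.trans (by norm_num))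
  · intro x hx
    have hanti : AntitoneOn (fun y => K 3 y - 5 / 4 * K 4 y) (Icc 0 (2.2 ^ 2)) := by
      have hd : ∀ y : ℝ, HasDerivAt (fun y => K 3 y - 5 / 4 * K 4 y) (-K 4 y - 5 / 4 * (-K 5 y)) y :=
        fun y => (K_hasDerivAt 3 y).sub ((K_hasDerivAt 4 y).const_mul (5 / 4))
      refine antitoneOn_of_deriv_nonpos (convex_Icc _ _)
        (fun y _ => (hd y).continuousAt.continuousWithinAt)
        (fun y _ => (hd y).differentiableAt.differentiableWithinAt) ?_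
      intro y hy
      have hy' := interior_subset hy
      rw [(hd y).deriv]
      have h1 : K 4 (2.2 ^ 2) ≤ K 4 y := kn_K_antitoneOn kn_K5_nonneg
        ⟨hy'.1, hy'.2.trans (by norm_num)⟩ ⟨by norm_num, by norm_num⟩ hy'.2
      have h2 := (abs_le.mp (K_abs_le 5 hy'.1)).2
      have h3 := LSK1_K4''.1
      norm_num [Nat.factorial] at h2
      norm_num at h1 h2 h3 ⊢
      linarith
    have h := hanti hx ⟨by norm_num, le_rfl⟩ hx.2
    have h1 := LSK1_K3''.1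
    have h2 := LSK1_K4''.2
    simp only at h
    norm_num at h h1 h2 ⊢
    linarith
  · have h1 := LSK1_K3''
    have h2 := LSK1_K4''
    unfold LSK1_g
    norm_num at h1 h2 ⊢
    linarith [h1.1, h2.2]
  · rw [LSK1_pow 2.2 (by norm_num) 7 (by norm_num)]
    have h1 := LSK1_K3''
    have h2 := LSK1_K4''
    have hg1 : |LSK1_g 3 (7 / 4) (2.2 ^ 2)| ≤ 0.01 := by
      unfold LSK1_g
      norm_num at h1 h2 ⊢
      rw [abs_le]
      constructor <;> linarith [h1.1, h1.2, h2.1, h2.2]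
    have hg2 : LSK1_g 3 (7 / 4) (2.2 ^ 2) ^ 2 ≤ 0.01 ^ 2 := sq_le_sq' (abs_le.mp hg1).1 (abs_le.mp hg1).2
    have hk2 : K 3 (2.2 ^ 2) ^ 2 ≤ 0.0404 ^ 2 := kn_sq_bd' h1.1 h1.2 (by norm_num)
    have h4 : LSK1_g 3 (7 / 4) (2.2 ^ 2) ^ 2 / (2.2 ^ 2 - 35 / 16) ≤
        0.01 ^ 2 / (2.2 ^ 2 - 35 / 16) := by
      gcongr
    calc _ ≤ (2.2 : ℝ) ^ 7 * (0.0404 ^ 2 + 0.01 ^ 2 / (2.2 ^ 2 - 35 / 16)) := by
          gcongr
      _ ≤ 0.65 ^ 2 := by norm_num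

end LpSec.LS
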