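import Mathlib
import Pool.Agent.Lib.MP_1dbab3_gt.LS.Def
import Pool.Agent.Lib.MP_1dbab3_gt.LS.K1

/-!
# Row 1dbab3-LS-K2 (helper2): `Phi_dec`, `Phi1_dec`, `Phi2_dec`

Uses the three theorems `K1_dec`, `K2_dec`, `K3_dec` of row K1 (paste them, or that row's file,
above this block, inside the same namespace).
-/

open Real MeasureTheory Set Filter Topology

namespace LpSec.LS

variable {α : ℝ}

theorem LSK2_G_sq_integrable (hα : 1 < α) : IntegrableOn (fun t => t * (t * G α t)) (Ioi 0) := by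
  have hα0 : 0 < α := by linarith
  have h := (aux_Gmom hα0 (q := 2) (by linarith)).1
  refine h.congr_fun (fun t _ => ?_) measurableSet_Ioi
  simp only [rpow_two]
  ring

theorem LSK2_Phi1_eq_G (hα : 1 < α) {s : ℝ} (hs : 0 < s) :
    Phi1 α s = ∫ t in Ioi (0 : ℝ), t * G α t * K 2 (s * t) := by
  have h1 := Phi_hasDerivAt hα hs
  have h2 := phic2_deriv (G_integrable hα) (G_mul_integrable hα) 1 hs
  have h3 : (fun s => ∫ ρ in Ioi (0 : ℝ), G α ρ * K 1 (s * ρ)) =ᶠ[𝓝 s] Phi α := by
    filter_upwards [Ioi_mem_nhds hs] with x hx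
    exact (Phi_eq_G hα (le_of_lt hx)).symm
  have h4 := (h2.congr_of_eventuallyEq h3.symm).unique h1
  linarith

theorem LSK2_Phi2_eq_G (hα : 1 < α) {s : ℝ} (hs : 0 < s) :
    Phi2 α s = ∫ t in Ioi (0 : ℝ), t * (t * G α t) * K 3 (s * t) := by
  have h1 := Phi1_hasDerivAt hα hs
  have h2 := phic2_deriv (G_mul_integrable hα) (LSK2_G_sq_integrable hα) 2 hs
  have h3 : (fun s => ∫ ρ in Ioi (0 : ℝ), ρ * G α ρ * K 2 (s * ρ)) =ᶠ[𝓝 s] Phi1 α := by
    filter_upwards [Ioi_mem_nhds hs] with x hx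
    exact (LSK2_Phi1_eq_G hα hx).symm
  have h4 := (h2.congr_of_eventuallyEq h3.symm).unique h1
  linarith

/-- tangent line of the concave function `x ^ p` at `c` -/
theorem LSK2_tangent {x c p : ℝ} (hx : 0 ≤ x) (hc : 0 < c) (hp0 : 0 ≤ p) (hp1 : p ≤ 1) :
    x ^ p ≤ c ^ p * (1 + p * (x / c - 1)) := by
  have h1 : (1 + (x / c - 1)) ^ p ≤ 1 + p * (x / c - 1) := by
    apply rpow_one_add_le_one_add_mul_self _ hp0 hp1
    have : 0 ≤ x / c := by positivity
    linarith
  have h2 : x ^ p = c ^ p * (1 + (x / c - 1)) ^ p := by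
    rw [show 1 + (x / c - 1) = x / c by ring, ← mul_rpow hc.le (by positivity)]
    congr 1
    field_simp
  rw [h2]
  exact mul_le_mul_of_nonneg_left h1 (by positivity)

/-- Jensen for the probability density `G` and the concave function `x ^ p` -/
theorem LSK2_jensen (hα : 1 < α) {X f : ℝ → ℝ} {c p A : ℝ} (hX : ∀ t, 0 < t → 0 ≤ X t)
    (hi : IntegrableOn (fun t => G α t * X t) (Ioi 0))
    (hc : ∫ t in Ioi (0 : ℝ), G α t * X t = c) (c0 : 0 < c) (hp0 : 0 ≤ p) (hp1 : p ≤ 1)
    (hA : 0 ≤ A) (hf : ∀ t, 0 < t → |f t| ≤ A * (G α t * X t ^ p)) :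
    |∫ t in Ioi (0 : ℝ), f t| ≤ A * c ^ p := by
  have hg : IntegrableOn (fun t => A * c ^ p * ((1 - p) * G α t + p / c * (G α t * X t)))
      (Ioi 0) :=
    (((G_integrable hα).const_mul (1 - p)).add (hi.const_mul (p / c))).const_mul (A * c ^ p)
  have hI : ∫ t in Ioi (0 : ℝ), A * c ^ p * ((1 - p) * G α t + p / c * (G α t * X t)) =
      A * c ^ p := by
    rw [integral_const_mul, integral_add ((G_integrable hα).const_mul (1 - p))
      (hi.const_mul (p / c)), integral_const_mul, integral_const_mul, G_integral hα, hc]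
    have : (1 - p) * 1 + p / c * c = 1 := by field_simp; ring
    rw [this, mul_one]
  rw [← hI, ← Real.norm_eq_abs]
  refine norm_integral_le_of_norm_le hg ?_
  refine (ae_restrict_mem measurableSet_Ioi).mono (fun t ht => ?_)
  have ht0 : (0 : ℝ) < t := ht
  have hG := G_nonneg (α := α) (by linarith) ht0
  rw [Real.norm_eq_abs]
  refine (hf t ht0).trans ?_
  have h1 := LSK2_tangent (hX t ht0) c0 hp0 hp1
  calc A * (G α t * X t ^ p) ≤ A * (G α t * (c ^ p * (1 + p * (X t / c - 1)))) := by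
        gcongr
    _ = A * c ^ p * ((1 - p) * G α t + p / c * (G α t * X t)) := by
        field_simp
        ring

theorem Phi_dec (hα : 1 < α) {s : ℝ} (hs : 0 < s) :
    |Phi α s| ≤ 0.59 * (DD α)⁻¹ ^ (3 / 4 : ℝ) * s ^ (-(3 / 4) : ℝ) := by
  have hD : 0 < DD α := DD_pos (by linarith)
  rw [Phi_eq_G hα hs.le]
  have h := LSK2_jensen hα (X := fun t => t⁻¹) (f := fun t => G α t * K 1 (s * t))
    (c := (DD α)⁻¹) (p := 3 / 4) (A := 0.59 * s ^ (-(3 / 4) : ℝ))
    (fun t ht => by positivity) (by simpa only [div_eq_mul_inv] using G_div_integrable hα)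
    (by simpa only [div_eq_mul_inv] using G_inv hα) (by positivity) (by norm_num) (by norm_num)
    (by positivity)
    (by
      intro t ht
      have hG := G_nonneg (α := α) (by linarith) ht
      have hst : 0 < s * t := by positivity
      have h1 := K1_dec hst
      rw [mul_rpow hs.le ht.le] at h1
      rw [abs_mul, abs_of_nonneg hG, inv_rpow ht.le, ← rpow_neg ht.le]
      calc G α t * |K 1 (s * t)| ≤ G α t * (0.59 * (s ^ (-(3 / 4) : ℝ) * t ^ (-(3 / 4) : ℝ))) := by
            gcongr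
        _ = _ := by ring)
  refine h.trans (le_of_eq ?_)
  ring

theorem Phi1_dec (hα : 1 < α) {s : ℝ} (hs : 0 < s) :
    |Phi1 α s| ≤ 0.62 * (DD α)⁻¹ ^ (1 / 4 : ℝ) * s ^ (-(5 / 4) : ℝ) := by
  have hD : 0 < DD α := DD_pos (by linarith)
  rw [LSK2_Phi1_eq_G hα hs]
  have h := LSK2_jensen hα (X := fun t => t⁻¹) (f := fun t => t * G α t * K 2 (s * t))
    (c := (DD α)⁻¹) (p := 1 / 4) (A := 0.62 * s ^ (-(5 / 4) : ℝ))
    (fun t ht => by positivity) (by simpa only [div_eq_mul_inv] using G_div_integrable hα)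
    (by simpa only [div_eq_mul_inv] using G_inv hα) (by positivity) (by norm_num) (by norm_num)
    (by positivity)
    (by
      intro t ht
      have hG := G_nonneg (α := α) (by linarith) ht
      have hst : 0 < s * t := by positivity
      have h1 := K2_dec hst
      rw [mul_rpow hs.le ht.le] at h1
      have h2 : t * t ^ (-(5 / 4) : ℝ) = t ^ (-(1 / 4) : ℝ) := by
        rw [show (-(1 / 4) : ℝ) = 1 + -(5 / 4) by norm_num, rpow_add ht, rpow_one]
      rw [abs_mul, abs_of_nonneg (by positivity : 0 ≤ t * G α t), inv_rpow ht.le,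
        ← rpow_neg ht.le, ← h2]
      calc t * G α t * |K 2 (s * t)| ≤
            t * G α t * (0.62 * (s ^ (-(5 / 4) : ℝ) * t ^ (-(5 / 4) : ℝ))) := by
            gcongr
        _ = _ := by ring)
  refine h.trans (le_of_eq ?_)
  ring

theorem Phi2_dec (hα : 1 < α) {s : ℝ} (hs : 0 < s) :
    |Phi2 α s| ≤ 0.65 * 2 ^ (1 / 4 : ℝ) * s ^ (-(7 / 4) : ℝ) := by
  rw [LSK2_Phi2_eq_G hα hs]
  have h := LSK2_jensen hα (X := fun t => t) (f := fun t => t * (t * G α t) * K 3 (s * t))
    (c := 2) (p := 1 / 4) (A := 0.65 * s ^ (-(7 / 4) : ℝ))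
    (fun t ht => ht.le) (by simpa only [mul_comm] using G_mul_integrable hα)
    (by simpa only [mul_comm] using G_mean hα) (by positivity) (by norm_num) (by norm_num)
    (by positivity)
    (by
      intro t ht
      have hG := G_nonneg (α := α) (by linarith) ht
      have hst : 0 < s * t := by positivity
      have h1 := K3_dec hst
      rw [mul_rpow hs.le ht.le] at h1
      have h2 : t * (t * t ^ (-(7 / 4) : ℝ)) = t ^ (1 / 4 : ℝ) := by
        rw [show (1 / 4 : ℝ) = 1 + (1 + -(7 / 4)) by norm_num, rpow_add ht, rpow_add ht, rpow_one]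
      rw [abs_mul, abs_of_nonneg (by positivity : 0 ≤ t * (t * G α t)), ← h2]
      calc t * (t * G α t) * |K 3 (s * t)| ≤
            t * (t * G α t) * (0.65 * (s ^ (-(7 / 4) : ℝ) * t ^ (-(7 / 4) : ℝ))) := by
            gcongr
        _ = _ := by ring)
  refine h.trans (le_of_eq ?_)
  ring

end LpSec.LS
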