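import Mathlib
import Pool.Agent.Lib.MP_1dbab3_gt.LS.Ker
import Pool.Agent.Lib.MP_1dbab3_gt.LS.Wb

/-!
# LS-K2: the constants of the far part
-/

open Real MeasureTheory Set Filter Topology

namespace LpSec.LS

variable {α : ℝ}

/-- constants for `s ≥ 6`: `Mk`, `c1`, `bb` as functions of a bound `D` of `1 / DD` -/
structure FarC (α Mk c1 bb : ℝ) : Prop where
  pM : 0 < Mk
  pc : 0 < c1
  pb : 0 < bb
  f0 : ∀ s, 6 ≤ s → |Phi α s| ≤ Mk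
  f1 : ∀ s, 6 ≤ s → s * |Phi1 α s| ≤ c1
  f2 : ∀ s, 6 ≤ s → |Phi2 α s| ≤ 0.0337
  f4 : ∀ s, 0 < s → s * |Phi α s| ^ (4 / 3 : ℝ) ≤ bb
  fW : ∀ r t, 0 < r → r ≤ 1 → 6 ≤ t →
    t * |Wt α r t| ≤ (1 - r) * ((c1 ^ 2 + 1.2132 * Mk) / r ^ 2)

lemma LSK3_le_of_pow4 {a b : ℝ} (hb : 0 ≤ b) (h : a ^ 4 ≤ b ^ 4) : a ≤ b :=
  le_of_pow_le_pow_left₀ (by norm_num) hb h

lemma LSK3_le_of_pow3 {a b : ℝ} (hb : 0 ≤ b) (h : a ^ 3 ≤ b ^ 3) : a ≤ b :=
  le_of_pow_le_pow_left₀ (by norm_num) hb h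

lemma LSK3_rpow_pow4 {x y : ℝ} (hx : 0 ≤ x) : (x ^ y) ^ 4 = x ^ (4 * y) := by
  rw [← rpow_natCast, ← rpow_mul hx]
  congr 1
  push_cast
  ring

lemma LSK3_aux {c e : ℝ} (hc : 0 ≤ c) {s : ℝ} (hs : 6 ≤ s) (he : e ≤ 0) :
    c * s ^ e ≤ c * (6 : ℝ) ^ e :=
  mul_le_mul_of_nonneg_left (rpow_le_rpow_of_nonpos (by norm_num) hs he) hc

theorem farC (hα : 1 < α) {D Mk c1 bb : ℝ} (hD : (DD α)⁻¹ ≤ D) (pM : 0 < Mk) (pc : 0 < c1)
    (pb : 0 < bb) (hM : 0.59 ^ 4 * D ^ 3 ≤ Mk ^ 4 * 6 ^ 3) (hc : 0.62 ^ 4 * D ≤ c1 ^ 4 * 6)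
    (hb : Mk ^ 4 * 216 ≤ bb ^ 3) : FarC α Mk c1 bb := by
  have hd0 : 0 < (DD α)⁻¹ := inv_pos.2 (DD_pos (by linarith))
  obtain ⟨d, hd⟩ : ∃ d, d = (DD α)⁻¹ := ⟨_, rfl⟩
  have hdp : 0 < d := by rw [hd]; exact hd0
  have hdD : d ≤ D := by rw [hd]; exact hD
  -- the three constants
  obtain ⟨a0, ha0⟩ : ∃ a0, a0 = 0.59 * d ^ (3 / 4 : ℝ) := ⟨_, rfl⟩
  obtain ⟨a1, ha1⟩ : ∃ a1, a1 = 0.62 * d ^ (1 / 4 : ℝ) := ⟨_, rfl⟩
  obtain ⟨a2, ha2⟩ : ∃ a2, a2 = 0.65 * (2 : ℝ) ^ (1 / 4 : ℝ) := ⟨_, rfl⟩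
  have a0p : 0 < a0 := by rw [ha0]; positivity
  have a1p : 0 < a1 := by rw [ha1]; positivity
  have a2p : 0 < a2 := by rw [ha2]; positivity
  have P0 : ∀ s, 0 < s → |Phi α s| ≤ a0 * s ^ (-(3 / 4) : ℝ) := fun s hs => by
    rw [ha0, hd]; exact Phi_dec hα hs
  have P1 : ∀ s, 0 < s → |Phi1 α s| ≤ a1 * s ^ (-(5 / 4) : ℝ) := fun s hs => by
    rw [ha1, hd]; exact Phi1_dec hα hs
  have P2 : ∀ s, 0 < s → |Phi2 α s| ≤ a2 * s ^ (-(7 / 4) : ℝ) := fun s hs => by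
    rw [ha2]; exact Phi2_dec hα hs
  -- values at 6
  have six : (0 : ℝ) < 6 := by norm_num
  have C0 : a0 * (6 : ℝ) ^ (-(3 / 4) : ℝ) ≤ Mk := by
    refine LSK3_le_of_pow4 pM.le ?_
    have e1 : (a0 * (6 : ℝ) ^ (-(3 / 4) : ℝ)) ^ 4 = 0.59 ^ 4 * d ^ 3 * (6 ^ 3)⁻¹ := by
      rw [ha0, mul_pow, mul_pow, LSK3_rpow_pow4 hdp.le, LSK3_rpow_pow4 six.le,
        show (4 : ℝ) * (3 / 4) = (3 : ℕ) by norm_num, show (4 : ℝ) * -(3 / 4) = -((3 : ℕ) : ℝ) by norm_num,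
        rpow_natCast, rpow_neg six.le, rpow_natCast]
    rw [e1, mul_inv_le_iff₀ (by norm_num)]
    refine le_trans ?_ hM
    have : d ^ 3 ≤ D ^ 3 := pow_le_pow_left₀ hdp.le hdD 3
    nlinarith [this]
  have C1 : a1 * (6 : ℝ) ^ (-(1 / 4) : ℝ) ≤ c1 := by
    refine LSK3_le_of_pow4 pc.le ?_
    have e1 : (a1 * (6 : ℝ) ^ (-(1 / 4) : ℝ)) ^ 4 = 0.62 ^ 4 * d * 6⁻¹ := by
      rw [ha1, mul_pow, mul_pow, LSK3_rpow_pow4 hdp.le, LSK3_rpow_pow4 six.le,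
        show (4 : ℝ) * (1 / 4) = 1 by norm_num, show (4 : ℝ) * -(1 / 4) = -1 by norm_num,
        rpow_one, rpow_neg_one]
    rw [e1, mul_inv_le_iff₀ (by norm_num)]
    refine le_trans ?_ hc
    nlinarith [hdD]
  have C2 : a2 * (6 : ℝ) ^ (-(7 / 4) : ℝ) ≤ 0.0337 := by
    refine LSK3_le_of_pow4 (by norm_num) ?_
    have e1 : (a2 * (6 : ℝ) ^ (-(7 / 4) : ℝ)) ^ 4 = 0.65 ^ 4 * 2 * (6 ^ 7)⁻¹ := by
      rw [ha2, mul_pow, mul_pow, LSK3_rpow_pow4 (by norm_num), LSK3_rpow_pow4 six.le,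
        show (4 : ℝ) * (1 / 4) = 1 by norm_num, show (4 : ℝ) * -(7 / 4) = -((7 : ℕ) : ℝ) by norm_num,
        rpow_one, rpow_neg six.le, rpow_natCast]
    rw [e1]
    norm_num
  have f0 : ∀ s, 6 ≤ s → |Phi α s| ≤ Mk := fun s hs =>
    (P0 s (by linarith)).trans ((LSK3_aux a0p.le hs (by norm_num)).trans C0)
  have f1 : ∀ s, 6 ≤ s → s * |Phi1 α s| ≤ c1 := fun s hs => by
    have hs0 : 0 < s := by linarith
    have h1 : s * |Phi1 α s| ≤ s * (a1 * s ^ (-(5 / 4) : ℝ)) :=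
      mul_le_mul_of_nonneg_left (P1 s hs0) hs0.le
    have h2 : s * (a1 * s ^ (-(5 / 4) : ℝ)) = a1 * s ^ (-(1 / 4) : ℝ) := by
      have : s ^ (-(1 / 4) : ℝ) = s * s ^ (-(5 / 4) : ℝ) := by
        rw [show (-(1 / 4) : ℝ) = 1 + -(5 / 4) by norm_num, rpow_add hs0, rpow_one]
      rw [this]; ring
    rw [h2] at h1
    exact h1.trans ((LSK3_aux a1p.le hs (by norm_num)).trans C1)
  refine ⟨pM, pc, pb, f0, f1, fun s hs =>
    (P2 s (by linarith)).trans ((LSK3_aux a2p.le hs (by norm_num)).trans C2), ?_, ?_⟩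
  · intro s hs
    refine LSK3_le_of_pow3 pb.le (le_trans ?_ hb)
    have hx0 : 0 ≤ |Phi α s| := abs_nonneg _
    have e1 : (s * |Phi α s| ^ (4 / 3 : ℝ)) ^ 3 = s ^ 3 * |Phi α s| ^ 4 := by
      rw [mul_pow, ← rpow_natCast (|Phi α s| ^ (4 / 3 : ℝ)), ← rpow_mul hx0]
      congr 1
      rw [← rpow_natCast]
      norm_num
    rw [e1]
    have e2 : |Phi α s| ^ 4 ≤ (a0 * s ^ (-(3 / 4) : ℝ)) ^ 4 := pow_le_pow_left₀ hx0 (P0 s hs) 4
    have e3 : (a0 * s ^ (-(3 / 4) : ℝ)) ^ 4 = 0.59 ^ 4 * d ^ 3 * (s ^ 3)⁻¹ := by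
      rw [ha0, mul_pow, mul_pow, LSK3_rpow_pow4 hdp.le, LSK3_rpow_pow4 hs.le,
        show (4 : ℝ) * (3 / 4) = (3 : ℕ) by norm_num, show (4 : ℝ) * -(3 / 4) = -((3 : ℕ) : ℝ) by norm_num,
        rpow_natCast, rpow_neg hs.le, rpow_natCast]
    rw [e3] at e2
    have e4 : s ^ 3 * |Phi α s| ^ 4 ≤ 0.59 ^ 4 * d ^ 3 := by
      calc s ^ 3 * |Phi α s| ^ 4 ≤ s ^ 3 * (0.59 ^ 4 * d ^ 3 * (s ^ 3)⁻¹) :=
            mul_le_mul_of_nonneg_left e2 (by positivity)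
        _ = 0.59 ^ 4 * d ^ 3 := by field_simp
    have : d ^ 3 ≤ D ^ 3 := pow_le_pow_left₀ hdp.le hdD 3
    nlinarith [this, e4, hM]
  · intro r t hr hr1 ht
    have ht0 : 0 < t := by linarith
    have hrt : 0 < r * t := mul_pos hr ht0
    have hW := W_abs' hα hr.le hr1 ht0 (E1 := a1 * (r * t) ^ (-(5 / 4) : ℝ))
      (E2 := a2 * (r * t) ^ (-(7 / 4) : ℝ))
      (fun x hx => (P1 x (by linarith [hx.1])).trans
        (mul_le_mul_of_nonneg_left (rpow_le_rpow_of_nonpos hrt hx.1 (by norm_num)) a1p.le))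
      (fun x hx => (P2 x (by linarith [hx.1])).trans
        (mul_le_mul_of_nonneg_left (rpow_le_rpow_of_nonpos hrt hx.1 (by norm_num)) a2p.le))
    have hr1' : 0 ≤ 1 - r := by linarith
    -- first product
    have q1 : t * (a1 * (r * t) ^ (-(5 / 4) : ℝ)) ≤ c1 * (r ^ 2)⁻¹ := by
      have e1 : t * (a1 * (r * t) ^ (-(5 / 4) : ℝ)) =
          (a1 * t ^ (-(1 / 4) : ℝ)) * r ^ (-(5 / 4) : ℝ) := by
        have : t ^ (-(1 / 4) : ℝ) = t * t ^ (-(5 / 4) : ℝ) := by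
          rw [show (-(1 / 4) : ℝ) = 1 + -(5 / 4) by norm_num, rpow_add ht0, rpow_one]
        rw [mul_rpow hr.le ht0.le, this]; ring
      rw [e1]
      have e2 : r ^ (-(5 / 4) : ℝ) ≤ (r ^ 2)⁻¹ := by
        rw [← rpow_natCast r 2, ← rpow_neg hr.le]
        exact rpow_le_rpow_of_exponent_ge hr hr1 (by norm_num)
      exact mul_le_mul ((LSK3_aux a1p.le ht (by norm_num)).trans C1) e2 (by positivity) pc.le
    have q2 : t * (t * (|Phi α t| * (a2 * (r * t) ^ (-(7 / 4) : ℝ)))) ≤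
        1.2132 * Mk * (r ^ 2)⁻¹ := by
      have e1 : t * (t * (|Phi α t| * (a2 * (r * t) ^ (-(7 / 4) : ℝ)))) ≤
          (a0 * (t ^ (-(1 / 2) : ℝ) * a2)) * r ^ (-(7 / 4) : ℝ) := by
        have h1 : |Phi α t| * (a2 * (r * t) ^ (-(7 / 4) : ℝ)) ≤
            (a0 * t ^ (-(3 / 4) : ℝ)) * (a2 * (r * t) ^ (-(7 / 4) : ℝ)) :=
          mul_le_mul_of_nonneg_right (P0 t ht0) (by positivity)
        have h2 : t * (t * ((a0 * t ^ (-(3 / 4) : ℝ)) * (a2 * (r * t) ^ (-(7 / 4) : ℝ)))) =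
            (a0 * (t ^ (-(1 / 2) : ℝ) * a2)) * r ^ (-(7 / 4) : ℝ) := by
          have : t ^ (-(1 / 2) : ℝ) = t * t * t ^ (-(3 / 4) : ℝ) * t ^ (-(7 / 4) : ℝ) := by
            rw [show (-(1 / 2) : ℝ) = 1 + 1 + -(3 / 4) + -(7 / 4) by norm_num, rpow_add ht0,
              rpow_add ht0, rpow_add ht0, rpow_one]
          rw [mul_rpow hr.le ht0.le, this]; ring
        rw [← h2]
        exact mul_le_mul_of_nonneg_left (mul_le_mul_of_nonneg_left h1 ht0.le) ht0.le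
      refine e1.trans ?_
      have e2 : r ^ (-(7 / 4) : ℝ) ≤ (r ^ 2)⁻¹ := by
        rw [← rpow_natCast r 2, ← rpow_neg hr.le]
        exact rpow_le_rpow_of_exponent_ge hr hr1 (by norm_num)
      have e3 : a0 * (t ^ (-(1 / 2) : ℝ) * a2) ≤ 1.2132 * Mk := by
        have h1 : t ^ (-(1 / 2) : ℝ) ≤ (6 : ℝ) ^ (-(1 / 2) : ℝ) :=
          rpow_le_rpow_of_nonpos six ht (by norm_num)
        have h2 : a0 * (t ^ (-(1 / 2) : ℝ) * a2) ≤ a0 * ((6 : ℝ) ^ (-(1 / 2) : ℝ) * a2) :=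
          mul_le_mul_of_nonneg_left (mul_le_mul_of_nonneg_right h1 a2p.le) a0p.le
        have h3 : a0 * ((6 : ℝ) ^ (-(1 / 2) : ℝ) * a2) =
            36 * ((a0 * (6 : ℝ) ^ (-(3 / 4) : ℝ)) * (a2 * (6 : ℝ) ^ (-(7 / 4) : ℝ))) := by
          have : (6 : ℝ) ^ (-(1 / 2) : ℝ) = 6 * 6 * 6 ^ (-(3 / 4) : ℝ) * 6 ^ (-(7 / 4) : ℝ) := by
            rw [show (-(1 / 2) : ℝ) = 1 + 1 + -(3 / 4) + -(7 / 4) by norm_num, rpow_add six,
              rpow_add six, rpow_add six, rpow_one]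
          rw [this]; ring
        have h4 : (a0 * (6 : ℝ) ^ (-(3 / 4) : ℝ)) * (a2 * (6 : ℝ) ^ (-(7 / 4) : ℝ)) ≤
            Mk * 0.0337 := mul_le_mul C0 C2 (by positivity) pM.le
        rw [h3] at h2
        linarith
      exact mul_le_mul e3 e2 (by positivity) (by positivity)
    have q3 : t * (t * (|Phi1 α t| * (a1 * (r * t) ^ (-(5 / 4) : ℝ)))) ≤
        c1 ^ 2 * (r ^ 2)⁻¹ := by
      have h1 : (t * |Phi1 α t|) * (t * (a1 * (r * t) ^ (-(5 / 4) : ℝ))) ≤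
          c1 * (c1 * (r ^ 2)⁻¹) := mul_le_mul (f1 t ht) q1 (by positivity) pc.le
      calc t * (t * (|Phi1 α t| * (a1 * (r * t) ^ (-(5 / 4) : ℝ)))) =
          (t * |Phi1 α t|) * (t * (a1 * (r * t) ^ (-(5 / 4) : ℝ))) := by ring
        _ ≤ c1 * (c1 * (r ^ 2)⁻¹) := h1
        _ = c1 ^ 2 * (r ^ 2)⁻¹ := by ring
    calc t * |Wt α r t| ≤ t * ((1 - r) * t * (|Phi1 α t| * (a1 * (r * t) ^ (-(5 / 4) : ℝ)) +
          |Phi α t| * (a2 * (r * t) ^ (-(7 / 4) : ℝ)))) := mul_le_mul_of_nonneg_left hW ht0.le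
      _ = (1 - r) * (t * (t * (|Phi1 α t| * (a1 * (r * t) ^ (-(5 / 4) : ℝ)))) +
          t * (t * (|Phi α t| * (a2 * (r * t) ^ (-(7 / 4) : ℝ))))) := by ring
      _ ≤ (1 - r) * (c1 ^ 2 * (r ^ 2)⁻¹ + 1.2132 * Mk * (r ^ 2)⁻¹) :=
          mul_le_mul_of_nonneg_left (add_le_add q3 q2) hr1'
      _ = (1 - r) * ((c1 ^ 2 + 1.2132 * Mk) / r ^ 2) := by rw [div_eq_mul_inv]; ring

/-- the cubic trick: `|Phi'| ≤ L` beyond `6` and a small `T2` -/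
theorem cubic (hα : 1 < α) {L M : ℝ} (hL : 0 < L) (h1 : ∀ s, 6 ≤ s → |Phi1 α s| ≤ L)
    (hM : 3 * L * T2 α 6 ≤ M ^ 3) (hM0 : 0 ≤ M) {s : ℝ} (hs : 6 ≤ s) : |Phi α s| ≤ M := by
  obtain ⟨v, hv⟩ : ∃ v, v = |Phi α s| := ⟨_, rfl⟩
  have hv0 : 0 ≤ v := by rw [hv]; exact abs_nonneg _
  have hw0 : 0 ≤ v / L := by positivity
  -- Lipschitz
  have hlip : ∀ x, s ≤ x → v - L * (x - s) ≤ |Phi α x| := by
    intro x hx
    have hb : ‖Phi α x - Phi α s‖ ≤ L * ‖x - s‖ := by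
      refine (convex_Icc s x).norm_image_sub_le_of_norm_hasDerivWithin_le
        (f := Phi α) (f' := fun y => -(Phi1 α y)) (C := L) ?_ ?_ (left_mem_Icc.2 hx)
        (right_mem_Icc.2 hx)
      · intro y hy
        exact (Phi_hasDerivAt hα (by linarith [hy.1] : 0 < y)).hasDerivWithinAt
      · intro y hy
        rw [norm_neg]
        exact h1 y (by linarith [hy.1])
    rw [Real.norm_eq_abs, Real.norm_eq_abs, abs_of_nonneg (by linarith : 0 ≤ x - s)] at hb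
    have h2 : |Phi α s| - |Phi α x| ≤ |Phi α x - Phi α s| := by
      rw [abs_sub_comm]; exact abs_sub_abs_le_abs_sub _ _
    rw [← hv] at h2
    linarith
  -- the integral
  have hI : ∫ x in s..(s + v / L), (v - L * (x - s)) ^ 2 = v ^ 3 / (3 * L) := by
    have hd : ∀ x ∈ uIcc s (s + v / L), HasDerivAt (fun x => -(v - L * (x - s)) ^ 3 / (3 * L))
        ((v - L * (x - s)) ^ 2) x := by
      intro x _
      have h2 : HasDerivAt (fun x => v - L * (x - s)) (-L) x := by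
        have h3 := ((hasDerivAt_id x).sub_const s).const_mul L |>.const_sub v
        simpa using h3
      have h4 := ((h2.pow 3).neg).div_const (3 * L)
      refine h4.congr_deriv ?_
      field_simp
      ring
    rw [intervalIntegral.integral_eq_sub_of_hasDerivAt hd]
    · have : L * (v / L) = v := by field_simp
      have e : v - L * (s + v / L - s) = 0 := by
        rw [show s + v / L - s = v / L by ring, this, sub_self]
      simp only [e, sub_self, mul_zero, sub_zero]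
      ring
    · apply Continuous.intervalIntegrable
      fun_prop
  have hJ : ∫ x in s..(s + v / L), (v - L * (x - s)) ^ 2 ≤
      ∫ x in s..(s + v / L), Phi α x ^ 2 := by
    refine intervalIntegral.integral_mono_on (by linarith) ?_ ?_ ?_
    · apply Continuous.intervalIntegrable
      fun_prop
    · rw [intervalIntegrable_iff_integrableOn_Ioc_of_le (by linarith)]
      exact (Phi_sq_integrable_Ioi hα (by linarith : (0 : ℝ) ≤ s)).mono_set Ioc_subset_Ioi_self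
    · intro x hx
      have h2 : 0 ≤ v - L * (x - s) := by
        have h3 : x - s ≤ v / L := by linarith [hx.2]
        have h4 : L * (x - s) ≤ L * (v / L) := mul_le_mul_of_nonneg_left h3 hL.le
        have h5 : L * (v / L) = v := by field_simp
        linarith
      have h3 := hlip x hx.1
      calc (v - L * (x - s)) ^ 2 ≤ |Phi α x| ^ 2 := pow_le_pow_left₀ h2 h3 2
        _ = Phi α x ^ 2 := sq_abs _
  have hK : ∫ x in s..(s + v / L), Phi α x ^ 2 ≤ T2 α 6 := by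
    rw [T2_sub hα (by linarith) (by linarith)]
    have h2 := T2_nonneg α (s + v / L)
    have h3 := T2_anti hα (by norm_num : (0 : ℝ) ≤ 6) hs
    linarith
  have hfin : v ^ 3 / (3 * L) ≤ T2 α 6 := by
    rw [← hI]; exact hJ.trans hK
  rw [div_le_iff₀ (by positivity)] at hfin
  rw [← hv]
  refine LSK3_le_of_pow3 hM0 ?_
  linarith

/-- `-Phi ≤ 0.1324` everywhere and `|Phi| ≤ 0.1324` beyond the first zero -/
theorem abs_le_1324 (h : Lobe α) {s : ℝ} (hs : z1 α ≤ s) : |Phi α s| ≤ 0.1324 := by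
  have hs0 : 0 ≤ s := by linarith [h.one_le_z1]
  rw [abs_le]
  refine ⟨Phi_lower h.one_lt hs0, ?_⟩
  rcases le_total s 6 with h6 | h6
  · have := h.neg s hs h6
    linarith
  · have := h.far s h6
    linarith

end LpSec.LS
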