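import Mathlib

/-!
# LS: integer arithmetic with the scale `10^9`, rounding up
-/

open Real

namespace LpSec.LS

/-- the real number of a scaled integer -/
noncomputable def up (n : ℕ) : ℝ := (n : ℝ) / 1000000000

def mUp (a b : ℕ) : ℕ := a * b / 1000000000 + 1

/-- `a * p / q` rounded up -/
def qUp (a p q : ℕ) : ℕ := a * p / q + 1

def pUp (b n : ℕ) : ℕ := b ^ n * 1000000000 / 1000000000 ^ n + 1

def nmin (a b : ℕ) : ℕ := cond (Nat.ble a b) a b
def nmax (a b : ℕ) : ℕ := cond (Nat.ble a b) b a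

/-- upper bound of `exp (-k/64)` -/
def expUp (k : ℕ) : ℕ := mUp (pUp 367879442 (k / 64)) (pUp 984496438 (k % 64))

/-- `M ≤ exp (-k/64)` -/
def expOk (M k : ℕ) : Bool :=
  Nat.ble (M * 1000000000 ^ (k / 64 + k % 64))
    (1000000000 * (367879441 ^ (k / 64) * 984496437 ^ (k % 64)))

def nth : List ℕ → ℕ → ℕ
  | [], _ => 0
  | a :: _, 0 => a
  | _ :: l, n + 1 => nth l n

theorem up_nonneg (n : ℕ) : 0 ≤ up n := by unfold up; positivity

theorem up_mono {a b : ℕ} (h : a ≤ b) : up a ≤ up b := by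
  unfold up
  have : (a : ℝ) ≤ b := by exact_mod_cast h
  linarith

theorem up_add (a b : ℕ) : up (a + b) = up a + up b := by unfold up; push_cast; ring

theorem nmin_eq (a b : ℕ) : nmin a b = min a b := by
  unfold nmin
  rcases le_total a b with h | h
  · rw [min_eq_left h, Nat.ble_eq_true_of_le h]; rfl
  · rcases eq_or_lt_of_le h with rfl | h'
    · rw [min_self, Nat.ble_eq_true_of_le le_rfl]; rfl
    · rw [min_eq_right h]
      have : Nat.ble a b = false := by
        rw [← Bool.not_eq_true, Nat.ble_eq]; omega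
      rw [this]; rfl

theorem nmax_eq (a b : ℕ) : nmax a b = max a b := by
  unfold nmax
  rcases le_total a b with h | h
  · rw [max_eq_right h, Nat.ble_eq_true_of_le h]; rfl
  · rcases eq_or_lt_of_le h with rfl | h'
    · rw [max_self, Nat.ble_eq_true_of_le le_rfl]; rfl
    · rw [max_eq_left h]
      have : Nat.ble a b = false := by
        rw [← Bool.not_eq_true, Nat.ble_eq]; omega
      rw [this]; rfl

theorem up_nmin {x : ℝ} {a b : ℕ} (ha : x ≤ up a) (hb : x ≤ up b) : x ≤ up (nmin a b) := by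
  rw [nmin_eq]
  rcases min_choice a b with h | h <;> rw [h] <;> assumption

theorem le_nmax_left (a b : ℕ) : a ≤ nmax a b := by rw [nmax_eq]; exact le_max_left _ _
theorem le_nmax_right (a b : ℕ) : b ≤ nmax a b := by rw [nmax_eq]; exact le_max_right _ _

theorem div_lt_add_one (a q : ℕ) (hq : 0 < q) : (a : ℝ) / q ≤ ((a / q + 1 : ℕ) : ℝ) := by
  have hq' : (0 : ℝ) < q := by exact_mod_cast hq
  rw [div_le_iff₀ hq']
  have h : a ≤ (a / q + 1) * q := by
    have := Nat.lt_div_mul_add hq (a := a)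
    calc a ≤ a / q * q + q := this.le
      _ = (a / q + 1) * q := by ring
  exact_mod_cast h

theorem qUp_le {x : ℝ} {a p q : ℕ} (hq : 0 < q) (hx : x ≤ up a) : x * (p / q) ≤ up (qUp a p q) := by
  have h := div_lt_add_one (a * p) q hq
  unfold up qUp at *
  have h0 : (0 : ℝ) ≤ (p : ℝ) / q := by positivity
  calc x * (p / q) ≤ (a : ℝ) / 1000000000 * (p / q) := mul_le_mul_of_nonneg_right hx h0
    _ = ((a * p : ℕ) : ℝ) / q / 1000000000 := by push_cast; ring
    _ ≤ ((a * p / q + 1 : ℕ) : ℝ) / 1000000000 := by gcongr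

theorem mUp_le {x y : ℝ} {a b : ℕ} (hx : x ≤ up a) (hy : y ≤ up b) (hy0 : 0 ≤ y) :
    x * y ≤ up (mUp a b) := by
  have h := div_lt_add_one (a * b) 1000000000 (by norm_num)
  unfold mUp
  calc x * y ≤ up a * y := mul_le_mul_of_nonneg_right hx hy0
    _ ≤ up a * up b := mul_le_mul_of_nonneg_left hy (up_nonneg a)
    _ = ((a * b : ℕ) : ℝ) / ((1000000000 : ℕ) : ℝ) / 1000000000 := by unfold up; push_cast; ring
    _ ≤ up (a * b / 1000000000 + 1) := by unfold up; gcongr

theorem pUp_le {x : ℝ} {a : ℕ} (hx0 : 0 ≤ x) (hx : x ≤ up a) (n : ℕ) : x ^ n ≤ up (pUp a n) := by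
  have h := div_lt_add_one (a ^ n * 1000000000) (1000000000 ^ n) (by positivity)
  unfold pUp
  calc x ^ n ≤ up a ^ n := pow_le_pow_left₀ hx0 hx n
    _ = ((a ^ n * 1000000000 : ℕ) : ℝ) / ((1000000000 ^ n : ℕ) : ℝ) / 1000000000 := by
        unfold up; push_cast; rw [div_pow]; ring
    _ ≤ up (a ^ n * 1000000000 / 1000000000 ^ n + 1) := by unfold up; gcongr

theorem exp_neg_one_le : exp (-1) ≤ up 367879442 := by
  have h1 := Real.exp_one_gt_d9
  have h2 : exp (-1) = (exp 1)⁻¹ := by rw [exp_neg]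
  rw [h2]
  unfold up
  rw [inv_le_comm₀ (exp_pos 1) (by norm_num)]
  refine le_trans ?_ h1.le
  norm_num

theorem exp_neg_one_ge : (367879441 : ℝ) / 1000000000 ≤ exp (-1) := by
  have h1 := Real.exp_one_lt_d9
  have h2 : exp (-1) = (exp 1)⁻¹ := by rw [exp_neg]
  rw [h2, le_inv_comm₀ (by norm_num) (exp_pos 1)]
  refine h1.le.trans ?_
  norm_num

theorem exp_neg_64_le : exp (-(1 / 64)) ≤ up 984496438 := by
  have h := Real.sum_le_exp_of_nonneg (x := 1 / 64) (by norm_num) 6
  rw [exp_neg]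
  unfold up
  rw [inv_le_comm₀ (exp_pos _) (by norm_num)]
  refine le_trans ?_ h
  norm_num [Finset.sum_range_succ, Nat.factorial]

theorem exp_neg_64_ge : (984496437 : ℝ) / 1000000000 ≤ exp (-(1 / 64)) := by
  rw [exp_neg, le_inv_comm₀ (by norm_num) (exp_pos _)]
  have h := Real.exp_bound' (x := 1 / 64) (by norm_num) (by norm_num) (n := 6) (by norm_num)
  refine h.trans ?_
  norm_num [Finset.sum_range_succ, Nat.factorial]

theorem exp_split (k : ℕ) : exp (-((k : ℝ) / 64)) = exp (-1) ^ (k / 64) * exp (-(1 / 64)) ^ (k % 64) := by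
  rw [← exp_nat_mul, ← exp_nat_mul, ← exp_add]
  congr 1
  have h : ((64 * (k / 64) + k % 64 : ℕ) : ℝ) = k := by exact_mod_cast Nat.div_add_mod k 64
  push_cast at h
  linarith

theorem expUp_le (k : ℕ) : exp (-((k : ℝ) / 64)) ≤ up (expUp k) := by
  rw [exp_split]
  exact mUp_le (pUp_le (exp_pos _).le exp_neg_one_le _) (pUp_le (exp_pos _).le exp_neg_64_le _)
    (by positivity)

theorem expOk_le {M k : ℕ} (h : expOk M k = true) : up M ≤ exp (-((k : ℝ) / 64)) := by
  unfold expOk at h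
  rw [Nat.ble_eq] at h
  rw [exp_split]
  have h1 : ((367879441 : ℝ) / 1000000000) ^ (k / 64) ≤ exp (-1) ^ (k / 64) :=
    pow_le_pow_left₀ (by norm_num) exp_neg_one_ge _
  have h2 : ((984496437 : ℝ) / 1000000000) ^ (k % 64) ≤ exp (-(1 / 64)) ^ (k % 64) :=
    pow_le_pow_left₀ (by norm_num) exp_neg_64_ge _
  refine le_trans ?_ (mul_le_mul h1 h2 (by positivity) (by positivity))
  rw [div_pow, div_pow, div_mul_div_comm, ← pow_add]
  unfold up
  rw [div_le_div_iff₀ (by norm_num) (by positivity)]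
  have h3 : ((M * 1000000000 ^ (k / 64 + k % 64) : ℕ) : ℝ) ≤
      ((1000000000 * (367879441 ^ (k / 64) * 984496437 ^ (k % 64)) : ℕ) : ℝ) := by
    exact_mod_cast h
  push_cast at h3
  linarith

/-- for `x ≥ k / 64` -/
theorem exp_le_expUp {x : ℝ} {k : ℕ} (h : (k : ℝ) / 64 ≤ x) : exp (-x) ≤ up (expUp k) :=
  (exp_le_exp.2 (neg_le_neg h)).trans (expUp_le k)

theorem floor_div_le (a b : ℕ) : ((a / b : ℕ) : ℝ) ≤ (a : ℝ) / b := Nat.cast_div_le

end LpSec.LS
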