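import Mathlib
import Pool.Agent.Lib.MP_1dbab3_gt.LS.Num

/-!
# LS: the integer checker of one leaf

Units: `N`, `r`, `q`, `θ` in `1/640`; everything else has the scale `10^9`.
-/

namespace LpSec.LS

/-- certificate of one `u`-cell -/
structure Crt where
  jz : ℕ
  jh : ℕ
  js : ℕ
  j5 : ℕ
  B0 : List ℕ
  A1 : List ℕ
  E0 : List ℕ
  E1 : List ℕ
  E2 : List ℕ
  XE : List ℕ
  T2 : List ℕ
  PM : List ℕ
  M : ℕ
  Mf : ℕ
  m64 : ℕ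
  g0 : ℕ
  k0 : ℕ
  k1 : ℕ
  Mk : ℕ
  c1 : ℕ
  bb : ℕ

/-- bound of `t |W| / (1 - r)` on the piece `j` -/
def Vb (c : Crt) (r1 r2 j : ℕ) : ℕ :=
  qUp (cond (Nat.blt r2 640)
    (nmin (qUp (mUp (nth c.A1 j) (nth c.E0 (r1 * j / 640)) +
        mUp (nth c.B0 j) (nth c.E1 (r1 * j / 640))) 640 (640 - r2))
      (qUp (mUp (nth c.A1 j) (nth c.E1 (r1 * j / 640)) +
        mUp (nth c.B0 j) (nth c.E2 (r1 * j / 640))) (j + 1) 10))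
    (qUp (mUp (nth c.A1 j) (nth c.E1 (r1 * j / 640)) +
        mUp (nth c.B0 j) (nth c.E2 (r1 * j / 640))) (j + 1) 10)) (j + 1) 10

/-- the product, two factors -/
def P4 (c : Crt) (q1 tm j : ℕ) : ℕ :=
  cond (Nat.blt j c.j5)
    (cond (Nat.ble (10 * c.jh * 64) (tm * j)) 0 (mUp (nth c.PM j) (nth c.E0 (tm * j / 640))))
    (mUp (nth c.E0 (q1 * j / 1280)) (nth c.E0 (tm * j / 640)))

/-- one term of the maximum over the number `a` of factors beyond the first zero -/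
def PaT (M K0 q1 r1 j a : ℕ) : ℕ :=
  mUp (pUp M a) (expUp (j * nmax (q1 - 640 * a) ((K0 - a) * r1) / 100))

def PaM (f : ℕ → ℕ) : ℕ → ℕ
  | 0 => f 0
  | n + 1 => nmax (f (n + 1)) (PaM f n)

/-- the product, at least `K0` factors -/
def Pa (c : Crt) (K0 q1 r1 j : ℕ) : ℕ :=
  cond (Nat.blt j c.js) (PaM (fun a => PaT (nth c.PM j) K0 q1 r1 j (a + 1)) K0)
    (PaM (PaT c.M K0 q1 r1 j) (K0 + 1))

/-- the product, any number of factors -/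
def Pg (c : Crt) (q1 j : ℕ) : ℕ :=
  cond (Nat.blt j c.js)
    (mUp (nth c.PM j) (expUp (nmin (64 * j / 10) c.m64 * (q1 - 640) / 640)))
    (expUp (nmin (64 * j / 10) c.m64 * q1 / 640))

/-- `∑_{j0 ≤ j < j0 + n} f j` -/
def Sm (f : ℕ → ℕ) : ℕ → ℕ → ℕ
  | _, 0 => 0
  | j, n + 1 => f j + Sm f (j + 1) n

/-- bound of `T2 (6 θ) / θ` -/
def gT (c : Crt) (θ : ℕ) : ℕ := qUp (nth c.T2 (3 * θ / 32)) 640 θ

/-- far part, `K = 2, 3` factors -/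
def Cp (c : Crt) (K q1 r1 r2 : ℕ) : ℕ :=
  let ga := gT c (nmax (q1 / K) r1)
  let e6 := nth c.E0 (3 * r1 / 32)
  let xr := qUp (nth c.XE (3 * r1 / 32)) 640 r1
  let G := mUp (pUp e6 (K - 2)) ((ga + gT c (nmax ((q1 - 640) / (K - 1)) r1)) / 2 + 1)
  let CB := mUp (qUp (mUp c.c1 c.c1 + mUp 1213200000 c.Mk) 409600 (r1 * r1)) G
  cond (Nat.blt r2 640)
    (nmin (qUp (mUp c.c1 (mUp e6 G) + nmin (mUp xr (mUp c.Mf G))
      (mUp xr (mUp (pUp e6 (K - 1)) ((nth c.T2 60 + ga) / 2 + 1)))) 640 (640 - r2)) CB) CB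

/-- `∫_6^∞ ∏ |Φ|`, total exponent `p ≥ 2` -/
def Gp (c : Crt) (p : ℕ) : ℕ :=
  mUp (expUp (c.m64 * (p - 1280) / 640)) c.g0 + expUp (384 * p / 640)

/-- `∫_6^∞ t ∏ |Φ|`, total exponent `p ≥ 10/3` -/
def Gq (c : Crt) (p : ℕ) : ℕ :=
  mUp c.bb (mUp (expUp (c.m64 * (p - 2134) / 640)) c.g0) + 3 * expUp (384 * p / 640)

def optMin (b1 b2 : Bool) (x y : ℕ) : ℕ := cond b1 (cond b2 (nmin x y) x) y

/-- far part, at least four factors -/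
def C6 (c : Crt) (N1 q1 r1 r2 : ℕ) : ℕ :=
  let e6 := nth c.E0 (3 * r1 / 32)
  let xr := qUp (nth c.XE (3 * r1 / 32)) 640 r1
  let G := optMin (Nat.ble 1280 q1) (Nat.blt 0 r1) (Gp c q1) (mUp (pUp e6 2) (gT c r1))
  let p := nmax (N1 - r2) (640 + q1)
  let X2 := optMin (Nat.ble 2134 p) (Nat.blt 0 r1) (mUp (nth c.E1 (3 * r1 / 32)) (Gq c p))
    (mUp xr (mUp c.Mf G))
  qUp (mUp c.c1 (nmin (Gp c (N1 - 640)) (mUp e6 G)) + X2) 640 (640 - r2)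

/-- far part, `N ≥ Nb` -/
def CN (c : Crt) (Nb r1 r2 : ℕ) : ℕ :=
  optMin (Nat.blt r2 640) (Nat.blt 0 r1)
    (qUp (mUp c.c1 (Gp c (Nb - 640)) + mUp (nth c.E1 (3 * r1 / 32)) (Gq c (Nb - r2))) 640
      (640 - r2))
    (mUp (qUp (mUp c.c1 c.c1 + mUp 1213200000 c.Mk) 409600 (r1 * r1)) (Gp c (Nb - 640 - r2)))

def nthT : List (ℕ × ℕ × ℕ) → ℕ → ℕ × ℕ × ℕ
  | [], _ => (0, 0, 0)
  | a :: _, 0 => a
  | _ :: l, n + 1 => nthT l n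

/-- lower bound of the main part / `(1 - r)` -/
def Lb (T : List (ℕ × ℕ × ℕ)) (c : Crt) (N2 r1 : ℕ) : ℕ :=
  let x := nthT T ((N2 + 63) / 64 - 30)
  c.k0 * x.1 / 1000000000 + c.k1 * (640 + r1) * x.2.1 / 1280000000000 +
    c.k0 * c.k0 * (409600 + 640 * r1 + r1 * r1) * x.2.2 / 819200000000000000000000

def leaf4 (T : List (ℕ × ℕ × ℕ)) (c : Crt) (N1 N2 r1 r2 : ℕ) : Bool :=
  Bool.or (Nat.blt N2 (640 + 3 * r1)) (Bool.or (Nat.blt r2 (N1 - 1920))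
    (Bool.and (Nat.ble 320 r1) (Bool.and (Nat.blt 1280 N1)
      (Nat.blt (Sm (fun j => mUp (Vb c r1 r2 j)
          (P4 c (nmax (N1 - 640 - r2) (2 * r1))
            (nmax r1 (nmax (N1 - 640 - r2) (2 * r1) - 640)) j)) c.jz (60 - c.jz) / 10 + 1 +
        Cp c 2 (nmax (N1 - 640 - r2) (2 * r1)) r1 r2) (Lb T c N2 r1)))))

def leaf5 (T : List (ℕ × ℕ × ℕ)) (c : Crt) (N1 N2 r1 r2 : ℕ) : Bool :=
  Bool.or (Nat.blt N2 (640 + 4 * r1)) (Bool.or (Nat.blt r2 (N1 - 2560))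
    (Bool.and (Nat.ble 64 r1) (Bool.and (Nat.blt 1280 N1)
      (Nat.blt (Sm (fun j => mUp (Vb c r1 r2 j)
          (Pa c 3 (nmax (N1 - 640 - r2) (3 * r1)) r1 j)) c.jz (60 - c.jz) / 10 + 1 +
        Cp c 3 (nmax (N1 - 640 - r2) (3 * r1)) r1 r2) (Lb T c N2 r1)))))

def leaf6 (T : List (ℕ × ℕ × ℕ)) (c : Crt) (N1 N2 r1 r2 : ℕ) : Bool :=
  Bool.or (Nat.blt N2 (640 + 5 * r1))
    (Bool.and (Bool.and (Nat.blt r2 640) (Nat.ble (N1 - 640 - r2) 3200))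
      (Bool.and (Bool.or (Nat.ble 1280 (nmax (N1 - 640 - r2) (4 * r1))) (Nat.blt 0 r1))
      (Bool.and (Bool.or (Nat.ble 2134 (nmax (N1 - r2) (640 + nmax (N1 - 640 - r2) (4 * r1))))
        (Nat.blt 0 r1))
      (Bool.and (Nat.ble 1920 N1)
      (Nat.blt (Sm (fun j => mUp (Vb c r1 r2 j)
          (Pa c 4 (nmax (N1 - 640 - r2) (4 * r1)) r1 j)) c.jz (60 - c.jz) / 10 + 1 +
        C6 c N1 (nmax (N1 - 640 - r2) (4 * r1)) r1 r2) (Lb T c N2 r1))))))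

/-- all `N ≥ Nb` -/
def leafN (c : Crt) (Nb r1 r2 : ℕ) : Bool :=
  Bool.and (Bool.or (Nat.blt r2 640) (Nat.blt 0 r1)) (Bool.and (Nat.ble 3200 Nb)
    (Bool.and (Nat.ble r2 640) (Bool.and (Nat.ble 18 c.jz) (Bool.and (Nat.ble 116 c.m64)
    (Nat.blt ((Sm (fun j => mUp (Vb c r1 r2 j) (Pg c (Nb - 640 - r2) j)) c.jz (60 - c.jz)
        / 10 + 1 + CN c Nb r1 r2) * ((Nb + 640) * (Nb + 1280) * (Nb + 1920)))
      (2 * c.k0 * 262144000))))))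

/-- subdivision tree -/
inductive Tr
  | L : Tr
  | N : Tr → Tr → Tr
  | R : Tr → Tr → Tr

def chk (f : ℕ → ℕ → ℕ → ℕ → Bool) : Tr → ℕ → ℕ → ℕ → ℕ → Bool
  | Tr.L, N1, N2, r1, r2 => f N1 N2 r1 r2
  | Tr.N a b, N1, N2, r1, r2 =>
    Bool.and (chk f a N1 ((N1 + N2) / 2) r1 r2) (chk f b ((N1 + N2) / 2) N2 r1 r2)
  | Tr.R a b, N1, N2, r1, r2 =>
    Bool.and (chk f a N1 N2 r1 ((r1 + r2) / 2)) (chk f b N1 N2 ((r1 + r2) / 2) r2)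

end LpSec.LS
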