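import Mathlib
import Pool.Agent.Lib.MP_1dbab3_gt.LS.Def

/-!
# LS-M1: `W_lower`, `P_lower`
-/

open Real MeasureTheory Set Filter Topology

namespace LpSec.LS

variable {α : ℝ}

theorem LSM1_line {f : ℝ → ℝ} (hf : ConcaveOn ℝ (Icc 0 1) f) (h0 : f 0 = 0)
    (hneg : ∀ x ∈ Icc (0 : ℝ) 1, f x ≤ 0) {ρ : ℝ} (hρ0 : 0 ≤ ρ) (hρ1 : ρ ≤ 1) :
    ∃ a b : ℝ, a ≤ 0 ∧ b ≤ a ∧ f 1 = a + (b - a) * (1 - ρ) ∧ f ρ = a * ρ ∧
      ∀ x ∈ Icc (0 : ℝ) 1, a * x + (b - a) * max (x - ρ) 0 ≤ f x := by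
  have z0 : (0 : ℝ) ∈ Icc (0 : ℝ) 1 := ⟨le_rfl, zero_le_one⟩
  have z1 : (1 : ℝ) ∈ Icc (0 : ℝ) 1 := ⟨zero_le_one, le_rfl⟩
  have hone : ∀ x ∈ Icc (0 : ℝ) 1, f 1 * x ≤ f x := by
    intro x hx
    have h := hf.2 z0 z1 (show 0 ≤ 1 - x by linarith [hx.2]) hx.1 (by ring)
    simp only [smul_eq_mul, h0, mul_zero, zero_add, mul_one] at h
    linarith
  rcases eq_or_lt_of_le hρ0 with rfl | hρ
  · refine ⟨f 1, f 1, hneg 1 z1, le_rfl, by ring, by rw [h0]; ring, ?_⟩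
    intro x hx
    have := hone x hx
    linarith
  rcases eq_or_lt_of_le hρ1 with rfl | hρ'
  · refine ⟨f 1, f 1, hneg 1 z1, le_rfl, by ring, by ring, ?_⟩
    intro x hx
    have := hone x hx
    linarith
  have hρm : ρ ∈ Icc (0 : ℝ) 1 := ⟨hρ0, hρ1⟩
  have h1ρ : 0 < 1 - ρ := by linarith
  have hab : (f 1 - f ρ) / (1 - ρ) ≤ f ρ / ρ := by
    rw [div_le_div_iff₀ h1ρ hρ]
    have := hone ρ hρm
    nlinarith
  refine ⟨f ρ / ρ, (f 1 - f ρ) / (1 - ρ), div_nonpos_of_nonpos_of_nonneg (hneg ρ hρm) hρ0, hab,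
    ?_, ?_, ?_⟩
  · field_simp
    ring
  · field_simp
  · intro x hx
    rcases le_total x ρ with hxρ | hxρ
    · rw [max_eq_right (by linarith)]
      have h := hf.2 z0 hρm (show 0 ≤ 1 - x / ρ by rw [sub_nonneg, div_le_one hρ]; exact hxρ)
        (show 0 ≤ x / ρ from div_nonneg hx.1 hρ0) (by ring)
      simp only [smul_eq_mul, h0, mul_zero, zero_add] at h
      rw [div_mul_cancel₀ _ hρ.ne'] at h
      calc f ρ / ρ * x + ((f 1 - f ρ) / (1 - ρ) - f ρ / ρ) * 0 = x / ρ * f ρ := by ring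
        _ ≤ f x := h
    · rw [max_eq_left (by linarith)]
      have h := hf.2 hρm z1 (show 0 ≤ (1 - x) / (1 - ρ) from div_nonneg (by linarith [hx.2]) h1ρ.le)
        (show 0 ≤ (x - ρ) / (1 - ρ) from div_nonneg (by linarith) h1ρ.le)
        (by field_simp; ring)
      simp only [smul_eq_mul, mul_one] at h
      have e : (1 - x) / (1 - ρ) * ρ + (x - ρ) / (1 - ρ) = x := by field_simp; ring
      rw [e] at h
      calc f ρ / ρ * x + ((f 1 - f ρ) / (1 - ρ) - f ρ / ρ) * (x - ρ)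
          = (1 - x) / (1 - ρ) * f ρ + (x - ρ) / (1 - ρ) * f 1 := by field_simp; ring
        _ ≤ f x := h

theorem LSM1_excess {ι : Type*} (s : Finset ι) (x : ι → ℝ) (hx : ∀ i ∈ s, x i ∈ Icc (0 : ℝ) 1)
    {m : ℕ} {ρ : ℝ} (hρ0 : 0 ≤ ρ) (hρ1 : ρ ≤ 1) (hsum : ∑ i ∈ s, x i ≤ m + ρ) :
    ∑ i ∈ s, max (x i - ρ) 0 ≤ m * (1 - ρ) := by
  classical
  set s' := s.filter (fun i => ρ < x i) with hs'
  have e1 : ∑ i ∈ s, max (x i - ρ) 0 = ∑ i ∈ s', (x i - ρ) := by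
    rw [hs', Finset.sum_filter]
    refine Finset.sum_congr rfl fun i _ => ?_
    split_ifs with h
    · exact max_eq_left (by linarith)
    · exact max_eq_right (by linarith [not_lt.1 h])
  rw [e1]
  have hsub : s' ⊆ s := Finset.filter_subset _ _
  rcases le_or_gt s'.card m with hc | hc
  · have h1 : ∑ i ∈ s', (x i - ρ) ≤ ∑ _i ∈ s', (1 - ρ) :=
      Finset.sum_le_sum fun i hi => by linarith [(hx i (hsub hi)).2]
    rw [Finset.sum_const, nsmul_eq_mul] at h1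
    refine h1.trans (mul_le_mul_of_nonneg_right (by exact_mod_cast hc) (by linarith))
  · have h1 : ∑ i ∈ s', (x i - ρ) = ∑ i ∈ s', x i - s'.card * ρ := by
      rw [Finset.sum_sub_distrib, Finset.sum_const, nsmul_eq_mul]
    have h2 : ∑ i ∈ s', x i ≤ ∑ i ∈ s, x i :=
      Finset.sum_le_sum_of_subset_of_nonneg hsub fun i hi _ => (hx i hi).1
    have h3 : ((m : ℝ) + 1) ≤ s'.card := by exact_mod_cast hc
    have h4 : ((m : ℝ) + 1) * ρ ≤ s'.card * ρ := mul_le_mul_of_nonneg_right h3 hρ0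
    rw [h1]
    nlinarith

theorem LSM1_majo {f : ℝ → ℝ} (hf : ConcaveOn ℝ (Icc 0 1) f) (h0 : f 0 = 0)
    (hneg : ∀ x ∈ Icc (0 : ℝ) 1, f x ≤ 0) {ι : Type*} (s : Finset ι) (x : ι → ℝ)
    (hx : ∀ i ∈ s, x i ∈ Icc (0 : ℝ) 1) {m : ℕ} {ρ : ℝ} (hρ0 : 0 ≤ ρ) (hρ1 : ρ ≤ 1)
    (hsum : ∑ i ∈ s, x i ≤ m + ρ) : m * f 1 + f ρ ≤ ∑ i ∈ s, f (x i) := by
  obtain ⟨a, b, ha, hb, e1, e2, hl⟩ := LSM1_line hf h0 hneg hρ0 hρ1
  have h1 : ∑ i ∈ s, (a * x i + (b - a) * max (x i - ρ) 0) ≤ ∑ i ∈ s, f (x i) :=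
    Finset.sum_le_sum fun i hi => hl _ (hx i hi)
  rw [Finset.sum_add_distrib, ← Finset.mul_sum, ← Finset.mul_sum] at h1
  have h2 := LSM1_excess s x hx hρ0 hρ1 hsum
  have h3 : a * (m + ρ) ≤ a * ∑ i ∈ s, x i := mul_le_mul_of_nonpos_left hsum ha
  have h4 : (b - a) * (m * (1 - ρ)) ≤ (b - a) * ∑ i ∈ s, max (x i - ρ) 0 :=
    mul_le_mul_of_nonpos_left h2 (by linarith)
  rw [e1, e2]
  linarith

theorem LSM1_Wpos (h : Lobe α) (h4 : ML.Conc4 α) {r t : ℝ} (hr : 0 < r) (hr1 : r < 1) (ht : 0 < t)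
    (htz : t < z1 α) : (1 - r) * t * (k0 α + k1 α * t * (1 + r) / 2 +
      k0 α ^ 2 / 2 * t ^ 2 * (1 + r + r ^ 2)) * (Phi α t * Phi α (r * t)) ≤ Wt α r t := by
  have hα := h.one_lt
  have hrt : 0 < r * t := mul_pos hr ht
  have hrt' : r * t < t := by nlinarith
  have hrtz : r * t < z1 α := hrt'.trans htz
  have hd : ∀ s, 0 < s → s < z1 α → HasDerivAt
      (fun s => log (Phi α s) + k0 α * s ^ 2 / 2 + k1 α * s ^ 3 / 6 + k0 α ^ 2 * s ^ 4 / 8)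
      (-(Phi1 α s) / Phi α s + k0 α * s + k1 α * s ^ 2 / 2 + k0 α ^ 2 * s ^ 3 / 2) s := by
    intro s hs hsz
    have h1 := (Phi_hasDerivAt hα hs).log (h.pos s hs.le hsz).ne'
    have h2 := ((hasDerivAt_pow 2 s).const_mul (k0 α)).div_const 2
    have h3 := ((hasDerivAt_pow 3 s).const_mul (k1 α)).div_const 6
    have h5 := ((hasDerivAt_pow 4 s).const_mul (k0 α ^ 2)).div_const 8
    refine (((h1.add h2).add h3).add h5).congr_deriv ?_
    norm_num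
    ring
  have hx : r * t ∈ Ico 0 (z1 α) := ⟨hrt.le, hrtz⟩
  have hy : t ∈ Ico 0 (z1 α) := ⟨ht.le, htz⟩
  have s1 := ConcaveOn.slope_le_of_hasDerivAt h4 hx hy hrt' (hd (r * t) hrt hrtz)
  have s2 := ConcaveOn.le_slope_of_hasDerivAt h4 hx hy hrt' (hd t ht htz)
  have s3 := s2.trans s1
  have hA := h.pos t ht.le htz
  have hB := h.pos (r * t) hrt.le hrtz
  have hAB : 0 < Phi α t * Phi α (r * t) := mul_pos hA hB
  have s4 := mul_le_mul_of_nonneg_right s3 hAB.le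
  have e1 : (-(Phi1 α t) / Phi α t + k0 α * t + k1 α * t ^ 2 / 2 + k0 α ^ 2 * t ^ 3 / 2) *
      (Phi α t * Phi α (r * t)) = -(Phi1 α t * Phi α (r * t)) +
      (k0 α * t + k1 α * t ^ 2 / 2 + k0 α ^ 2 * t ^ 3 / 2) * (Phi α t * Phi α (r * t)) := by
    field_simp
    ring
  have e2 : (-(Phi1 α (r * t)) / Phi α (r * t) + k0 α * (r * t) + k1 α * (r * t) ^ 2 / 2 +
      k0 α ^ 2 * (r * t) ^ 3 / 2) * (Phi α t * Phi α (r * t)) = -(Phi α t * Phi1 α (r * t)) +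
      (k0 α * (r * t) + k1 α * (r * t) ^ 2 / 2 + k0 α ^ 2 * (r * t) ^ 3 / 2) *
      (Phi α t * Phi α (r * t)) := by
    field_simp
    ring
  rw [e1, e2] at s4
  unfold Wt
  have e3 : (1 - r) * t * (k0 α + k1 α * t * (1 + r) / 2 +
      k0 α ^ 2 / 2 * t ^ 2 * (1 + r + r ^ 2)) * (Phi α t * Phi α (r * t)) =
      (k0 α * t + k1 α * t ^ 2 / 2 + k0 α ^ 2 * t ^ 3 / 2) * (Phi α t * Phi α (r * t)) -
      (k0 α * (r * t) + k1 α * (r * t) ^ 2 / 2 + k0 α ^ 2 * (r * t) ^ 3 / 2) *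
      (Phi α t * Phi α (r * t)) := by ring
  rw [e3]
  linarith

theorem W_lower (h : Lobe α) (h4 : ML.Conc4 α) {r t : ℝ} (hr : 0 ≤ r) (hr1 : r ≤ 1) (ht : 0 ≤ t)
    (htz : t < z1 α) : (1 - r) * t * (k0 α + k1 α * t * (1 + r) / 2 +
      k0 α ^ 2 / 2 * t ^ 2 * (1 + r + r ^ 2)) * (Phi α t * Phi α (r * t)) ≤ Wt α r t := by
  have hα := h.one_lt
  rcases eq_or_lt_of_le ht with rfl | ht
  · unfold Wt
    simp only [mul_zero, zero_mul]
    linarith [mul_comm (Phi1 α 0) (Phi α 0)]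
  rcases eq_or_lt_of_le hr1 with rfl | hr1
  · unfold Wt
    simp only [sub_self, zero_mul, one_mul]
    linarith [mul_comm (Phi1 α t) (Phi α t)]
  rcases eq_or_lt_of_le hr with rfl | hr
  swap
  · exact LSM1_Wpos h h4 hr hr1 ht htz
  have hc : ContinuousOn (fun r : ℝ => Phi α (r * t)) (Ici 0) :=
    (Phi_continuousOn hα).comp (continuousOn_id.mul continuousOn_const)
      fun _ hs => mul_nonneg hs ht.le
  have hc1 : ContinuousOn (fun r : ℝ => Phi1 α (r * t)) (Ici 0) :=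
    (Phi1_continuousOn hα).comp (continuousOn_id.mul continuousOn_const)
      fun _ hs => mul_nonneg hs ht.le
  have hD : ContinuousOn (fun r : ℝ => Wt α r t - (1 - r) * t * (k0 α + k1 α * t * (1 + r) / 2 +
      k0 α ^ 2 / 2 * t ^ 2 * (1 + r + r ^ 2)) * (Phi α t * Phi α (r * t))) (Ici 0) := by
    unfold Wt
    refine ContinuousOn.sub ((continuousOn_const.mul hc).sub (continuousOn_const.mul hc1)) ?_
    refine ContinuousOn.mul ?_ (continuousOn_const.mul hc)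
    fun_prop
  have hlim := (hD 0 (mem_Ici.2 le_rfl)).mono_left (nhdsWithin_mono 0 Ioi_subset_Ici_self)
  have hge : (0 : ℝ) ≤ Wt α 0 t - (1 - 0) * t * (k0 α + k1 α * t * (1 + 0) / 2 +
      k0 α ^ 2 / 2 * t ^ 2 * (1 + 0 + 0 ^ 2)) * (Phi α t * Phi α (0 * t)) := by
    refine ge_of_tendsto hlim ?_
    filter_upwards [Ioo_mem_nhdsGT (zero_lt_one (α := ℝ))] with r hr
    have := LSM1_Wpos h h4 hr.1 hr.2 ht htz
    linarith
  linarith

theorem LSM1_conc (h : Lobe α) : ConcaveOn ℝ (Ico 0 (z1 α)) (fun s => log (Phi α s)) := by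
  have h2 : ConvexOn ℝ (Ico 0 (z1 α)) (fun s : ℝ => k0 α * s ^ 2 / 2 + k1 α * s ^ 3 / 6) := by
    have a2 : ConvexOn ℝ (Ico 0 (z1 α)) (fun s : ℝ => s ^ 2) :=
      (convexOn_pow 2).subset (fun s hs => hs.1) (convex_Ico _ _)
    have a3 : ConvexOn ℝ (Ico 0 (z1 α)) (fun s : ℝ => s ^ 3) :=
      (convexOn_pow 3).subset (fun s hs => hs.1) (convex_Ico _ _)
    have := (a2.smul (show 0 ≤ k0 α / 2 from div_nonneg h.k0_nonneg (by norm_num))).add
      (a3.smul (show 0 ≤ k1 α / 6 from div_nonneg h.k1_nonneg (by norm_num)))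
    refine this.congr fun s _ => ?_
    simp only [Pi.add_apply, smul_eq_mul]
    ring
  have := h.conc.sub h2
  refine this.congr fun s _ => ?_
  simp only [Pi.sub_apply]
  ring

theorem P_lower (h : Lobe α) {K : ℕ} {r : ℝ} {θ : Fin K → ℝ} (hc : Cfg r θ) {m : ℕ} {ρ t : ℝ}
    (hρ0 : 0 ≤ ρ) (hρ1 : ρ ≤ 1) (hN : 1 + r + ∑ k, θ k ≤ m + ρ) (ht : 0 ≤ t) (htz : t < z1 α) :
    Phi α t ^ m * Phi α (ρ * t) ≤ Phi α t * Phi α (r * t) * Pt α θ t := by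
  have hα := h.one_lt
  have hmem : ∀ x ∈ Icc (0 : ℝ) 1, x * t ∈ Ico 0 (z1 α) := fun x hx =>
    ⟨mul_nonneg hx.1 ht, lt_of_le_of_lt (mul_le_of_le_one_left ht hx.2) htz⟩
  have hpos : ∀ x ∈ Icc (0 : ℝ) 1, 0 < Phi α (x * t) := fun x hx =>
    h.pos _ (hmem x hx).1 (hmem x hx).2
  have hf : ConcaveOn ℝ (Icc 0 1) (fun x => log (Phi α (x * t))) := by
    refine ⟨convex_Icc _ _, fun x hx y hy a b ha hb hab => ?_⟩
    have := (LSM1_conc h).2 (hmem x hx) (hmem y hy) ha hb hab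
    simp only [smul_eq_mul] at this ⊢
    rw [show (a * x + b * y) * t = a * (x * t) + b * (y * t) by ring]
    exact this
  have hf0 : (fun x => log (Phi α (x * t))) 0 = 0 := by
    simp [Phi_zero hα]
  have hneg : ∀ x ∈ Icc (0 : ℝ) 1, (fun x => log (Phi α (x * t))) x ≤ 0 := fun x hx =>
    log_nonpos (hpos x hx).le ((le_abs_self _).trans (Phi_abs_le_one hα (hmem x hx).1))
  set y : Option (Option (Fin K)) → ℝ := fun i => i.elim 1 fun j => j.elim r θ with hy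
  have hθ : ∀ k, θ k ∈ Icc (0 : ℝ) 1 := fun k => ⟨hc.r0.trans (hc.lo k), hc.hi k⟩
  have hrm : r ∈ Icc (0 : ℝ) 1 := ⟨hc.r0, hc.r1.le⟩
  have h1m : (1 : ℝ) ∈ Icc (0 : ℝ) 1 := ⟨zero_le_one, le_rfl⟩
  have hx : ∀ i ∈ (Finset.univ : Finset (Option (Option (Fin K)))), y i ∈ Icc (0 : ℝ) 1 := by
    rintro (_ | _ | k) _
    · exact h1m
    · exact hrm
    · exact hθ k
  have hsum : ∑ i ∈ (Finset.univ : Finset (Option (Option (Fin K)))), y i ≤ m + ρ := by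
    rw [Fintype.sum_option, Fintype.sum_option]
    simp only [hy, Option.elim]
    linarith
  have hmaj := LSM1_majo hf hf0 hneg Finset.univ y hx hρ0 hρ1 hsum
  rw [Fintype.sum_option, Fintype.sum_option] at hmaj
  simp only [hy, Option.elim, one_mul] at hmaj
  have hρm : ρ ∈ Icc (0 : ℝ) 1 := ⟨hρ0, hρ1⟩
  have hpt : 0 < Phi α t := by simpa using hpos 1 h1m
  have hpr := hpos r hrm
  have hpρ := hpos ρ hρm
  have hP : 0 < Pt α θ t := Finset.prod_pos fun k _ => hpos _ (hθ k)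
  have hlogP : log (Pt α θ t) = ∑ k, log (Phi α (θ k * t)) :=
    log_prod (fun k _ => (hpos _ (hθ k)).ne')
  rw [← log_le_log_iff (by positivity) (by positivity), log_mul (by positivity) (by positivity),
    log_mul (by positivity) (by positivity), log_mul (by positivity) (by positivity), log_pow,
    hlogP]
  linarith

end LpSec.LS
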