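import Mathlib
import Pool.Agent.Lib.MP_1dbab3_gt.LS.Def

/-! LS-M2 (helper14): `Phi_ge_K1`, `z1_ge` -/

open Real MeasureTheory Set Filter Topology

namespace LpSec.LS

variable {α : ℝ}

theorem LSM2_K2_antitone : AntitoneOn (K 2) (Icc 0 (13 / 2)) :=
  kn_K_antitoneOn kn_K3_nonneg'

theorem LSM2_tangent_near {c v : ℝ} (hc0 : 0 ≤ c) (hc1 : c ≤ 13 / 2) (hv0 : 0 ≤ v)
    (hv1 : v ≤ 13 / 2) : K 1 c - K 2 c * (v - c) ≤ K 1 v := by
  rcases le_total c v with h | h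
  · exact kn_K_lower_of 1 h fun w hw hw' =>
      LSM2_K2_antitone ⟨hc0, hc1⟩ ⟨hc0.trans hw, hw'.trans hv1⟩ hw
  · have h1 := kn_K_upper_of 1 (B := -K 2 c) h fun w hw hw' => by
      rw [neg_neg]
      exact LSM2_K2_antitone ⟨hv0.trans hw, hw'.trans hc1⟩ ⟨hc0, hc1⟩ hw'
    nlinarith

theorem LSM2_K2_36 : 0.05 ≤ K 2 (18 / 5) :=
  (kn_K_bounds 2 8 (lo := 0.05) (hi := 1) (by norm_num) (by norm_num)
    (by norm_num [Finset.sum_range_succ, Nat.factorial])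
    (by norm_num [Finset.sum_range_succ, Nat.factorial])).1

theorem LSM2_tangent {c v : ℝ} (hc0 : 0 ≤ c) (hc1 : c ≤ 18 / 5) (hv0 : 0 ≤ v) :
    K 1 c - K 2 c * (v - c) ≤ K 1 v := by
  rcases le_total v (13 / 2) with h | h
  · exact LSM2_tangent_near hc0 (by linarith) hv0 h
  · have h1 := K1_lower hv0
    have h2 := LSM2_tangent_near hc0 (by linarith) (v := 18 / 5) (by norm_num) (by norm_num)
    have h3 : K 2 (18 / 5) ≤ K 2 c :=
      LSM2_K2_antitone ⟨hc0, by linarith⟩ ⟨by norm_num, by norm_num⟩ hc1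
    have h4 := kn_K1_36.2
    have h5 := LSM2_K2_36
    have h6 : K 2 c * (18 / 5 - c) + K 2 c * (v - 18 / 5) = K 2 c * (v - c) := by ring
    have h7 : K 2 (18 / 5) * (13 / 2 - 18 / 5) ≤ K 2 c * (v - 18 / 5) := by
      refine mul_le_mul h3 (by linarith) (by norm_num) (by linarith)
    have h8 : (0.05 : ℝ) * (13 / 2 - 18 / 5) ≤ K 2 (18 / 5) * (13 / 2 - 18 / 5) :=
      mul_le_mul_of_nonneg_right h5 (by norm_num)
    norm_num at h1 h2 h4 h8 h7 ⊢
    linarith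

theorem Phi_ge_K1 (hα : 1 < α) {t : ℝ} (h0 : 0 ≤ t) (h1 : t ≤ 9 / 5) :
    K 1 (2 * t) ≤ Phi α t := by
  have hα0 : 0 < α := by linarith
  rw [Phi_eq_G hα h0]
  have hG := G_integrable hα
  have hG1 := G_mul_integrable hα
  have e1 : ∫ ρ in Ioi (0 : ℝ), (G α ρ * (K 1 (2 * t) + 2 * t * K 2 (2 * t)) -
      t * K 2 (2 * t) * (ρ * G α ρ)) = K 1 (2 * t) := by
    rw [integral_sub (hG.mul_const _) (hG1.const_mul _), integral_mul_const, integral_const_mul,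
      G_integral hα, G_mean hα]
    ring
  rw [← e1]
  refine setIntegral_mono_on ((hG.mul_const _).sub (hG1.const_mul _))
    (G_mul_K_integrable hα h0) measurableSet_Ioi ?_
  intro ρ hρ
  have hρ0 : 0 < ρ := hρ
  have h2 := LSM2_tangent (c := 2 * t) (v := t * ρ) (by linarith) (by linarith) (by positivity)
  have h3 := G_nonneg hα0 hρ0
  have h4 := mul_le_mul_of_nonneg_left h2 h3
  calc G α ρ * (K 1 (2 * t) + 2 * t * K 2 (2 * t)) - t * K 2 (2 * t) * (ρ * G α ρ)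
      = G α ρ * (K 1 (2 * t) - K 2 (2 * t) * (t * ρ - 2 * t)) := by ring
    _ ≤ _ := h4

theorem z1_ge (h : Lobe α) : 9 / 5 ≤ z1 α := by
  by_contra hcon
  push Not at hcon
  have h0 : 0 ≤ z1 α := zero_le_one.trans h.one_le_z1
  have h1 := Phi_ge_K1 h.one_lt h0 hcon.le
  rw [h.zero] at h1
  have h2 := K1_pos (u := 2 * z1 α) (by linarith) (by linarith)
  linarith

end LpSec.LS
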