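import Mathlib
import Pool.Agent.Lib.MP_1dbab3_gt.LS.M1
import Pool.Agent.Lib.MP_1dbab3_gt.LS.M2

/-!
# LS-M3: the main part `∫_0^{z1}`
-/

open Real MeasureTheory Set Filter Topology

namespace LpSec.LS

variable {α : ℝ}

/-! ## row LS-M3 -/

theorem LSM3_cont (hα : 1 < α) {K : ℕ} {r : ℝ} {θ : Fin K → ℝ} (hc : Cfg r θ) :
    ContinuousOn (fun t => t * Wt α r t * Pt α θ t) (Ici 0) := by
  have h1 := Phi_continuousOn hα
  have h2 := Phi1_continuousOn hα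
  have hm : ∀ c : ℝ, 0 ≤ c → MapsTo (fun t : ℝ => c * t) (Ici 0) (Ici 0) := fun c hc0 t ht =>
    mul_nonneg hc0 ht
  have h3 : ContinuousOn (fun t => Phi α (r * t)) (Ici 0) :=
    h1.comp (by fun_prop) (hm r hc.r0)
  have h4 : ContinuousOn (fun t => Phi1 α (r * t)) (Ici 0) :=
    h2.comp (by fun_prop) (hm r hc.r0)
  have h5 : ContinuousOn (fun t => Pt α θ t) (Ici 0) := by
    unfold Pt
    refine continuousOn_finsetProd _ fun k _ => ?_
    exact h1.comp (by fun_prop) (hm (θ k) (hc.r0.trans (hc.lo k)))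
  unfold Wt
  exact (continuousOn_id.mul ((h2.mul h3).sub (h1.mul h4))).mul h5

theorem LSM3_int (hα : 1 < α) {K : ℕ} {r : ℝ} {θ : Fin K → ℝ} (hc : Cfg r θ) {a b : ℝ}
    (ha : 0 ≤ a) (hab : a ≤ b) :
    IntervalIntegrable (fun t => t * Wt α r t * Pt α θ t) volume a b :=
  ContinuousOn.intervalIntegrable_of_Icc hab
    ((LSM3_cont hα hc).mono fun _ ht => ha.trans ht.1)

/-- positivity of the factors -/
theorem LSM3_pos (h : Lobe α) {c t : ℝ} (hc0 : 0 ≤ c) (hc1 : c ≤ 1) (ht : 0 ≤ t)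
    (htz : t < z1 α) : 0 < Phi α (c * t) :=
  h.pos _ (mul_nonneg hc0 ht) ((mul_le_of_le_one_left ht hc1).trans_lt htz)

theorem LSM3_Pt_pos (h : Lobe α) {K : ℕ} {r : ℝ} {θ : Fin K → ℝ} (hc : Cfg r θ) {t : ℝ}
    (ht : 0 ≤ t) (htz : t < z1 α) : 0 < Pt α θ t :=
  Finset.prod_pos fun k _ => LSM3_pos h (hc.r0.trans (hc.lo k)) (hc.hi k) ht htz

theorem LSM3_lower (h : Lobe α) (h4 : ML.Conc4 α) {K : ℕ} {r : ℝ} {θ : Fin K → ℝ}
    (hc : Cfg r θ) {t : ℝ} (ht : 0 ≤ t) (htz : t < z1 α) :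
    (1 - r) * (k0 α * t ^ 2 + k1 α * ((1 + r) / 2) * t ^ 3 +
      k0 α ^ 2 / 2 * (1 + r + r ^ 2) * t ^ 4) * (Phi α t * Phi α (r * t) * Pt α θ t) ≤
      t * Wt α r t * Pt α θ t := by
  have h1 := W_lower h h4 hc.r0 hc.r1.le ht htz
  have h2 := LSM3_Pt_pos h hc ht htz
  have h3 := mul_le_mul_of_nonneg_left (mul_le_mul_of_nonneg_right h1 h2.le) ht
  calc (1 - r) * (k0 α * t ^ 2 + k1 α * ((1 + r) / 2) * t ^ 3 +
      k0 α ^ 2 / 2 * (1 + r + r ^ 2) * t ^ 4) * (Phi α t * Phi α (r * t) * Pt α θ t) =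
      t * ((1 - r) * t * (k0 α + k1 α * t * (1 + r) / 2 +
      k0 α ^ 2 / 2 * t ^ 2 * (1 + r + r ^ 2)) * (Phi α t * Phi α (r * t)) * Pt α θ t) := by ring
    _ ≤ t * (Wt α r t * Pt α θ t) := h3
    _ = _ := by ring

theorem LSM3_coef (h : Lobe α) {r t : ℝ} (hr : 0 ≤ r) (hr1 : r < 1) (ht : 0 ≤ t) :
    0 ≤ (1 - r) * (k0 α * t ^ 2 + k1 α * ((1 + r) / 2) * t ^ 3 +
      k0 α ^ 2 / 2 * (1 + r + r ^ 2) * t ^ 4) := by
  have h0 := h.k0_nonneg
  have h1 := h.k1_nonneg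
  have h2 : 0 ≤ 1 - r := by linarith
  positivity

theorem LSM3_nonneg (h : Lobe α) (h4 : ML.Conc4 α) {K : ℕ} {r : ℝ} {θ : Fin K → ℝ}
    (hc : Cfg r θ) {t : ℝ} (ht : 0 ≤ t) (htz : t < z1 α) : 0 ≤ t * Wt α r t * Pt α θ t := by
  refine le_trans ?_ (LSM3_lower h h4 hc ht htz)
  refine mul_nonneg (LSM3_coef h hc.r0 hc.r1 ht) ?_
  have h1 := LSM3_Pt_pos h hc ht htz
  have h2 := h.pos t ht htz
  have h3 := LSM3_pos h hc.r0 hc.r1.le ht htz
  positivity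

/-- reduction to `[0, c]` -/
theorem LSM3_reduce (h : Lobe α) (h4 : ML.Conc4 α) {K : ℕ} {r : ℝ} {θ : Fin K → ℝ}
    (hc : Cfg r θ) {c : ℝ} (hc0 : 0 ≤ c) (hcz : c ≤ z1 α) {g : ℝ → ℝ}
    (hg : IntervalIntegrable g volume 0 c)
    (hle : ∀ t ∈ Ioo 0 c, g t ≤ t * Wt α r t * Pt α θ t) :
    ∫ t in (0 : ℝ)..c, g t ≤ ∫ t in (0 : ℝ)..(z1 α), t * Wt α r t * Pt α θ t := by
  have hα := h.one_lt
  have i1 := LSM3_int hα hc le_rfl hc0
  have i2 := LSM3_int hα hc hc0 hcz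
  rw [← intervalIntegral.integral_add_adjacent_intervals i1 i2]
  have h1 : ∫ t in (0 : ℝ)..c, g t ≤ ∫ t in (0 : ℝ)..c, t * Wt α r t * Pt α θ t :=
    intervalIntegral.integral_mono_on_of_le_Ioo hc0 hg i1 hle
  have h2 : ∫ t in c..(z1 α), (0 : ℝ) ≤ ∫ t in c..(z1 α), t * Wt α r t * Pt α θ t :=
    intervalIntegral.integral_mono_on_of_le_Ioo hcz intervalIntegrable_const i2 fun t ht =>
      LSM3_nonneg h h4 hc (hc0.trans ht.1.le) ht.2
  rw [intervalIntegral.integral_zero] at h2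
  linarith

theorem main_lower (h : Lobe α) (h4 : ML.Conc4 α) {K : ℕ} {r : ℝ} {θ : Fin K → ℝ}
    (hc : Cfg r θ) {m : ℕ} {ρ : ℝ} (hρ0 : 0 ≤ ρ) (hρ1 : ρ ≤ 1)
    (hN : 1 + r + ∑ k, θ k ≤ m + ρ) :
    (1 - r) * (k0 α * cc 2 m ρ + k1 α * ((1 + r) / 2) * cc 3 m ρ +
      k0 α ^ 2 / 2 * (1 + r + r ^ 2) * cc 4 m ρ) ≤
    ∫ t in (0 : ℝ)..(z1 α), t * Wt α r t * Pt α θ t := by
  have hα := h.one_lt
  have hz := z1_ge h
  have hK := K_continuous 1
  have hcc : ∀ k : ℕ, IntervalIntegrable (fun t : ℝ => t ^ k * (LpSec.K 1 (2 * t)) ^ m *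
      LpSec.K 1 (2 * ρ * t)) volume 0 (9 / 5) := fun k =>
    (by fun_prop : Continuous fun t : ℝ => t ^ k * (LpSec.K 1 (2 * t)) ^ m *
      LpSec.K 1 (2 * ρ * t)).intervalIntegrable _ _
  have e : (1 - r) * (k0 α * cc 2 m ρ + k1 α * ((1 + r) / 2) * cc 3 m ρ +
      k0 α ^ 2 / 2 * (1 + r + r ^ 2) * cc 4 m ρ) = ∫ t in (0 : ℝ)..(9 / 5),
      (((1 - r) * k0 α) * (t ^ 2 * (LpSec.K 1 (2 * t)) ^ m * LpSec.K 1 (2 * ρ * t)) +
      ((1 - r) * (k1 α * ((1 + r) / 2))) * (t ^ 3 * (LpSec.K 1 (2 * t)) ^ m *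
        LpSec.K 1 (2 * ρ * t)) +
      ((1 - r) * (k0 α ^ 2 / 2 * (1 + r + r ^ 2))) * (t ^ 4 * (LpSec.K 1 (2 * t)) ^ m *
        LpSec.K 1 (2 * ρ * t))) := by
    rw [intervalIntegral.integral_add (((hcc 2).const_mul _).add ((hcc 3).const_mul _))
      ((hcc 4).const_mul _), intervalIntegral.integral_add ((hcc 2).const_mul _)
      ((hcc 3).const_mul _), intervalIntegral.integral_const_mul,
      intervalIntegral.integral_const_mul, intervalIntegral.integral_const_mul]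
    unfold cc
    ring
  rw [e]
  refine LSM3_reduce h h4 hc (by norm_num) hz ?_ fun t ht => ?_
  · exact (((hcc 2).const_mul _).add ((hcc 3).const_mul _)).add ((hcc 4).const_mul _)
  · have ht0 : 0 ≤ t := ht.1.le
    have ht1 : t < 9 / 5 := ht.2
    have htz : t < z1 α := ht1.trans_le hz
    refine le_trans ?_ (LSM3_lower h h4 hc ht0 htz)
    have a1 : 0 ≤ LpSec.K 1 (2 * t) := (K1_pos (by linarith) (by linarith)).le
    have a2 : 0 ≤ LpSec.K 1 (2 * ρ * t) := by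
      refine (K1_pos (by positivity) ?_).le
      nlinarith
    have b1 := Phi_ge_K1 hα ht0 ht1.le
    have b2 : LpSec.K 1 (2 * ρ * t) ≤ Phi α (ρ * t) := by
      have := Phi_ge_K1 hα (t := ρ * t) (by positivity) (by nlinarith)
      rwa [← mul_assoc] at this
    have hP := P_lower h hc hρ0 hρ1 hN ht0 htz
    have c1 : (LpSec.K 1 (2 * t)) ^ m * LpSec.K 1 (2 * ρ * t) ≤
        Phi α t * Phi α (r * t) * Pt α θ t := by
      refine le_trans ?_ hP
      exact mul_le_mul (pow_le_pow_left₀ a1 b1 m) b2 a2 (by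
        have := a1.trans b1
        positivity)
    have c2 := mul_le_mul_of_nonneg_left c1 (LSM3_coef h hc.r0 hc.r1 ht0)
    refine le_trans (le_of_eq ?_) c2
    ring

/-- Beta integral -/
theorem LSM3_beta {N : ℝ} (hN : 1 ≤ N) :
    ∫ t in (0 : ℝ)..1, t ^ 2 * (1 - t) ^ N = 2 / ((N + 1) * (N + 2) * (N + 3)) := by
  have h1 : ∫ t in (0 : ℝ)..1, t ^ 2 * (1 - t) ^ N = ∫ s in (0 : ℝ)..1, (1 - s) ^ 2 * s ^ N := by
    have := intervalIntegral.integral_comp_sub_left (a := (0 : ℝ)) (b := 1)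
      (fun s : ℝ => (1 - s) ^ 2 * s ^ N) 1
    simp only [sub_sub_cancel, sub_self, sub_zero] at this
    exact this
  rw [h1]
  have h2 : ∀ s ∈ uIcc (0 : ℝ) 1, (1 - s) ^ 2 * s ^ N = s ^ N - 2 * s ^ (N + 1) + s ^ (N + 2) := by
    intro s hs
    rw [uIcc_of_le zero_le_one] at hs
    have e1 : s ^ (N + 1) = s ^ N * s := by
      rw [rpow_add_of_nonneg hs.1 (by linarith) zero_le_one, rpow_one]
    have e2 : s ^ (N + 2) = s ^ N * s ^ 2 := by
      rw [rpow_add_of_nonneg hs.1 (by linarith) zero_le_two, rpow_two]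
    rw [e1, e2]
    ring
  rw [intervalIntegral.integral_congr h2]
  have i : ∀ p : ℝ, 0 ≤ p → IntervalIntegrable (fun s : ℝ => s ^ p) volume 0 1 := fun p hp =>
    intervalIntegral.intervalIntegrable_rpow' (by linarith)
  have v : ∀ p : ℝ, 0 ≤ p → ∫ s in (0 : ℝ)..1, s ^ p = 1 / (p + 1) := by
    intro p hp
    rw [integral_rpow (Or.inl (by linarith)), one_rpow, zero_rpow (by linarith)]
    ring
  rw [intervalIntegral.integral_add ((i N (by linarith)).sub ((i (N + 1) (by linarith)).const_mul 2))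
    (i (N + 2) (by linarith)), intervalIntegral.integral_sub (i N (by linarith))
    ((i (N + 1) (by linarith)).const_mul 2), intervalIntegral.integral_const_mul,
    v N (by linarith), v (N + 1) (by linarith), v (N + 2) (by linarith)]
  have n1 : N + 1 ≠ 0 := by linarith
  have n2 : N + 1 + 1 ≠ 0 := by linarith
  have n3 : N + 2 + 1 ≠ 0 := by linarith
  have n4 : N + 2 ≠ 0 := by linarith
  have n5 : N + 3 ≠ 0 := by linarith
  field_simp
  ring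

theorem main_lower' (h : Lobe α) (h4 : ML.Conc4 α) {K : ℕ} {r : ℝ} {θ : Fin K → ℝ}
    (hc : Cfg r θ) {N : ℝ} (hN : N = 1 + r + ∑ k, θ k) :
    (1 - r) * (2 * k0 α / ((N + 1) * (N + 2) * (N + 3))) ≤
    ∫ t in (0 : ℝ)..(z1 α), t * Wt α r t * Pt α θ t := by
  have hα := h.one_lt
  have hθ : ∀ k, 0 ≤ θ k := fun k => hc.r0.trans (hc.lo k)
  have hN1 : 1 ≤ N := by
    rw [hN]
    have := Finset.sum_nonneg fun (k : Fin K) (_ : k ∈ Finset.univ) => hθ k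
    linarith [hc.r0]
  have e : (1 - r) * (2 * k0 α / ((N + 1) * (N + 2) * (N + 3))) =
      ∫ t in (0 : ℝ)..1, ((1 - r) * k0 α) * (t ^ 2 * (1 - t) ^ N) := by
    rw [intervalIntegral.integral_const_mul, LSM3_beta hN1]
    ring
  rw [e]
  have hcont : ContinuousOn (fun t : ℝ => ((1 - r) * k0 α) * (t ^ 2 * (1 - t) ^ N)) (Icc 0 1) := by
    refine continuousOn_const.mul ((continuousOn_pow 2).mul ?_)
    exact ContinuousOn.rpow_const (by fun_prop) fun t _ => Or.inr (by linarith)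
  refine LSM3_reduce h h4 hc zero_le_one h.one_le_z1
    (hcont.intervalIntegrable_of_Icc zero_le_one) fun t ht => ?_
  have ht0 : 0 ≤ t := ht.1.le
  have ht1 : t < 1 := ht.2
  have htz : t < z1 α := ht1.trans_le h.one_le_z1
  have hp : 0 < 1 - t := by linarith
  have key : ∀ c : ℝ, 0 ≤ c → c ≤ 1 → (1 - t) ^ c ≤ Phi α (c * t) := by
    intro c hc0 hc1
    have h1 := rpow_one_add_le_one_add_mul_self (s := -t) (by linarith) hc0 hc1
    have h2 := Phi_ge hα (s := c * t) (by positivity)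
    have e1 : 1 + -t = 1 - t := by ring
    rw [e1] at h1
    linarith
  refine le_trans ?_ (LSM3_lower h h4 hc ht0 htz)
  have c0 : (1 - t) ^ N ≤ Phi α t * Phi α (r * t) * Pt α θ t := by
    rw [hN, Real.rpow_add hp, Real.rpow_add hp, Real.rpow_sum_of_pos hp]
    have k1' := key 1 zero_le_one le_rfl
    rw [one_mul] at k1'
    have k2' := key r hc.r0 hc.r1.le
    have q1 : 0 ≤ (1 - t) ^ (1 : ℝ) := (rpow_pos_of_pos hp _).le
    have q2 : 0 ≤ (1 - t) ^ r := (rpow_pos_of_pos hp _).le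
    have q3 : 0 ≤ ∏ k, (1 - t) ^ θ k := Finset.prod_nonneg fun k _ => (rpow_pos_of_pos hp _).le
    refine mul_le_mul (mul_le_mul k1' k2' q2 (q1.trans k1')) ?_ q3
      (mul_nonneg (q1.trans k1') (q2.trans k2'))
    exact Finset.prod_le_prod (fun k _ => (rpow_pos_of_pos hp _).le) fun k _ =>
      key (θ k) (hθ k) (hc.hi k)
  have a0 := h.k0_nonneg
  have a1 := h.k1_nonneg
  have a2 : 0 ≤ 1 - r := by linarith [hc.r1]
  have a3 := hc.r0
  have c1 : (1 - r) * (k0 α * t ^ 2) ≤ (1 - r) * (k0 α * t ^ 2 + k1 α * ((1 + r) / 2) * t ^ 3 +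
      k0 α ^ 2 / 2 * (1 + r + r ^ 2) * t ^ 4) := by
    refine mul_le_mul_of_nonneg_left ?_ a2
    have : 0 ≤ k1 α * ((1 + r) / 2) * t ^ 3 := by positivity
    have : 0 ≤ k0 α ^ 2 / 2 * (1 + r + r ^ 2) * t ^ 4 := by positivity
    linarith
  calc (1 - r) * k0 α * (t ^ 2 * (1 - t) ^ N) = (1 - r) * (k0 α * t ^ 2) * (1 - t) ^ N := by ring
    _ ≤ _ := mul_le_mul c1 c0 (rpow_pos_of_pos hp _).le (LSM3_coef h hc.r0 hc.r1 ht0)

end LpSec.LS
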