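import Mathlib
import Pool.Agent.Lib.MP_1dbab3_gt.LS.Def

/-!
# LS-P: bounds of the product `Pt` on `[z1, 6]`
-/

open Real MeasureTheory Set Filter Topology

namespace LpSec.LS

variable {α : ℝ}

private theorem LSP_pos {K : ℕ} {r : ℝ} {θ : Fin K → ℝ} (hc : Cfg r θ) (k : Fin K) : 0 ≤ θ k :=
  hc.r0.trans (hc.lo k)

private theorem LSP_le {K : ℕ} {r : ℝ} {θ : Fin K → ℝ} (hc : Cfg r θ) (k : Fin K) {t : ℝ}
    (ht : 0 ≤ t) : θ k * t ≤ t := mul_le_of_le_one_left ht (hc.hi k)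

private theorem LSP_abs {K : ℕ} (θ : Fin K → ℝ) (t : ℝ) :
    |Pt α θ t| = ∏ k, |Phi α (θ k * t)| := by
  unfold Pt
  exact Finset.abs_prod _ _

private theorem LSP_nonneg (h : Lobe α) {K : ℕ} {r : ℝ} {θ : Fin K → ℝ} (hc : Cfg r θ) {t : ℝ}
    (ht : 0 ≤ t) (hlt : ∀ k, θ k * t < z1 α) : 0 ≤ Pt α θ t := by
  unfold Pt
  exact Finset.prod_nonneg fun k _ => h.nonneg (mul_nonneg (LSP_pos hc k) ht) (hlt k).le

theorem P2_sign (h : Lobe α) {r : ℝ} {θ : Fin 2 → ℝ} (hc : Cfg r θ) {τ t M E : ℝ}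
    (hτ : ∀ k, τ ≤ θ k) (hτ0 : 0 ≤ τ) (ht : z1 α ≤ t) (ht6 : t ≤ 6) (hM0 : 0 ≤ M) (hE0 : 0 ≤ E)
    (hM : ∀ s, z1 α ≤ s → s ≤ t → |Phi α s| ≤ M) (hE : ∀ s, τ * t ≤ s → |Phi α s| ≤ E) :
    -(M * E) ≤ Pt α θ t := by
  have ht0 : 0 ≤ t := h.z1_pos.le.trans ht
  by_cases hlt : ∀ k, θ k * t < z1 α
  · have h1 := LSP_nonneg h hc ht0 hlt
    have h2 := mul_nonneg hM0 hE0
    linarith
  · push Not at hlt
    obtain ⟨k, hk⟩ := hlt
    have h1 : ∀ k, |Phi α (θ k * t)| ≤ E := fun k => hE _ (mul_le_mul_of_nonneg_right (hτ k) ht0)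
    have h2 : |Phi α (θ k * t)| ≤ M := hM _ hk (LSP_le hc k ht0)
    have h3 : |Pt α θ t| ≤ M * E := by
      rw [LSP_abs, Fin.prod_univ_two]
      fin_cases k
      · exact mul_le_mul h2 (h1 1) (abs_nonneg _) hM0
      · rw [mul_comm]
        exact mul_le_mul h2 (h1 0) (abs_nonneg _) hM0
    exact (abs_le.1 h3).1

theorem P2_zero (h : Lobe α) {r : ℝ} {θ : Fin 2 → ℝ} (hc : Cfg r θ) {τ t : ℝ}
    (hτ : ∀ k, τ ≤ θ k) (ht : z1 α ≤ τ * t) (ht0 : 0 ≤ t) (ht6 : t ≤ 6) : 0 ≤ Pt α θ t := by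
  have h1 : ∀ k, Phi α (θ k * t) ≤ 0 := fun k =>
    h.neg _ (ht.trans (mul_le_mul_of_nonneg_right (hτ k) ht0)) ((LSP_le hc k ht0).trans ht6)
  unfold Pt
  rw [Fin.prod_univ_two]
  exact mul_nonneg_of_nonpos_of_nonpos (h1 0) (h1 1)

theorem P2_abs {r : ℝ} {θ : Fin 2 → ℝ} (hc : Cfg r θ) {τ q t E F : ℝ} (hτ : ∀ k, τ ≤ θ k)
    (hq : q ≤ ∑ k, θ k) (ht : 0 ≤ t) (hE : ∀ s, q / 2 * t ≤ s → |Phi α s| ≤ E)
    (hF : ∀ s, τ * t ≤ s → |Phi α s| ≤ F) : |Pt α θ t| ≤ E * F := by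
  have h1 : ∀ k, |Phi α (θ k * t)| ≤ F := fun k => hF _ (mul_le_mul_of_nonneg_right (hτ k) ht)
  rw [LSP_abs, Fin.prod_univ_two]
  rw [Fin.sum_univ_two] at hq
  rcases le_total (q / 2) (θ 0) with h2 | h2
  · have h3 : |Phi α (θ 0 * t)| ≤ E := hE _ (mul_le_mul_of_nonneg_right h2 ht)
    exact mul_le_mul h3 (h1 1) (abs_nonneg _) ((abs_nonneg _).trans h3)
  · have h3 : |Phi α (θ 1 * t)| ≤ E := hE _ (mul_le_mul_of_nonneg_right (by linarith) ht)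
    rw [mul_comm]
    exact mul_le_mul h3 (h1 0) (abs_nonneg _) ((abs_nonneg _).trans h3)

theorem two_lo {r : ℝ} {θ : Fin 2 → ℝ} (hc : Cfg r θ) (k : Fin 2) :
    max r (∑ k, θ k - 1) ≤ θ k := by
  refine max_le (hc.lo k) ?_
  rw [Fin.sum_univ_two]
  have h0 := hc.hi 0
  have h1 := hc.hi 1
  fin_cases k
  · simp only [Fin.zero_eta]; linarith
  · simp only [Fin.mk_one]; linarith

theorem Pa_bound (h : Lobe α) {K K0 : ℕ} (hK : K0 ≤ K) {r : ℝ} {θ : Fin K → ℝ} (hc : Cfg r θ)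
    {t M q1 : ℝ} (ht : z1 α ≤ t) (hM0 : 0 ≤ M) (hM1 : M ≤ 1)
    (hM : ∀ s, z1 α ≤ s → s ≤ t → |Phi α s| ≤ M) (hq : q1 ≤ ∑ k, θ k)
    (hqK : q1 ≤ (K0 : ℝ) + 1) :
    ∃ a : ℕ, a ≤ K0 + 1 ∧
      |Pt α θ t| ≤ M ^ a * exp (-(t * max (max (q1 - a) (((K0 : ℝ) - a) * r)) 0)) ∧
      (t ≤ 6 → Pt α θ t < 0 → 1 ≤ a) := by
  classical
  have ht0 : 0 ≤ t := h.z1_pos.le.trans ht
  set S : Finset (Fin K) := Finset.univ.filter (fun k => z1 α ≤ θ k * t) with hS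
  have hmem : ∀ k, k ∈ S ↔ z1 α ≤ θ k * t := fun k => by simp [hS]
  have hmem' : ∀ k, k ∈ Sᶜ ↔ θ k * t < z1 α := fun k => by
    rw [Finset.mem_compl, hmem, not_le]
  have hA : |Pt α θ t| ≤ M ^ S.card * exp (-(t * ∑ k ∈ Sᶜ, θ k)) := by
    rw [LSP_abs, ← Finset.prod_mul_prod_compl S]
    refine mul_le_mul ?_ ?_ (Finset.prod_nonneg fun k _ => abs_nonneg _) (pow_nonneg hM0 _)
    · rw [← Finset.prod_const]
      exact Finset.prod_le_prod (fun k _ => abs_nonneg _)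
        (fun k hk => hM _ ((hmem k).1 hk) (LSP_le hc k ht0))
    · rw [Finset.mul_sum, ← Finset.sum_neg_distrib, exp_sum]
      refine Finset.prod_le_prod (fun k _ => abs_nonneg _) (fun k hk => ?_)
      have h1 := (hmem' k).1 hk
      have h2 : 0 ≤ θ k * t := mul_nonneg (LSP_pos hc k) ht0
      rw [abs_of_nonneg (h.nonneg h2 h1.le), mul_comm t]
      exact h.le_exp h2 h1.le
  have hsplit : ∑ k ∈ Sᶜ, θ k = ∑ k, θ k - ∑ k ∈ S, θ k := by
    rw [← Finset.sum_add_sum_compl S]; ring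
  have hSle : ∑ k ∈ S, θ k ≤ S.card := by
    have := Finset.sum_le_card_nsmul S θ 1 (fun k _ => hc.hi k)
    simpa using this
  have hcge : ((K : ℝ) - S.card) * r ≤ ∑ k ∈ Sᶜ, θ k := by
    have h1 := Finset.card_nsmul_le_sum Sᶜ θ r (fun k _ => hc.lo k)
    rw [Finset.card_compl, Fintype.card_fin, nsmul_eq_mul,
      Nat.cast_sub ((Finset.card_le_univ S).trans_eq (Fintype.card_fin K))] at h1
    exact h1
  have hcge0 : 0 ≤ ∑ k ∈ Sᶜ, θ k := Finset.sum_nonneg fun k _ => LSP_pos hc k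
  refine ⟨min S.card (K0 + 1), min_le_right _ _, ?_, ?_⟩
  · rcases le_or_gt S.card K0 with hs | hs
    · rw [min_eq_left (by omega)]
      refine hA.trans (mul_le_mul_of_nonneg_left (exp_le_exp.2 (neg_le_neg
        (mul_le_mul_of_nonneg_left ?_ ht0))) (pow_nonneg hM0 _))
      refine max_le (max_le (by linarith) ?_) hcge0
      refine le_trans (mul_le_mul_of_nonneg_right ?_ hc.r0) hcge
      have : (K0 : ℝ) ≤ K := by exact_mod_cast hK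
      linarith
    · rw [min_eq_right (by omega)]
      have h1 : max (max (q1 - ((K0 + 1 : ℕ) : ℝ)) (((K0 : ℝ) - ((K0 + 1 : ℕ) : ℝ)) * r)) 0 = 0 := by
        refine max_eq_right (max_le ?_ ?_)
        · push_cast; linarith
        · push_cast
          have := hc.r0
          nlinarith
      rw [h1, mul_zero, neg_zero, exp_zero, mul_one]
      refine hA.trans ?_
      calc M ^ S.card * exp (-(t * ∑ k ∈ Sᶜ, θ k)) ≤ M ^ S.card * 1 :=
            mul_le_mul_of_nonneg_left (exp_le_one_iff.2 (neg_nonpos.2 (mul_nonneg ht0 hcge0)))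
              (pow_nonneg hM0 _)
        _ ≤ M ^ (K0 + 1) := by
            rw [mul_one]
            exact pow_le_pow_of_le_one hM0 hM1 hs
  · intro _ hneg
    by_contra hcon
    have h1 : S.card = 0 := by
      rcases Nat.eq_zero_or_pos S.card with h2 | h2
      · exact h2
      · exact absurd (le_min h2 (Nat.succ_le_succ (Nat.zero_le K0))) hcon
    rw [Finset.card_eq_zero] at h1
    refine absurd (LSP_nonneg h hc ht0 fun k => ?_) (not_le.2 hneg)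
    rw [← hmem', h1]
    simp

private theorem LSP_factor (h : Lobe α) {K : ℕ} {r : ℝ} {θ : Fin K → ℝ} (hc : Cfg r θ) {t M e : ℝ}
    (ht : z1 α ≤ t) (hM : ∀ s, z1 α ≤ s → s ≤ t → |Phi α s| ≤ M) (hMe : M ≤ e)
    (he : exp (-t) ≤ e) (he1 : e ≤ 1) (k : Fin K) : |Phi α (θ k * t)| ≤ e ^ (θ k) := by
  have ht0 : 0 ≤ t := h.z1_pos.le.trans ht
  have he0 : 0 < e := (exp_pos _).trans_le he
  rcases le_or_gt (z1 α) (θ k * t) with h1 | h1
  · refine (hM _ h1 (LSP_le hc k ht0)).trans (hMe.trans ?_)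
    calc e = e ^ (1 : ℝ) := (rpow_one e).symm
      _ ≤ e ^ (θ k) := rpow_le_rpow_of_exponent_ge he0 he1 (hc.hi k)
  · have h2 : 0 ≤ θ k * t := mul_nonneg (LSP_pos hc k) ht0
    rw [abs_of_nonneg (h.nonneg h2 h1.le)]
    refine (h.le_exp h2 h1.le).trans ?_
    have h3 : exp (-(θ k * t)) = exp (-t) ^ (θ k) := by
      rw [← exp_mul]
      congr 1
      ring
    rw [h3]
    exact rpow_le_rpow (exp_pos _).le he (LSP_pos hc k)

theorem Pg_bound (h : Lobe α) {K : ℕ} {r : ℝ} {θ : Fin K → ℝ} (hc : Cfg r θ) {t M e : ℝ}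
    (ht : z1 α ≤ t) (hM : ∀ s, z1 α ≤ s → s ≤ t → |Phi α s| ≤ M) (hMe : M ≤ e)
    (he : exp (-t) ≤ e) (he1 : e ≤ 1) : |Pt α θ t| ≤ e ^ (∑ k, θ k) := by
  have he0 : 0 < e := (exp_pos _).trans_le he
  rw [LSP_abs, Real.rpow_sum_of_pos he0]
  exact Finset.prod_le_prod (fun k _ => abs_nonneg _)
    (fun k _ => LSP_factor h hc ht hM hMe he he1 k)

theorem Pg_sign (h : Lobe α) {K : ℕ} {r : ℝ} {θ : Fin K → ℝ} (hc : Cfg r θ) {t M e : ℝ}
    (ht : z1 α ≤ t) (ht6 : t ≤ 6) (hM : ∀ s, z1 α ≤ s → s ≤ t → |Phi α s| ≤ M) (hMe : M ≤ e)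
    (he : exp (-t) ≤ e) (he1 : e ≤ 1) (hneg : Pt α θ t < 0) :
    |Pt α θ t| ≤ M * e ^ (∑ k, θ k - 1) := by
  classical
  have ht0 : 0 ≤ t := h.z1_pos.le.trans ht
  have he0 : 0 < e := (exp_pos _).trans_le he
  obtain ⟨k, hk⟩ : ∃ k, z1 α ≤ θ k * t := by
    by_contra hcon
    push Not at hcon
    exact absurd (LSP_nonneg h hc ht0 hcon) (not_le.2 hneg)
  have h1 : |Phi α (θ k * t)| ≤ M := hM _ hk (LSP_le hc k ht0)
  have hM0 : 0 ≤ M := (abs_nonneg _).trans h1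
  rw [LSP_abs, ← Finset.mul_prod_erase Finset.univ _ (Finset.mem_univ k)]
  refine mul_le_mul h1 ?_ (Finset.prod_nonneg fun k _ => abs_nonneg _) hM0
  calc ∏ x ∈ Finset.univ.erase k, |Phi α (θ x * t)| ≤ ∏ x ∈ Finset.univ.erase k, e ^ (θ x) :=
        Finset.prod_le_prod (fun k _ => abs_nonneg _)
          (fun k _ => LSP_factor h hc ht hM hMe he he1 k)
    _ = e ^ (∑ x ∈ Finset.univ.erase k, θ x) := (Real.rpow_sum_of_pos he0 _ _).symm
    _ ≤ e ^ (∑ k, θ k - 1) := by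
        refine rpow_le_rpow_of_exponent_ge he0 he1 ?_
        rw [← Finset.add_sum_erase Finset.univ θ (Finset.mem_univ k)]
        have := hc.hi k
        linarith

end LpSec.LS
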