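import Mathlib
import Pool.Agent.Lib.MP_1dbab3_gt.LS.Leaf
import Pool.Agent.Lib.MP_1dbab3_gt.LS.KerC
import Pool.Agent.Lib.MP_1dbab3_gt.LS.MainA
import Pool.Agent.Lib.MP_1dbab3_gt.LS.Mid
import Pool.Agent.Lib.MP_1dbab3_gt.LS.FarA
import Pool.Agent.Lib.MP_1dbab3_gt.LS.FarB
import Pool.Agent.Lib.MP_1dbab3_gt.LS.FarC

/-!
# LS: soundness of the leaves, pieces
-/

open Real MeasureTheory Set Filter Topology

namespace LpSec.LS

variable {α : ℝ} {c : Crt}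

/-- what a certificate means -/
structure Dat (α : ℝ) (c : Crt) : Prop where
  lobe : Lobe α
  c4 : ML.Conc4 α
  z6 : z1 α ≤ 6
  zlo : (c.jz : ℝ) / 10 ≤ z1 α
  zhi : z1 α ≤ (c.jh : ℝ) / 10
  jz60 : c.jz ≤ 60
  e0 : ∀ j : ℕ, j ≤ 60 → ∀ s : ℝ, (j : ℝ) / 10 ≤ s → |Phi α s| ≤ up (nth c.E0 j)
  e1 : ∀ j : ℕ, j ≤ 60 → ∀ s : ℝ, (j : ℝ) / 10 ≤ s → |Phi1 α s| ≤ up (nth c.E1 j)
  e2 : ∀ j : ℕ, j ≤ 60 → ∀ s : ℝ, (j : ℝ) / 10 ≤ s → |Phi2 α s| ≤ up (nth c.E2 j)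
  e01 : ∀ j : ℕ, j ≤ 60 → nth c.E0 j ≤ 1000000000
  xe : ∀ j : ℕ, j ≤ 60 → ∀ s : ℝ, (j : ℝ) / 10 ≤ s → s * |Phi1 α s| ≤ up (nth c.XE j)
  b0 : ∀ j : ℕ, j < 60 → ∀ s : ℝ, (j : ℝ) / 10 ≤ s → s ≤ ((j : ℝ) + 1) / 10 → z1 α ≤ s →
    |Phi α s| ≤ up (nth c.B0 j)
  a1 : ∀ j : ℕ, j < 60 → ∀ s : ℝ, (j : ℝ) / 10 ≤ s → s ≤ ((j : ℝ) + 1) / 10 →
    |Phi1 α s| ≤ up (nth c.A1 j)
  pm : ∀ j : ℕ, j < 60 → ∀ s : ℝ, z1 α ≤ s → s ≤ ((j : ℝ) + 1) / 10 → |Phi α s| ≤ up (nth c.PM j)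
  mm : ∀ s : ℝ, z1 α ≤ s → |Phi α s| ≤ up c.M
  mf : ∀ s : ℝ, 6 ≤ s → |Phi α s| ≤ up c.Mf
  t2 : ∀ j : ℕ, j ≤ 60 → T2 α ((j : ℝ) / 10) ≤ up (nth c.T2 j)
  k0 : up c.k0 ≤ k0 α
  k1 : up c.k1 ≤ k1 α
  far : FarC α (up c.Mk) (up c.c1) (up c.bb)
  m64 : up c.M ≤ exp (-((c.m64 : ℝ) / 64))
  mpos : 0 < c.M
  mle : up c.M ≤ 0.1325
  g1 : T2 α 6 ≤ up c.g0
  g2 : T2 α 6 + (6 * up c.M ^ 2 - 3 * T2 α 6) / 7.2 ≤ up c.g0
  sgn : ∀ t : ℝ, z1 α ≤ t → t ≤ (c.js : ℝ) / 10 → ∀ r : ℝ, 0 ≤ r → r ≤ 1 → 0 ≤ Wt α r t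
  sg5 : ∀ t : ℝ, z1 α ≤ t → t ≤ (c.j5 : ℝ) / 10 → ∀ r : ℝ, 1 / 2 ≤ r → r ≤ 1 → 0 ≤ Wt α r t
  js60 : c.js ≤ 60
  j560 : c.j5 ≤ 60

theorem idx_le {a b j : ℕ} {x t : ℝ} (h1 : (a : ℝ) / 640 ≤ x) (hx : 0 ≤ x)
    (ht : (j : ℝ) / 10 ≤ t) (hb : b * 640 ≤ a * j) : (b : ℝ) / 10 ≤ x * t := by
  have h2 : (a : ℝ) / 640 * ((j : ℝ) / 10) ≤ x * t := mul_le_mul h1 ht (by positivity) hx
  have h3 : (b : ℝ) * 640 ≤ a * j := by exact_mod_cast hb
  refine le_trans ?_ h2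
  linarith

theorem div_mul_640 (a : ℕ) : a / 640 * 640 ≤ a := Nat.div_mul_le_self a 640

theorem Vb_sound (d : Dat α c) {r : ℝ} {r1 r2 j : ℕ} (hr1 : r < 1)
    (h1 : (r1 : ℝ) / 640 ≤ r) (h2 : r ≤ (r2 : ℝ) / 640) (hj : j < 60) {t : ℝ}
    (ht1 : (j : ℝ) / 10 ≤ t) (ht2 : t ≤ ((j : ℝ) + 1) / 10) (hz : z1 α ≤ t) :
    t * |Wt α r t| ≤ (1 - r) * up (Vb c r1 r2 j) := by
  have hα := d.lobe.one_lt
  have hr0 : 0 ≤ r := le_trans (by positivity) h1
  have hz0 := d.lobe.z1_pos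
  have ht0 : 0 < t := lt_of_lt_of_le hz0 hz
  have h1r : 0 < 1 - r := by linarith
  set i := r1 * j / 640 with hi
  have hij : i ≤ 60 := by
    have hr1' : (r1 : ℝ) < 640 := by
      have := lt_of_le_of_lt h1 hr1
      rwa [div_lt_one (by norm_num)] at this
    have hr1n : r1 < 640 := by exact_mod_cast hr1'
    have : r1 * j / 640 ≤ j := by
      refine Nat.div_le_of_le_mul ?_
      exact Nat.mul_le_mul_right _ hr1n.le
    omega
  have hrt : (i : ℝ) / 10 ≤ r * t := idx_le h1 hr0 ht1 (div_mul_640 _)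
  have E0 := d.e0 i hij (r * t) hrt
  have E1 := d.e1 i hij (r * t) hrt
  have E1' : ∀ x ∈ Icc (r * t) t, |Phi1 α x| ≤ up (nth c.E1 i) := fun x hx =>
    d.e1 i hij x (hrt.trans hx.1)
  have E2' : ∀ x ∈ Icc (r * t) t, |Phi2 α x| ≤ up (nth c.E2 i) := fun x hx =>
    d.e2 i hij x (hrt.trans hx.1)
  have B0 := d.b0 j hj t ht1 ht2 hz
  have A1 := d.a1 j hj t ht1 ht2
  -- the two estimates
  have hB : |Wt α r t| ≤ (1 - r) * up (qUp (mUp (nth c.A1 j) (nth c.E1 i) +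
      mUp (nth c.B0 j) (nth c.E2 i)) (j + 1) 10) := by
    have hw := W_abs' hα hr0 hr1.le ht0 E1' E2'
    have m1 := mUp_le A1 (le_refl (up (nth c.E1 i))) (up_nonneg _)
    have m2 := mUp_le B0 (le_refl (up (nth c.E2 i))) (up_nonneg _)
    have hs : |Phi1 α t| * up (nth c.E1 i) + |Phi α t| * up (nth c.E2 i) ≤
        up (mUp (nth c.A1 j) (nth c.E1 i) + mUp (nth c.B0 j) (nth c.E2 i)) := by
      rw [up_add]; exact add_le_add m1 m2
    have hq := qUp_le (p := j + 1) (q := 10) (by norm_num) hs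
    have hs0 : 0 ≤ |Phi1 α t| * up (nth c.E1 i) + |Phi α t| * up (nth c.E2 i) := by
      have := up_nonneg (nth c.E1 i)
      have := up_nonneg (nth c.E2 i)
      positivity
    calc |Wt α r t| ≤ (1 - r) * t * (|Phi1 α t| * up (nth c.E1 i) +
          |Phi α t| * up (nth c.E2 i)) := hw
      _ = (1 - r) * ((|Phi1 α t| * up (nth c.E1 i) + |Phi α t| * up (nth c.E2 i)) * t) := by ring
      _ ≤ (1 - r) * ((|Phi1 α t| * up (nth c.E1 i) + |Phi α t| * up (nth c.E2 i)) *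
          (((j + 1 : ℕ) : ℝ) / ((10 : ℕ) : ℝ))) := by
          refine mul_le_mul_of_nonneg_left (mul_le_mul_of_nonneg_left ?_ hs0) h1r.le
          push_cast; exact ht2
      _ ≤ _ := mul_le_mul_of_nonneg_left hq h1r.le
  have hA : r2 < 640 → |Wt α r t| ≤ (1 - r) * up (qUp (mUp (nth c.A1 j) (nth c.E0 i) +
      mUp (nth c.B0 j) (nth c.E1 i)) 640 (640 - r2)) := by
    intro hr2
    have hw := W_abs α r t
    have m1 := mUp_le A1 E0 (abs_nonneg _)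
    have m2 := mUp_le B0 E1 (abs_nonneg _)
    have hs : |Wt α r t| ≤
        up (mUp (nth c.A1 j) (nth c.E0 i) + mUp (nth c.B0 j) (nth c.E1 i)) := by
      rw [up_add]; exact hw.trans (add_le_add m1 m2)
    have hq := qUp_le (p := 640) (q := 640 - r2) (by omega) hs
    have hc : (((640 - r2 : ℕ) : ℝ)) = 640 - r2 := by rw [Nat.cast_sub hr2.le]; norm_num
    rw [hc] at hq
    have hr2' : (r2 : ℝ) < 640 := by exact_mod_cast hr2
    have h5 : 1 ≤ (1 - r) * (((640 : ℕ) : ℝ) / (640 - r2)) := by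
      push_cast
      rw [mul_div_assoc', le_div_iff₀ (by linarith)]
      linarith
    calc |Wt α r t| = |Wt α r t| * 1 := by ring
      _ ≤ |Wt α r t| * ((1 - r) * (((640 : ℕ) : ℝ) / (640 - r2))) :=
          mul_le_mul_of_nonneg_left h5 (abs_nonneg _)
      _ = (1 - r) * (|Wt α r t| * (((640 : ℕ) : ℝ) / (640 - r2))) := by ring
      _ ≤ _ := mul_le_mul_of_nonneg_left hq h1r.le
  -- combine
  have key : ∀ m : ℕ, |Wt α r t| ≤ (1 - r) * up m →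
      t * |Wt α r t| ≤ (1 - r) * up (qUp m (j + 1) 10) := by
    intro m hm
    have hq := qUp_le (p := j + 1) (q := 10) (by norm_num) (le_refl (up m))
    calc t * |Wt α r t| ≤ (((j + 1 : ℕ) : ℝ) / ((10 : ℕ) : ℝ)) * ((1 - r) * up m) := by
          refine mul_le_mul ?_ hm (abs_nonneg _) (by positivity)
          push_cast; exact ht2
      _ = (1 - r) * (up m * (((j + 1 : ℕ) : ℝ) / ((10 : ℕ) : ℝ))) := by ring
      _ ≤ _ := mul_le_mul_of_nonneg_left hq h1r.le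
  unfold Vb
  rw [← hi]
  rcases hb : Nat.blt r2 640 with _ | _
  · simp only [cond_false]
    exact key _ hB
  · simp only [cond_true]
    have hr2 : r2 < 640 := by rwa [Nat.blt_eq] at hb
    refine key _ ?_
    have hA' := hA hr2
    rw [nmin_eq]
    rcases min_choice (qUp (mUp (nth c.A1 j) (nth c.E0 i) + mUp (nth c.B0 j) (nth c.E1 i)) 640
      (640 - r2)) (qUp (mUp (nth c.A1 j) (nth c.E1 i) + mUp (nth c.B0 j) (nth c.E2 i)) (j + 1) 10)
      with h | h <;> rw [h] <;> assumption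

theorem Sm_eq (f : ℕ → ℕ) : ∀ (n j : ℕ), Sm f j n = ∑ i ∈ Finset.Ico j (j + n), f i
  | 0, j => by simp [Sm]
  | n + 1, j => by
    have h1 : j < j + (n + 1) := by omega
    rw [Sm, Sm_eq f n (j + 1), Finset.sum_eq_sum_Ico_succ_bot h1,
      show j + 1 + n = j + (n + 1) by omega]

theorem up_Sm (f : ℕ → ℕ) {j0 : ℕ} (hj : j0 ≤ 60) :
    up (Sm f j0 (60 - j0)) = ∑ i ∈ Finset.Ico j0 60, up (f i) := by
  rw [Sm_eq, show j0 + (60 - j0) = 60 by omega]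
  unfold up
  push_cast
  rw [Finset.sum_div]

/-- two factors -/
theorem P4_sound (d : Dat α c) {r : ℝ} {θ : Fin 2 → ℝ} (hc : Cfg r θ) (hr5 : 1 / 2 ≤ r)
    {q1 tm j : ℕ} (hq : (q1 : ℝ) / 640 ≤ ∑ k, θ k) (hτ : ∀ k, (tm : ℝ) / 640 ≤ θ k)
    (hj : j < 60) {t : ℝ} (ht1 : (j : ℝ) / 10 ≤ t) (ht2 : t ≤ ((j : ℝ) + 1) / 10)
    (hz : z1 α ≤ t) : |Pt α θ t| ≤ up (P4 c q1 tm j) ∨
      (0 ≤ Wt α r t ∧ -up (P4 c q1 tm j) ≤ Pt α θ t) := by
  have hz0 := d.lobe.z1_pos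
  have ht0 : 0 < t := lt_of_lt_of_le hz0 hz
  have hj' : (j : ℝ) + 1 ≤ 60 := by exact_mod_cast hj
  have ht6 : t ≤ 6 := by linarith
  have htm : tm ≤ 640 := by
    have := (hτ 0).trans (hc.hi 0)
    rw [div_le_one (by norm_num)] at this
    exact_mod_cast this
  have hq2 : q1 ≤ 1280 := by
    have h1 : ∑ k, θ k ≤ 2 := by
      rw [Fin.sum_univ_two]; linarith [hc.hi 0, hc.hi 1]
    have := hq.trans h1
    rw [div_le_iff₀ (by norm_num)] at this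
    have h3 : (q1 : ℝ) ≤ 1280 := by linarith
    exact_mod_cast h3
  have hi1 : tm * j / 640 ≤ 60 := by
    have : tm * j / 640 ≤ j := Nat.div_le_of_le_mul (Nat.mul_le_mul_right _ htm)
    omega
  have hi2 : q1 * j / 1280 ≤ 60 := by
    have : q1 * j / 1280 ≤ j := Nat.div_le_of_le_mul (Nat.mul_le_mul_right _ hq2)
    omega
  have hE : ∀ s, (tm : ℝ) / 640 * t ≤ s → |Phi α s| ≤ up (nth c.E0 (tm * j / 640)) := by
    intro s hs
    refine d.e0 _ hi1 s (le_trans ?_ hs)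
    exact idx_le (le_refl _) (by positivity) ht1 (div_mul_640 _)
  unfold P4
  rcases hb : Nat.blt j c.j5 with _ | _
  · simp only [cond_false]
    left
    have hF : ∀ s, (q1 : ℝ) / 640 / 2 * t ≤ s → |Phi α s| ≤ up (nth c.E0 (q1 * j / 1280)) := by
      intro s hs
      refine d.e0 _ hi2 s (le_trans ?_ hs)
      have h3 : ((q1 * j / 1280 * 1280 : ℕ) : ℝ) ≤ ((q1 * j : ℕ) : ℝ) := by
        exact_mod_cast Nat.div_mul_le_self _ _
      push_cast at h3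
      have h4 : (q1 : ℝ) / 640 / 2 * ((j : ℝ) / 10) ≤ (q1 : ℝ) / 640 / 2 * t :=
        mul_le_mul_of_nonneg_left ht1 (by positivity)
      refine le_trans ?_ h4
      linarith
    have := P2_abs hc hτ hq ht0.le hF hE
    exact this.trans (mUp_le (le_refl _) (le_refl _) (up_nonneg _))
  · simp only [cond_true]
    right
    have hj5 : j < c.j5 := by rwa [Nat.blt_eq] at hb
    have hW : 0 ≤ Wt α r t := by
      refine d.sg5 t hz ?_ r hr5 hc.r1.le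
      have : (j : ℝ) + 1 ≤ c.j5 := by exact_mod_cast hj5
      refine ht2.trans ?_
      linarith
    refine ⟨hW, ?_⟩
    rcases hb2 : Nat.ble (10 * c.jh * 64) (tm * j) with _ | _
    · simp only [cond_false]
      have hM : ∀ s, z1 α ≤ s → s ≤ t → |Phi α s| ≤ up (nth c.PM j) := fun s h1 h2 =>
        d.pm j hj s h1 (h2.trans ht2)
      have := P2_sign d.lobe hc hτ (by positivity) hz ht6 (up_nonneg _) (up_nonneg _) hM hE
      refine le_trans ?_ this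
      exact neg_le_neg (mUp_le (le_refl _) (le_refl _) (up_nonneg _))
    · simp only [cond_true]
      have hle : 10 * c.jh * 64 ≤ tm * j := by rwa [Nat.ble_eq] at hb2
      have h3 : (c.jh : ℝ) / 10 ≤ (tm : ℝ) / 640 * t := by
        refine idx_le (le_refl _) (by positivity) ht1 ?_
        omega
      have := P2_zero d.lobe hc hτ (d.zhi.trans h3) ht0.le ht6
      unfold up
      simpa using this

theorem PaM_ge (f : ℕ → ℕ) : ∀ (n a : ℕ), a ≤ n → f a ≤ PaM f n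
  | 0, a, h => by
    rw [Nat.le_zero.1 h]; exact le_rfl
  | n + 1, a, h => by
    rw [PaM]
    rcases Nat.lt_or_ge a (n + 1) with h' | h'
    · exact (PaM_ge f n a (by omega)).trans (le_nmax_right _ _)
    · rw [show a = n + 1 by omega]; exact le_nmax_left _ _

theorem Pa_neg {K0 q1 r1 j : ℕ} (h : Nat.blt j c.js = false) :
    Pa c K0 q1 r1 j = PaM (PaT c.M K0 q1 r1 j) (K0 + 1) := by
  unfold Pa
  rw [h, cond_false]

theorem Pa_pos {K0 q1 r1 j : ℕ} (h : Nat.blt j c.js = true) :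
    Pa c K0 q1 r1 j = PaM (fun a => PaT (nth c.PM j) K0 q1 r1 j (a + 1)) K0 := by
  unfold Pa
  rw [h, cond_true]

/-- at least `K0` factors -/
theorem Pa_sound (d : Dat α c) {K K0 : ℕ} (hK : K0 ≤ K) {r : ℝ} {θ : Fin K → ℝ} (hc : Cfg r θ)
    {q1 r1 j : ℕ} (hr1 : (r1 : ℝ) / 640 ≤ r) (hq : (q1 : ℝ) / 640 ≤ ∑ k, θ k)
    (hqK : q1 ≤ 640 * (K0 + 1)) (hj : j < 60) {t : ℝ} (ht1 : (j : ℝ) / 10 ≤ t)
    (ht2 : t ≤ ((j : ℝ) + 1) / 10) (hz : z1 α ≤ t) : |Pt α θ t| ≤ up (Pa c K0 q1 r1 j) ∨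
      (0 ≤ Wt α r t ∧ -up (Pa c K0 q1 r1 j) ≤ Pt α θ t) := by
  have hz0 := d.lobe.z1_pos
  have ht0 : 0 < t := lt_of_lt_of_le hz0 hz
  have hj' : (j : ℝ) + 1 ≤ 60 := by exact_mod_cast hj
  have ht6 : t ≤ 6 := by linarith
  have hqK' : (q1 : ℝ) / 640 ≤ (K0 : ℝ) + 1 := by
    have : (q1 : ℝ) ≤ 640 * (K0 + 1) := by exact_mod_cast hqK
    rw [div_le_iff₀ (by norm_num)]; linarith
  have hM1 : up c.M ≤ 1 := d.mle.trans (by norm_num)
  -- one term
  have hterm : ∀ (M : ℕ) (a : ℕ), up M ^ a *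
      exp (-(t * max (max ((q1 : ℝ) / 640 - a) (((K0 : ℝ) - a) * r)) 0)) ≤
      up (PaT M K0 q1 r1 j a) := by
    intro M a
    unfold PaT
    refine mUp_le (pUp_le (up_nonneg M) (le_refl _) a) ?_ (exp_pos _).le
    refine exp_le_expUp ?_
    set Y := nmax (q1 - 640 * a) ((K0 - a) * r1) with hY
    have hY1 : (Y : ℝ) / 640 ≤ max (max ((q1 : ℝ) / 640 - a) (((K0 : ℝ) - a) * r)) 0 := by
      rw [hY, nmax_eq]
      rcases max_choice (q1 - 640 * a) ((K0 - a) * r1) with h | h <;> rw [h]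
      · rcases le_total (640 * a) q1 with h' | h'
        · refine le_trans ?_ ((le_max_left _ _).trans (le_max_left _ _))
          rw [Nat.cast_sub h']
          push_cast
          linarith
        · rw [Nat.sub_eq_zero_of_le h']
          simp
      · rcases le_total a K0 with h' | h'
        · refine le_trans ?_ ((le_max_right _ _).trans (le_max_left _ _))
          push_cast [Nat.cast_sub h']
          have h3 : (0 : ℝ) ≤ (K0 : ℝ) - a := by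
            have : (a : ℝ) ≤ K0 := by exact_mod_cast h'
            linarith
          calc ((K0 : ℝ) - a) * r1 / 640 = ((K0 : ℝ) - a) * (r1 / 640) := by ring
            _ ≤ _ := mul_le_mul_of_nonneg_left hr1 h3
        · rw [Nat.sub_eq_zero_of_le h']
          simp
    have h3 : ((j * Y / 100 : ℕ) : ℝ) ≤ (j * Y : ℝ) / 100 := by
      have := floor_div_le (j * Y) 100
      push_cast at this
      exact this
    calc ((j * Y / 100 : ℕ) : ℝ) / 64 ≤ (j * Y : ℝ) / 100 / 64 := by linarith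
      _ = (j : ℝ) / 10 * ((Y : ℝ) / 640) := by ring
      _ ≤ t * max (max ((q1 : ℝ) / 640 - a) (((K0 : ℝ) - a) * r)) 0 :=
          mul_le_mul ht1 hY1 (by positivity) ht0.le
  rcases hb : Nat.blt j c.js with _ | _
  · rw [Pa_neg hb]
    left
    obtain ⟨a, ha1, ha2, -⟩ := Pa_bound d.lobe hK hc hz (up_nonneg c.M) hM1
      (fun s h1 _ => d.mm s h1) hq hqK'
    have h6 := up_mono (PaM_ge (PaT c.M K0 q1 r1 j) (K0 + 1) a ha1)
    exact ha2.trans ((hterm c.M a).trans h6)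
  · rw [Pa_pos hb]
    right
    have hjs : j < c.js := by rwa [Nat.blt_eq] at hb
    have hW : 0 ≤ Wt α r t := by
      refine d.sgn t hz ?_ r hc.r0 hc.r1.le
      have : (j : ℝ) + 1 ≤ c.js := by exact_mod_cast hjs
      refine ht2.trans ?_
      linarith
    refine ⟨hW, ?_⟩
    rcases le_or_gt 0 (Pt α θ t) with hP | hP
    · exact le_trans (neg_nonpos.2 (up_nonneg _)) hP
    · have hPM : ∀ s, z1 α ≤ s → s ≤ t → |Phi α s| ≤ min (up (nth c.PM j)) 1 := by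
        intro s h1 h2
        refine le_min (d.pm j hj s h1 (h2.trans ht2)) ?_
        exact Phi_abs_le_one d.lobe.one_lt (hz0.le.trans h1)
      obtain ⟨a, ha1, ha2, ha3⟩ := Pa_bound d.lobe hK hc hz (le_min (up_nonneg _) zero_le_one)
        (min_le_right _ _) hPM hq hqK'
      have ha := ha3 ht6 hP
      have hpow : min (up (nth c.PM j)) 1 ^ a ≤ up (nth c.PM j) ^ a :=
        pow_le_pow_left₀ (le_min (up_nonneg _) zero_le_one) (min_le_left _ _) a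
      have h5 := ha2.trans ((mul_le_mul_of_nonneg_right hpow (exp_pos _).le).trans
        (hterm (nth c.PM j) a))
      have h6 : PaT (nth c.PM j) K0 q1 r1 j a ≤
          PaM (fun a => PaT (nth c.PM j) K0 q1 r1 j (a + 1)) K0 := by
        obtain ⟨b, rfl⟩ : ∃ b, a = b + 1 := ⟨a - 1, by omega⟩
        exact PaM_ge (fun a => PaT (nth c.PM j) K0 q1 r1 j (a + 1)) K0 b (by omega)
      have h7 := h5.trans (up_mono h6)
      rw [abs_of_neg hP] at h7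
      linarith

end LpSec.LS
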