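import Mathlib
import Pool.Agent.Lib.MP_1dbab3_gt.LS.LeafS

/-!
# LS: soundness of the leaves, far part
-/

open Real MeasureTheory Set Filter Topology

namespace LpSec.LS

variable {α : ℝ} {c : Crt}

theorem int_mul_le {f g : ℝ → ℝ} {A : ℝ} (hf : AEStronglyMeasurable f (volume.restrict (Ioi 6)))
    (hA : ∀ t, 6 ≤ t → |f t| ≤ A) (hg : IntegrableOn g (Ioi 6)) (hg0 : ∀ t, 6 ≤ t → 0 ≤ g t) :
    IntegrableOn (fun t => |f t| * g t) (Ioi 6) ∧
    ∫ t in Ioi (6 : ℝ), |f t| * g t ≤ A * ∫ t in Ioi (6 : ℝ), g t := by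
  have hi : IntegrableOn (fun t => |f t| * g t) (Ioi 6) := by
    refine Integrable.mono' (hg.const_mul A) (hf.norm.mul hg.aestronglyMeasurable) ?_
    refine (ae_restrict_iff' measurableSet_Ioi).2 (Eventually.of_forall fun t ht => ?_)
    have ht' : (6 : ℝ) ≤ t := le_of_lt ht
    rw [Real.norm_eq_abs, abs_of_nonneg (mul_nonneg (abs_nonneg _) (hg0 t ht'))]
    exact mul_le_mul_of_nonneg_right (hA t ht') (hg0 t ht')
  refine ⟨hi, ?_⟩
  rw [← integral_const_mul]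
  refine setIntegral_mono_on hi (hg.const_mul A) measurableSet_Ioi fun t ht => ?_
  exact mul_le_mul_of_nonneg_right (hA t (le_of_lt ht)) (hg0 t (le_of_lt ht))

theorem Phi_scale_aesm (hα : 1 < α) {r : ℝ} (hr : 0 ≤ r) :
    AEStronglyMeasurable (fun t => Phi α (r * t)) (volume.restrict (Ioi (6 : ℝ))) := by
  refine ContinuousOn.aestronglyMeasurable ?_ measurableSet_Ioi
  refine (Phi_continuousOn hα).comp (by fun_prop) ?_
  intro t ht
  have : (6 : ℝ) < t := ht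
  exact mul_nonneg hr (by linarith)

theorem Phi_aesm (hα : 1 < α) :
    AEStronglyMeasurable (fun t => Phi α t) (volume.restrict (Ioi (6 : ℝ))) := by
  have := Phi_scale_aesm hα (r := 1) zero_le_one
  simpa using this

theorem idx6 {r1 : ℕ} {r : ℝ} (h : (r1 : ℝ) / 640 ≤ r) : ((3 * r1 / 32 : ℕ) : ℝ) / 10 ≤ 6 * r := by
  have h1 : ((3 * r1 / 32 : ℕ) : ℝ) ≤ ((3 * r1 : ℕ) : ℝ) / ((32 : ℕ) : ℝ) := Nat.cast_div_le
  push_cast at h1
  linarith

theorem idx6_le {r1 : ℕ} (h : r1 ≤ 640) : 3 * r1 / 32 ≤ 60 := by omega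

theorem gT_sound (d : Dat α c) {a : ℕ} (ha : 0 < a) (ha1 : a ≤ 640) {τ : ℝ}
    (hτ : (a : ℝ) / 640 = τ) : T2 α (6 * τ) / τ ≤ up (gT c a) := by
  have ha' : (0 : ℝ) < a := by exact_mod_cast ha
  have hτ0 : 0 < τ := by rw [← hτ]; positivity
  have h1 : T2 α (6 * τ) ≤ up (nth c.T2 (3 * a / 32)) := by
    refine le_trans ?_ (d.t2 _ (idx6_le ha1))
    exact T2_anti d.lobe.one_lt (by positivity) (idx6 hτ.le)
  unfold gT
  have h2 := qUp_le (p := 640) (q := a) ha h1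
  refine le_trans (le_of_eq ?_) h2
  rw [← hτ]
  push_cast
  field_simp

theorem nat_lt_640 {r1 : ℕ} {r : ℝ} (h : (r1 : ℝ) / 640 ≤ r) (hr : r < 1) : r1 < 640 := by
  have := lt_of_le_of_lt h hr
  rw [div_lt_one (by norm_num)] at this
  exact_mod_cast this

theorem nat_le_640 {a : ℕ} {x : ℝ} (h : (a : ℝ) / 640 ≤ x) (hx : x ≤ 1) : a ≤ 640 := by
  have := h.trans hx
  rw [div_le_one (by norm_num)] at this
  exact_mod_cast this

theorem nat_div_pos {a : ℕ} (h : 0 < a) : (0 : ℝ) < (a : ℝ) / 640 :=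
  div_pos (Nat.cast_pos.2 h) (by norm_num)

theorem up_half (a b : ℕ) : (up a + up b) / 2 ≤ up ((a + b) / 2 + 1) := by
  have h := div_lt_add_one (a + b) 2 (by norm_num)
  unfold up
  push_cast at h ⊢
  linarith

/-- from `|∫| ≤ X` to `(1 - r) * up (qUp ..)` -/
theorem divide_sound {r X : ℝ} {r2 m : ℕ} (hr2 : r2 < 640) (h2 : r ≤ (r2 : ℝ) / 640)
    (hX0 : 0 ≤ X) (hX : X ≤ up m) : X ≤ (1 - r) * up (qUp m 640 (640 - r2)) := by
  have hq := qUp_le (p := 640) (q := 640 - r2) (by omega) hX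
  have hc : (((640 - r2 : ℕ) : ℝ)) = 640 - r2 := by rw [Nat.cast_sub hr2.le]; norm_num
  rw [hc] at hq
  have hr2' : (r2 : ℝ) < 640 := by exact_mod_cast hr2
  have h5 : 1 ≤ (1 - r) * (((640 : ℕ) : ℝ) / (640 - r2)) := by
    push_cast
    rw [mul_div_assoc', le_div_iff₀ (by linarith)]
    linarith
  have h1r : 0 ≤ 1 - r := by
    have : (r2 : ℝ) / 640 ≤ 1 := by rw [div_le_one (by norm_num)]; exact hr2'.le
    linarith
  calc X = X * 1 := by ring
    _ ≤ X * ((1 - r) * (((640 : ℕ) : ℝ) / (640 - r2))) := mul_le_mul_of_nonneg_left h5 hX0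
    _ = (1 - r) * (X * (((640 : ℕ) : ℝ) / (640 - r2))) := by ring
    _ ≤ _ := mul_le_mul_of_nonneg_left hq h1r

/-- the coefficient of branch B -/
theorem CB_sound (d : Dat α c) {r : ℝ} {r1 : ℕ} (hr1 : r < 1) (h1 : (r1 : ℝ) / 640 ≤ r)
    (hp : 0 < r1) {t : ℝ} (ht : 6 ≤ t) : t * |Wt α r t| ≤
      (1 - r) * up (qUp (mUp c.c1 c.c1 + mUp 1213200000 c.Mk) 409600 (r1 * r1)) := by
  have hr1' : (0 : ℝ) < r1 := by exact_mod_cast hp
  have hr0 : 0 < r := lt_of_lt_of_le (by positivity) h1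
  have h := d.far.fW r t hr0 hr1.le ht
  refine h.trans (mul_le_mul_of_nonneg_left ?_ (by linarith))
  have m1 := mUp_le (le_refl (up c.c1)) (le_refl (up c.c1)) (up_nonneg _)
  have m2 := mUp_le (le_refl (up 1213200000)) (le_refl (up c.Mk)) (up_nonneg _)
  have hs : up c.c1 ^ 2 + 1.2132 * up c.Mk ≤ up (mUp c.c1 c.c1 + mUp 1213200000 c.Mk) := by
    rw [up_add]
    have e : up 1213200000 = 1.2132 := by unfold up; norm_num
    rw [e] at m2
    have := add_le_add m1 m2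
    linarith [sq (up c.c1)]
  have hq := qUp_le (p := 409600) (q := r1 * r1) (by positivity) hs
  refine le_trans ?_ hq
  have h0 : 0 ≤ up c.c1 ^ 2 + 1.2132 * up c.Mk := by
    have := up_nonneg c.Mk
    positivity
  rw [div_eq_mul_inv]
  refine mul_le_mul_of_nonneg_left ?_ h0
  push_cast
  rw [inv_le_comm₀ (by positivity) (by positivity), inv_div]
  have : ((r1 : ℝ) / 640) ^ 2 ≤ r ^ 2 := pow_le_pow_left₀ (by positivity) h1 2
  refine le_trans (le_of_eq ?_) this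
  ring

theorem xr_sound (d : Dat α c) {r : ℝ} {r1 : ℕ} (hr1 : r < 1) (h1 : (r1 : ℝ) / 640 ≤ r)
    (hp : 0 < r1) {t : ℝ} (ht : 6 ≤ t) :
    t * |Phi1 α (r * t)| ≤ up (qUp (nth c.XE (3 * r1 / 32)) 640 r1) := by
  have hr1' : (0 : ℝ) < r1 := by exact_mod_cast hp
  have hr0 : 0 < r := lt_of_lt_of_le (by positivity) h1
  have hx := d.xe _ (idx6_le (nat_lt_640 h1 hr1).le) (r * t) ((idx6 h1).trans (by nlinarith))
  have hq := qUp_le (p := 640) (q := r1) hp hx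
  refine le_trans ?_ hq
  have h3 : 0 ≤ t * |Phi1 α (r * t)| := mul_nonneg (by linarith) (abs_nonneg _)
  have h4 : 1 ≤ r * (((640 : ℕ) : ℝ) / r1) := by
    push_cast
    rw [mul_div_assoc', le_div_iff₀ hr1']
    linarith
  calc t * |Phi1 α (r * t)| = t * |Phi1 α (r * t)| * 1 := by ring
    _ ≤ t * |Phi1 α (r * t)| * (r * (((640 : ℕ) : ℝ) / r1)) := mul_le_mul_of_nonneg_left h4 h3
    _ = _ := by ring

theorem e6_sound (d : Dat α c) {r : ℝ} {r1 : ℕ} (hr1 : r < 1) (h1 : (r1 : ℝ) / 640 ≤ r) {s : ℝ}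
    (hs : 6 * r ≤ s) : |Phi α s| ≤ up (nth c.E0 (3 * r1 / 32)) :=
  d.e0 _ (idx6_le (nat_lt_640 h1 hr1).le) s ((idx6 h1).trans hs)

/-- far part, `K ≥ 2` -/
theorem Cp_sound (d : Dat α c) {K : ℕ} (hK : 2 ≤ K) {r : ℝ} {θ : Fin K → ℝ} (hc : Cfg r θ)
    {q1 r1 r2 : ℕ} (hp : 0 < r1) (h1 : (r1 : ℝ) / 640 ≤ r) (h2 : r ≤ (r2 : ℝ) / 640)
    (hq : (q1 : ℝ) / 640 ≤ ∑ k, θ k) :
    |∫ t in Ioi (6 : ℝ), t * Wt α r t * Pt α θ t| ≤ (1 - r) * up (Cp c K q1 r1 r2) := by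
  have hα := d.lobe.one_lt
  have hr1' : (0 : ℝ) < r1 := by exact_mod_cast hp
  have hr0 : 0 < r := lt_of_lt_of_le (by positivity) h1
  have hK' : (2 : ℝ) ≤ K := by exact_mod_cast hK
  obtain ⟨i, j, hij, hi, hj⟩ := two_large hK hc
  set ta := nmax (q1 / K) r1 with hta
  set tb := nmax ((q1 - 640) / (K - 1)) r1 with htb
  have a1 : (ta : ℝ) / 640 ≤ θ i := by
    rw [hta, nmax_eq]
    rcases max_choice (q1 / K) r1 with h | h <;> rw [h]
    · refine le_trans ?_ hi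
      have : ((q1 / K : ℕ) : ℝ) ≤ (q1 : ℝ) / K := Nat.cast_div_le
      calc ((q1 / K : ℕ) : ℝ) / 640 ≤ (q1 : ℝ) / K / 640 := by linarith
        _ = (q1 : ℝ) / 640 / K := by ring
        _ ≤ _ := by gcongr
    · exact h1.trans (hc.lo i)
  have b1 : (tb : ℝ) / 640 ≤ θ j := by
    rw [htb, nmax_eq]
    rcases max_choice ((q1 - 640) / (K - 1)) r1 with h | h <;> rw [h]
    · rcases le_total 640 q1 with h' | h'
      · refine le_trans ?_ hj
        have e1 : (((q1 - 640) / (K - 1) : ℕ) : ℝ) ≤ ((q1 - 640 : ℕ) : ℝ) / ((K - 1 : ℕ) : ℝ) :=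
          Nat.cast_div_le
        rw [Nat.cast_sub h', Nat.cast_sub (by omega : 1 ≤ K)] at e1
        push_cast at e1
        have e2 : (0 : ℝ) < (K : ℝ) - 1 := by linarith
        calc (((q1 - 640) / (K - 1) : ℕ) : ℝ) / 640 ≤ ((q1 : ℝ) - 640) / (K - 1) / 640 := by
              linarith
          _ = ((q1 : ℝ) / 640 - 1) / (K - 1) := by ring
          _ ≤ _ := by gcongr
      · rw [Nat.sub_eq_zero_of_le h', Nat.zero_div]
        simpa using hc.r0.trans (hc.lo j)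
    · exact h1.trans (hc.lo j)
  have ta0 : 0 < ta := lt_of_lt_of_le hp (le_nmax_right _ _)
  have tb0 : 0 < tb := lt_of_lt_of_le hp (le_nmax_right _ _)
  have ta1 : ta ≤ 640 := nat_le_640 a1 (hc.hi i)
  have tb1 : tb ≤ 640 := nat_le_640 b1 (hc.hi j)
  have ga := gT_sound d ta0 ta1 rfl
  have gb := gT_sound d tb0 tb1 rfl
  have ta0' : (0 : ℝ) < (ta : ℝ) / 640 := nat_div_pos ta0
  have tb0' : (0 : ℝ) < (tb : ℝ) / 640 := nat_div_pos tb0
  set e6 := nth c.E0 (3 * r1 / 32) with he6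
  have hE : ∀ s, 6 * r ≤ s → |Phi α s| ≤ up e6 := fun s hs => e6_sound d hc.r1 h1 hs
  obtain ⟨iP, hP⟩ := pair_int hα hc hij (up_nonneg e6) hE ta0' tb0' a1 b1
  set G := mUp (pUp e6 (K - 2)) ((gT c ta + gT c tb) / 2 + 1) with hG
  have hT0 : ∀ a : ℕ, 0 ≤ T2 α (6 * ((a : ℝ) / 640)) / ((a : ℝ) / 640) := fun a =>
    div_nonneg (T2_nonneg _ _) (by positivity)
  have hPG : ∫ t in Ioi (6 : ℝ), |Pt α θ t| ≤ up G := by
    refine hP.trans (mUp_le (pUp_le (up_nonneg _) le_rfl _) ?_ ?_)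
    · refine le_trans ?_ (up_half _ _)
      linarith
    · have := hT0 ta; have := hT0 tb; linarith
  have hP0 : 0 ≤ ∫ t in Ioi (6 : ℝ), |Pt α θ t| :=
    integral_nonneg fun t => abs_nonneg _
  -- `∫ |Phi (r t)| |Pt|`
  obtain ⟨i1, g1⟩ := int_mul_le (f := fun t => Phi α (r * t)) (g := fun t => |Pt α θ t|)
    (Phi_scale_aesm hα hr0.le) (A := up e6) (fun t ht => hE _ (by nlinarith)) iP
    (fun t _ => abs_nonneg _)
  have G1 : ∫ t in Ioi (6 : ℝ), |Phi α (r * t)| * |Pt α θ t| ≤ up (mUp e6 G) :=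
    g1.trans (mUp_le le_rfl hPG hP0)
  -- `∫ |Phi t| |Pt|`
  obtain ⟨i2, g2⟩ := int_mul_le (f := fun t => Phi α t) (g := fun t => |Pt α θ t|)
    (Phi_aesm hα) (A := up c.Mf) (fun t ht => d.mf t ht) iP (fun t _ => abs_nonneg _)
  have G2 : ∫ t in Ioi (6 : ℝ), |Phi α t| * |Pt α θ t| ≤ up (mUp c.Mf G) :=
    g2.trans (mUp_le le_rfl hPG hP0)
  obtain ⟨-, g3⟩ := pair_int1 hα hc (i := i) (up_nonneg e6) hE ta0' a1
  have G3 : ∫ t in Ioi (6 : ℝ), |Phi α t| * |Pt α θ t| ≤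
      up (mUp (pUp e6 (K - 1)) ((nth c.T2 60 + gT c ta) / 2 + 1)) := by
    refine g3.trans (mUp_le (pUp_le (up_nonneg _) le_rfl _) ?_ ?_)
    · refine le_trans ?_ (up_half _ _)
      have h60 := d.t2 60 le_rfl
      norm_num at h60
      linarith
    · have := hT0 ta; have := T2_nonneg α 6; linarith
  have I2 : 0 ≤ ∫ t in Ioi (6 : ℝ), |Phi α t| * |Pt α θ t| :=
    integral_nonneg fun t => mul_nonneg (abs_nonneg _) (abs_nonneg _)
  have I1 : 0 ≤ ∫ t in Ioi (6 : ℝ), |Phi α (r * t)| * |Pt α θ t| :=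
    integral_nonneg fun t => mul_nonneg (abs_nonneg _) (abs_nonneg _)
  set xr := qUp (nth c.XE (3 * r1 / 32)) 640 r1 with hxr
  have hA : |∫ t in Ioi (6 : ℝ), t * Wt α r t * Pt α θ t| ≤
      up (mUp c.c1 (mUp e6 G) + nmin (mUp xr (mUp c.Mf G))
      (mUp xr (mUp (pUp e6 (K - 1)) ((nth c.T2 60 + gT c ta) / 2 + 1)))) := by
    have h := farA hα hc d.far.f1 (fun t ht => xr_sound d hc.r1 h1 hp ht) i1 le_rfl i2 le_rfl
    refine h.trans ?_
    rw [up_add]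
    refine add_le_add (mUp_le le_rfl G1 I1) (up_nmin (mUp_le le_rfl G2 I2) (mUp_le le_rfl G3 I2))
  have hB : |∫ t in Ioi (6 : ℝ), t * Wt α r t * Pt α θ t| ≤
      (1 - r) * up (mUp (qUp (mUp c.c1 c.c1 + mUp 1213200000 c.Mk) 409600 (r1 * r1)) G) := by
    have h := farB hα hc (fun t ht => CB_sound d hc.r1 h1 hp ht) iP le_rfl
    refine h.trans (mul_le_mul_of_nonneg_left ?_ (by linarith [hc.r1]))
    exact mUp_le le_rfl hPG hP0
  have key : Cp c K q1 r1 r2 = cond (Nat.blt r2 640)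
    (nmin (qUp (mUp c.c1 (mUp e6 G) + nmin (mUp xr (mUp c.Mf G))
      (mUp xr (mUp (pUp e6 (K - 1)) ((nth c.T2 60 + gT c ta) / 2 + 1)))) 640 (640 - r2))
      (mUp (qUp (mUp c.c1 c.c1 + mUp 1213200000 c.Mk) 409600 (r1 * r1)) G))
      (mUp (qUp (mUp c.c1 c.c1 + mUp 1213200000 c.Mk) 409600 (r1 * r1)) G) := rfl
  rw [key]
  rcases hb : Nat.blt r2 640 with _ | _
  · rw [cond_false]; exact hB
  · rw [cond_true]
    have hr2 : r2 < 640 := by rwa [Nat.blt_eq] at hb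
    have hA' := divide_sound hr2 h2 (abs_nonneg _) hA
    rw [nmin_eq]
    rcases min_choice (qUp (mUp c.c1 (mUp e6 G) + nmin (mUp xr (mUp c.Mf G))
      (mUp xr (mUp (pUp e6 (K - 1)) ((nth c.T2 60 + gT c ta) / 2 + 1)))) 640 (640 - r2))
      (mUp (qUp (mUp c.c1 c.c1 + mUp 1213200000 c.Mk) 409600 (r1 * r1)) G) with h | h <;> rw [h]
    · exact hA'
    · exact hB

end LpSec.LS
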