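import Mathlib
import Pool.Agent.Lib.MP_1dbab3_gt.LS.LeafT

/-!
# LS: soundness of the leaves, far part with many factors
-/

open Real MeasureTheory Set Filter Topology

namespace LpSec.LS

variable {α : ℝ} {c : Crt}

/-- `M ^ x ≤ exp (-7/4 δ) * expUp ..` for `x ≥ a / 640 + δ` -/
theorem Mpow_le (d : Dat α c) {a : ℕ} {x δ : ℝ} (hδ : 0 ≤ δ)
    (hm : 7 / 4 * δ ≤ (c.m64 : ℝ) / 64 * δ) (hx : (a : ℝ) / 640 + δ ≤ x) :
    up c.M ^ x ≤ exp (-(7 / 4 * δ)) * up (expUp (c.m64 * a / 640)) := by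
  have hx0 : 0 ≤ x := le_trans (by positivity) hx
  have h1 : up c.M ^ x ≤ exp (-((c.m64 : ℝ) / 64)) ^ x :=
    rpow_le_rpow (up_nonneg _) d.m64 hx0
  rw [← exp_mul] at h1
  refine h1.trans ?_
  have h2 : exp (-((c.m64 : ℝ) * a / 640 / 64)) ≤ up (expUp (c.m64 * a / 640)) := by
    refine exp_le_expUp ?_
    have := floor_div_le (c.m64 * a) 640
    push_cast at this
    linarith
  refine le_trans ?_ (mul_le_mul_of_nonneg_left h2 (exp_pos _).le)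
  rw [← exp_add]
  refine exp_le_exp.2 ?_
  have h3 : (c.m64 : ℝ) / 64 * ((a : ℝ) / 640 + δ) ≤ (c.m64 : ℝ) / 64 * x :=
    mul_le_mul_of_nonneg_left hx (by positivity)
  have h4 : (c.m64 : ℝ) * a / 640 / 64 = (c.m64 : ℝ) / 64 * ((a : ℝ) / 640) := by ring
  rw [h4]
  linarith

theorem exp6_le {p : ℕ} {P δ : ℝ} (hδ : 0 ≤ δ) (hP : (p : ℝ) / 640 + δ ≤ P) :
    exp (-(6 * P)) ≤ exp (-(7 / 4 * δ)) * up (expUp (384 * p / 640)) := by
  have h2 : exp (-(6 * ((p : ℝ) / 640))) ≤ up (expUp (384 * p / 640)) := by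
    refine exp_le_expUp ?_
    have := floor_div_le (384 * p) 640
    push_cast at this
    linarith
  refine le_trans ?_ (mul_le_mul_of_nonneg_left h2 (exp_pos _).le)
  rw [← exp_add]
  refine exp_le_exp.2 ?_
  linarith

theorem Gp_sound (d : Dat α c) {p : ℕ} {P δ : ℝ} (hδ : 0 ≤ δ)
    (hm : 7 / 4 * δ ≤ (c.m64 : ℝ) / 64 * δ) (hp : 1280 ≤ p) (hP : (p : ℝ) / 640 + δ ≤ P) :
    up c.M ^ (P - 2) * up c.g0 + exp (-(6 * P)) / P ≤ exp (-(7 / 4 * δ)) * up (Gp c p) := by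
  have hp' : (1280 : ℝ) ≤ p := by exact_mod_cast hp
  have h1 : up c.M ^ (P - 2) ≤ exp (-(7 / 4 * δ)) * up (expUp (c.m64 * (p - 1280) / 640)) := by
    refine Mpow_le d hδ hm ?_
    rw [Nat.cast_sub hp]
    push_cast
    linarith
  have h2 := exp6_le hδ hP
  have hP1 : 1 ≤ P := by linarith
  have h3 : exp (-(6 * P)) / P ≤ exp (-(6 * P)) := div_le_self (exp_pos _).le hP1
  have h4 := mul_le_mul_of_nonneg_right h1 (up_nonneg c.g0)
  have h5 := mUp_le (le_refl (up (expUp (c.m64 * (p - 1280) / 640)))) (le_refl (up c.g0))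
    (up_nonneg _)
  have h6 := mul_le_mul_of_nonneg_left h5 (exp_pos (-(7 / 4 * δ))).le
  unfold Gp
  rw [up_add, mul_add]
  linarith

theorem up_three (a : ℕ) : up (3 * a) = 3 * up a := by unfold up; push_cast; ring

theorem Gq_sound (d : Dat α c) {p : ℕ} {P δ : ℝ} (hδ : 0 ≤ δ)
    (hm : 7 / 4 * δ ≤ (c.m64 : ℝ) / 64 * δ) (hp : 2134 ≤ p) (hP : (p : ℝ) / 640 + δ ≤ P) :
    up c.bb * up c.M ^ (P - 10 / 3) * up c.g0 + exp (-(6 * P)) * (6 / P + 1 / P ^ 2) ≤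
      exp (-(7 / 4 * δ)) * up (Gq c p) := by
  have hp' : (2134 : ℝ) ≤ p := by exact_mod_cast hp
  have h1 : up c.M ^ (P - 10 / 3) ≤
      exp (-(7 / 4 * δ)) * up (expUp (c.m64 * (p - 2134) / 640)) := by
    refine Mpow_le d hδ hm ?_
    rw [Nat.cast_sub hp]
    push_cast
    linarith
  have h2 := exp6_le hδ hP
  have hP1 : 3 ≤ P := by linarith
  have h3 : 6 / P + 1 / P ^ 2 ≤ 3 := by
    have a1 : 6 / P ≤ 2 := by rw [div_le_iff₀ (by linarith)]; linarith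
    have a2 : 1 / P ^ 2 ≤ 1 := by
      rw [div_le_one (by positivity)]
      nlinarith
    linarith
  have h3' : exp (-(6 * P)) * (6 / P + 1 / P ^ 2) ≤ exp (-(6 * P)) * 3 :=
    mul_le_mul_of_nonneg_left h3 (exp_pos _).le
  have h5 := mUp_le (le_refl (up (expUp (c.m64 * (p - 2134) / 640)))) (le_refl (up c.g0))
    (up_nonneg _)
  have h5' := mUp_le (le_refl (up c.bb)) h5 (mul_nonneg (up_nonneg _) (up_nonneg _))
  have h6 := mul_le_mul_of_nonneg_left h5' (exp_pos (-(7 / 4 * δ))).le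
  have h7 : up c.bb * up c.M ^ (P - 10 / 3) * up c.g0 ≤ up c.bb *
      (exp (-(7 / 4 * δ)) * up (expUp (c.m64 * (p - 2134) / 640))) * up c.g0 :=
    mul_le_mul_of_nonneg_right (mul_le_mul_of_nonneg_left h1 (up_nonneg _)) (up_nonneg _)
  have h8 : up c.bb * (exp (-(7 / 4 * δ)) * up (expUp (c.m64 * (p - 2134) / 640))) * up c.g0 =
      exp (-(7 / 4 * δ)) * (up c.bb * (up (expUp (c.m64 * (p - 2134) / 640)) * up c.g0)) := by
    ring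
  unfold Gq
  rw [up_add, mul_add, up_three]
  linarith

theorem Mpos (d : Dat α c) : 0 < up c.M := by
  have h : (0 : ℝ) < c.M := by exact_mod_cast d.mpos
  unfold up
  positivity

/-- `∫_6^∞ ∏ |Φ|` -/
theorem Gp_int (d : Dat α c) {ι : Type*} [Fintype ι] {θ : ι → ℝ} (h0 : ∀ k, 0 ≤ θ k)
    (h1 : ∀ k, θ k ≤ 1) {p : ℕ} {δ : ℝ} (hδ : 0 ≤ δ) (hm : 7 / 4 * δ ≤ (c.m64 : ℝ) / 64 * δ)
    (hp : 1280 ≤ p) (hP : (p : ℝ) / 640 + δ ≤ ∑ k, θ k) :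
    IntegrableOn (fun t => ∏ k, |Phi α (θ k * t)|) (Ioi 6) ∧
    ∫ t in Ioi (6 : ℝ), ∏ k, |Phi α (θ k * t)| ≤ exp (-(7 / 4 * δ)) * up (Gp c p) := by
  have hp' : (1280 : ℝ) ≤ p := by exact_mod_cast hp
  obtain ⟨a, b⟩ := amgm_int d.lobe d.z6 (Mpos d) d.mm d.mle d.g1 d.g2 h0 h1 (by linarith)
  exact ⟨a, b.trans (Gp_sound d hδ hm hp hP)⟩

theorem Gq_int (d : Dat α c) {ι : Type*} [Fintype ι] {θ : ι → ℝ} (h0 : ∀ k, 0 ≤ θ k)
    (h1 : ∀ k, θ k ≤ 1) {p : ℕ} {δ : ℝ} (hδ : 0 ≤ δ) (hm : 7 / 4 * δ ≤ (c.m64 : ℝ) / 64 * δ)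
    (hp : 2134 ≤ p) (hP : (p : ℝ) / 640 + δ ≤ ∑ k, θ k) :
    IntegrableOn (fun t => t * ∏ k, |Phi α (θ k * t)|) (Ioi 6) ∧
    ∫ t in Ioi (6 : ℝ), t * ∏ k, |Phi α (θ k * t)| ≤ exp (-(7 / 4 * δ)) * up (Gq c p) := by
  have hp' : (2134 : ℝ) ≤ p := by exact_mod_cast hp
  obtain ⟨a, b⟩ := amgm_int_t d.lobe d.z6 (Mpos d) d.mm d.mle d.g1 d.g2 d.far.f4 h0 h1
    (by linarith)
  exact ⟨a, b.trans (Gq_sound d hδ hm hp hP)⟩

theorem opt0 {K : ℕ} {r : ℝ} {θ : Fin K → ℝ} (hc : Cfg r θ) {ρ : ℝ} (hρ : 0 ≤ ρ) :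
    ∀ k : Option (Fin K), 0 ≤ k.elim ρ θ
  | none => hρ
  | some k => hc.r0.trans (hc.lo k)

theorem opt1 {K : ℕ} {r : ℝ} {θ : Fin K → ℝ} (hc : Cfg r θ) {ρ : ℝ} (hρ : ρ ≤ 1) :
    ∀ k : Option (Fin K), k.elim ρ θ ≤ 1
  | none => hρ
  | some k => hc.hi k

theorem opt_sum {K : ℕ} (ρ : ℝ) (θ : Fin K → ℝ) :
    ∑ k : Option (Fin K), k.elim ρ θ = ρ + ∑ k, θ k := by
  rw [Fintype.sum_option]
  rfl

theorem Gp_opt (d : Dat α c) {K : ℕ} {r : ℝ} {θ : Fin K → ℝ} (hc : Cfg r θ) {ρ : ℝ} (h0 : 0 ≤ ρ)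
    (h1 : ρ ≤ 1) {p : ℕ} {δ : ℝ} (hδ : 0 ≤ δ) (hm : 7 / 4 * δ ≤ (c.m64 : ℝ) / 64 * δ)
    (hp : 1280 ≤ p) (hP : (p : ℝ) / 640 + δ ≤ ρ + ∑ k, θ k) :
    IntegrableOn (fun t => |Phi α (ρ * t)| * |Pt α θ t|) (Ioi 6) ∧
    ∫ t in Ioi (6 : ℝ), |Phi α (ρ * t)| * |Pt α θ t| ≤ exp (-(7 / 4 * δ)) * up (Gp c p) := by
  have h := Gp_int d (opt0 hc h0) (opt1 hc h1) hδ hm hp (by rw [opt_sum]; exact hP)
  simp only [prod_option] at h
  exact h

theorem Gq_opt (d : Dat α c) {K : ℕ} {r : ℝ} {θ : Fin K → ℝ} (hc : Cfg r θ) {ρ : ℝ} (h0 : 0 ≤ ρ)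
    (h1 : ρ ≤ 1) {p : ℕ} {δ : ℝ} (hδ : 0 ≤ δ) (hm : 7 / 4 * δ ≤ (c.m64 : ℝ) / 64 * δ)
    (hp : 2134 ≤ p) (hP : (p : ℝ) / 640 + δ ≤ ρ + ∑ k, θ k) :
    IntegrableOn (fun t => t * (|Phi α (ρ * t)| * |Pt α θ t|)) (Ioi 6) ∧
    ∫ t in Ioi (6 : ℝ), t * (|Phi α (ρ * t)| * |Pt α θ t|) ≤
      exp (-(7 / 4 * δ)) * up (Gq c p) := by
  have h := Gq_int d (opt0 hc h0) (opt1 hc h1) hδ hm hp (by rw [opt_sum]; exact hP)
  simp only [prod_option] at h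
  exact h

theorem Gp_P (d : Dat α c) {K : ℕ} {r : ℝ} {θ : Fin K → ℝ} (hc : Cfg r θ) {p : ℕ} {δ : ℝ}
    (hδ : 0 ≤ δ) (hm : 7 / 4 * δ ≤ (c.m64 : ℝ) / 64 * δ) (hp : 1280 ≤ p)
    (hP : (p : ℝ) / 640 + δ ≤ ∑ k, θ k) :
    IntegrableOn (fun t => |Pt α θ t|) (Ioi 6) ∧
    ∫ t in Ioi (6 : ℝ), |Pt α θ t| ≤ exp (-(7 / 4 * δ)) * up (Gp c p) := by
  have h := Gp_int d (fun k => hc.r0.trans (hc.lo k)) hc.hi hδ hm hp hP
  have e : ∀ t, |Pt α θ t| = ∏ k, |Phi α (θ k * t)| := fun t => by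
    rw [Pt, Finset.abs_prod]
  simp only [e]
  exact h

theorem up_optMin {x : ℝ} {b1 b2 : Bool} {a b : ℕ} (ha : b1 = true → x ≤ up a)
    (hb : b2 = true → x ≤ up b) (h : b1 = true ∨ b2 = true) : x ≤ up (optMin b1 b2 a b) := by
  cases b1 <;> cases b2
  · simp at h
  · exact hb rfl
  · exact ha rfl
  · exact up_nmin (ha rfl) (hb rfl)

/-- far part, at least four factors -/
theorem C6_sound (d : Dat α c) {K : ℕ} (hK : 4 ≤ K) {r : ℝ} {θ : Fin K → ℝ} (hc : Cfg r θ)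
    {N1 q1 r1 r2 : ℕ} (h1 : (r1 : ℝ) / 640 ≤ r) (h2 : r ≤ (r2 : ℝ) / 640) (hr2 : r2 < 640)
    (hN : (N1 : ℝ) / 640 ≤ 1 + r + ∑ k, θ k) (hq : (q1 : ℝ) / 640 ≤ ∑ k, θ k)
    (c1 : 1280 ≤ q1 ∨ 0 < r1) (c2 : 2134 ≤ nmax (N1 - r2) (640 + q1) ∨ 0 < r1)
    (c3 : 1920 ≤ N1) :
    |∫ t in Ioi (6 : ℝ), t * Wt α r t * Pt α θ t| ≤ (1 - r) * up (C6 c N1 q1 r1 r2) := by
  have hα := d.lobe.one_lt
  have c3' : (1920 : ℝ) ≤ N1 := by exact_mod_cast c3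
  have hs1 := hc.r1
  have hδ : (0 : ℝ) ≤ 0 := le_rfl
  have hm : 7 / 4 * (0 : ℝ) ≤ (c.m64 : ℝ) / 64 * 0 := by simp
  have hD : exp (-(7 / 4 * (0 : ℝ))) = 1 := by simp
  set e6 := nth c.E0 (3 * r1 / 32) with he6
  set f6 := nth c.E1 (3 * r1 / 32) with hf6
  set xr := qUp (nth c.XE (3 * r1 / 32)) 640 r1 with hxr
  set G := optMin (Nat.ble 1280 q1) (Nat.blt 0 r1) (Gp c q1) (mUp (pUp e6 2) (gT c r1)) with hG
  set p := nmax (N1 - r2) (640 + q1) with hp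
  have hE : ∀ s, 6 * r ≤ s → |Phi α s| ≤ up e6 := fun s hs => e6_sound d hc.r1 h1 hs
  have hr1n : r1 < 640 := nat_lt_640 h1 hc.r1
  have hE1 : ∀ t, 6 ≤ t → |Phi1 α (r * t)| ≤ up f6 := fun t ht =>
    d.e1 _ (idx6_le hr1n.le) _ ((idx6 h1).trans (by nlinarith [hc.r0]))
  -- integrability
  obtain ⟨i1, g1⟩ := Gp_opt d hc hc.r0 hc.r1.le hδ hm (p := N1 - 640) (by omega) (by
    rw [Nat.cast_sub (by omega)]; push_cast; linarith)
  obtain ⟨i2, -⟩ := Gp_opt d hc zero_le_one le_rfl hδ hm (p := 1280) le_rfl (by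
    push_cast; linarith)
  simp only [one_mul] at i2
  rw [hD, one_mul] at g1
  have hPint : IntegrableOn (fun t => |Pt α θ t|) (Ioi 6) ∧
      ∫ t in Ioi (6 : ℝ), |Pt α θ t| ≤ up G := by
    have hb1 : Nat.ble 1280 q1 = true → IntegrableOn (fun t => |Pt α θ t|) (Ioi 6) ∧
        ∫ t in Ioi (6 : ℝ), |Pt α θ t| ≤ up (Gp c q1) := by
      intro hb
      rw [Nat.ble_eq] at hb
      have := Gp_P d hc hδ hm hb (by linarith)
      rwa [hD, one_mul] at this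
    have hb2 : Nat.blt 0 r1 = true → IntegrableOn (fun t => |Pt α θ t|) (Ioi 6) ∧
        ∫ t in Ioi (6 : ℝ), |Pt α θ t| ≤ up (mUp (pUp e6 2) (gT c r1)) := by
      intro hb
      rw [Nat.blt_eq] at hb
      have hr1' : (0 : ℝ) < r1 := by exact_mod_cast hb
      have hr0 : 0 < r := lt_of_lt_of_le (by positivity) h1
      have he1 : up e6 ≤ 1 := by
        have := up_mono (d.e01 _ (idx6_le hr1n.le))
        refine this.trans ?_
        unfold up; norm_num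
      have hi01 : (⟨0, by omega⟩ : Fin K) ≠ ⟨1, by omega⟩ := by simp
      obtain ⟨ii, -⟩ := pair_int hα hc hi01 (up_nonneg e6) hE hr0 hr0 (hc.lo _) (hc.lo _)
      refine ⟨ii, ?_⟩
      have hb := pair_int' hα (by norm_num : 2 ≤ 4) hK hc hr0 (up_nonneg e6) he1 hE
      refine hb.trans (mUp_le (pUp_le (up_nonneg _) le_rfl _) ?_ ?_)
      · refine le_trans ?_ (gT_sound d (τ := (r1 : ℝ) / 640) (by omega) hr1n.le rfl)
        have hr1d : (0 : ℝ) < (r1 : ℝ) / 640 := by positivity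
        have hT : T2 α (6 * r) ≤ T2 α (6 * ((r1 : ℝ) / 640)) :=
          T2_anti hα (by positivity) (by linarith)
        exact div_le_div₀ (T2_nonneg _ _) hT hr1d h1
      · exact div_nonneg (T2_nonneg _ _) hr0.le
    have hor : Nat.ble 1280 q1 = true ∨ Nat.blt 0 r1 = true := by
      rw [Nat.ble_eq, Nat.blt_eq]; exact c1
    refine ⟨?_, up_optMin (fun h => (hb1 h).2) (fun h => (hb2 h).2) hor⟩
    rcases hor with h | h
    · exact (hb1 h).1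
    · exact (hb2 h).1
  obtain ⟨iP, gP⟩ := hPint
  have hP0 : 0 ≤ ∫ t in Ioi (6 : ℝ), |Pt α θ t| := integral_nonneg fun t => abs_nonneg _
  have g1' : ∫ t in Ioi (6 : ℝ), |Phi α (r * t)| * |Pt α θ t| ≤ up (mUp e6 G) := by
    obtain ⟨-, g⟩ := int_mul_le (f := fun t => Phi α (r * t)) (g := fun t => |Pt α θ t|)
      (Phi_scale_aesm hα hc.r0) (A := up e6) (fun t ht => hE _ (by nlinarith [hc.r0])) iP
      (fun t _ => abs_nonneg _)
    exact g.trans (mUp_le le_rfl gP hP0)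
  have G1 : ∫ t in Ioi (6 : ℝ), |Phi α (r * t)| * |Pt α θ t| ≤
      up (nmin (Gp c (N1 - 640)) (mUp e6 G)) := up_nmin g1 g1'
  have I1 : 0 ≤ ∫ t in Ioi (6 : ℝ), |Phi α (r * t)| * |Pt α θ t| :=
    integral_nonneg fun t => mul_nonneg (abs_nonneg _) (abs_nonneg _)
  have I2 : 0 ≤ ∫ t in Ioi (6 : ℝ), |Phi α t| * |Pt α θ t| :=
    integral_nonneg fun t => mul_nonneg (abs_nonneg _) (abs_nonneg _)
  have hA : |∫ t in Ioi (6 : ℝ), t * Wt α r t * Pt α θ t| ≤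
      up (mUp c.c1 (nmin (Gp c (N1 - 640)) (mUp e6 G)) +
        optMin (Nat.ble 2134 p) (Nat.blt 0 r1) (mUp f6 (Gq c p)) (mUp xr (mUp c.Mf G))) := by
    rw [up_add]
    have hfirst := mUp_le (le_refl (up c.c1)) G1 I1
    rcases le_total (|∫ t in Ioi (6 : ℝ), t * Wt α r t * Pt α θ t|)
      (up (mUp c.c1 (nmin (Gp c (N1 - 640)) (mUp e6 G)))) with hle | hle
    · have := up_nonneg (optMin (Nat.ble 2134 p) (Nat.blt 0 r1) (mUp f6 (Gq c p))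
        (mUp xr (mUp c.Mf G)))
      linarith
    rw [← sub_le_iff_le_add']
    refine up_optMin ?_ ?_ ?_
    · intro hb
      rw [Nat.ble_eq] at hb
      have hpP : (p : ℝ) / 640 + 0 ≤ 1 + ∑ k, θ k := by
        rw [hp, nmax_eq, add_zero]
        rcases max_choice (N1 - r2) (640 + q1) with h | h <;> rw [h]
        · rw [Nat.cast_sub (by omega)]
          linarith
        · push_cast; linarith
      obtain ⟨i3, g3⟩ := Gq_opt d hc zero_le_one le_rfl hδ hm hb hpP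
      simp only [one_mul] at i3 g3
      rw [hD, one_mul] at g3
      have h := farA' hα hc d.far.f1 hE1 i1 le_rfl i3 le_rfl
      have hI3 : 0 ≤ ∫ t in Ioi (6 : ℝ), t * (|Phi α t| * |Pt α θ t|) :=
        setIntegral_nonneg measurableSet_Ioi fun t ht =>
          mul_nonneg (by linarith [show (6 : ℝ) < t from ht])
            (mul_nonneg (abs_nonneg _) (abs_nonneg _))
      have h4 := mUp_le (le_refl (up f6)) g3 hI3
      linarith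
    · intro hb
      rw [Nat.blt_eq] at hb
      have h := farA hα hc d.far.f1 (fun t ht => xr_sound d hc.r1 h1 hb ht) i1 le_rfl i2 le_rfl
      obtain ⟨-, g2⟩ := int_mul_le (f := fun t => Phi α t) (g := fun t => |Pt α θ t|)
        (Phi_aesm hα) (A := up c.Mf) (fun t ht => d.mf t ht) iP (fun t _ => abs_nonneg _)
      have G2 : ∫ t in Ioi (6 : ℝ), |Phi α t| * |Pt α θ t| ≤ up (mUp c.Mf G) :=
        g2.trans (mUp_le le_rfl gP hP0)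
      have h4 := mUp_le (le_refl (up xr)) G2 I2
      linarith
    · rw [Nat.ble_eq, Nat.blt_eq]; exact c2
  have key : C6 c N1 q1 r1 r2 = qUp (mUp c.c1 (nmin (Gp c (N1 - 640)) (mUp e6 G)) +
        optMin (Nat.ble 2134 p) (Nat.blt 0 r1) (mUp f6 (Gq c p)) (mUp xr (mUp c.Mf G))) 640
        (640 - r2) := rfl
  rw [key]
  exact divide_sound hr2 h2 (abs_nonneg _) hA

end LpSec.LS
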