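import Mathlib
import Pool.Agent.Lib.MP_1dbab3_gt.LS.LeafU

/-!
# LS: soundness of the leaves, unbounded `N`
-/

open Real MeasureTheory Set Filter Topology

namespace LpSec.LS

variable {α : ℝ} {c : Crt}

theorem D_mul_le {D x y : ℝ} {a b : ℕ} (hD : 0 ≤ D) (hx : x ≤ up a)
    (hy : y ≤ D * up b) (hy0 : 0 ≤ y) : x * y ≤ D * up (mUp a b) := by
  have h1 := mUp_le (le_refl (up a)) (le_refl (up b)) (up_nonneg _)
  calc x * y ≤ up a * (D * up b) := mul_le_mul hx hy hy0 (up_nonneg _)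
    _ = D * (up a * up b) := by ring
    _ ≤ _ := mul_le_mul_of_nonneg_left h1 hD

/-- from `|∫| ≤ D * up m` to `(1 - r) * (D * up (qUp ..))` -/
theorem divide_sound' {r X D : ℝ} {r2 m : ℕ} (hr2 : r2 < 640) (h2 : r ≤ (r2 : ℝ) / 640)
    (hD : 0 ≤ D) (hX : X ≤ D * up m) : X ≤ (1 - r) * (D * up (qUp m 640 (640 - r2))) := by
  have h1 := divide_sound hr2 h2 (up_nonneg m) (le_refl (up m))
  calc X ≤ D * up m := hX
    _ ≤ D * ((1 - r) * up (qUp m 640 (640 - r2))) := mul_le_mul_of_nonneg_left h1 hD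
    _ = _ := by ring

theorem CN_sound (d : Dat α c) {K : ℕ} {r : ℝ} {θ : Fin K → ℝ} (hc : Cfg r θ)
    {Nb r1 r2 : ℕ} {δ : ℝ} (hδ : 0 ≤ δ) (hm : 116 ≤ c.m64) (hNb : 3200 ≤ Nb)
    (h1 : (r1 : ℝ) / 640 ≤ r) (h2 : r ≤ (r2 : ℝ) / 640) (hr2 : r2 ≤ 640)
    (hor : r2 < 640 ∨ 0 < r1) (hN : 1 + r + ∑ k, θ k = (Nb : ℝ) / 640 + δ) :
    |∫ t in Ioi (6 : ℝ), t * Wt α r t * Pt α θ t| ≤
      (1 - r) * (exp (-(7 / 4 * δ)) * up (CN c Nb r1 r2)) := by
  have hα := d.lobe.one_lt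
  have hs1 := hc.r1
  have hD := (exp_pos (-(7 / 4 * δ))).le
  have hm' : 7 / 4 * δ ≤ (c.m64 : ℝ) / 64 * δ := by
    have : (116 : ℝ) ≤ c.m64 := by exact_mod_cast hm
    exact mul_le_mul_of_nonneg_right (by linarith) hδ
  have hr1n : r1 < 640 := nat_lt_640 h1 hc.r1
  have hE1 : ∀ t, 6 ≤ t → |Phi1 α (r * t)| ≤ up (nth c.E1 (3 * r1 / 32)) := fun t ht =>
    d.e1 _ (idx6_le hr1n.le) _ ((idx6 h1).trans (by nlinarith [hc.r0]))
  have h1r : 0 ≤ 1 - r := by linarith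
  have hopt1 : Nat.blt r2 640 = true → |∫ t in Ioi (6 : ℝ), t * Wt α r t * Pt α θ t| ≤
      (1 - r) * (exp (-(7 / 4 * δ)) * up (qUp (mUp c.c1 (Gp c (Nb - 640)) +
        mUp (nth c.E1 (3 * r1 / 32)) (Gq c (Nb - r2))) 640 (640 - r2))) := by
    intro hb
    rw [Nat.blt_eq] at hb
    obtain ⟨i1, g1⟩ := Gp_opt d hc hc.r0 hc.r1.le hδ hm' (p := Nb - 640) (by omega) (by
      rw [Nat.cast_sub (by omega)]; push_cast; linarith)
    obtain ⟨i3, g3⟩ := Gq_opt d hc zero_le_one le_rfl hδ hm' (p := Nb - r2) (by omega) (by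
      rw [Nat.cast_sub (by omega)]; linarith)
    simp only [one_mul] at i3 g3
    have h := farA' hα hc d.far.f1 hE1 i1 le_rfl i3 le_rfl
    refine divide_sound' hb h2 hD ?_
    have I1 : 0 ≤ ∫ t in Ioi (6 : ℝ), |Phi α (r * t)| * |Pt α θ t| :=
      integral_nonneg fun t => mul_nonneg (abs_nonneg _) (abs_nonneg _)
    have I3 : 0 ≤ ∫ t in Ioi (6 : ℝ), t * (|Phi α t| * |Pt α θ t|) :=
      setIntegral_nonneg measurableSet_Ioi fun t ht =>
        mul_nonneg (by linarith [show (6 : ℝ) < t from ht])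
          (mul_nonneg (abs_nonneg _) (abs_nonneg _))
    have a1 := D_mul_le hD (le_refl (up c.c1)) g1 I1
    have a2 := D_mul_le hD (le_refl (up (nth c.E1 (3 * r1 / 32)))) g3 I3
    rw [up_add, mul_add]
    linarith
  have hopt2 : Nat.blt 0 r1 = true → |∫ t in Ioi (6 : ℝ), t * Wt α r t * Pt α θ t| ≤
      (1 - r) * (exp (-(7 / 4 * δ)) * up (mUp (qUp (mUp c.c1 c.c1 + mUp 1213200000 c.Mk) 409600
        (r1 * r1)) (Gp c (Nb - 640 - r2)))) := by
    intro hb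
    rw [Nat.blt_eq] at hb
    obtain ⟨iP, gP⟩ := Gp_P d hc hδ hm' (p := Nb - 640 - r2) (by omega) (by
      rw [Nat.cast_sub (by omega), Nat.cast_sub (by omega)]; push_cast; linarith)
    have h := farB hα hc (fun t ht => CB_sound d hc.r1 h1 hb ht) iP le_rfl
    refine h.trans (mul_le_mul_of_nonneg_left ?_ h1r)
    exact D_mul_le hD le_rfl gP (integral_nonneg fun t => abs_nonneg _)
  unfold CN optMin
  rcases hb1 : Nat.blt r2 640 with _ | _
  · rw [cond_false]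
    refine hopt2 ?_
    rw [Nat.blt_eq]
    rcases hor with h | h
    · exfalso
      have : Nat.blt r2 640 = true := by rw [Nat.blt_eq]; exact h
      rw [this] at hb1
      exact absurd hb1 (by decide)
    · exact h
  · rw [cond_true]
    rcases hb2 : Nat.blt 0 r1 with _ | _
    · rw [cond_false]; exact hopt1 hb1
    · rw [cond_true, nmin_eq]
      rcases min_choice (qUp (mUp c.c1 (Gp c (Nb - 640)) +
        mUp (nth c.E1 (3 * r1 / 32)) (Gq c (Nb - r2))) 640 (640 - r2))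
        (mUp (qUp (mUp c.c1 c.c1 + mUp 1213200000 c.Mk) 409600
        (r1 * r1)) (Gp c (Nb - 640 - r2))) with h | h <;> rw [h]
      · exact hopt1 hb1
      · exact hopt2 hb2

theorem Pg_neg {q1 j : ℕ} (h : Nat.blt j c.js = false) :
    Pg c q1 j = expUp (nmin (64 * j / 10) c.m64 * q1 / 640) := by
  unfold Pg
  rw [h, cond_false]

theorem Pg_pos {q1 j : ℕ} (h : Nat.blt j c.js = true) :
    Pg c q1 j = mUp (nth c.PM j) (expUp (nmin (64 * j / 10) c.m64 * (q1 - 640) / 640)) := by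
  unfold Pg
  rw [h, cond_true]

theorem Pg_sound (d : Dat α c) {K : ℕ} {r : ℝ} {θ : Fin K → ℝ} (hc : Cfg r θ)
    {q1 j : ℕ} {δ : ℝ} (hδ : 0 ≤ δ) (hm : 116 ≤ c.m64) (hj18 : 18 ≤ j) (hq6 : 640 ≤ q1)
    (hq : (q1 : ℝ) / 640 + δ ≤ ∑ k, θ k) (hj : j < 60) {t : ℝ}
    (ht1 : (j : ℝ) / 10 ≤ t) (ht2 : t ≤ ((j : ℝ) + 1) / 10) (hz : z1 α ≤ t) :
    |Pt α θ t| ≤ exp (-(7 / 4 * δ)) * up (Pg c q1 j) ∨
      (0 ≤ Wt α r t ∧ -(exp (-(7 / 4 * δ)) * up (Pg c q1 j)) ≤ Pt α θ t) := by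
  have hz0 := d.lobe.z1_pos
  have hj' : (j : ℝ) + 1 ≤ 60 := by exact_mod_cast hj
  have hj18' : (18 : ℝ) ≤ j := by exact_mod_cast hj18
  have hm' : (116 : ℝ) ≤ c.m64 := by exact_mod_cast hm
  have ht6 : t ≤ 6 := by linarith
  set y := nmin (64 * j / 10) c.m64 with hy
  set x : ℝ := (y : ℝ) / 64 with hx
  have hyj : (y : ℝ) / 64 ≤ (j : ℝ) / 10 := by
    have h1 : (y : ℝ) ≤ ((64 * j / 10 : ℕ) : ℝ) := by
      rw [hy, nmin_eq]; exact_mod_cast min_le_left _ _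
    have h2 := floor_div_le (64 * j) 10
    push_cast at h2
    linarith
  have hym : (y : ℝ) ≤ c.m64 := by
    rw [hy, nmin_eq]; exact_mod_cast min_le_right _ _
  have hy2 : 7 / 4 ≤ x := by
    have h1 : (7 / 4 : ℝ) * 64 ≤ y := by
      have h2 : 112 ≤ y := by rw [hy, nmin_eq]; exact le_min (by omega) (by omega)
      have h3 : (112 : ℝ) ≤ y := by exact_mod_cast h2
      linarith
    rw [hx]
    linarith
  have he1 : exp (-x) ≤ 1 := exp_le_one_iff.2 (by linarith)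
  have he : exp (-t) ≤ exp (-x) := exp_le_exp.2 (by linarith)
  have hMe : up c.M ≤ exp (-x) := by
    refine d.m64.trans (exp_le_exp.2 ?_)
    rw [hx]
    linarith
  -- `e ^ (s)` for `s ≥ a / 640 + δ`
  have hpow : ∀ (a : ℕ) (s : ℝ), (a : ℝ) / 640 + δ ≤ s →
      exp (-x) ^ s ≤ exp (-(7 / 4 * δ)) * up (expUp (y * a / 640)) := by
    intro a s hs
    rw [← exp_mul]
    have h2 : exp (-((y : ℝ) * a / 640 / 64)) ≤ up (expUp (y * a / 640)) := by
      refine exp_le_expUp ?_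
      have := floor_div_le (y * a) 640
      push_cast at this
      linarith
    refine le_trans ?_ (mul_le_mul_of_nonneg_left h2 (exp_pos _).le)
    rw [← exp_add]
    refine exp_le_exp.2 ?_
    have h3 : x * ((a : ℝ) / 640 + δ) ≤ x * s := mul_le_mul_of_nonneg_left hs (by linarith)
    have h4 : (y : ℝ) * a / 640 / 64 = x * ((a : ℝ) / 640) := by rw [hx]; ring
    have h5 : 7 / 4 * δ ≤ x * δ := mul_le_mul_of_nonneg_right hy2 hδ
    rw [h4]
    linarith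
  rcases hb : Nat.blt j c.js with _ | _
  · rw [Pg_neg hb]
    left
    have h := Pg_bound d.lobe hc hz (fun s h1 _ => d.mm s h1) hMe he he1
    exact h.trans (hpow q1 _ hq)
  · rw [Pg_pos hb]
    right
    have hjs : j < c.js := by rwa [Nat.blt_eq] at hb
    have hW : 0 ≤ Wt α r t := by
      refine d.sgn t hz ?_ r hc.r0 hc.r1.le
      have : (j : ℝ) + 1 ≤ c.js := by exact_mod_cast hjs
      refine ht2.trans ?_
      linarith
    refine ⟨hW, ?_⟩
    have hE0 := (exp_pos (-(7 / 4 * δ))).le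
    rcases le_or_gt 0 (Pt α θ t) with hP | hP
    · exact le_trans (neg_nonpos.2 (mul_nonneg hE0 (up_nonneg _))) hP
    · have hM' : ∀ s, z1 α ≤ s → s ≤ t → |Phi α s| ≤ min (up (nth c.PM j)) (up c.M) :=
        fun s h1 h2 => le_min (d.pm j hj s h1 (h2.trans ht2)) (d.mm s h1)
      have h := Pg_sign d.lobe hc hz ht6 hM' ((min_le_right _ _).trans hMe) he he1 hP
      have hq' : ((q1 - 640 : ℕ) : ℝ) / 640 + δ ≤ ∑ k, θ k - 1 := by
        rw [Nat.cast_sub hq6]; push_cast; linarith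
      have h2 := hpow (q1 - 640) _ hq'
      have h3 : min (up (nth c.PM j)) (up c.M) * exp (-x) ^ (∑ k, θ k - 1) ≤
          up (nth c.PM j) * exp (-x) ^ (∑ k, θ k - 1) :=
        mul_le_mul_of_nonneg_right (min_le_left _ _) (rpow_nonneg (exp_pos _).le _)
      have h4 := D_mul_le hE0 (le_refl (up (nth c.PM j))) h2
        (rpow_nonneg (exp_pos _).le _)
      rw [abs_of_neg hP] at h
      linarith

end LpSec.LS
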