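import Mathlib
import Pool.Agent.Lib.MP_1dbab3_gt.LS.LeafV

/-!
# LS: soundness of the leaves and of the tree
-/

open Real MeasureTheory Set Filter Topology

namespace LpSec.LS

variable {α : ℝ} {c : Crt}

/-- the table of the universal constants -/
def TOk (T : List (ℕ × ℕ × ℕ)) : Prop :=
  ∀ i : ℕ, nthT T i = (0, 0, 0) ∨ ∃ (m : ℕ) (ρ : ℝ), 0 ≤ ρ ∧ ρ ≤ 1 ∧
    (30 + (i : ℝ)) / 10 ≤ m + ρ ∧ up (nthT T i).1 ≤ cc 2 m ρ ∧ up (nthT T i).2.1 ≤ cc 3 m ρ ∧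
    up (nthT T i).2.2 ≤ cc 4 m ρ

theorem up_div (a q : ℕ) : up (a / q) ≤ (a : ℝ) / q / 1000000000 := by
  unfold up
  have := Nat.cast_div_le (m := a) (n := q) (α := ℝ)
  linarith

theorem Lb_sound {T : List (ℕ × ℕ × ℕ)} (hT : TOk T) (d : Dat α c) {K : ℕ} {r : ℝ}
    {θ : Fin K → ℝ} (hc : Cfg r θ) {N2 r1 X : ℕ} (h1 : (r1 : ℝ) / 640 ≤ r)
    (hN : 1 + r + ∑ k, θ k ≤ (N2 : ℝ) / 640) (hX : X < Lb T c N2 r1) :
    ∃ L : ℝ, up X < L ∧ (1 - r) * L ≤ ∫ t in (0 : ℝ)..(z1 α), t * Wt α r t * Pt α θ t := by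
  set i := (N2 + 63) / 64 - 30 with hi
  have hLb : Lb T c N2 r1 = c.k0 * (nthT T i).1 / 1000000000 +
    c.k1 * (640 + r1) * (nthT T i).2.1 / 1280000000000 +
    c.k0 * c.k0 * (409600 + 640 * r1 + r1 * r1) * (nthT T i).2.2 / 819200000000000000000000 :=
    rfl
  rcases hT i with h0 | ⟨m, ρ, hρ0, hρ1, hm, e1, e2, e3⟩
  · rw [hLb, h0] at hX
    simp at hX
  · have hNi : (N2 : ℝ) / 640 ≤ (30 + (i : ℝ)) / 10 := by
      have : N2 ≤ 64 * (30 + i) := by omega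
      have h2 : (N2 : ℝ) ≤ 64 * (30 + i) := by exact_mod_cast this
      linarith
    have hmain := main_lower d.lobe d.c4 hc hρ0 hρ1 (hN.trans (hNi.trans hm))
    refine ⟨_, ?_, hmain⟩
    have hlt : up X < up (Lb T c N2 r1) := by
      unfold up
      have : (X : ℝ) < Lb T c N2 r1 := by exact_mod_cast hX
      linarith
    refine hlt.trans_le ?_
    rw [hLb, up_add, up_add]
    have hk0 := d.k0
    have hk1 := d.k1
    have k0n := up_nonneg c.k0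
    have k1n := up_nonneg c.k1
    have hr0 : (0 : ℝ) ≤ (r1 : ℝ) / 640 := by positivity
    set A := (nthT T i).1 with hA
    set B := (nthT T i).2.1 with hB
    set C := (nthT T i).2.2 with hC
    have hr : 0 ≤ r := hc.r0
    refine add_le_add (add_le_add ?_ ?_) ?_
    · refine (up_div _ _).trans ?_
      calc ((c.k0 * A : ℕ) : ℝ) / (1000000000 : ℕ) / 1000000000 = up c.k0 * up A := by
            unfold up; push_cast; ring
        _ ≤ k0 α * cc 2 m ρ := mul_le_mul hk0 e1 (up_nonneg _) (k0n.trans hk0)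
    · refine (up_div _ _).trans ?_
      calc ((c.k1 * (640 + r1) * B : ℕ) : ℝ) / (1280000000000 : ℕ) / 1000000000 =
            up c.k1 * ((1 + (r1 : ℝ) / 640) / 2) * up B := by
            unfold up; push_cast; ring
        _ ≤ k1 α * ((1 + r) / 2) * cc 3 m ρ := by
            refine mul_le_mul (mul_le_mul hk1 (by linarith) (by positivity) (k1n.trans hk1)) e2
              (up_nonneg _) ?_
            exact mul_nonneg (k1n.trans hk1) (by linarith)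
    · refine (up_div _ _).trans ?_
      calc ((c.k0 * c.k0 * (409600 + 640 * r1 + r1 * r1) * C : ℕ) : ℝ) /
            (819200000000000000000000 : ℕ) / 1000000000 =
            up c.k0 ^ 2 / 2 * (1 + (r1 : ℝ) / 640 + ((r1 : ℝ) / 640) ^ 2) * up C := by
            unfold up; push_cast; ring
        _ ≤ k0 α ^ 2 / 2 * (1 + r + r ^ 2) * cc 4 m ρ := by
            have hsq : up c.k0 ^ 2 ≤ k0 α ^ 2 := pow_le_pow_left₀ k0n hk0 2
            have hrr : ((r1 : ℝ) / 640) ^ 2 ≤ r ^ 2 := pow_le_pow_left₀ hr0 h1 2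
            refine mul_le_mul (mul_le_mul (by linarith) (by linarith) (by positivity)
              (by positivity)) e3 (up_nonneg _) (by positivity)

/-- the conclusion from the integer inequality -/
theorem leaf_fin (d : Dat α c) {K : ℕ} {r : ℝ} {θ : Fin K → ℝ} (hc : Cfg r θ)
    (hN : 2 < 1 + r + ∑ k, θ k) {L : ℝ} {V P : ℕ → ℕ} {C : ℕ}
    (hmain : (1 - r) * L ≤ ∫ t in (0 : ℝ)..(z1 α), t * Wt α r t * Pt α θ t)
    (hV : ∀ j : ℕ, c.jz ≤ j → j < 60 → ∀ t : ℝ, (j : ℝ) / 10 ≤ t → t ≤ ((j : ℝ) + 1) / 10 →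
      z1 α ≤ t → t * |Wt α r t| ≤ (1 - r) * up (V j))
    (hP : ∀ j : ℕ, c.jz ≤ j → j < 60 → ∀ t : ℝ, (j : ℝ) / 10 ≤ t → t ≤ ((j : ℝ) + 1) / 10 →
      z1 α ≤ t → |Pt α θ t| ≤ up (P j) ∨ (0 ≤ Wt α r t ∧ -up (P j) ≤ Pt α θ t))
    (hC : |∫ t in Ioi (6 : ℝ), t * Wt α r t * Pt α θ t| ≤ (1 - r) * up C)
    (hL : up (Sm (fun j => mUp (V j) (P j)) c.jz (60 - c.jz) / 10 + 1 + C) < L) :
    0 < LI α r θ := by
  refine assemble d.lobe d.z6 hc hN hmain d.zlo d.jz60 (fun j => up_nonneg (V j))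
    (fun j => up_nonneg (P j)) hV hP hC ?_
  refine lt_of_le_of_lt ?_ hL
  rw [up_add]
  refine add_le_add ?_ le_rfl
  have h1 : ∑ j ∈ Finset.Ico c.jz 60, up (V j) * up (P j) ≤
      up (Sm (fun j => mUp (V j) (P j)) c.jz (60 - c.jz)) := by
    rw [up_Sm _ d.jz60]
    exact Finset.sum_le_sum fun j _ => mUp_le le_rfl le_rfl (up_nonneg _)
  have h2 := div_lt_add_one (Sm (fun j => mUp (V j) (P j)) c.jz (60 - c.jz)) 10 (by norm_num)
  have h3 : up (Sm (fun j => mUp (V j) (P j)) c.jz (60 - c.jz)) / 10 ≤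
      up (Sm (fun j => mUp (V j) (P j)) c.jz (60 - c.jz) / 10 + 1) := by
    unfold up
    push_cast at h2 ⊢
    linarith
  linarith

theorem q_ge {K : ℕ} {r : ℝ} {θ : Fin K → ℝ} (hc : Cfg r θ) {N1 r1 r2 K0 : ℕ} (hK : K0 ≤ K)
    (h1 : (r1 : ℝ) / 640 ≤ r) (h2 : r ≤ (r2 : ℝ) / 640)
    (hN : (N1 : ℝ) / 640 ≤ 1 + r + ∑ k, θ k) :
    ((nmax (N1 - 640 - r2) (K0 * r1) : ℕ) : ℝ) / 640 ≤ ∑ k, θ k := by
  have hsum : (K0 : ℝ) * r ≤ ∑ k, θ k := by
    have h3 : ∑ _k : Fin K, r ≤ ∑ k, θ k := Finset.sum_le_sum fun k _ => hc.lo k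
    rw [Finset.sum_const, Finset.card_univ, Fintype.card_fin, nsmul_eq_mul] at h3
    have h4 : (K0 : ℝ) ≤ K := by exact_mod_cast hK
    exact (mul_le_mul_of_nonneg_right h4 hc.r0).trans h3
  rw [nmax_eq]
  rcases max_choice (N1 - 640 - r2) (K0 * r1) with h | h <;> rw [h]
  · rcases Nat.lt_or_ge N1 (640 + r2) with h' | h'
    · rw [show N1 - 640 - r2 = 0 by omega]
      have : 0 ≤ ∑ k, θ k := Finset.sum_nonneg fun k _ => hc.r0.trans (hc.lo k)
      simpa using this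
    · rw [show N1 - 640 - r2 = N1 - (640 + r2) by omega, Nat.cast_sub h']
      push_cast
      linarith
  · push_cast
    have : (K0 : ℝ) * r1 / 640 = K0 * (r1 / 640) := by ring
    rw [this]
    exact (mul_le_mul_of_nonneg_left h1 (Nat.cast_nonneg _)).trans hsum

theorem sum_lo {K : ℕ} {r : ℝ} {θ : Fin K → ℝ} (hc : Cfg r θ) {K0 : ℕ} (hK : K0 ≤ K) :
    (K0 : ℝ) * r ≤ ∑ k, θ k := by
  have h3 : ∑ _k : Fin K, r ≤ ∑ k, θ k := Finset.sum_le_sum fun k _ => hc.lo k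
  rw [Finset.sum_const, Finset.card_univ, Fintype.card_fin, nsmul_eq_mul] at h3
  have h4 : (K0 : ℝ) ≤ K := by exact_mod_cast hK
  exact (mul_le_mul_of_nonneg_right h4 hc.r0).trans h3

theorem sum_hi {K : ℕ} {r : ℝ} {θ : Fin K → ℝ} (hc : Cfg r θ) : ∑ k, θ k ≤ K := by
  have h3 : ∑ k, θ k ≤ ∑ _k : Fin K, (1 : ℝ) := Finset.sum_le_sum fun k _ => hc.hi k
  simpa using h3

theorem leaf4_sound {T : List (ℕ × ℕ × ℕ)} (hT : TOk T) (d : Dat α c) {r : ℝ} {θ : Fin 2 → ℝ}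
    (hc : Cfg r θ) {N1 N2 r1 r2 : ℕ} (h1 : (r1 : ℝ) / 640 ≤ r) (h2 : r ≤ (r2 : ℝ) / 640)
    (hN1 : (N1 : ℝ) / 640 ≤ 1 + r + ∑ k, θ k) (hN2 : 1 + r + ∑ k, θ k ≤ (N2 : ℝ) / 640)
    (h : leaf4 T c N1 N2 r1 r2 = true) : 0 < LI α r θ := by
  unfold leaf4 at h
  rw [Bool.or_eq_true, Bool.or_eq_true, Bool.and_eq_true, Bool.and_eq_true, Nat.blt_eq,
    Nat.blt_eq, Nat.ble_eq, Nat.blt_eq, Nat.blt_eq] at h
  have hlo := sum_lo hc (le_refl 2)
  have hhi := sum_hi hc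
  push_cast at hlo hhi
  rcases h with h | h | ⟨h5, h6, h7⟩
  · exfalso
    have h' : (N2 : ℝ) < 640 + 3 * r1 := by exact_mod_cast h
    linarith
  · exfalso
    have h'' : r2 + 1920 < N1 := by omega
    have h' : (r2 : ℝ) + 1920 < N1 := by exact_mod_cast h''
    linarith
  · have h5' : (320 : ℝ) ≤ r1 := by exact_mod_cast h5
    have h6' : (1280 : ℝ) < N1 := by exact_mod_cast h6
    have hq := q_ge hc (le_refl 2) h1 h2 hN1
    set q1 := nmax (N1 - 640 - r2) (2 * r1) with hq1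
    set tm := nmax r1 (q1 - 640) with htm
    obtain ⟨L, hL, hmain⟩ := Lb_sound hT d hc h1 hN2 h7
    have hτ : ∀ k, (tm : ℝ) / 640 ≤ θ k := by
      intro k
      refine le_trans ?_ (two_lo hc k)
      rw [htm, nmax_eq]
      rcases max_choice r1 (q1 - 640) with h | h <;> rw [h]
      · exact h1.trans (le_max_left _ _)
      · rcases le_total 640 q1 with h' | h'
        · refine le_trans ?_ (le_max_right _ _)
          rw [Nat.cast_sub h']
          push_cast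
          linarith
        · rw [Nat.sub_eq_zero_of_le h']
          refine le_trans ?_ (le_max_left _ _)
          simpa using hc.r0
    refine leaf_fin d hc (by linarith) hmain ?_ ?_ ?_ hL
    · intro j _ hj t ht1 ht2 hz
      exact Vb_sound d hc.r1 h1 h2 hj ht1 ht2 hz
    · intro j _ hj t ht1 ht2 hz
      exact P4_sound d hc (by linarith) hq hτ hj ht1 ht2 hz
    · exact Cp_sound d le_rfl hc (by omega) h1 h2 hq

theorem leaf5_sound {T : List (ℕ × ℕ × ℕ)} (hT : TOk T) (d : Dat α c) {r : ℝ} {θ : Fin 3 → ℝ}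
    (hc : Cfg r θ) {N1 N2 r1 r2 : ℕ} (h1 : (r1 : ℝ) / 640 ≤ r) (h2 : r ≤ (r2 : ℝ) / 640)
    (hN1 : (N1 : ℝ) / 640 ≤ 1 + r + ∑ k, θ k) (hN2 : 1 + r + ∑ k, θ k ≤ (N2 : ℝ) / 640)
    (h : leaf5 T c N1 N2 r1 r2 = true) : 0 < LI α r θ := by
  unfold leaf5 at h
  rw [Bool.or_eq_true, Bool.or_eq_true, Bool.and_eq_true, Bool.and_eq_true, Nat.blt_eq,
    Nat.blt_eq, Nat.ble_eq, Nat.blt_eq, Nat.blt_eq] at h
  have hlo := sum_lo hc (le_refl 3)
  have hhi := sum_hi hc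
  push_cast at hlo hhi
  rcases h with h | h | ⟨h5, h6, h7⟩
  · exfalso
    have h' : (N2 : ℝ) < 640 + 4 * r1 := by exact_mod_cast h
    linarith
  · exfalso
    have h'' : r2 + 2560 < N1 := by omega
    have h' : (r2 : ℝ) + 2560 < N1 := by exact_mod_cast h''
    linarith
  · have h6' : (1280 : ℝ) < N1 := by exact_mod_cast h6
    have hq := q_ge hc (le_refl 3) h1 h2 hN1
    set q1 := nmax (N1 - 640 - r2) (3 * r1) with hq1
    have hqK : q1 ≤ 640 * (3 + 1) := by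
      have h8 : (q1 : ℝ) ≤ 1920 := by
        have := hq.trans hhi
        rw [div_le_iff₀ (by norm_num)] at this
        linarith
      have h9 : q1 ≤ 1920 := by exact_mod_cast h8
      omega
    obtain ⟨L, hL, hmain⟩ := Lb_sound hT d hc h1 hN2 h7
    refine leaf_fin d hc (by linarith) hmain ?_ ?_ ?_ hL
    · intro j _ hj t ht1 ht2 hz
      exact Vb_sound d hc.r1 h1 h2 hj ht1 ht2 hz
    · intro j _ hj t ht1 ht2 hz
      exact Pa_sound d le_rfl hc h1 hq hqK hj ht1 ht2 hz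
    · exact Cp_sound d (by norm_num) hc (by omega) h1 h2 hq

theorem leaf6_sound {T : List (ℕ × ℕ × ℕ)} (hT : TOk T) (d : Dat α c) {K : ℕ} (hK : 4 ≤ K)
    {r : ℝ} {θ : Fin K → ℝ}
    (hc : Cfg r θ) {N1 N2 r1 r2 : ℕ} (h1 : (r1 : ℝ) / 640 ≤ r) (h2 : r ≤ (r2 : ℝ) / 640)
    (hN1 : (N1 : ℝ) / 640 ≤ 1 + r + ∑ k, θ k) (hN2 : 1 + r + ∑ k, θ k ≤ (N2 : ℝ) / 640)
    (h : leaf6 T c N1 N2 r1 r2 = true) : 0 < LI α r θ := by
  unfold leaf6 at h
  rw [Bool.or_eq_true, Bool.and_eq_true, Bool.and_eq_true, Bool.and_eq_true, Bool.and_eq_true,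
    Bool.and_eq_true, Bool.or_eq_true, Bool.or_eq_true, Nat.blt_eq, Nat.blt_eq, Nat.ble_eq,
    Nat.ble_eq, Nat.blt_eq, Nat.ble_eq, Nat.ble_eq, Nat.blt_eq] at h
  have hlo := sum_lo hc hK
  push_cast at hlo
  rcases h with h | ⟨⟨h3, h4⟩, h5, h6, h7, h8⟩
  · exfalso
    have h' : (N2 : ℝ) < 640 + 5 * r1 := by exact_mod_cast h
    linarith
  · have h7' : (1920 : ℝ) ≤ N1 := by exact_mod_cast h7
    have hq := q_ge hc hK h1 h2 hN1
    set q1 := nmax (N1 - 640 - r2) (4 * r1) with hq1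
    have hr1n : r1 < 640 := nat_lt_640 h1 hc.r1
    have hqK : q1 ≤ 640 * (4 + 1) := by
      rw [hq1, nmax_eq]
      exact max_le (by omega) (by omega)
    obtain ⟨L, hL, hmain⟩ := Lb_sound hT d hc h1 hN2 h8
    refine leaf_fin d hc (by linarith) hmain ?_ ?_ ?_ hL
    · intro j _ hj t ht1 ht2 hz
      exact Vb_sound d hc.r1 h1 h2 hj ht1 ht2 hz
    · intro j _ hj t ht1 ht2 hz
      exact Pa_sound d hK hc h1 hq hqK hj ht1 ht2 hz
    · exact C6_sound d hK hc h1 h2 h3 hN1 hq h5 h6 h7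

/-- `e^(-7/4 δ) / ((Nb+1)(Nb+2)(Nb+3)) ≤ 1 / ((N+1)(N+2)(N+3))` -/
theorem cube_le {B δ : ℝ} (hB : 5 ≤ B) (hδ : 0 ≤ δ) :
    exp (-(7 / 4 * δ)) * (1 / ((B + 1) * (B + 2) * (B + 3))) ≤
      1 / ((B + δ + 1) * (B + δ + 2) * (B + δ + 3)) := by
  rw [exp_neg, mul_one_div, inv_eq_one_div, div_div, div_le_div_iff₀ (by positivity)
    (by positivity), one_mul, one_mul]
  have h : ∀ x : ℝ, 5 ≤ x → x + δ ≤ x * exp (7 / 12 * δ) := by
    intro x hx
    have h1 := Real.add_one_le_exp (7 / 12 * δ)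
    have h2 := mul_le_mul_of_nonneg_left h1 (by linarith : (0 : ℝ) ≤ x)
    nlinarith
  have a1 := h (B + 1) (by linarith)
  have a2 := h (B + 2) (by linarith)
  have a3 := h (B + 3) (by linarith)
  have e : exp (7 / 4 * δ) = exp (7 / 12 * δ) * exp (7 / 12 * δ) * exp (7 / 12 * δ) := by
    rw [← exp_add, ← exp_add]; congr 1; ring
  calc (B + δ + 1) * (B + δ + 2) * (B + δ + 3) =
        (B + 1 + δ) * (B + 2 + δ) * (B + 3 + δ) := by ring
    _ ≤ ((B + 1) * exp (7 / 12 * δ)) * ((B + 2) * exp (7 / 12 * δ)) *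
        ((B + 3) * exp (7 / 12 * δ)) := by
        refine mul_le_mul (mul_le_mul a1 a2 (by linarith) ?_) a3 (by linarith) ?_
        · exact mul_nonneg (by linarith) (exp_pos _).le
        · exact mul_nonneg (mul_nonneg (by linarith) (exp_pos _).le)
            (mul_nonneg (by linarith) (exp_pos _).le)
    _ = _ := by rw [e]; ring

theorem leafN_sound (d : Dat α c) {K : ℕ} {r : ℝ} {θ : Fin K → ℝ}
    (hc : Cfg r θ) {Nb r1 r2 : ℕ} (h1 : (r1 : ℝ) / 640 ≤ r) (h2 : r ≤ (r2 : ℝ) / 640)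
    (hNb : (Nb : ℝ) / 640 ≤ 1 + r + ∑ k, θ k)
    (h : leafN c Nb r1 r2 = true) : 0 < LI α r θ := by
  unfold leafN at h
  rw [Bool.and_eq_true, Bool.and_eq_true, Bool.and_eq_true, Bool.and_eq_true, Bool.and_eq_true,
    Bool.or_eq_true, Nat.blt_eq, Nat.blt_eq, Nat.ble_eq, Nat.ble_eq, Nat.ble_eq, Nat.ble_eq,
    Nat.blt_eq] at h
  obtain ⟨hor, hNb3, hr2, hjz, hm, hlt⟩ := h
  obtain ⟨δ, hδ0⟩ : ∃ δ : ℝ, 1 + r + ∑ k, θ k = (Nb : ℝ) / 640 + δ :=
    ⟨1 + r + ∑ k, θ k - (Nb : ℝ) / 640, by ring⟩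
  have hδ : 0 ≤ δ := by linarith
  have hNb3' : (3200 : ℝ) ≤ Nb := by exact_mod_cast hNb3
  have hr2' : (r2 : ℝ) ≤ 640 := by exact_mod_cast hr2
  have hD := (exp_pos (-(7 / 4 * δ))).le
  have hmain := main_lower' d.lobe d.c4 hc (N := (Nb : ℝ) / 640 + δ) hδ0.symm
  have hq : ((Nb - 640 - r2 : ℕ) : ℝ) / 640 + δ ≤ ∑ k, θ k := by
    rw [Nat.cast_sub (by omega), Nat.cast_sub (by omega)]
    push_cast
    linarith
  set q1 := Nb - 640 - r2 with hq1
  refine assemble d.lobe d.z6 hc (by linarith) hmain d.zlo d.jz60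
    (V := fun j => up (Vb c r1 r2 j)) (P := fun j => exp (-(7 / 4 * δ)) * up (Pg c q1 j))
    (C := exp (-(7 / 4 * δ)) * up (CN c Nb r1 r2))
    (fun j => up_nonneg _) (fun j => mul_nonneg hD (up_nonneg _)) ?_ ?_ ?_ ?_
  · intro j _ hj t ht1 ht2 hz
    exact Vb_sound d hc.r1 h1 h2 hj ht1 ht2 hz
  · intro j hj0 hj t ht1 ht2 hz
    exact Pg_sound d hc hδ hm (hjz.trans hj0) (by omega) hq hj ht1 ht2 hz
  · exact CN_sound d hc hδ hm hNb3 h1 h2 hr2 hor hδ0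
  · set S := Sm (fun j => mUp (Vb c r1 r2 j) (Pg c q1 j)) c.jz (60 - c.jz) with hS
    have hsum : ∑ j ∈ Finset.Ico c.jz 60, up (Vb c r1 r2 j) * (exp (-(7 / 4 * δ)) *
        up (Pg c q1 j)) ≤ exp (-(7 / 4 * δ)) * up S := by
      rw [hS, up_Sm _ d.jz60, Finset.mul_sum]
      refine Finset.sum_le_sum fun j _ => ?_
      have := mUp_le (le_refl (up (Vb c r1 r2 j))) (le_refl (up (Pg c q1 j))) (up_nonneg _)
      calc up (Vb c r1 r2 j) * (exp (-(7 / 4 * δ)) * up (Pg c q1 j)) =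
            exp (-(7 / 4 * δ)) * (up (Vb c r1 r2 j) * up (Pg c q1 j)) := by ring
        _ ≤ _ := mul_le_mul_of_nonneg_left this hD
    have h2' := div_lt_add_one S 10 (by norm_num)
    have h3 : up S / 10 ≤ up (S / 10 + 1) := by
      unfold up
      push_cast at h2' ⊢
      linarith
    have hk0 := d.k0
    -- the integer inequality
    have hint : ((S / 10 + 1 + CN c Nb r1 r2 : ℕ) : ℝ) * (((Nb : ℝ) + 640) * (Nb + 1280) *
        (Nb + 1920)) < 2 * c.k0 * 262144000 := by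
      have : (((S / 10 + 1 + CN c Nb r1 r2) * ((Nb + 640) * (Nb + 1280) * (Nb + 1920)) : ℕ) : ℝ) <
          ((2 * c.k0 * 262144000 : ℕ) : ℝ) := by exact_mod_cast hlt
      push_cast at this ⊢
      exact this
    have hB : (5 : ℝ) ≤ (Nb : ℝ) / 640 := by linarith
    have hcube := cube_le hB hδ
    set B := (Nb : ℝ) / 640 with hBdef
    have hlt2 : up (S / 10 + 1) + up (CN c Nb r1 r2) <
        2 * up c.k0 * (1 / ((B + 1) * (B + 2) * (B + 3))) := by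
      rw [← up_add, mul_one_div, lt_div_iff₀ (by positivity)]
      have e1 : (B + 1) * (B + 2) * (B + 3) =
          ((Nb : ℝ) + 640) * (Nb + 1280) * (Nb + 1920) / 262144000 := by
        rw [hBdef]; ring
      rw [e1]
      unfold up
      have h262 : (0 : ℝ) < 262144000 := by norm_num
      calc ((S / 10 + 1 + CN c Nb r1 r2 : ℕ) : ℝ) / 1000000000 *
            (((Nb : ℝ) + 640) * (Nb + 1280) * (Nb + 1920) / 262144000) =
            ((S / 10 + 1 + CN c Nb r1 r2 : ℕ) : ℝ) * (((Nb : ℝ) + 640) * (Nb + 1280) *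
              (Nb + 1920)) / 262144000 / 1000000000 := by ring
        _ < 2 * c.k0 * 262144000 / 262144000 / 1000000000 := by gcongr
        _ = _ := by ring
    have hfac : 0 < exp (-(7 / 4 * δ)) := exp_pos _
    calc (∑ j ∈ Finset.Ico c.jz 60, up (Vb c r1 r2 j) * (exp (-(7 / 4 * δ)) *
          up (Pg c q1 j))) / 10 + exp (-(7 / 4 * δ)) * up (CN c Nb r1 r2) ≤
          exp (-(7 / 4 * δ)) * (up (S / 10 + 1) + up (CN c Nb r1 r2)) := by
          have h4 := mul_le_mul_of_nonneg_left h3 hD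
          linarith
      _ < exp (-(7 / 4 * δ)) * (2 * up c.k0 * (1 / ((B + 1) * (B + 2) * (B + 3)))) :=
          mul_lt_mul_of_pos_left hlt2 hfac
      _ = 2 * up c.k0 * (exp (-(7 / 4 * δ)) * (1 / ((B + 1) * (B + 2) * (B + 3)))) := by ring
      _ ≤ 2 * k0 α * (1 / ((B + δ + 1) * (B + δ + 2) * (B + δ + 3))) := by
          refine mul_le_mul (by linarith) hcube (by positivity) ?_
          have := up_nonneg c.k0
          linarith
      _ = _ := by ring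

theorem chk_sound {f : ℕ → ℕ → ℕ → ℕ → Bool} {P : ℝ → ℝ → Prop}
    (hf : ∀ N1 N2 r1 r2, f N1 N2 r1 r2 = true → ∀ N r : ℝ, (N1 : ℝ) / 640 ≤ N →
      N ≤ (N2 : ℝ) / 640 → (r1 : ℝ) / 640 ≤ r → r ≤ (r2 : ℝ) / 640 → P N r) :
    ∀ (t : Tr) (N1 N2 r1 r2 : ℕ), chk f t N1 N2 r1 r2 = true → ∀ N r : ℝ,
      (N1 : ℝ) / 640 ≤ N → N ≤ (N2 : ℝ) / 640 → (r1 : ℝ) / 640 ≤ r → r ≤ (r2 : ℝ) / 640 → P N r
  | Tr.L, N1, N2, r1, r2, h => hf N1 N2 r1 r2 h
  | Tr.N a b, N1, N2, r1, r2, h => by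
    intro N r h1 h2 h3 h4
    unfold chk at h
    rw [Bool.and_eq_true] at h
    rcases le_total N (((N1 + N2) / 2 : ℕ) / 640) with h' | h'
    · exact chk_sound hf a _ _ _ _ h.1 N r h1 h' h3 h4
    · exact chk_sound hf b _ _ _ _ h.2 N r h' h2 h3 h4
  | Tr.R a b, N1, N2, r1, r2, h => by
    intro N r h1 h2 h3 h4
    unfold chk at h
    rw [Bool.and_eq_true] at h
    rcases le_total r (((r1 + r2) / 2 : ℕ) / 640) with h' | h'
    · exact chk_sound hf a _ _ _ _ h.1 N r h1 h2 h3 h'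
    · exact chk_sound hf b _ _ _ _ h.2 N r h1 h2 h' h4

end LpSec.LS
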