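import Mathlib
import Pool.Agent.Lib.MP_1dbab3_gt.LS.LeafW
import Pool.Agent.Lib.MP_1dbab3_gt.W.LSConst

/-!
# LS: the table of the universal constants
-/

open Real MeasureTheory Set Filter Topology

namespace LpSec.LS

/-- `cc 2`, `cc 3`, `cc 4` at `m + ρ = (30 + i) / 10`, scale `10^9` -/
def ccT : List (ℕ × ℕ × ℕ) := [
  (37463060, 24187649, 18932934), (35106472, 22349917, 17293292), (32870584, 20619706, 15759453),
  (30750073, 18991781, 14325862), (28739822, 17461130, 12987212), (26834919, 16022951, 11738435),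
  (25030640, 14672648, 10574692), (23322453, 13405820, 9491366), (21706001, 12218256, 8484050),
  (20177105, 11105928, 7548540), (18731750, 10064982, 6680828), (17747237, 9413830, 6180131),
  (16805579, 8795581, 5707726), (15905146, 8208833, 5262296), (15044362, 7652237, 4842581),
  (14221706, 7124494, 4447367), (13435708, 6624355, 4075492), (12684951, 6150617, 3725841),
  (11968065, 5702123, 3397342), (11283729, 5277761, 3088971), (10630666, 4876460, 2799743),
  (10152248, 4602705, 2615494), (9691876, 4341078, 2440468), (9248948, 4091122, 2274283),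
  (8822881, 3852395, 2116569), (8413109, 3624468, 1966970)]

def ccOk (i : ℕ) : Bool :=
  Bool.and (W.lsChk ((29 + i) / 10) 2 (2 * (30 + i) - 20 * ((29 + i) / 10)) (nthT ccT i).1)
    (Bool.and (W.lsChk ((29 + i) / 10) 3 (2 * (30 + i) - 20 * ((29 + i) / 10)) (nthT ccT i).2.1)
      (W.lsChk ((29 + i) / 10) 4 (2 * (30 + i) - 20 * ((29 + i) / 10)) (nthT ccT i).2.2))

def ccAll : ℕ → Bool
  | 0 => true
  | n + 1 => Bool.and (ccOk n) (ccAll n)

theorem ccAll_ok : ccAll 26 = true := by decide +kernel

theorem ccAll_sound : ∀ {n : ℕ}, ccAll n = true → ∀ j < n, ccOk j = true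
  | 0, _, j, hj => absurd hj (Nat.not_lt_zero j)
  | n + 1, h, j, hj => by
    unfold ccAll at h
    rw [Bool.and_eq_true] at h
    rcases Nat.lt_or_ge j n with h' | h'
    · exact ccAll_sound h.2 j h'
    · rw [show j = n by omega]; exact h.1

theorem nthT_ge : ∀ (l : List (ℕ × ℕ × ℕ)) (i : ℕ), l.length ≤ i → nthT l i = (0, 0, 0)
  | [], _, _ => rfl
  | _ :: _, 0, h => absurd h (Nat.not_succ_le_zero _)
  | _ :: l, i + 1, h => nthT_ge l i (Nat.le_of_succ_le_succ h)

theorem ccT_ok : TOk ccT := by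
  intro i
  rcases Nat.lt_or_ge i 26 with hi | hi
  · right
    have h := ccAll_sound ccAll_ok i hi
    unfold ccOk at h
    rw [Bool.and_eq_true, Bool.and_eq_true] at h
    obtain ⟨h1, h2, h3⟩ := h
    set m := (29 + i) / 10 with hm
    have hdiv : 10 * m ≤ 29 + i ∧ 29 + i < 10 * m + 10 := by omega
    have hsub : 20 * m ≤ 2 * (30 + i) := by omega
    set R := 2 * (30 + i) - 20 * m with hR
    have hRr : (R : ℝ) = 2 * (30 + i) - 20 * m := by
      rw [hR, Nat.cast_sub hsub]; push_cast; ring
    have hd1 : (10 : ℝ) * m ≤ 29 + i := by exact_mod_cast hdiv.1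
    have hd2 : (29 : ℝ) + i + 1 ≤ 10 * m + 10 := by exact_mod_cast hdiv.2
    refine ⟨m, (R : ℝ) / 20, by positivity, ?_, ?_, W.lsc h1 rfl, W.lsc h2 rfl, W.lsc h3 rfl⟩
    · rw [div_le_one (by norm_num), hRr]
      linarith
    · rw [hRr]
      linarith
  · left
    exact nthT_ge ccT i (by rw [show ccT.length = 26 from rfl]; exact hi)

end LpSec.LS
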