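import Mathlib
import Pool.Agent.Lib.MP_1dbab3_gt.LS.LeafW
import Pool.Agent.Lib.MP_1dbab3_gt.W.Key4
import Pool.Agent.Lib.MP_1dbab3_gt.W.TabDef

/-!
# LS: the certificate is correct for a table of bounds
-/

open Real MeasureTheory Set Filter Topology

namespace LpSec.LS

variable {α : ℝ} {c : Crt}

def ngN : ℤ → ℕ
  | Int.ofNat _ => 0
  | Int.negSucc n => n + 1

def psN : ℤ → ℕ
  | Int.ofNat n => n
  | Int.negSucc _ => 0

theorem ngN_le (z : ℤ) : -((ngN z : ℕ) : ℝ) ≤ z := by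
  cases z with
  | ofNat n => simp [ngN]
  | negSucc n => simp [ngN, Int.negSucc_eq]

theorem le_psN (z : ℤ) : (z : ℝ) ≤ ((psN z : ℕ) : ℝ) := by
  cases z with
  | ofNat n => simp [psN]
  | negSucc n =>
    simp only [psN, Int.negSucc_eq]
    push_cast
    have : (0 : ℝ) ≤ n := Nat.cast_nonneg n
    linarith

theorem ngN_zero {z : ℤ} (h : ngN z = 0) : (0 : ℝ) ≤ z := by
  have := ngN_le z
  rw [h] at this
  simpa using this

theorem psN_pos {z : ℤ} (h : 0 < psN z) : (0 : ℝ) < z := by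
  cases z with
  | ofNat n =>
    simp only [psN] at h
    simpa using h
  | negSucc n => simp [psN] at h

theorem ngN_pos {z : ℤ} (h : 0 < ngN z) : (z : ℝ) < 0 := by
  cases z with
  | ofNat n => simp [ngN] at h
  | negSucc n =>
    simp only [Int.negSucc_eq]
    push_cast
    have : (0 : ℝ) ≤ n := Nat.cast_nonneg n
    linarith

/-- bound of the modulus, scale `10^9` -/
def abN (l u : ℤ) : ℕ := nmax (ngN l) (psN u) * 1000

theorem abs_le_abN {l u : ℤ} {x : ℝ} (h1 : (l : ℝ) ≤ 1000000 * x) (h2 : 1000000 * x ≤ (u : ℝ)) :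
    |x| ≤ up (abN l u) := by
  have a1 := ngN_le l
  have a2 := le_psN u
  have b1 : ((ngN l : ℕ) : ℝ) ≤ ((nmax (ngN l) (psN u) : ℕ) : ℝ) := by
    exact_mod_cast le_nmax_left _ _
  have b2 : ((psN u : ℕ) : ℝ) ≤ ((nmax (ngN l) (psN u) : ℕ) : ℝ) := by
    exact_mod_cast le_nmax_right _ _
  unfold up abN
  push_cast
  rw [abs_le]
  constructor <;> linarith

/-- `p j` for all `j < n` -/
def allB (p : ℕ → Bool) : ℕ → Bool
  | 0 => true
  | n + 1 => Bool.and (p n) (allB p n)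

theorem allB_sound {p : ℕ → Bool} : ∀ {n : ℕ}, allB p n = true → ∀ j < n, p j = true
  | 0, _, j, hj => absurd hj (Nat.not_lt_zero j)
  | n + 1, h, j, hj => by
    unfold allB at h
    rw [Bool.and_eq_true] at h
    rcases Nat.lt_or_ge j n with h' | h'
    · exact allB_sound h.2 j h'
    · rw [show j = n by omega]; exact h.1

/-- `f` is antitone on `[0, n]` -/
def antB (f : ℕ → ℕ) (n : ℕ) : Bool := allB (fun j => Nat.ble (f (j + 1)) (f j)) n

theorem antB_sound {f : ℕ → ℕ} {n : ℕ} (h : antB f n = true) {i j : ℕ} (hij : i ≤ j)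
    (hj : j ≤ n) : f j ≤ f i := by
  induction j with
  | zero => rw [Nat.le_zero.1 hij]
  | succ j ih =>
    rcases Nat.lt_or_ge i (j + 1) with h' | h'
    · have h1 := allB_sound h j (by omega)
      rw [Nat.ble_eq] at h1
      exact h1.trans (ih (by omega) (by omega))
    · rw [show i = j + 1 by omega]

theorem piece_ex {s : ℝ} {j m : ℕ} (hjm : j < m) (h1 : (j : ℝ) / 10 ≤ s)
    (h2 : s ≤ (m : ℝ) / 10) : ∃ i : ℕ, j ≤ i ∧ i < m ∧ (i : ℝ) / 10 ≤ s ∧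
      s ≤ ((i : ℝ) + 1) / 10 := by
  have hj0 : (0 : ℝ) ≤ j := Nat.cast_nonneg j
  have hs : 0 ≤ 10 * s := by linarith
  have hf1 := Nat.floor_le hs
  have hf2 := Nat.lt_floor_add_one (10 * s)
  have hfj : j ≤ ⌊10 * s⌋₊ := Nat.le_floor (by linarith)
  rcases Nat.lt_or_ge ⌊10 * s⌋₊ m with h | h
  · exact ⟨⌊10 * s⌋₊, hfj, h, by linarith, by linarith⟩
  · obtain ⟨n, rfl⟩ : ∃ n, m = n + 1 := ⟨m - 1, by omega⟩
    have hn : ((n + 1 : ℕ) : ℝ) ≤ 10 * s := by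
      refine le_trans ?_ hf1
      exact_mod_cast h
    push_cast at hn h2
    exact ⟨n, by omega, by omega, by linarith, by linarith⟩

/-- the bounds of the table -/
def TabAll (T : W.Tab) (α : ℝ) : Prop :=
  ∀ j : ℕ, j < 60 → ∀ s : ℝ, (j : ℝ) / 10 ≤ s → s ≤ ((j : ℝ) + 1) / 10 → W.TabB T j α s

/-- lower bound of a product -/
def lowMul (a1 a2 b1 b2 : ℤ) : ℤ := min (min (a1 * b1) (a1 * b2)) (min (a2 * b1) (a2 * b2))

theorem lowMul_le {a1 a2 b1 b2 : ℤ} {x y : ℝ} (h1 : (a1 : ℝ) ≤ x) (h2 : x ≤ (a2 : ℝ))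
    (h3 : (b1 : ℝ) ≤ y) (h4 : y ≤ (b2 : ℝ)) : ((lowMul a1 a2 b1 b2 : ℤ) : ℝ) ≤ x * y := by
  have m1 : ((lowMul a1 a2 b1 b2 : ℤ) : ℝ) ≤ (a1 : ℝ) * b1 := by
    have : lowMul a1 a2 b1 b2 ≤ a1 * b1 := (min_le_left _ _).trans (min_le_left _ _)
    exact_mod_cast this
  have m2 : ((lowMul a1 a2 b1 b2 : ℤ) : ℝ) ≤ (a1 : ℝ) * b2 := by
    have : lowMul a1 a2 b1 b2 ≤ a1 * b2 := (min_le_left _ _).trans (min_le_right _ _)
    exact_mod_cast this
  have m3 : ((lowMul a1 a2 b1 b2 : ℤ) : ℝ) ≤ (a2 : ℝ) * b1 := by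
    have : lowMul a1 a2 b1 b2 ≤ a2 * b1 := (min_le_right _ _).trans (min_le_left _ _)
    exact_mod_cast this
  have m4 : ((lowMul a1 a2 b1 b2 : ℤ) : ℝ) ≤ (a2 : ℝ) * b2 := by
    have : lowMul a1 a2 b1 b2 ≤ a2 * b2 := (min_le_right _ _).trans (min_le_right _ _)
    exact_mod_cast this
  rcases le_total 0 x with hx | hx
  · have k1 : x * b1 ≤ x * y := mul_le_mul_of_nonneg_left h3 hx
    refine le_trans ?_ k1
    rcases le_total 0 (b1 : ℝ) with hb | hb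
    · exact m1.trans (mul_le_mul_of_nonneg_right h1 hb)
    · exact m3.trans (mul_le_mul_of_nonpos_right h2 hb)
  · have k1 : x * b2 ≤ x * y := mul_le_mul_of_nonpos_left h4 hx
    refine le_trans ?_ k1
    rcases le_total 0 (b2 : ℝ) with hb | hb
    · exact m2.trans (mul_le_mul_of_nonneg_right h1 hb)
    · exact m4.trans (mul_le_mul_of_nonpos_right h2 hb)

/-- nonnegative integer? -/
def nnZ : ℤ → Bool
  | Int.ofNat _ => true
  | Int.negSucc _ => false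

theorem nnZ_sound {z : ℤ} (h : nnZ z = true) : (0 : ℝ) ≤ z := by
  cases z with
  | ofNat n => simp
  | negSucc n => simp [nnZ] at h

/-- sign of `Phi1 t Phi1 x - Phi t Phi2 x` for `t` in the piece `j`, `x` in the piece `i` -/
def sgB (T : W.Tab) (j i : ℕ) : Bool :=
  nnZ (lowMul (T.l1.getD j 0) (T.u1.getD j 0) (T.l1.getD i 0) (T.u1.getD i 0) +
    lowMul (Int.ofNat (ngN (T.u0.getD j 0))) (Int.ofNat (ngN (T.l0.getD j 0)))
      (T.l2.getD i 0) (T.u2.getD i 0))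

def ckE0 (T : W.Tab) (c : Crt) : Bool :=
  Bool.and (allB (fun j => Nat.ble (nmin (abN (T.l0.getD j 0) (T.u0.getD j 0))
      1000000000) (nth c.E0 j)) 60)
    (Bool.and (antB (nth c.E0) 60) (Bool.and (Nat.ble (nth c.E0 0) 1000000000)
      (Nat.ble c.Mf (nth c.E0 60))))

def ckE1 (T : W.Tab) (c : Crt) : Bool :=
  Bool.and (allB (fun j => Bool.and (Nat.ble (abN (T.l1.getD j 0) (T.u1.getD j 0))
      (nth c.A1 j)) (Nat.ble (nth c.A1 j) (nth c.E1 j))) 60)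
    (Bool.and (antB (nth c.E1) 60) (Nat.ble c.c1 (6 * nth c.E1 60)))

def ckE2 (T : W.Tab) (c : Crt) : Bool :=
  Bool.and (allB (fun j => Nat.ble (abN (T.l2.getD j 0) (T.u2.getD j 0)) (nth c.E2 j)) 60)
    (Bool.and (antB (nth c.E2) 60) (Nat.ble 33700000 (nth c.E2 60)))

def ckXE (c : Crt) : Bool :=
  Bool.and (allB (fun j => Nat.ble (nth c.A1 j * (j + 1)) (10 * nth c.XE j)) 60)
    (Bool.and (antB (nth c.XE) 60) (Nat.ble c.c1 (nth c.XE 60)))

def ckBP (T : W.Tab) (c : Crt) : Bool :=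
  Bool.and (allB (fun j => Bool.and (Nat.ble (nmin (ngN (T.l0.getD j 0) * 1000)
      132400000) (nth c.B0 j)) (Nat.ble (nth c.B0 j) (nth c.PM j))) 60)
    (allB (fun j => Nat.ble (nth c.PM j) (nth c.PM (j + 1))) 59)

def ckM (c : Crt) : Bool :=
  Bool.and (Nat.ble (nth c.PM 59) c.M) (Bool.and (Nat.ble c.Mf c.M)
    (Bool.and (Nat.ble c.M 132500000) (Bool.and (Nat.blt 0 c.M) (expOk c.M c.m64))))

def ckT2 (T : W.Tab) (c : Crt) (t6 : ℕ) : Bool :=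
  Bool.and (Nat.ble t6 (nth c.T2 60)) (allB (fun j => Nat.ble (nth c.T2 (j + 1) +
      (abN (T.l0.getD j 0) (T.u0.getD j 0) * abN (T.l0.getD j 0) (T.u0.getD j 0) / 10000000000 +
        1)) (nth c.T2 j)) 60)

def ckF (c : Crt) (dd : ℕ) : Bool :=
  Bool.and (Nat.ble (121173610 * dd ^ 3) (216 * c.Mk ^ 4))
    (Bool.and (Nat.ble (14776336 * dd * 10000000000000000000) (6 * c.c1 ^ 4))
    (Bool.and (Nat.ble (216 * c.Mk ^ 4) (c.bb ^ 3 * 1000000000))
    (Bool.and (Nat.blt 0 c.Mk) (Bool.and (Nat.blt 0 c.c1) (Nat.blt 0 c.bb)))))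

def ckMf (c : Crt) (t6 : ℕ) : Bool :=
  Bool.or (Nat.ble 132400000 c.Mf) (Bool.or (Nat.ble c.Mk c.Mf)
    (Nat.ble (c.c1 * t6 * 1000000000) (2 * c.Mf ^ 3)))

def ckg (c : Crt) (t6 : ℕ) : Bool :=
  Bool.and (Nat.ble t6 c.g0)
    (Nat.ble (42 * t6 * 1000000000 + 60 * c.M ^ 2) (72 * c.g0 * 1000000000))

def ckz (T : W.Tab) (c : Crt) : Bool :=
  Bool.and (Nat.ble 1 c.jz) (Bool.and (Nat.ble c.jz 60)
    (Bool.and (Nat.blt 0 (psN (T.l0.getD (c.jz - 1) 0)))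
    (Bool.or (Nat.beq c.jh 60)
      (Bool.and (Nat.blt c.jh 60) (Nat.blt 0 (ngN (T.u0.getD c.jh 0)))))))

def cks (T : W.Tab) (c : Crt) : Bool :=
  Bool.and (Nat.ble c.js 60) (allB (fun j => Bool.and
      (Nat.beq (ngN (T.l1.getD j 0)) 0) (Nat.beq (ngN (T.l2.getD j 0)) 0)) c.js)

def ck5 (T : W.Tab) (c : Crt) : Bool :=
  Bool.and (Nat.ble c.j5 60) (allB (fun k => allB (fun m => sgB T (c.js + k)
      ((c.js + k) / 2 + m)) (c.js + k + 1 - (c.js + k) / 2)) (c.j5 - c.js))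

def datChk (T : W.Tab) (c : Crt) (t6 dd : ℕ) : Bool :=
  Bool.and (ckE0 T c) (Bool.and (ckE1 T c) (Bool.and (ckE2 T c) (Bool.and (ckXE c)
  (Bool.and (ckBP T c) (Bool.and (ckM c) (Bool.and (ckT2 T c t6) (Bool.and (ckF c dd)
  (Bool.and (ckMf c t6) (Bool.and (ckg c t6) (Bool.and (ckz T c) (Bool.and (cks T c)
  (ck5 T c))))))))))))

end LpSec.LS
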