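import Mathlib
import Pool.Agent.Lib.MP_1dbab3_gt.LS.DatC

/-!
# LS: soundness of the check of a certificate
-/

open Real MeasureTheory Set Filter Topology

namespace LpSec.LS

variable {α : ℝ} {c : Crt}

/-- suffix bounds -/
theorem suf_bound {f : ℝ → ℝ} {E : ℕ → ℕ} {B : ℝ} (hA : ∀ j : ℕ, j < 60 → ∀ s : ℝ,
    (j : ℝ) / 10 ≤ s → s ≤ ((j : ℝ) + 1) / 10 → f s ≤ up (E j))
    (hE : ∀ i j, i ≤ j → j ≤ 60 → E j ≤ E i) (hB : ∀ s, 6 ≤ s → f s ≤ B) (hBE : B ≤ up (E 60))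
    (j : ℕ) (hj : j ≤ 60) (s : ℝ) (hs : (j : ℝ) / 10 ≤ s) : f s ≤ up (E j) := by
  rcases le_total 6 s with h6 | h6
  · exact (hB s h6).trans (hBE.trans (up_mono (hE j 60 hj le_rfl)))
  · rcases Nat.lt_or_ge j 60 with h | h
    · obtain ⟨i, h1, h2, h3, h4⟩ := piece_ex (m := 60) h hs (by norm_num; exact h6)
      exact (hA i h2 s h3 h4).trans (up_mono (hE j i h1 h2.le))
    · have hj60 : j = 60 := le_antisymm hj h
      subst hj60
      have : s = 6 := le_antisymm h6 (by norm_num at hs; exact hs)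
      exact (hB s (by rw [this])).trans hBE

theorem piece_nonneg {j : ℕ} {s : ℝ} (h : (j : ℝ) / 10 ≤ s) : 0 ≤ s :=
  le_trans (by positivity) h

theorem f_mf (h4 : Lobe4 α) {t6 : ℕ} (ht6 : T2 α 6 ≤ up t6) (z6 : z1 α ≤ 6)
    (far : FarC α (up c.Mk) (up c.c1) (up c.bb)) (h : ckMf c t6 = true) :
    ∀ s : ℝ, 6 ≤ s → |Phi α s| ≤ up c.Mf := by
  intro s hs
  unfold ckMf at h
  rw [Bool.or_eq_true, Bool.or_eq_true, Nat.ble_eq, Nat.ble_eq, Nat.ble_eq] at h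
  rcases h with h | h | h
  · refine (abs_le_1324 h4.toLobe (z6.trans hs)).trans ?_
    refine le_trans (le_of_eq ?_) (up_mono h)
    unfold up; norm_num
  · exact (far.f0 s hs).trans (up_mono h)
  · have hL : 0 < up c.c1 / 6 := div_pos far.pc (by norm_num)
    refine cubic h4.toLobe.one_lt hL (fun s hs => ?_) ?_ (up_nonneg _) hs
    · rw [le_div_iff₀ (by norm_num)]
      refine le_trans ?_ (far.f1 s hs)
      rw [mul_comm]
      exact mul_le_mul_of_nonneg_right hs (abs_nonneg _)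
    · have h' : (c.c1 : ℝ) * t6 * 1000000000 ≤ 2 * (c.Mf : ℝ) ^ 3 := by exact_mod_cast h
      have h1 : 3 * (up c.c1 / 6) * T2 α 6 ≤ 3 * (up c.c1 / 6) * up t6 :=
        mul_le_mul_of_nonneg_left ht6 (by linarith)
      refine h1.trans ?_
      unfold up
      have e1 : 3 * ((c.c1 : ℝ) / 1000000000 / 6) * ((t6 : ℝ) / 1000000000) =
          (c.c1 : ℝ) * t6 * 1000000000 / 2 / 1000000000000000000000000000 := by ring
      have e2 : ((c.Mf : ℝ) / 1000000000) ^ 3 =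
          (c.Mf : ℝ) ^ 3 / 1000000000000000000000000000 := by ring
      rw [e1, e2]
      gcongr
      linarith

theorem f_far (hα : 1 < α) {dd : ℕ} (hdd : (DD α)⁻¹ ≤ up dd) (h : ckF c dd = true) :
    FarC α (up c.Mk) (up c.c1) (up c.bb) := by
  unfold ckF at h
  rw [Bool.and_eq_true, Bool.and_eq_true, Bool.and_eq_true, Bool.and_eq_true, Bool.and_eq_true,
    Nat.ble_eq, Nat.ble_eq, Nat.ble_eq, Nat.blt_eq, Nat.blt_eq, Nat.blt_eq] at h
  obtain ⟨h1, h2, h3, h4, h5, h6⟩ := h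
  have p : ∀ {a : ℕ}, 0 < a → 0 < up a := fun {a} ha => by
    have : (0 : ℝ) < a := by exact_mod_cast ha
    unfold up; positivity
  have h1' : (121173610 : ℝ) * (dd : ℝ) ^ 3 ≤ 216 * (c.Mk : ℝ) ^ 4 := by exact_mod_cast h1
  have h2' : (14776336 : ℝ) * dd * 10000000000000000000 ≤ 6 * (c.c1 : ℝ) ^ 4 := by
    exact_mod_cast h2
  have h3' : 216 * (c.Mk : ℝ) ^ 4 ≤ (c.bb : ℝ) ^ 3 * 1000000000 := by exact_mod_cast h3
  refine farC hα hdd (p h4) (p h5) (p h6) ?_ ?_ ?_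
  · unfold up
    have e1 : (0.59 : ℝ) ^ 4 * ((dd : ℝ) / 1000000000) ^ 3 =
        121173610 * (dd : ℝ) ^ 3 / 1000000000000000000000000000000000000 := by ring
    have e2 : ((c.Mk : ℝ) / 1000000000) ^ 4 * 6 ^ 3 =
        216 * (c.Mk : ℝ) ^ 4 / 1000000000000000000000000000000000000 := by ring
    rw [e1, e2]
    gcongr
  · unfold up
    have e1 : (0.62 : ℝ) ^ 4 * ((dd : ℝ) / 1000000000) =
        14776336 * dd * 10000000000000000000 / 1000000000000000000000000000000000000 := by ring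
    have e2 : ((c.c1 : ℝ) / 1000000000) ^ 4 * 6 =
        6 * (c.c1 : ℝ) ^ 4 / 1000000000000000000000000000000000000 := by ring
    rw [e1, e2]
    gcongr
  · unfold up
    have e1 : ((c.Mk : ℝ) / 1000000000) ^ 4 * 216 =
        216 * (c.Mk : ℝ) ^ 4 / 1000000000000000000000000000000000000 := by ring
    have e2 : ((c.bb : ℝ) / 1000000000) ^ 3 =
        (c.bb : ℝ) ^ 3 * 1000000000 / 1000000000000000000000000000000000000 := by ring
    rw [e1, e2]
    gcongr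

theorem f_z (h4 : Lobe4 α) (z6 : z1 α ≤ 6) {T : W.Tab} (hT : TabAll T α) (h : ckz T c = true) :
    (c.jz : ℝ) / 10 ≤ z1 α ∧ z1 α ≤ (c.jh : ℝ) / 10 ∧ c.jz ≤ 60 := by
  unfold ckz at h
  rw [Bool.and_eq_true, Bool.and_eq_true, Bool.and_eq_true, Bool.or_eq_true, Bool.and_eq_true,
    Nat.ble_eq, Nat.ble_eq, Nat.blt_eq, Nat.beq_eq, Nat.blt_eq, Nat.blt_eq] at h
  obtain ⟨h1, h2, h3, h56⟩ := h
  have hjz : (c.jz : ℝ) ≤ 60 := by exact_mod_cast h2
  have hc1 : ((c.jz - 1 : ℕ) : ℝ) = c.jz - 1 := by rw [Nat.cast_sub h1]; norm_num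
  have a1 : (c.jz : ℝ) / 10 ≤ z1 α := by
    have b := hT (c.jz - 1) (by omega) ((c.jz : ℝ) / 10) (by rw [hc1]; linarith)
      (by rw [hc1]; linarith)
    have b1 := psN_pos h3
    refine (lt_z1_of h4.toLobe (by linarith) ?_).le
    have := b.l0
    linarith
  have a2 : z1 α ≤ (c.jh : ℝ) / 10 := by
    rcases h56 with h | ⟨h5, h6⟩
    · rw [h]; norm_num; exact z6
    · have b := hT c.jh h5 ((c.jh : ℝ) / 10) le_rfl (by linarith)
      have b1 := ngN_pos h6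
      refine (z1_lt_of h4.toLobe (by positivity) ?_).le
      have := b.u0
      linarith
  exact ⟨a1, a2, h2⟩

theorem f_e0 (hα : 1 < α) {T : W.Tab} (hT : TabAll T α)
    (mf : ∀ s : ℝ, 6 ≤ s → |Phi α s| ≤ up c.Mf) (h : ckE0 T c = true) :
    (∀ j : ℕ, j ≤ 60 → ∀ s : ℝ, (j : ℝ) / 10 ≤ s → |Phi α s| ≤ up (nth c.E0 j)) ∧
    (∀ j : ℕ, j ≤ 60 → nth c.E0 j ≤ 1000000000) := by
  unfold ckE0 at h
  rw [Bool.and_eq_true, Bool.and_eq_true, Bool.and_eq_true, Nat.ble_eq, Nat.ble_eq] at h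
  obtain ⟨h1, h2, h3, h4⟩ := h
  have hE : ∀ i j, i ≤ j → j ≤ 60 → nth c.E0 j ≤ nth c.E0 i := fun i j hij hj =>
    antB_sound h2 hij hj
  refine ⟨suf_bound (E := nth c.E0) (fun j hj s s1 s2 => ?_) hE mf (up_mono h4),
    fun j hj => (hE 0 j (Nat.zero_le _) hj).trans h3⟩
  have b := hT j hj s s1 s2
  have h5 := allB_sound h1 j hj
  rw [Nat.ble_eq] at h5
  refine (up_nmin (abs_le_abN b.l0 b.u0) ?_).trans (up_mono h5)
  refine (Phi_abs_le_one hα (piece_nonneg s1)).trans (le_of_eq ?_)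
  unfold up; norm_num

theorem f_e1 {T : W.Tab} (hT : TabAll T α)
    (far : FarC α (up c.Mk) (up c.c1) (up c.bb)) (h : ckE1 T c = true) :
    (∀ j : ℕ, j ≤ 60 → ∀ s : ℝ, (j : ℝ) / 10 ≤ s → |Phi1 α s| ≤ up (nth c.E1 j)) ∧
    (∀ j : ℕ, j < 60 → ∀ s : ℝ, (j : ℝ) / 10 ≤ s → s ≤ ((j : ℝ) + 1) / 10 →
      |Phi1 α s| ≤ up (nth c.A1 j)) := by
  unfold ckE1 at h
  rw [Bool.and_eq_true, Bool.and_eq_true, Nat.ble_eq] at h
  obtain ⟨h1, h2, h3⟩ := h
  have hE : ∀ i j, i ≤ j → j ≤ 60 → nth c.E1 j ≤ nth c.E1 i := fun i j hij hj =>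
    antB_sound h2 hij hj
  have hA : ∀ j : ℕ, j < 60 → ∀ s : ℝ, (j : ℝ) / 10 ≤ s → s ≤ ((j : ℝ) + 1) / 10 →
      |Phi1 α s| ≤ up (nth c.A1 j) := by
    intro j hj s s1 s2
    have b := hT j hj s s1 s2
    have h5 := allB_sound h1 j hj
    rw [Bool.and_eq_true, Nat.ble_eq, Nat.ble_eq] at h5
    exact (abs_le_abN b.l1 b.u1).trans (up_mono h5.1)
  refine ⟨suf_bound (E := nth c.E1) (B := up c.c1 / 6) (fun j hj s s1 s2 => ?_) hE
    (fun s hs => ?_) ?_, hA⟩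
  · have h5 := allB_sound h1 j hj
    rw [Bool.and_eq_true, Nat.ble_eq, Nat.ble_eq] at h5
    exact (hA j hj s s1 s2).trans (up_mono h5.2)
  · rw [le_div_iff₀ (by norm_num)]
    refine le_trans ?_ (far.f1 s hs)
    rw [mul_comm]
    exact mul_le_mul_of_nonneg_right hs (abs_nonneg _)
  · have h6 : (c.c1 : ℝ) ≤ 6 * (nth c.E1 60 : ℕ) := by exact_mod_cast h3
    unfold up
    linarith

theorem f_e2 {T : W.Tab} (hT : TabAll T α)
    (far : FarC α (up c.Mk) (up c.c1) (up c.bb)) (h : ckE2 T c = true) :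
    ∀ j : ℕ, j ≤ 60 → ∀ s : ℝ, (j : ℝ) / 10 ≤ s → |Phi2 α s| ≤ up (nth c.E2 j) := by
  unfold ckE2 at h
  rw [Bool.and_eq_true, Bool.and_eq_true, Nat.ble_eq] at h
  obtain ⟨h1, h2, h3⟩ := h
  have hE : ∀ i j, i ≤ j → j ≤ 60 → nth c.E2 j ≤ nth c.E2 i := fun i j hij hj =>
    antB_sound h2 hij hj
  refine suf_bound (E := nth c.E2) (B := 0.0337) (fun j hj s s1 s2 => ?_) hE far.f2 ?_
  · have b := hT j hj s s1 s2
    have h5 := allB_sound h1 j hj
    rw [Nat.ble_eq] at h5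
    exact (abs_le_abN b.l2 b.u2).trans (up_mono h5)
  · refine le_trans (le_of_eq ?_) (up_mono h3)
    unfold up; norm_num

theorem f_xe (far : FarC α (up c.Mk) (up c.c1) (up c.bb))
    (hA : ∀ j : ℕ, j < 60 → ∀ s : ℝ, (j : ℝ) / 10 ≤ s → s ≤ ((j : ℝ) + 1) / 10 →
      |Phi1 α s| ≤ up (nth c.A1 j)) (h : ckXE c = true) :
    ∀ j : ℕ, j ≤ 60 → ∀ s : ℝ, (j : ℝ) / 10 ≤ s → s * |Phi1 α s| ≤ up (nth c.XE j) := by
  unfold ckXE at h
  rw [Bool.and_eq_true, Bool.and_eq_true, Nat.ble_eq] at h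
  obtain ⟨h1, h2, h3⟩ := h
  have hE : ∀ i j, i ≤ j → j ≤ 60 → nth c.XE j ≤ nth c.XE i := fun i j hij hj =>
    antB_sound h2 hij hj
  refine suf_bound (E := nth c.XE) (f := fun s => s * |Phi1 α s|) (fun j hj s s1 s2 => ?_) hE
    far.f1 (up_mono h3)
  have h5 := allB_sound h1 j hj
  rw [Nat.ble_eq] at h5
  have h6 : ((nth c.A1 j : ℕ) : ℝ) * (j + 1) ≤ 10 * (nth c.XE j : ℕ) := by exact_mod_cast h5
  have h7 := hA j hj s s1 s2
  have h8 : s * |Phi1 α s| ≤ ((j : ℝ) + 1) / 10 * up (nth c.A1 j) :=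
    mul_le_mul s2 h7 (abs_nonneg _) (by positivity)
  refine h8.trans ?_
  unfold up
  linarith

theorem f_bp (h4 : Lobe4 α) {T : W.Tab} (hT : TabAll T α) (h : ckBP T c = true) :
    (∀ j : ℕ, j < 60 → ∀ s : ℝ, (j : ℝ) / 10 ≤ s → s ≤ ((j : ℝ) + 1) / 10 → z1 α ≤ s →
      |Phi α s| ≤ up (nth c.B0 j)) ∧
    (∀ j : ℕ, j < 60 → ∀ s : ℝ, z1 α ≤ s → s ≤ ((j : ℝ) + 1) / 10 →
      |Phi α s| ≤ up (nth c.PM j)) := by
  unfold ckBP at h
  rw [Bool.and_eq_true] at h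
  obtain ⟨h1, h2⟩ := h
  have hL := h4.toLobe
  have hB : ∀ j : ℕ, j < 60 → ∀ s : ℝ, (j : ℝ) / 10 ≤ s → s ≤ ((j : ℝ) + 1) / 10 → z1 α ≤ s →
      |Phi α s| ≤ up (nth c.B0 j) := by
    intro j hj s s1 s2 hz
    have b := hT j hj s s1 s2
    have hj' : (j : ℝ) + 1 ≤ 60 := by exact_mod_cast hj
    have hneg := hL.neg s hz (by linarith)
    have h5 := allB_sound h1 j hj
    rw [Bool.and_eq_true, Nat.ble_eq, Nat.ble_eq] at h5
    refine (up_nmin ?_ ?_).trans (up_mono h5.1)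
    · rw [abs_of_nonpos hneg]
      have a1 := ngN_le (T.l0.getD j 0)
      have a2 := b.l0
      unfold up
      push_cast
      linarith
    · refine (abs_le_1324 hL hz).trans (le_of_eq ?_)
      unfold up; norm_num
  refine ⟨hB, fun j hj s hz s2 => ?_⟩
  have hmono : ∀ i k : ℕ, i ≤ k → k < 60 → nth c.PM i ≤ nth c.PM k := by
    intro i k hik hk
    induction k with
    | zero => rw [Nat.le_zero.1 hik]
    | succ k ih =>
      rcases Nat.lt_or_ge i (k + 1) with h' | h'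
      · have h6 := allB_sound h2 k (by omega)
        rw [Nat.ble_eq] at h6
        exact (ih (by omega) (by omega)).trans h6
      · rw [show i = k + 1 by omega]
  have hs0 : ((0 : ℕ) : ℝ) / 10 ≤ s := by
    have := hL.z1_pos
    simp only [Nat.cast_zero, zero_div]
    linarith
  obtain ⟨i, -, i2, i3, i4⟩ := piece_ex (j := 0) (m := j + 1) (by omega) hs0
    (by push_cast; exact s2)
  have h5 := allB_sound h1 i (by omega)
  rw [Bool.and_eq_true, Nat.ble_eq, Nat.ble_eq] at h5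
  exact (hB i (by omega) s i3 i4 hz).trans (up_mono (h5.2.trans (hmono i j (by omega) hj)))

theorem f_t2 (hα : 1 < α) {T : W.Tab} (hT : TabAll T α) {t6 : ℕ} (ht6 : T2 α 6 ≤ up t6)
    (h : ckT2 T c t6 = true) :
    ∀ j : ℕ, j ≤ 60 → T2 α ((j : ℝ) / 10) ≤ up (nth c.T2 j) := by
  unfold ckT2 at h
  rw [Bool.and_eq_true, Nat.ble_eq] at h
  obtain ⟨h1, h2⟩ := h
  have key : ∀ k : ℕ, k ≤ 60 → T2 α (((60 - k : ℕ) : ℝ) / 10) ≤ up (nth c.T2 (60 - k)) := by
    intro k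
    induction k with
    | zero =>
      intro _
      rw [Nat.sub_zero]
      have : ((60 : ℕ) : ℝ) / 10 = 6 := by norm_num
      rw [this]
      exact ht6.trans (up_mono h1)
    | succ k ih =>
      intro hk
      have ih' := ih (by omega)
      obtain ⟨j, hj⟩ : ∃ j, 60 - (k + 1) = j := ⟨_, rfl⟩
      have hj1 : 60 - k = j + 1 := by omega
      rw [hj1] at ih'
      rw [hj]
      have hj60 : j < 60 := by omega
      have h5 := allB_sound h2 j hj60
      rw [Nat.ble_eq] at h5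
      refine le_trans ?_ (up_mono h5)
      rw [up_add]
      have hstep : T2 α ((j : ℝ) / 10) ≤ T2 α (((j + 1 : ℕ) : ℝ) / 10) +
          up (abN (T.l0.getD j 0) (T.u0.getD j 0)) ^ 2 / 10 := by
        set A := up (abN (T.l0.getD j 0) (T.u0.getD j 0)) with hA
        have hle : (j : ℝ) / 10 ≤ ((j + 1 : ℕ) : ℝ) / 10 := by push_cast; linarith
        have e1 := T2_sub hα (a := (j : ℝ) / 10) (b := ((j + 1 : ℕ) : ℝ) / 10) (by positivity) hle
        have hint : IntervalIntegrable (fun s => Phi α s ^ 2) volume ((j : ℝ) / 10)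
            (((j + 1 : ℕ) : ℝ) / 10) := by
          refine ContinuousOn.intervalIntegrable_of_Icc hle ?_
          refine ((Phi_continuousOn hα).mono fun x hx => ?_).pow 2
          exact le_trans (by positivity) hx.1
        have e2 : ∫ s in (j : ℝ) / 10..(((j + 1 : ℕ) : ℝ) / 10), Phi α s ^ 2 ≤
            ∫ _s in (j : ℝ) / 10..(((j + 1 : ℕ) : ℝ) / 10), A ^ 2 := by
          refine intervalIntegral.integral_mono_on hle hint intervalIntegrable_const
            fun s hs => ?_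
          have hs2 : s ≤ ((j : ℝ) + 1) / 10 := by
            have := hs.2; push_cast at this; exact this
          have b := hT j hj60 s hs.1 hs2
          have b2 := abs_le_abN b.l0 b.u0
          rw [← sq_abs]
          exact pow_le_pow_left₀ (abs_nonneg _) b2 2
        rw [intervalIntegral.integral_const, smul_eq_mul] at e2
        have e3 : (((j + 1 : ℕ) : ℝ) / 10 - (j : ℝ) / 10) * A ^ 2 = A ^ 2 / 10 := by
          push_cast; ring
        linarith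
      refine hstep.trans (add_le_add ih' ?_)
      have h6 := div_lt_add_one (abN (T.l0.getD j 0) (T.u0.getD j 0) *
        abN (T.l0.getD j 0) (T.u0.getD j 0)) 10000000000 (by norm_num)
      unfold up
      push_cast at h6 ⊢
      rw [div_pow]
      linarith
  intro j hj
  have := key (60 - j) (by omega)
  rwa [show 60 - (60 - j) = j by omega] at this

theorem f_m (mf : ∀ s : ℝ, 6 ≤ s → |Phi α s| ≤ up c.Mf)
    (pm : ∀ j : ℕ, j < 60 → ∀ s : ℝ, z1 α ≤ s → s ≤ ((j : ℝ) + 1) / 10 →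
      |Phi α s| ≤ up (nth c.PM j)) (h : ckM c = true) :
    (∀ s : ℝ, z1 α ≤ s → |Phi α s| ≤ up c.M) ∧ up c.M ≤ exp (-((c.m64 : ℝ) / 64)) ∧ 0 < c.M ∧
      up c.M ≤ 0.1325 := by
  unfold ckM at h
  rw [Bool.and_eq_true, Bool.and_eq_true, Bool.and_eq_true, Bool.and_eq_true, Nat.ble_eq,
    Nat.ble_eq, Nat.ble_eq, Nat.blt_eq] at h
  obtain ⟨h1, h2, h3, h4, h5⟩ := h
  refine ⟨fun s hz => ?_, expOk_le h5, h4, ?_⟩
  · rcases le_total 6 s with h6 | h6
    · exact (mf s h6).trans (up_mono h2)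
    · exact (pm 59 (by norm_num) s hz (by norm_num; exact h6)).trans (up_mono h1)
  · refine (up_mono h3).trans (le_of_eq ?_)
    unfold up; norm_num

theorem f_g {t6 : ℕ} (ht6 : T2 α 6 ≤ up t6) (h : ckg c t6 = true) :
    T2 α 6 ≤ up c.g0 ∧ T2 α 6 + (6 * up c.M ^ 2 - 3 * T2 α 6) / 7.2 ≤ up c.g0 := by
  unfold ckg at h
  rw [Bool.and_eq_true, Nat.ble_eq, Nat.ble_eq] at h
  refine ⟨ht6.trans (up_mono h.1), ?_⟩
  have h2 : (42 : ℝ) * t6 * 1000000000 + 60 * (c.M : ℝ) ^ 2 ≤ 72 * c.g0 * 1000000000 := by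
    exact_mod_cast h.2
  have h3 : T2 α 6 + (6 * up c.M ^ 2 - 3 * T2 α 6) / 7.2 =
      (42 * T2 α 6 + 60 * up c.M ^ 2) / 72 := by ring
  rw [h3, div_le_iff₀ (by norm_num)]
  have h4 : 42 * T2 α 6 ≤ 42 * up t6 := by linarith
  refine (add_le_add h4 le_rfl).trans ?_
  unfold up
  have e : (42 : ℝ) * ((t6 : ℝ) / 1000000000) + 60 * ((c.M : ℝ) / 1000000000) ^ 2 =
      (42 * t6 * 1000000000 + 60 * (c.M : ℝ) ^ 2) / 1000000000000000000 := by ring
  rw [e]
  have e2 : (c.g0 : ℝ) / 1000000000 * 72 = (72 * c.g0 * 1000000000) / 1000000000000000000 := by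
    ring
  rw [e2]
  gcongr

theorem f_s (h4 : Lobe4 α) {T : W.Tab} (hT : TabAll T α) (h : cks T c = true) :
    c.js ≤ 60 ∧ ∀ t : ℝ, z1 α ≤ t → t ≤ (c.js : ℝ) / 10 → ∀ r : ℝ, 0 ≤ r → r ≤ 1 →
      0 ≤ Wt α r t := by
  unfold cks at h
  rw [Bool.and_eq_true, Nat.ble_eq] at h
  refine ⟨h.1, fun t hz ht r hr hr1 => ?_⟩
  have hL := h4.toLobe
  have hz0 := hL.z1_pos
  have hjs : (c.js : ℝ) ≤ 60 := by exact_mod_cast h.1
  have ht0 : 0 < t := by linarith
  have hneg := hL.neg t hz (by linarith)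
  have hp : ∀ x : ℝ, 0 ≤ x → x ≤ t → 0 ≤ Phi1 α x ∧ 0 ≤ Phi2 α x := by
    intro x hx hxt
    have hjs0 : 0 < c.js := by
      by_contra hc
      have : c.js = 0 := by omega
      rw [this] at ht
      norm_num at ht
      linarith
    obtain ⟨i, -, i2, i3, i4⟩ := piece_ex (s := x) (j := 0) (m := c.js) hjs0 (by simpa using hx)
      (by linarith)
    have b := hT i (by omega) x i3 i4
    have h5 := allB_sound h.2 i i2
    rw [Bool.and_eq_true, Nat.beq_eq, Nat.beq_eq] at h5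
    have a1 := ngN_zero h5.1
    have a2 := ngN_zero h5.2
    constructor
    · have := b.l1; linarith
    · have := b.l2; linarith
  refine W_nonneg hL.one_lt hr hr1 ht0 fun x hx => ?_
  obtain ⟨b1, b2⟩ := hp x ((mul_nonneg hr ht0.le).trans hx.1) hx.2
  obtain ⟨b3, -⟩ := hp t ht0.le le_rfl
  have := mul_nonneg b3 b1
  have := mul_nonneg (neg_nonneg.2 hneg) b2
  linarith

theorem f_5 (h4 : Lobe4 α) {T : W.Tab} (hT : TabAll T α)
    (sgn : ∀ t : ℝ, z1 α ≤ t → t ≤ (c.js : ℝ) / 10 → ∀ r : ℝ, 0 ≤ r → r ≤ 1 →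
      0 ≤ Wt α r t) (h : ck5 T c = true) :
    c.j5 ≤ 60 ∧ ∀ t : ℝ, z1 α ≤ t → t ≤ (c.j5 : ℝ) / 10 → ∀ r : ℝ, 1 / 2 ≤ r → r ≤ 1 →
      0 ≤ Wt α r t := by
  unfold ck5 at h
  rw [Bool.and_eq_true, Nat.ble_eq] at h
  refine ⟨h.1, fun t hz ht r hr hr1 => ?_⟩
  rcases le_total t ((c.js : ℝ) / 10) with hts | hts
  · exact sgn t hz hts r (by linarith) hr1
  have hL := h4.toLobe
  have hz0 := hL.z1_pos
  have hj5 : (c.j5 : ℝ) ≤ 60 := by exact_mod_cast h.1
  have ht0 : 0 < t := by linarith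
  have hneg := hL.neg t hz (by linarith)
  rcases Nat.lt_or_ge c.js c.j5 with hlt | hge
  swap
  · have : (c.j5 : ℝ) ≤ c.js := by exact_mod_cast hge
    exact sgn t hz (by linarith) r (by linarith) hr1
  obtain ⟨j, j1, j2, j3, j4⟩ := piece_ex hlt hts ht
  have bt := hT j (by omega) t j3 j4
  refine W_nonneg hL.one_lt (by linarith) hr1 ht0 fun x hx => ?_
  have hx2 : ((j / 2 : ℕ) : ℝ) / 10 ≤ x := by
    have h1 : ((j / 2 : ℕ) : ℝ) ≤ (j : ℝ) / 2 := by
      have := floor_div_le j 2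
      simpa using this
    have h2 : 1 / 2 * t ≤ r * t := mul_le_mul_of_nonneg_right hr ht0.le
    have := hx.1
    linarith
  obtain ⟨i, i1, i2, i3, i4⟩ := piece_ex (s := x) (j := j / 2) (m := j + 1) (by omega) hx2
    (by push_cast; linarith [hx.2])
  have bx := hT i (by omega) x i3 i4
  have h5 := allB_sound (allB_sound h.2 (j - c.js) (by omega)) (i - j / 2) (by omega)
  rw [show c.js + (j - c.js) = j by omega, show j / 2 + (i - j / 2) = i by omega] at h5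
  have h6 := nnZ_sound h5
  rw [Int.cast_add] at h6
  have m1 := lowMul_le bt.l1 bt.u1 bx.l1 bx.u1
  have m2 : ((lowMul (Int.ofNat (ngN (T.u0.getD j 0))) (Int.ofNat (ngN (T.l0.getD j 0)))
      (T.l2.getD i 0) (T.u2.getD i 0) : ℤ) : ℝ) ≤
      (1000000 * -Phi α t) * (1000000 * Phi2 α x) := by
    refine lowMul_le ?_ ?_ bx.l2 bx.u2
    · have hu := bt.u0
      cases hcase : T.u0.getD j 0 with
      | ofNat n =>
        simp only [ngN]
        simp
        linarith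
      | negSucc n =>
        rw [hcase] at hu
        simp only [ngN]
        rw [Int.negSucc_eq] at hu
        push_cast at hu
        simp
        linarith
    · have hl := bt.l0
      have h7 := ngN_le (T.l0.getD j 0)
      have h8 : ((Int.ofNat (ngN (T.l0.getD j 0)) : ℤ) : ℝ) = ((ngN (T.l0.getD j 0) : ℕ) : ℝ) :=
        Int.cast_natCast _
      rw [h8]
      linarith
  nlinarith

theorem dat_of (h4 : Lobe4 α) (z6 : z1 α ≤ 6) {T : W.Tab} (hT : TabAll T α) {t6 dd : ℕ}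
    (ht6 : T2 α 6 ≤ up t6) (hk0 : up c.k0 ≤ k0 α) (hk1 : up c.k1 ≤ k1 α)
    (hdd : (DD α)⁻¹ ≤ up dd) (h : datChk T c t6 dd = true) : Dat α c := by
  have hL := h4.toLobe
  have hα := hL.one_lt
  unfold datChk at h
  rw [Bool.and_eq_true, Bool.and_eq_true, Bool.and_eq_true, Bool.and_eq_true, Bool.and_eq_true,
    Bool.and_eq_true, Bool.and_eq_true, Bool.and_eq_true, Bool.and_eq_true, Bool.and_eq_true,
    Bool.and_eq_true, Bool.and_eq_true] at h
  obtain ⟨hE0, hE1, hE2, hXE, hBP, hM, hT2, hF, hMf, hg, hz, hs, h5⟩ := h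
  have far := f_far hα hdd hF
  obtain ⟨z1', z2', z3'⟩ := f_z h4 z6 hT hz
  have mf := f_mf h4 ht6 z6 far hMf
  obtain ⟨e0, e01⟩ := f_e0 hα hT mf hE0
  obtain ⟨e1, a1⟩ := f_e1 hT far hE1
  have e2 := f_e2 hT far hE2
  have xe := f_xe far a1 hXE
  obtain ⟨b0, pm⟩ := f_bp h4 hT hBP
  have t2 := f_t2 hα hT ht6 hT2
  obtain ⟨mm, m64, mpos, mle⟩ := f_m mf pm hM
  obtain ⟨g1, g2⟩ := f_g ht6 hg
  obtain ⟨js60, sgn⟩ := f_s h4 hT hs
  obtain ⟨j560, sg5⟩ := f_5 h4 hT sgn h5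
  exact ⟨hL, h4.conc4, z6, z1', z2', z3', e0, e1, e2, e01, xe, b0, a1, pm, mm, mf, t2, hk0, hk1,
    far, m64, mpos, mle, g1, g2, sgn, sg5, js60, j560⟩

end LpSec.LS
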