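import Mathlib
import Pool.Agent.Lib.MP_1dbab3_gt.LS.LeafW
import Pool.Agent.Lib.MP_1dbab3_gt.LS.Base
import Pool.Agent.Lib.MP_1dbab3_gt.W.LSat

/-!
# LS: from the trees of a certificate to the neighbourhoods of the flat point
-/

open Real MeasureTheory Set Filter Topology

namespace LpSec.LS

variable {α : ℝ} {c : Crt}

theorem max_ge {n : ℕ} (hn : 0 < n) {x : Fin n → ℝ} (h1 : ∑ i, x i = 1) {i : Fin n}
    (hi : ∀ k, x k ≤ x i) : 1 / (n : ℝ) ≤ x i := by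
  have h2 : ∑ k, x k ≤ ∑ _k : Fin n, x i := Finset.sum_le_sum fun k _ => hi k
  rw [h1, Finset.sum_const, Finset.card_univ, Fintype.card_fin, nsmul_eq_mul] at h2
  have hn' : (0 : ℝ) < n := by exact_mod_cast hn
  rw [div_le_iff₀ hn']
  linarith

/-- the general pattern -/
theorem lsat_of (d : Dat α c) {K : ℕ} (hK : 2 ≤ K) {Y ρ : ℝ} (hρ : ρ ≤ 1)
    (hY : 1 / ((K : ℝ) + 2) ≤ Y) (hY1 : Y ≤ 0.35)
    (H : ∀ (r : ℝ) (θ : Fin K → ℝ), Cfg r θ → ρ ≤ r → 1 / Y ≤ 1 + r + ∑ k, θ k →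
      1 + r + ∑ k, θ k ≤ (K : ℝ) + 2 → 0 < LI α r θ) : LSat α (K + 2) Y ρ := by
  intro x h0 h1 hxY hρx hne
  have hα := d.lobe.one_lt
  have hρ' : ∀ i j, ρ * x i ≤ x j := fun i j => by
    rcases eq_or_lt_of_le (h0 i) with h | h
    · rw [← h, mul_zero]; exact h0 j
    · exact (hρx i j h).le
  refine ls_maxR hα hK hρ hY hY1 (le_max_right _ _) (fun x h0 h1 hxY hρx hne => Or.inr ?_)
    h0 h1 hxY hρ' hne
  intro i j θ hi hj hij hc hN
  have hxi : 0 < x i := lt_of_le_of_lt (h0 j) hij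
  have hge := max_ge (by omega) h1 hi
  refine H _ θ hc ?_ ?_ ?_
  · rw [le_div_iff₀ hxi]; exact hρx i j
  · rw [hN]
    exact one_div_le_one_div_of_le hxi (hxY i)
  · rw [hN]
    push_cast at hge
    have hK2 : (0 : ℝ) < (K : ℝ) + 2 := by positivity
    rw [div_le_iff₀ hxi]
    rw [div_le_iff₀ hK2] at hge
    linarith

theorem lsat4 {T : List (ℕ × ℕ × ℕ)} (hT : TOk T) (d : Dat α c) {t : Tr}
    (h : chk (leaf4 T c) t 1882 2560 320 640 = true) : LSat α 4 (34 / 100) (1 / 2) := by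
  refine lsat_of d (K := 2) le_rfl (by norm_num) (by norm_num) (by norm_num) ?_
  intro r θ hc hr hN1 hN2
  have e1 : ((1882 : ℕ) : ℝ) / 640 ≤ 1 / (34 / 100) := by norm_num
  have e2 : ((2 : ℕ) : ℝ) + 2 ≤ ((2560 : ℕ) : ℝ) / 640 := by norm_num
  exact chk_sound (P := fun N r => ∀ θ : Fin 2 → ℝ, Cfg r θ → N = 1 + r + ∑ k, θ k →
      0 < LI α r θ) (fun N1 N2 r1 r2 hl N r a1 a2 a3 a4 θ hc hN => leaf4_sound hT d hc a3 a4
        (by rw [← hN]; exact a1) (by rw [← hN]; exact a2) hl)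
    t 1882 2560 320 640 h (1 + r + ∑ k, θ k) r (e1.trans hN1)
    (hN2.trans e2) (by norm_num; linarith) (by norm_num; exact hc.r1.le) θ hc rfl

theorem lsat5 {T : List (ℕ × ℕ × ℕ)} (hT : TOk T) (d : Dat α c) {t : Tr}
    (h : chk (leaf5 T c) t 2370 3200 288 640 = true) : LSat α 5 (27 / 100) (45 / 100) := by
  refine lsat_of d (K := 3) (by norm_num) (by norm_num) (by norm_num) (by norm_num) ?_
  intro r θ hc hr hN1 hN2
  push_cast at hN2
  exact chk_sound (P := fun N r => ∀ θ : Fin 3 → ℝ, Cfg r θ → N = 1 + r + ∑ k, θ k →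
      0 < LI α r θ) (fun N1 N2 r1 r2 hl N r a1 a2 a3 a4 θ hc hN => leaf5_sound hT d hc a3 a4
        (by rw [← hN]; exact a1) (by rw [← hN]; exact a2) hl)
    t 2370 3200 288 640 h (1 + r + ∑ k, θ k) r (by norm_num at hN1 ⊢; linarith)
    (by norm_num; linarith) (by norm_num; linarith) (by norm_num; exact hc.r1.le) θ hc rfl

/-- `N ≥ 11 / 2` -/
theorem ls_big (d : Dat α c) {t : Tr}
    (h : chk (fun _ _ => leafN c 3520) t 0 0 0 640 = true) {K : ℕ} {r : ℝ} {θ : Fin K → ℝ}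
    (hc : Cfg r θ) (hN : 11 / 2 ≤ 1 + r + ∑ k, θ k) : 0 < LI α r θ :=
  chk_sound (P := fun _ r => ∀ θ : Fin K → ℝ, Cfg r θ → 11 / 2 ≤ 1 + r + ∑ k, θ k →
      0 < LI α r θ) (fun N1 N2 r1 r2 hl N r _ _ a3 a4 θ hc hN => leafN_sound d hc a3 a4
        (by norm_num at hN ⊢; linarith) hl)
    t 0 0 0 640 h 0 r (by norm_num) (by norm_num) (by norm_num; exact hc.r0)
    (by norm_num; exact hc.r1.le) θ hc hN

theorem lsat6 {T : List (ℕ × ℕ × ℕ)} (hT : TOk T) (d : Dat α c) {t t' : Tr}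
    (h : chk (leaf6 T c) t 3200 3520 0 576 = true)
    (h' : chk (fun _ _ => leafN c 3520) t' 0 0 0 640 = true) : LSat α 6 (1 / 5) (-1) := by
  refine lsat_of d (K := 4) (by norm_num) (by norm_num) (by norm_num) (by norm_num) ?_
  intro r θ hc hr hN1 hN2
  norm_num at hN1
  rcases le_total (11 / 2) (1 + r + ∑ k, θ k) with hb | hb
  · exact ls_big d h' hc hb
  · have hlo := sum_lo hc (le_refl 4)
    push_cast at hlo
    exact chk_sound (P := fun N r => ∀ θ : Fin 4 → ℝ, Cfg r θ → N = 1 + r + ∑ k, θ k →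
        0 < LI α r θ) (fun N1 N2 r1 r2 hl N r a1 a2 a3 a4 θ hc hN => leaf6_sound hT d le_rfl hc
          a3 a4 (by rw [← hN]; exact a1) (by rw [← hN]; exact a2) hl)
      t 3200 3520 0 576 h (1 + r + ∑ k, θ k) r (by norm_num; linarith)
      (by norm_num; linarith) (by norm_num; exact hc.r0) (by norm_num; linarith) θ hc rfl

theorem lsat7 (d : Dat α c) {t' : Tr}
    (h' : chk (fun _ _ => leafN c 3520) t' 0 0 0 640 = true) {n : ℕ} (hn : 7 ≤ n) :
    LSat α n (18 / 100) (-1) := by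
  obtain ⟨K, rfl⟩ : ∃ K, n = K + 2 := ⟨n - 2, by omega⟩
  have hK : (5 : ℝ) ≤ K := by exact_mod_cast (by omega : 5 ≤ K)
  refine lsat_of d (by omega) (by norm_num) ?_ (by norm_num) ?_
  · rw [div_le_iff₀ (by linarith)]
    linarith
  · intro r θ hc hr hN1 hN2
    norm_num at hN1
    exact ls_big d h' hc (by linarith)

end LpSec.LS
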