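import Mathlib
import Pool.Agent.Lib.MP_1dbab3_gt.LS.DatS
import Pool.Agent.Lib.MP_1dbab3_gt.LS.Fin
import Pool.Agent.Lib.MP_1dbab3_gt.LS.CT

/-!
# LS: a cell
-/

open Real MeasureTheory Set Filter Topology

namespace LpSec.LS

/-- a certificate with its trees -/
structure Cel where
  c : Crt
  t6 : ℕ
  dd : ℕ
  b4 : Bool
  T4 : Tr
  T5 : Tr
  T6 : Tr
  TN : Tr

/-- numbers of a cell which do not come from the table -/
structure AuxOk (α : ℝ) (x : Cel) : Prop where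
  t6 : T2 α 6 ≤ up x.t6
  k0 : up x.c.k0 ≤ k0 α
  k1 : up x.c.k1 ≤ k1 α
  dd : (DD α)⁻¹ ≤ up x.dd

def celOk (T : W.Tab) (x : Cel) : Bool :=
  Bool.and (datChk T x.c x.t6 x.dd) (Bool.and (Bool.or (Bool.not x.b4)
    (chk (leaf4 ccT x.c) x.T4 1882 2560 320 640)) (Bool.and
    (chk (leaf5 ccT x.c) x.T5 2370 3200 288 640) (Bool.and
    (chk (leaf6 ccT x.c) x.T6 3200 3520 0 576)
    (chk (fun _ _ => leafN x.c 3520) x.TN 0 0 0 640))))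

/-- the conclusion in a cell -/
structure LSall (α : ℝ) (b4 : Bool) : Prop where
  n4 : b4 = true → LSat α 4 (34 / 100) (1 / 2)
  n5 : LSat α 5 (27 / 100) (45 / 100)
  n6 : LSat α 6 (1 / 5) (-1)
  n7 : ∀ n, 7 ≤ n → LSat α n (18 / 100) (-1)

theorem celOk_sound {α : ℝ} (h4 : Lobe4 α) (z6 : z1 α ≤ 6) {T : W.Tab} (hT : TabAll T α)
    {x : Cel} (hx : AuxOk α x) (h : celOk T x = true) : LSall α x.b4 := by
  unfold celOk at h
  rw [Bool.and_eq_true, Bool.and_eq_true, Bool.and_eq_true, Bool.and_eq_true, Bool.or_eq_true] at h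
  obtain ⟨hd, h4', h5, h6, hN⟩ := h
  have d := dat_of h4 z6 hT hx.t6 hx.k0 hx.k1 hx.dd hd
  refine ⟨fun hb => ?_, lsat5 ccT_ok d h5, lsat6 ccT_ok d h6 hN, fun n hn => lsat7 d hN hn⟩
  rw [hb] at h4'
  exact lsat4 ccT_ok d (h4'.resolve_left (by decide))

instance : Inhabited Cel :=
  ⟨⟨⟨0, 0, 0, 0, [], [], [], [], [], [], [], [], 0, 0, 0, 0, 0, 0, 0, 0, 0⟩, 0, 0, false, Tr.L, Tr.L,
    Tr.L, Tr.L⟩⟩

def auxEq (q : ℕ × ℕ × ℕ × ℕ) (x : Cel) : Bool :=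
  Bool.and (Nat.ble q.1 x.t6) (Bool.and (Nat.ble x.c.k0 q.2.1) (Bool.and (Nat.ble x.c.k1 q.2.2.1)
    (Nat.ble q.2.2.2 x.dd)))

/-- consecutive cells; `b4` is required from the index `m4` on -/
def blkOk (T : ℕ → W.Tab) (A : ℕ → ℕ × ℕ × ℕ × ℕ) (m4 : ℕ) : ℕ → List Cel → Bool
  | _, [] => true
  | i, x :: l => Bool.and (Bool.and (celOk (T i) x) (Bool.and (auxEq (A i) x)
      (Bool.or (Nat.blt i m4) x.b4))) (blkOk T A m4 (i + 1) l)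

theorem blkOk_sound {T : ℕ → W.Tab} {A : ℕ → ℕ × ℕ × ℕ × ℕ} {m4 : ℕ} :
    ∀ (l : List Cel) (i0 : ℕ), blkOk T A m4 i0 l = true → ∀ k, k < l.length →
      ∃ x : Cel, celOk (T (i0 + k)) x = true ∧ auxEq (A (i0 + k)) x = true ∧
        (m4 ≤ i0 + k → x.b4 = true)
  | [], _, _, k, hk => absurd hk (Nat.not_lt_zero k)
  | x :: l, i0, h, 0, _ => by
    unfold blkOk at h
    rw [Bool.and_eq_true, Bool.and_eq_true, Bool.and_eq_true, Bool.or_eq_true, Nat.blt_eq] at h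
    refine ⟨x, h.1.1, h.1.2.1, fun hm => ?_⟩
    rcases h.1.2.2 with h' | h'
    · omega
    · exact h'
  | x :: l, i0, h, k + 1, hk => by
    unfold blkOk at h
    rw [Bool.and_eq_true] at h
    have := blkOk_sound l (i0 + 1) h.2 k (Nat.lt_of_succ_lt_succ hk)
    rwa [show i0 + 1 + k = i0 + (k + 1) by ring] at this

theorem blkOk_append {T : ℕ → W.Tab} {A : ℕ → ℕ × ℕ × ℕ × ℕ} {m4 : ℕ} {l2 : List Cel} :
    ∀ {l1 : List Cel} {i j n : ℕ}, blkOk T A m4 i l1 = true → l1.length = n → i + n = j →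
      blkOk T A m4 j l2 = true → blkOk T A m4 i (l1 ++ l2) = true
  | [], i, j, n, _, h2, h3, h4 => by
    rw [List.length_nil] at h2
    subst h2
    rw [Nat.add_zero] at h3
    subst h3
    exact h4
  | x :: l, i, j, n, h1, h2, h3, h4 => by
    unfold blkOk at h1
    rw [Bool.and_eq_true] at h1
    rw [List.length_cons] at h2
    have := blkOk_append (i := i + 1) h1.2 rfl (by omega) h4
    rw [List.cons_append]
    unfold blkOk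
    rw [h1.1, this]
    rfl

theorem aux_of {α : ℝ} {q : ℕ × ℕ × ℕ × ℕ} (h : T2 α 6 ≤ (q.1 : ℝ) / 10 ^ 9 ∧
    (q.2.1 : ℝ) / 10 ^ 9 ≤ k0 α ∧ (q.2.2.1 : ℝ) / 10 ^ 9 ≤ k1 α ∧
    (DD α)⁻¹ ≤ (q.2.2.2 : ℝ) / 10 ^ 9) {x : Cel} (hx : auxEq q x = true) :
    AuxOk α x := by
  unfold auxEq at hx
  rw [Bool.and_eq_true, Bool.and_eq_true, Bool.and_eq_true, Nat.ble_eq, Nat.ble_eq, Nat.ble_eq,
    Nat.ble_eq] at hx
  obtain ⟨h1, h2, h3, h4⟩ := hx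
  obtain ⟨k1, k2, k3, k4⟩ := h
  rw [show (10 : ℝ) ^ 9 = 1000000000 by norm_num] at k1 k2 k3 k4
  exact ⟨k1.trans (up_mono h1), (up_mono h2).trans k2, (up_mono h3).trans k3,
    k4.trans (up_mono h4)⟩

theorem LSall.of {α : ℝ} {b b' : Bool} (h : LSall α b) (hb : b' = true → b = true) :
    LSall α b' := ⟨fun h' => h.n4 (hb h'), h.n5, h.n6, h.n7⟩

theorem blk_ls {α : ℝ} (h4 : Lobe4 α) (z6 : z1 α ≤ 6) {T : ℕ → W.Tab}
    {A : ℕ → ℕ × ℕ × ℕ × ℕ} {m4 i0 i : ℕ} {L : List Cel} (h : blkOk T A m4 i0 L = true)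
    (h1 : i0 ≤ i) (h2 : i < i0 + L.length) (hT : TabAll (T i) α)
    (hA : T2 α 6 ≤ ((A i).1 : ℝ) / 10 ^ 9 ∧ ((A i).2.1 : ℝ) / 10 ^ 9 ≤ k0 α ∧
      ((A i).2.2.1 : ℝ) / 10 ^ 9 ≤ k1 α ∧ (DD α)⁻¹ ≤ ((A i).2.2.2 : ℝ) / 10 ^ 9) :
    LSall α (decide (m4 ≤ i)) := by
  obtain ⟨k, rfl⟩ := Nat.exists_eq_add_of_le h1
  obtain ⟨x, x1, x2, x3⟩ := blkOk_sound L i0 h k (by omega)
  refine (celOk_sound h4 z6 hT (aux_of hA x2) x1).of fun hm => x3 ?_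
  exact of_decide_eq_true hm

end LpSec.LS
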